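import Pool.Agent.Lib.MP_6993b6_lc.Q1.BSt

/-!
Countable sets, recursion with choice and maximal families inside `M`.
-/

namespace Pool.Agent.Lib.MP_6993b6_lc.Q1

open Pool.Agent.Shared.InModel Function

universe u v w

variable {M : ZFSet.{0}} [Mdl M]
variable {α : Type u} {β : Type v} {γ : Type w} [Cd M α] [Cd M β] [Cd M γ]

@[fun_prop] theorem mf_le [Preorder β] [OM M β] {f g : α → β} (hf : MF M f) (hg : MF M g) :
    MF M fun x => f x ≤ g x := (OM.le (M := M) (α := β)).comp (hf.prodMk hg)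

@[fun_prop] theorem mf_lt [Preorder β] [OM M β] {f g : α → β} (hf : MF M f) (hg : MF M g) :
    MF M fun x => f x < g x :=
  ((mf_le hf hg).and (mf_le hg hf).not).of_iff fun _ => lt_iff_le_not_ge

@[fun_prop] theorem mf_max [LinearOrder β] [OM M β] {f g : α → β} (hf : MF M f) (hg : MF M g) :
    MF M fun x => max (f x) (g x) :=
  MF.congr (f := fun x => if f x ≤ g x then g x else f x) (by fun_prop) fun _ => max_def _ _

instance [Nonempty β] : Nonempty (FM M α β) := ⟨⟨fun _ => Classical.arbitrary β, MF.const _⟩⟩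

instance : Nonempty (PM M α) := ⟨PM.of (fun _ => False) (MF.const _)⟩

variable (M) in
/-- Countable in `M`. -/
def Cn (s : α → Prop) : Prop := ∃ e : FM M α ℕ, ∀ x y, s x → s y → e.fn x = e.fn y → x = y

@[fun_prop] theorem mf_cn {s : γ → α → Prop} (h : MF M fun p : γ × α => s p.1 p.2) :
    MF M fun x => Cn M (s x) := by
  unfold Cn
  fun_prop

theorem cn_nat : Cn M fun _ : ℕ => True := ⟨⟨fun x => x, MF.id'⟩, fun _ _ _ _ e => e⟩

theorem cn_eq (a : α) : Cn M fun x => x = a :=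
  ⟨⟨fun _ => 0, MF.const _⟩, fun _ _ h h' _ => h.trans h'.symm⟩

namespace Cn

variable {s : α → Prop} {t : β → Prop}

theorem mono {s' : α → Prop} (h : Cn M s') (hs : ∀ x, s x → s' x) : Cn M s :=
  h.imp fun _ h x y a b => h x y (hs x a) (hs y b)

theorem prod (h : Cn M s) (h' : Cn M t) : Cn M fun p : α × β => s p.1 ∧ t p.2 := by
  obtain ⟨e, h⟩ := h
  obtain ⟨e', h'⟩ := h'
  exact ⟨⟨fun p => Nat.pair (e.fn p.1) (e'.fn p.2), by fun_prop⟩, fun x y a b c =>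
    Prod.ext (h _ _ a.1 b.1 (Nat.pair_eq_pair.1 c).1) (h' _ _ a.2 b.2 (Nat.pair_eq_pair.1 c).2)⟩

variable [Chc M]

theorem union (h : Cn M t) (ht : MF M t) (S : β → α → Prop) (hS : MF M fun p : β × α => S p.1 p.2)
    (h' : ∀ i, t i → Cn M (S i)) (hs : ∀ x, s x → ∃ i, t i ∧ S i x) : Cn M s := by
  obtain ⟨e, h⟩ := h
  obtain ⟨E, hE, h1⟩ := choice' (M := M) (R := fun i (e : FM M α ℕ) =>
    ∀ x y, S i x → S i y → e.fn x = e.fn y → x = y) (by fun_prop)
  obtain ⟨f, hf, h2⟩ := choice' (M := M) (R := fun x (n : ℕ) =>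
    ∃ i, t i ∧ S i x ∧ n = Nat.pair (e.fn i) ((E i).fn x)) (by fun_prop)
  refine ⟨⟨f, hf⟩, fun x y a b c => ?_⟩
  obtain ⟨i, a1, a2, a3⟩ := h2 x (let ⟨i, a, b⟩ := hs x a; ⟨_, i, a, b, rfl⟩)
  obtain ⟨j, b1, b2, b3⟩ := h2 y (let ⟨i, a, b⟩ := hs y b; ⟨_, i, a, b, rfl⟩)
  obtain ⟨c1, c2⟩ := Nat.pair_eq_pair.1 (a3.symm.trans (Eq.trans c b3))
  obtain rfl := h i j a1 b1 c1
  exact h1 i (h' i a1) x y a2 b2 c2

theorem rel (h : Cn M t) (ht : MF M t) (hs : MF M s) (R : α → β → Prop)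
    (hR : MF M fun p : α × β => R p.1 p.2) (ex : ∀ a, s a → ∃ b, t b ∧ R a b)
    (inj : ∀ a a' b, s a → s a' → R a b → R a' b → a = a') : Cn M s :=
  h.union ht (fun b a => s a ∧ R a b) (by fun_prop)
    (fun b _ => ⟨⟨fun _ => 0, MF.const _⟩, fun x y a c _ => inj x y b a.1 c.1 a.2 c.2⟩)
    fun x hx => (ex x hx).imp fun _ h => ⟨h.1, hx, h.2⟩

theorem img (h : Cn M t) (ht : MF M t) (f : β → α) (hf : MF M f)
    (hs : ∀ a, s a → ∃ b, t b ∧ f b = a) : Cn M s :=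
  h.union ht (fun b a => a = f b) (by fun_prop) (fun _ _ => cn_eq _)
    fun x hx => (hs x hx).imp fun _ h => ⟨h.1, h.2.symm⟩

theorem seq (f : ℕ → α) (hf : MF M f) (hs : ∀ a, s a → ∃ n, f n = a) : Cn M s :=
  cn_nat.img (MF.const _) f hf fun a ha => (hs a ha).imp fun _ h => ⟨trivial, h⟩

theorem or {s' : α → Prop} (h : Cn M s) (h' : Cn M s') (hs : MF M s) (hs' : MF M s') :
    Cn M fun x => s x ∨ s' x :=
  cn_nat.union (MF.const _) (fun n x => (n = 0 ∧ s x) ∨ (n = 1 ∧ s' x)) (by fun_prop)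
    (fun n _ => by
      by_cases e : n = 0
      · exact h.mono fun x hx => by simpa [e] using hx
      · exact h'.mono fun x hx => (hx.resolve_left fun c => e c.1).2)
    fun x hx => hx.elim (fun a => ⟨0, trivial, Or.inl ⟨rfl, a⟩⟩)
      fun a => ⟨1, trivial, Or.inr ⟨rfl, a⟩⟩

theorem enum (h : Cn M s) (hs : MF M s) (ne : ∃ a, s a) :
    ∃ x : ℕ → α, MF M x ∧ (∀ n, s (x n)) ∧ ∀ a, s a → ∃ n, x n = a := by
  obtain ⟨e, h⟩ := h
  obtain ⟨x, hx, h1⟩ := choice (M := M) (R := fun (n : ℕ) y =>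
    s y ∧ ∀ a, s a → e.fn a = n → y = a) (by fun_prop) fun n => by
      by_cases c : ∃ a, s a ∧ e.fn a = n
      · obtain ⟨a, a1, a2⟩ := c
        exact ⟨a, a1, fun b b1 b2 => h a b a1 b1 (a2.trans b2.symm)⟩
      · exact ne.imp fun a ha => ⟨ha, fun b b1 b2 => (c ⟨b, b1, b2⟩).elim⟩
  exact ⟨x, hx, fun n => (h1 n).1, fun a ha => ⟨_, (h1 _).2 a ha rfl⟩⟩

theorem pig (h : ¬ Cn M s) (hs : MF M s) (h' : Cn M t) (ht : MF M t) (R : α → β → Prop)
    (hR : MF M fun p : α × β => R p.1 p.2) (ex : ∀ a, s a → ∃ b, t b ∧ R a b) :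
    ∃ b, t b ∧ ¬ Cn M fun a => s a ∧ R a b := by
  by_contra! c
  exact h (h'.union ht (fun b a => s a ∧ R a b) (by fun_prop) c
    fun x hx => (ex x hx).imp fun _ h => ⟨h.1, hx, h.2⟩)

theorem list (h : Cn M s) : Cn M fun l : List α => ∀ x ∈ l, s x := by
  obtain ⟨e, h⟩ := h
  obtain ⟨c, hc, h1⟩ := (Le.refl (M := M) (α := ℕ)).li
  have := e.mf
  refine ⟨⟨fun l => c (l.map e.fn), by fun_prop⟩, fun x y a b e' => ?_⟩
  replace e' := h1 e'
  induction x generalizing y with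
  | nil => simpa using e'.symm
  | cons z x ih =>
    obtain _ | ⟨z', y⟩ := y
    · simp at e'
    · simp only [List.map_cons, List.cons.injEq, List.forall_mem_cons] at a b e' ⊢
      exact ⟨h _ _ a.1 b.1 e'.1, ih y a.2 b.2 e'.2⟩

end Cn

variable [Chc M]

/-- Recursion with choice, local in the parameter. -/
theorem recM {ι : Type u} [Cd M ι] [LinearOrder ι] [WellFoundedLT ι] [OM M ι] [Nonempty β]
    (R : γ → ι → FM M ι β → β → Prop)
    (hR : MF M fun p : γ × ι × FM M ι β × β => R p.1 p.2.1 p.2.2.1 p.2.2.2) :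
    ∃ f : γ → ι → β, MF M (fun p : γ × ι => f p.1 p.2) ∧
      (∀ x a, ∃ g : FM M ι β, (∀ b, b < a → g.fn b = f x b) ∧
        ((∃ y, R x a g y) → R x a g (f x a))) ∧
      ∀ x x' a, (∀ b, b ≤ a → R x b = R x' b) → f x a = f x' a := by
  classical
  obtain ⟨ch, hch, h1⟩ := choice' (M := M) (R := fun (s : PM M β) y => y ∈ s) (by fun_prop)
  let cut : ι × FM M ι β → FM M ι β :=
    FM.lam (fun p b => if b < p.1 then p.2.fn b else Classical.arbitrary β) (by fun_prop)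
  have hcut : MF M cut := MF.fmlam MF.id'
  let T : γ × ι × FM M ι β → PM M β := PM.lam (fun p y => R p.1 p.2.1 p.2.2 y) (by fun_prop)
  have hT : MF M T := MF.pmlam MF.id'
  let f : γ → ι → β := fun x => wellFounded_lt.fix fun a g =>
    if h : ∃ G : FM M ι β, ∀ b (hb : b < a), G.fn b = g b hb then ch (T (x, a, cut (a, h.choose)))
    else Classical.arbitrary β
  have e1 : ∀ a (G G' : FM M ι β), (∀ b, b < a → G.fn b = G'.fn b) → cut (a, G) = cut (a, G') :=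
    fun a G G' h => FM.ext (funext fun b => if_ctx_congr Iff.rfl (h b) fun _ => rfl)
  have ef : ∀ x a (G : FM M ι β), (∀ b, b < a → G.fn b = f x b) →
      f x a = ch (T (x, a, cut (a, G))) := fun x a G h => by
    have h' : ∃ G : FM M ι β, ∀ b, b < a → G.fn b = f x b := ⟨G, h⟩
    rw [e1 a G h'.choose fun b hb => (h b hb).trans (h'.choose_spec b hb).symm]
    exact (wellFounded_lt.fix_eq _ a).trans (dif_pos h')
  have hf : MF M fun p : γ × ι => f p.1 p.2 :=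
    MF.wfrec (· < ·) wellFounded_lt (fun _ _ _ => lt_trans) (by fun_prop) f
      (fun x a g y => ch (T (x, a, cut (a, g))) = y) (by fun_prop)
      fun x a g h y => by rw [ef x a g h]
  let F := FM.lam f hf
  refine ⟨f, hf, fun x a => ⟨cut (a, F x), fun b hb => if_pos hb, fun h => ?_⟩, fun x x' a => ?_⟩
  · rw [ef x a (F x) fun _ _ => rfl]
    exact h1 (T (x, a, cut (a, F x))) h
  · induction a using WellFoundedLT.induction with
    | ind a ih =>
      intro h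
      rw [ef x a (F x) fun _ _ => rfl, ef x' a (F x) fun b hb =>
        ih b hb fun c hc => h c (hc.trans hb.le)]
      exact congrArg ch (PM.ext' fun y => by
        simp only [T, PM.mem_lam, h a le_rfl])

/-- Maximal families of pairwise related elements. -/
theorem maxPair (D : α → Prop) (R : α → α → Prop) (hD : MF M D)
    (hR : MF M fun p : α × α => R p.1 p.2) :
    ∃ S : PM M α, (∀ x, x ∈ S → D x) ∧ (∀ x y, x ∈ S → y ∈ S → x ≠ y → R x y) ∧
      ∀ a, D a → (∀ x, x ∈ S → R a x ∧ R x a) → a ∈ S := by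
  classical
  obtain ⟨S, -, h1, h2⟩ := tukey (M := M)
    (fun S : Set α => (∀ x, x ∈ S → D x) ∧ ∀ x y, x ∈ S → y ∈ S → x ≠ y → R x y)
    (by simp only [PM.mem_set]; fun_prop) (fun S h => ⟨fun x hx =>
      let ⟨_, a, b⟩ := h {x} (by simpa using hx); b.1 x (a (by simp)), fun x y hx hy =>
      let ⟨_, a, b⟩ := h {x, y} (by simp [Set.insert_subset_iff, hx, hy])
      b.2 x y (a (by simp)) (a (by simp))⟩)
    (PM.of (fun _ => False) (MF.const _)) ⟨fun _ h => h.elim, fun _ _ h => h.elim⟩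
  refine ⟨S, h1.1, h1.2, fun a a1 a2 => h2 a ⟨?_, ?_⟩⟩
  · rintro x (rfl | hx)
    exacts [a1, h1.1 x hx]
  · rintro x y (rfl | hx) (rfl | hy) e
    exacts [(e rfl).elim, (a2 y hy).1, (a2 x hx).2, h1.2 x y hx hy e]

/-- A countable chain has a lower bound in a `σ`-closed order. -/
theorem chain_lb {I : α → Prop} {le : α → α → Prop} (hle : MF M fun p : α × α => le p.1 p.2)
    (tr : ∀ a b c, le a b → le b c → le a c) (rf : ∀ a, le a a)
    (sig : ∀ x : ℕ → α, MF M x → (∀ n, I (x n)) → (∀ n, le (x (n + 1)) (x n)) →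
      ∃ q, I q ∧ ∀ n, le q (x n))
    {s : α → Prop} (hs : MF M s) (c : Cn M s) (ne : ∃ a, s a) (hI : ∀ a, s a → I a)
    (ch : ∀ a b, s a → s b → le a b ∨ le b a) : ∃ q, I q ∧ ∀ a, s a → le q a := by
  obtain ⟨x, hx, h1, h2⟩ := c.enum hs ne
  obtain ⟨y, hy, -, h3⟩ := exists_chain (M := M) (P := s)
    (R := fun n a b => le b a ∧ le b (x n)) hs (by fun_prop) (h1 0) fun n a ha =>
      (ch a (x n) ha (h1 n)).elim (fun e => ⟨a, ha, rf a, e⟩) fun e => ⟨_, h1 n, e, rf _⟩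
  obtain ⟨q, a, b⟩ := sig y hy (fun n => hI _ (h3 n).1) fun n => (h3 n).2.1
  refine ⟨q, a, fun z hz => ?_⟩
  obtain ⟨n, rfl⟩ := h2 z hz
  exact tr _ _ _ (b (n + 1)) (h3 n).2.2

section om

variable {W K : Type w} [Cd M W] [Cd M K] [LinearOrder W] [LinearOrder K] [OM M W] [OM M K]
  (O : Om M W K) {s : α → Prop}

include O

omit [OM M W] [OM M K] in
theorem Om.cn (a : W) : Cn M fun b => b < a :=
  let ⟨e, h1, h2⟩ := O.cW a; Cn.seq e h1 h2

omit [OM M W] [OM M K] in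
theorem Om.bdW (h : Cn M s) (hs : MF M s) (f : α → W) (hf : MF M f) : ∃ a, ∀ x, s x → f x < a := by
  by_cases ne : ∃ a, s a
  · obtain ⟨x, hx, -, h2⟩ := h.enum hs ne
    obtain ⟨a, ha⟩ := O.uW (fun n => f (x n)) (by fun_prop)
    exact ⟨a, fun y hy => by obtain ⟨n, rfl⟩ := h2 y hy; exact ha n⟩
  · exact O.neW.elim fun a => ⟨a, fun x hx => (ne ⟨x, hx⟩).elim⟩

omit [OM M W] [OM M K] in
theorem Om.ncW : ¬ Cn M fun _ : W => True := fun h =>
  let ⟨a, ha⟩ := O.bdW h (MF.const _) _ MF.id'; lt_irrefl a (ha a trivial)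

omit [OM M W] [OM M K] [Chc M] in
theorem Om.infW : Infinite W := by
  have := O.neW
  have : NoMaxOrder W := ⟨fun a => (O.uW (fun _ => a) (MF.const _)).imp fun _ h => h 0⟩
  infer_instance

omit [OM M W] [OM M K] in
theorem Om.bdK (h : Cn M s) (hs : MF M s) (f : α → K) (hf : MF M f) : ∃ a, ∀ x, s x → f x < a := by
  by_cases ne : ∃ a, s a
  · obtain ⟨x, hx, -, h2⟩ := h.enum hs ne
    have := O.infW
    obtain ⟨g, hg, h3⟩ := (Le.nat (M := M) (α := W)).surj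
    obtain ⟨a, ha⟩ := O.uK (fun i => f (x (g i))) (by fun_prop)
    refine ⟨a, fun y hy => ?_⟩
    obtain ⟨n, rfl⟩ := h2 y hy
    obtain ⟨i, rfl⟩ := h3 n
    exact ha i
  · exact O.neK.elim fun a => ⟨a, fun x hx => (ne ⟨x, hx⟩).elim⟩

omit [OM M W] [OM M K] [Chc M] in
theorem Om.gtK (a : K) : ∃ b, a < b :=
  (O.uK (fun _ => a) (MF.const _)).imp fun _ h => O.neW.elim h

omit [OM M W] in
theorem Om.pig (R : K → W → Prop) (hR : MF M fun p : K × W => R p.1 p.2)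
    (h : ∀ e, ∃ g, e < g ∧ ∃ i, R g i) : ∃ i, ∀ e, ∃ g, e < g ∧ R g i := by
  by_contra! c
  obtain ⟨f, hf, h1⟩ := choice (M := M) (R := fun (i : W) (e : K) => ∀ g, e < g → ¬ R g i)
    (by fun_prop) c
  obtain ⟨a, ha⟩ := O.uK f hf
  obtain ⟨g, h2, i, h3⟩ := h a
  exact h1 i g ((ha i).trans h2) h3

omit [OM M K] in
theorem Om.inj [WellFoundedLT W] (h : ¬ Cn M s) (hs : MF M s) :
    ∃ e : W → α, MF M e ∧ Injective e ∧ ∀ z, s (e z) := by
  have : Nonempty α := by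
    by_contra c
    exact h ⟨⟨fun _ => 0, MF.const _⟩, fun x => (c ⟨x⟩).elim⟩
  obtain ⟨f, hf, h1, -⟩ := recM (M := M) (fun (_ : ℕ) (z : W) (g : FM M W α) y =>
    s y ∧ ∀ z', z' < z → g.fn z' ≠ y) (by fun_prop)
  have h2 : ∀ z, s (f 0 z) ∧ ∀ z', z' < z → f 0 z' ≠ f 0 z := fun z => by
    obtain ⟨g, a, b⟩ := h1 0 z
    refine (b ?_).imp_right fun c z' hz => a z' hz ▸ c z' hz
    by_contra! c
    exact h ((O.cn z).img (by fun_prop) g.fn g.mf c)
  refine ⟨f 0, hf.comp (g := fun z => (0, z)) (by fun_prop), fun a b e => ?_, fun z => (h2 z).1⟩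
  by_contra c
  exact (lt_or_gt_of_ne c).elim (fun l => (h2 b).2 a l e) fun l => (h2 a).2 b l e.symm

end om

end Pool.Agent.Lib.MP_6993b6_lc.Q1
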