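import Pool.Agent.Lib.MP_6993b6_lc.Q1.B0

/-!
Consequences of the countable chain condition, and the narrow subsystem.
-/

namespace Pool.Agent.Lib.MP_6993b6_lc.Q1

open Pool.Agent.Shared.InModel Function

universe u v

variable {M : ZFSet.{0}} [Mdl M] [Chc M] {W K Q P : Type u} [Cd M W] [Cd M K] [Cd M Q] [Cd M P]
  [LinearOrder W] [LinearOrder K] [Preorder Q] [Preorder P] [OM M W] [OM M K] [OM M Q] [OM M P]
  {Z : Q → K → Prop} {F : P → K × W → K × W → Prop} {Nd : P → K × W → Prop}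
  {α : Type v} [Cd M α]

/-- Compatible conditions. -/
def Cp (p q : P) : Prop := ∃ r, r ≤ p ∧ r ≤ q

omit [Chc M] in
@[fun_prop] theorem mf_cp {f g : α → P} (hf : MF M f) (hg : MF M g) :
    MF M fun x => Cp (f x) (g x) := by
  unfold Cp
  fun_prop

omit [Cd M P] [OM M P] in
theorem Cp.symm {p q : P} (h : Cp p q) : Cp q p := h.imp fun _ => And.symm

namespace Tr

variable (T : Tr M F Nd)

include T

omit [OM M W] [OM M K] [LinearOrder W]

omit [OM M P] in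
theorem two {s : α → Prop} (h : ¬ Cn M s) (hs : MF M s) (R : α → P → Prop)
    (hR : MF M fun p : α × P => R p.1 p.2) (ex : ∀ i, s i → ∃ p, R i p) :
    ∃ i j p q, s i ∧ s j ∧ i ≠ j ∧ R i p ∧ R j q ∧ Cp p q := by
  by_contra! c
  have ne : Nonempty P := by
    by_contra n
    exact h ⟨⟨fun _ => 0, MF.const _⟩, fun x _ a => (n ⟨(ex x a).choose⟩).elim⟩
  obtain ⟨f, hf, h1⟩ := choice' (M := M) hR
  have k : ∀ i j, s i → s j → Cp (f i) (f j) → i = j := fun i j a b e =>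
    by_contra fun n => c i j _ _ a b n (h1 i (ex i a)) (h1 j (ex j b)) e
  obtain ⟨e, he, h2⟩ := T.ccc (fun p => ∃ i, s i ∧ f i = p) (by fun_prop) (by
    rintro _ _ r ⟨i, a, rfl⟩ ⟨j, b, rfl⟩ h1 h2
    rw [k i j a b ⟨r, h1, h2⟩]) ne
  exact h (cn_nat.rel (MF.const _) hs (fun i n => e n = f i) (by fun_prop)
    (fun i a => (h2 _ ⟨i, a, rfl⟩).imp fun _ h => ⟨trivial, h⟩)
    fun i j n a b e1 e2 => k i j a b ⟨_, le_rfl, (e1.symm.trans e2).le⟩)

omit [OM M P] in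
theorem cn {s : α → Prop} (hs : MF M s) (R : α → P → Prop)
    (hR : MF M fun p : α × P => R p.1 p.2) (ex : ∀ i, s i → ∃ p, R i p)
    (h : ∀ i j p q, s i → s j → R i p → R j q → Cp p q → i = j) : Cn M s :=
  by_contra fun c =>
    let ⟨i, j, p, q, a, b, n, d, e, f⟩ := T.two c hs R hR ex; n (h i j p q a b d e f)

theorem max (D : P → Prop) (hD : MF M D) : ∃ S : PM M P, Cn M (· ∈ S) ∧ (∀ p, p ∈ S → D p) ∧
    ∀ p, D p → ∃ q, q ∈ S ∧ Cp p q := by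
  obtain ⟨S, h1, h2, h3⟩ := maxPair (M := M) D (fun p q => ¬ Cp p q) hD (by fun_prop)
  refine ⟨S, T.cn (by fun_prop) Eq (by fun_prop) (fun i _ => ⟨i, rfl⟩) ?_, h1, fun p hp => ?_⟩
  · rintro i j _ _ a b rfl rfl e
    exact by_contra fun n => h2 i j a b n e
  · by_contra! c
    exact c p (h3 p hp fun x hx => ⟨c x hx, fun e => c x hx e.symm⟩) ⟨p, le_rfl, le_rfl⟩

/-- A `σ`-closed order meets a dense set of the product along a predense set of conditions. -/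
theorem cs {I : α → Prop} {le : α → α → Prop} (hI : MF M I)
    (hle : MF M fun p : α × α => le p.1 p.2) (tr : ∀ a b c, le a b → le b c → le a c)
    (rf : ∀ a, le a a) (sig : ∀ x : ℕ → α, MF M x → (∀ n, I (x n)) → (∀ n, le (x (n + 1)) (x n)) →
      ∃ q, I q ∧ ∀ n, le q (x n))
    (G : P → α → Prop) (hG : MF M fun p : P × α => G p.1 p.2)
    (mono : ∀ p p' q q', p' ≤ p → le q' q → G p q → G p' q')
    (den : ∀ p q, I q → ∃ p', p' ≤ p ∧ ∃ q', I q' ∧ le q' q ∧ G p' q') (q : α) (hq : I q) :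
    ∃ q', I q' ∧ le q' q ∧ ∀ p, ∃ p', p' ≤ p ∧ G p' q' := by
  obtain ⟨S, h1, h2, h3⟩ := maxPair (M := M) (fun x : P × α => I x.2 ∧ le x.2 q ∧ G x.1 x.2)
    (fun x y => ¬ Cp x.1 y.1 ∧ (le x.2 y.2 ∨ le y.2 x.2)) (by fun_prop) (by fun_prop)
  have c : Cn M (· ∈ S) := T.cn (by fun_prop) (fun x p => x.1 = p) (by fun_prop)
    (fun i _ => ⟨_, rfl⟩) (by
      rintro i j _ _ a b rfl rfl e
      exact by_contra fun n => (h2 i j a b n).1 e)
  obtain ⟨q', a1, a2⟩ := chain_lb hle tr rf sig (s := fun y => y = q ∨ ∃ x, x ∈ S ∧ x.2 = y)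
    (by fun_prop) ((cn_eq q).or (c.img (by fun_prop) Prod.snd (by fun_prop) fun _ h => h)
      (by fun_prop) (by fun_prop)) ⟨q, Or.inl rfl⟩
    (by rintro _ (rfl | ⟨x, hx, rfl⟩); exacts [hq, (h1 x hx).1]) (by
      rintro _ _ (rfl | ⟨x, hx, rfl⟩) (rfl | ⟨y, hy, rfl⟩)
      exacts [Or.inl (rf _), Or.inr (h1 y hy).2.1, Or.inl (h1 x hx).2.1,
        (em (x = y)).elim (fun e => Or.inl (e ▸ rf _)) fun e => (h2 x y hx hy e).2])
  refine ⟨q', a1, a2 q (Or.inl rfl), fun p => by_contra fun n => ?_⟩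
  obtain ⟨p', b1, q'', b2, b3, b4⟩ := den p q' a1
  have k : ∀ x, x ∈ S → ¬ Cp p' x.1 := fun x hx ⟨r, r1, r2⟩ => n ⟨r, r1.trans b1,
    mono _ _ _ _ r2 (a2 _ (Or.inr ⟨x, hx, rfl⟩)) (h1 x hx).2.2⟩
  exact k (p', q'') (h3 _ ⟨b2, tr _ _ _ b3 (a2 q (Or.inl rfl)), b4⟩ fun x hx =>
    have := tr _ _ _ b3 (a2 _ (Or.inr ⟨x, hx, rfl⟩))
    ⟨⟨k x hx, Or.inl this⟩, fun e => k x hx e.symm, Or.inr this⟩) ⟨p', le_rfl, le_rfl⟩

omit [OM M P] in
theorem cn_pred (e : K) (t : K × W) : Cn M fun i => ∃ r, F r (e, i) t := by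
  have := T.mF
  exact T.cn (by fun_prop) (fun i r => F r (e, i) t) (by fun_prop) (fun _ h => h)
    fun i j p q _ _ a b ⟨r, r1, r2⟩ => congrArg Prod.snd
      (T.uniq r _ _ t (T.monoF _ _ _ _ r1 a) (T.monoF _ _ _ _ r2 b) rfl)

omit [Chc M] [OM M P] in
theorem below {r : P} {s t : K × W} (h : F r s t) {e : K} (he : e < s.1) :
    ∃ r', r' ≤ r ∧ ∃ i, F r' (e, i) s ∧ F r' (e, i) t :=
  let ⟨r', a, i, b⟩ := T.pred r s e (T.nd r s t h) he
  ⟨r', a, i, b, T.trans _ _ _ _ b (T.monoF _ _ _ _ a h)⟩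

end Tr

variable (Z F) in
/-- The chosen nodes on the levels of `q.1` and of `q.2.1` are split at level `q.2.2`. -/
def Spl (x : K → W) (p : P) (q : Q × Q × K) : Prop :=
  ∀ g g' i r, Z q.1 g → Z q.2.1 g' → r ≤ p → F r (q.2.2, i) (g, x g) → ¬ F r (q.2.2, i) (g', x g')

/-- The order on triples. -/
def le3 (q' q : Q × Q × K) : Prop := q'.1 ≤ q.1 ∧ q'.2.1 ≤ q.2.1 ∧ q.2.2 ≤ q'.2.2

variable (O : Om M W K) (A : Ax M W Z) (T : Tr M F Nd) {x : K → W}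

include A T in
omit [Chc M] [OM M W] [OM M K] [OM M Q] [OM M P] in
theorem Spl.mono {p p' : P} {q q' : Q × Q × K} (hp : p' ≤ p) (hq : le3 q' q) (h : Spl Z F x p q) :
    Spl Z F x p' q' := by
  intro g g' i r a b c d e
  have a' := A.mono _ _ _ hq.1 a
  have b' := A.mono _ _ _ hq.2.1 b
  rcases hq.2.2.eq_or_lt with l | l
  · exact h g g' i r a' b' (c.trans hp) (l ▸ d) (l ▸ e)
  · obtain ⟨r', h1, j, h2, h3⟩ := T.below d l
    exact h g g' j r' a' b' (h1.trans (c.trans hp)) h3 (T.trans _ _ _ _ h2 (T.monoF _ _ _ _ h1 e))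

include O A T

omit [OM M W] in
theorem not_spl (hx : MF M x) (hN : ∀ g, ∃ r, Nd r (g, x g)) :
    ∃ p q, ∀ q', le3 q' q → ¬ Spl Z F x p q' := by
  classical
  by_contra! S2
  have := A.mZ
  have := T.mF
  have hS : MF M fun p : P × Q × Q × K => Spl Z F x p.1 p.2 := by unfold Spl; fun_prop
  obtain ⟨q₀⟩ := A.ne
  obtain ⟨e₀⟩ := O.neK
  obtain ⟨sp, hsp, h1⟩ := choice (M := M) (R := fun (q : Q) (y : Q × Q × K) =>
    y.1 ≤ q ∧ y.2.1 ≤ q ∧ ∀ p, Spl Z F x p y) (by fun_prop) fun q => by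
      obtain ⟨y, -, a, b⟩ := T.cs (I := fun _ => True) (le := le3) (MF.const _)
        (by unfold le3; fun_prop)
        (fun _ _ _ a b => ⟨a.1.trans b.1, a.2.1.trans b.2.1, b.2.2.trans a.2.2⟩)
        (fun _ => ⟨le_rfl, le_rfl, le_rfl⟩) (fun z hz _ h => by
          obtain ⟨a, ha⟩ := A.sig (fun n => (z n).1) (by fun_prop) fun n => (h n).1
          obtain ⟨b, hb⟩ := A.sig (fun n => (z n).2.1) (by fun_prop) fun n => (h n).2.1
          obtain ⟨c, hc⟩ := O.bdK cn_nat (MF.const _) (fun n => (z n).2.2) (by fun_prop)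
          exact ⟨(a, b, c), trivial, fun n => ⟨ha n, hb n, (hc n trivial).le⟩⟩)
        (Spl Z F x) hS (fun _ _ _ _ => Spl.mono A T)
        (fun p q _ => ⟨p, le_rfl, (S2 p q).imp fun _ h => ⟨trivial, h⟩⟩) (q, q, e₀) trivial
      refine ⟨y, a.1, a.2.1, fun p g g' i r c d _ e f => ?_⟩
      obtain ⟨r', h1, h2⟩ := b r
      exact h2 g g' i r' c d le_rfl (T.monoF _ _ _ _ h1 e) (T.monoF _ _ _ _ h1 f)
  let tr : List ℕ → Q := fun l => l.foldr (fun b a => if b = 0 then (sp a).1 else (sp a).2.1) q₀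
  have htr : MF M tr := (MF.of_listRec (fun _ : ℕ => tr)
    (fun _ b _ a => if b = 0 then (sp a).1 else (sp a).2.1) (by fun_prop) (by fun_prop)
    fun _ _ _ => rfl).comp (g := fun l => (0, l)) (by fun_prop)
  obtain ⟨e, he⟩ := O.bdK cn_nat.list (by fun_prop) (fun l => (sp (tr l)).2.2) (by fun_prop)
  obtain ⟨y, hy, yi⟩ := A.re
  let c : K → ℕ → Q := fun b n =>
    Nat.rec q₀ (fun n a => if n ∈ y b then (sp a).1 else (sp a).2.1) n
  have hc : MF M fun p : K × ℕ => c p.1 p.2 := MF.of_rec c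
    (fun b n a => if n ∈ y b then (sp a).1 else (sp a).2.1) (MF.const q₀) (by fun_prop)
    fun _ _ => rfl
  have cs : ∀ b n, c b (n + 1) = if n ∈ y b then (sp (c b n)).1 else (sp (c b n)).2.1 :=
    fun _ _ => rfl
  have ct : ∀ b n, ∃ l, tr l = c b n := fun b n => Nat.rec ⟨[], rfl⟩ (fun n ⟨l, hl⟩ =>
    ⟨(if n ∈ y b then 0 else 1) :: l, by
      rw [cs, ← hl]
      by_cases h : n ∈ y b <;> simp [tr, h]⟩) n
  obtain ⟨i, hi⟩ := O.pig (fun b i => ∃ r g, (∀ n, Z (c b n) g) ∧ F r (e, i) (g, x g))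
    (by fun_prop) fun e' => (O.gtK e').imp fun b hb => ⟨hb, by
      obtain ⟨q, hq⟩ := A.sig (c b) (hc.comp (g := fun n => (b, n)) (by fun_prop)) fun n => by
        rw [cs]
        split_ifs
        exacts [(h1 _).1, (h1 _).2.1]
      obtain ⟨g, g1, g2, -⟩ := A.l4 _ MF.id' q e
      obtain ⟨r, hr⟩ := hN g
      obtain ⟨r', -, i, h⟩ := T.pred r _ e hr g2
      exact ⟨i, r', g, fun n => A.mono _ _ _ (hq n) g1, h⟩⟩
  obtain ⟨b, b', r, r', -, -, n, ⟨g, a1, a2⟩, ⟨g', a3, a4⟩, s, s1, s2⟩ := T.two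
    (s := fun b => ∃ r g, (∀ n, Z (c b n) g) ∧ F r (e, i) (g, x g)) (fun h => by
      obtain ⟨a, ha⟩ := O.bdK h (by fun_prop) _ MF.id'
      obtain ⟨g, h1, h2⟩ := hi a
      exact lt_asymm h1 (ha g h2)) (by fun_prop)
    (fun b r => ∃ g, (∀ n, Z (c b n) g) ∧ F r (e, i) (g, x g)) (by fun_prop) fun _ h => h
  have k : ∀ n, c b n = c b' n ∧ ∀ m, m < n → (m ∈ y b ↔ m ∈ y b') := by
    intro n
    induction n with
    | zero => exact ⟨rfl, fun _ h => absurd h (Nat.not_lt_zero _)⟩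
    | succ n ih =>
      obtain ⟨l, hl⟩ := ct b n
      have h2 : Spl Z F x s ((sp (c b n)).1, (sp (c b n)).2.1, e) :=
        Spl.mono A T (q := sp (c b n)) le_rfl
          ⟨le_rfl, le_rfl, by rw [← hl]; exact (he l fun _ _ => trivial).le⟩ ((h1 _).2.2 s)
      have h3 := a1 (n + 1)
      have h4 := a3 (n + 1)
      rw [cs] at h3 h4
      rw [← ih.1] at h4
      have h5 : n ∈ y b ↔ n ∈ y b' := ⟨fun u => by_contra fun v => h2 g g' i s
        (by rwa [if_pos u] at h3) (by rwa [if_neg v] at h4) le_rfl (T.monoF _ _ _ _ s1 a2)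
        (T.monoF _ _ _ _ s2 a4), fun u => by_contra fun v => h2 g' g i s
        (by rwa [if_pos u] at h4) (by rwa [if_neg v] at h3) le_rfl (T.monoF _ _ _ _ s2 a4)
        (T.monoF _ _ _ _ s1 a2)⟩
      refine ⟨by simp only [cs, ih.1, h5], fun m hm => ?_⟩
      exact (Nat.lt_succ_iff_lt_or_eq.1 hm).elim (ih.2 m) fun e => e ▸ h5
  exact n (yi (PM.ext' fun m => (k (m + 1)).2 m (Nat.lt_succ_self m)))

/-- The narrow subsystem. -/
theorem narrow (hN : ∀ g, ∃ r i, Nd r (g, i)) : ∃ d : K → W, MF M d ∧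
    ∀ e e', e < e' → ∃ r i j, i < d e ∧ j < d e' ∧ F r (e, i) (e', j) := by
  have := A.mZ
  have := T.mF
  have := T.mN
  obtain ⟨x, hx, h0⟩ := choice (M := M) (R := fun (g : K) (i : W) => ∃ r, Nd r (g, i))
    (by fun_prop) fun g => let ⟨r, i, h⟩ := hN g; ⟨i, r, h⟩
  obtain ⟨p, q, h1⟩ := not_spl O A T hx h0
  obtain ⟨f, hf, h2⟩ := choice (M := M) (R := fun (e : K × K) (z : W) =>
    ∀ i, (∃ r, F r (e.1, i) (e.2, x e.2)) → i < z) (by fun_prop)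
    fun e => O.bdW (T.cn_pred _ _) (by fun_prop) _ MF.id'
  obtain ⟨h, hh, h3⟩ := choice (M := M) (R := fun (e : K × Q) (y : Q × W) =>
    y.1 ≤ e.2 ∧ ∀ g, Z y.1 g → f (e.1, g) < y.2) (by fun_prop) fun e =>
      let ⟨q', a, z, b⟩ := A.l3 (fun g => f (e.1, g)) (by fun_prop) e.2; ⟨(q', z), a, b⟩
  refine ⟨fun e => max (h (e, q.1)).2 (h (e, q.2.1)).2, by fun_prop, fun e e' l => ?_⟩
  have h4 : ¬ Spl Z F x p ((h (e, q.1)).1, (h (e', q.2.1)).1, e') := fun c =>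
    h1 (_, _, max e' q.2.2) ⟨(h3 (e, _)).1, (h3 (e', _)).1, le_max_right _ _⟩
      (Spl.mono A T le_rfl (by exact ⟨le_rfl, le_rfl, le_max_left _ _⟩) c)
  simp only [Spl, not_forall, not_not] at h4
  obtain ⟨g, g', j, r, a, b, -, c, d⟩ := h4
  obtain ⟨r', -, i, h5, h6⟩ := T.below c l
  exact ⟨r', i, j, lt_max_of_lt_left ((h2 (e, g) i ⟨_, h6⟩).trans ((h3 _).2 g a)),
    lt_max_of_lt_right ((h2 (e', g') j ⟨_, d⟩).trans ((h3 _).2 g' b)), h5⟩

end Pool.Agent.Lib.MP_6993b6_lc.Q1
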