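import Pool.Agent.Lib.MP_6993b6_lc.Q1.B1

/-!
The ideal of sets of vertices without uncountable antichains.
-/

namespace Pool.Agent.Lib.MP_6993b6_lc.Q1

open Pool.Agent.Shared.InModel Function

universe u v

variable {M : ZFSet.{0}} [Mdl M] [Chc M] {W K Q P : Type u} [Cd M W] [Cd M K] [Cd M Q] [Cd M P]
  [LinearOrder W] [LinearOrder K] [Preorder Q] [Preorder P] [OM M W] [OM M K] [OM M Q] [OM M P]
  {Z : Q → K → Prop} {F : P → K × W → K × W → Prop} {Nd : P → K × W → Prop}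
  {α : Type v} [Cd M α] {d : K → W}

variable (F) in
/-- No common extension makes the two nodes comparable. -/
def Pp (e e' : P × K × W) : Prop :=
  ∀ r, r ≤ e.1 → r ≤ e'.1 → ¬ (e.2 = e'.2 ∨ F r e.2 e'.2 ∨ F r e'.2 e.2)

variable (M F) in
/-- The ideal. -/
def JJ (C : P × K × W → Prop) : Prop :=
  ∀ S : PM M (P × K × W), (∀ e, e ∈ S → C e) → (∀ e e', e ∈ S → e' ∈ S → e ≠ e' → Pp F e e') →
    Cn M (· ∈ S)

variable (F d) in
/-- The vertex may lie below a node of the narrow system at level `g`. -/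
def YY (g : K) (e : P × K × W) : Prop := ∃ i r, i < d g ∧ r ≤ e.1 ∧ F r e.2 (g, i)

variable (Z F d) in
/-- `q` kills the vertex `e`. -/
def Kill (q : Q) (e : P × K × W) : Prop := ∀ g, Z q g → ¬ YY F d g e

variable (Z F d) in
/-- No extension of `q` kills the vertex `e`. -/
def UU (q : Q) (e : P × K × W) : Prop := ∀ q', q' ≤ q → ¬ Kill Z F d q' e

/-- Countable subsets of `g` are bounded. -/
def Cf (M : ZFSet.{0}) [Mdl M] [Cd M K] (g : K) : Prop :=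
  ∀ x : ℕ → K, MF M x → (∀ n, x n < g) → ∃ b, b < g ∧ ∀ n, x n ≤ b

omit [OM M K] in
theorem Cf.bd {g e : K} (h : Cf M g) (he : e < g) {s : K → Prop} (c : Cn M s) (hs : MF M s)
    (l : ∀ b, s b → b < g) : ∃ b, b < g ∧ ∀ a, s a → a ≤ b := by
  obtain ⟨x, hx, h1, h2⟩ := ((cn_eq e).or c (by fun_prop) hs).enum (by fun_prop) ⟨e, Or.inl rfl⟩
  obtain ⟨b, h3, h4⟩ := h x hx fun n => (h1 n).elim (fun e => e ▸ he) (l _)
  exact ⟨b, h3, fun a ha => by obtain ⟨n, rfl⟩ := h2 a (Or.inr ha); exact h4 n⟩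

variable (O : Om M W K) (A : Ax M W Z) (T : Tr M F Nd) (hd : MF M d)

section mf

omit [Chc M] [OM M K] [OM M Q]

include T hd in
theorem mf_YY : MF M fun p : K × P × K × W => YY F d p.1 p.2 := by
  have := T.mF
  unfold YY
  fun_prop

include A T hd in
theorem mf_Kill : MF M fun p : Q × P × K × W => Kill Z F d p.1 p.2 := by
  have := A.mZ
  have := mf_YY T hd
  unfold Kill
  fun_prop

end mf

include A T hd in
omit [Chc M] [OM M K] in
theorem mf_UU : MF M fun p : Q × P × K × W => UU Z F d p.1 p.2 := by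
  have := mf_Kill A T hd
  unfold UU
  fun_prop

include A in
omit [Chc M] [OM M K] [OM M Q] [OM M W] [OM M P] [Cd M P] in
theorem Kill.mono {q q' : Q} {e : P × K × W} (h : Kill Z F d q e) (hq : q' ≤ q) :
    Kill Z F d q' e := fun g hg => h g (A.mono _ _ _ hq hg)

include T in
omit [Chc M] [OM M K] [OM M W] [OM M P] [LinearOrder W] in
theorem Tr.tri {r : P} {s t u : K × W} (h : F r s u) (h' : F r t u) : s = t ∨ F r s t ∨ F r t s :=
  (lt_trichotomy s.1 t.1).elim (fun l => Or.inr (Or.inl (T.lin _ _ _ _ h h' l))) fun l =>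
    l.elim (fun l => Or.inl (T.uniq _ _ _ _ h h' l)) fun l => Or.inr (Or.inr (T.lin _ _ _ _ h' h l))

include O T in
omit [OM M K] in
theorem jj_Y (g : K) : JJ M F (YY F d g) := fun S h1 h2 => by
  have := T.mF
  refine (O.cn (d g)).union (by fun_prop) (fun i e => e ∈ S ∧ ∃ r, r ≤ e.1 ∧ F r e.2 (g, i))
    (by fun_prop) (fun i _ => T.cn (by fun_prop) (fun e r => r ≤ e.1 ∧ F r e.2 (g, i))
      (by fun_prop) (fun _ h => h.2) fun e e' p q a b c c' ⟨r, r1, r2⟩ => by_contra fun n =>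
        h2 e e' a.1 b.1 n r (r1.trans c.1) (r2.trans c'.1)
          (T.tri (T.monoF _ _ _ _ r1 c.2) (T.monoF _ _ _ _ r2 c'.2))) fun e he => ?_
  obtain ⟨i, r, a, b⟩ := h1 e he
  exact ⟨i, a, he, r, b⟩

include O A T hd in
omit [OM M K] [OM M Q] in
theorem jj_U [WellFoundedLT W] (q : Q) : JJ M F (UU Z F d q) := fun S h1 h2 => by
  have := mf_YY T hd
  by_contra c
  obtain ⟨e, he, h3, h4⟩ := O.inj c (by fun_prop)
  obtain ⟨f, hf, h5⟩ := choice (M := M) (R := fun (g : K) (b : W) => ∀ z, YY F d g (e z) → z < b)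
    (by fun_prop) fun g => O.bdW ((jj_Y O T g (PM.of (fun v => v ∈ S ∧ YY F d g v) (by fun_prop))
      (fun _ h => h.2) fun _ _ a b => h2 _ _ a.1 b.1).rel (by fun_prop) (by fun_prop)
      (fun z v => e z = v) (by fun_prop) (fun z hz => ⟨_, ⟨h4 z, hz⟩, rfl⟩)
      fun _ _ _ _ _ a b => h3 (a.trans b.symm)) (by fun_prop) _ MF.id'
  obtain ⟨q', a, z, b⟩ := A.l3 f hf q
  exact h1 _ (h4 z) q' a fun g hg hy => lt_asymm (h5 g z hy) (b g hg)

include O A T hd in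
omit [OM M K] in
theorem jj_Un [WellFoundedLT W] (a : PM M Q) (c : Cn M (· ∈ a)) :
    JJ M F fun e => ∃ q, q ∈ a ∧ UU Z F d q e := fun S h1 h2 => by
  have := mf_UU A T hd
  exact c.union (by fun_prop) (fun q e => e ∈ S ∧ UU Z F d q e) (by fun_prop)
    (fun q _ => jj_U O A T hd q (PM.of (fun v => v ∈ S ∧ UU Z F d q v) (by fun_prop))
      (fun _ h => h.2) fun _ _ a b => h2 _ _ a.1 b.1)
    fun e he => (h1 e he).imp fun _ h => ⟨h.1, he, h.2⟩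

include O A T in
omit [OM M W] [OM M Q] in
/-- A set in the ideal contains no cone over a high node. -/
theorem lemF [WellFoundedLT K] (NB : ∀ p B, ¬ IsBr M F Nd p B) {C : P × K × W → Prop}
    (hC : MF M C) (hJ : JJ M F C) :
    ∃ e, ∀ t p, e ≤ t.1 → Nd p t → ∃ p', p' ≤ p ∧ ¬ C (p', t) := by
  by_contra! c
  have := T.mF
  have := T.mN
  let S : P → K × W → Prop := fun r t => ∀ p', p' ≤ r → C (p', t)
  let L : K × W → Prop := fun s => ∃ v : P × K × W, S v.1 v.2 ∧ F v.1 s v.2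
  have hL : MF M L := by simp only [L, S]; fun_prop
  have cL : ∀ g, Cn M fun i => L (g, i) := fun g => by
    obtain ⟨t, p, -⟩ := c g
    have : Nonempty (P × K × W) := ⟨(p, t)⟩
    obtain ⟨v, hv, h1⟩ := choice' (M := M) (R := fun (i : W) (v : P × K × W) =>
      S v.1 v.2 ∧ F v.1 (g, i) v.2) (by simp only [S]; fun_prop)
    refine (hJ (PM.of (fun w => ∃ i, L (g, i) ∧ v i = w) (by fun_prop)) ?_ ?_).rel (by fun_prop)
      (by fun_prop) (fun i w => v i = w) (by fun_prop) (fun i hi => ⟨_, ⟨i, hi, rfl⟩, rfl⟩)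
      fun i j w a b e e' => congrArg Prod.snd (T.uniq w.1 (g, i) (g, j) w.2
        (by rw [← e]; exact (h1 i a).2) (by rw [← e']; exact (h1 j b).2) rfl)
    · rintro _ ⟨i, a, rfl⟩
      exact (h1 i a).1 _ le_rfl
    · rintro _ _ ⟨i, a, rfl⟩ ⟨j, b, rfl⟩ n r r1 r2 k
      have a1 := T.monoF _ _ _ _ r1 (h1 i a).2
      have a2 := T.monoF _ _ _ _ r2 (h1 j b).2
      refine n (congrArg (fun s => v s.2) (show (g, i) = (g, j) from ?_))
      rcases k with k | k | k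
      exacts [T.uniq _ _ _ _ a1 (k ▸ a2) rfl, T.uniq _ _ _ _ (T.trans _ _ _ _ a1 k) a2 rfl,
        T.uniq _ _ _ _ a1 (T.trans _ _ _ _ a2 k) rfl]
  let D : K × W → K × W → K → P → Prop := fun s s' e r =>
    ∃ i i', i ≠ i' ∧ F r (e, i) s ∧ F r (e, i') s'
  let H : K → K → Prop := fun g h => ∀ i i' (v : K × W) r e, L (g, i) → L (g, i') → h ≤ v.1 →
    F r v (g, i) → F r v (g, i') → ¬ D (g, i) (g, i') e r
  have hH : MF M fun p : K × K => H p.1 p.2 := by simp only [H, D]; fun_prop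
  have k1 : ∀ g e₀, e₀ < g → Cf M g → ∃ h, h < g ∧ H g h := fun g e₀ l cf => by
    let Λ : W × W → K → P → Prop := fun p e r => D (g, p.1) (g, p.2) e r ∧
      ∀ e' r', e' < e → r' ≤ r → ¬ D (g, p.1) (g, p.2) e' r'
    have hΛ : MF M fun p : (W × W) × K × P => Λ p.1 p.2.1 p.2.2 := by simp only [Λ, D]; fun_prop
    have dm : ∀ s s' e r r', r' ≤ r → D s s' e r → D s s' e r' := fun _ _ _ _ _ l ⟨i, j, a, b, c⟩ =>
      ⟨i, j, a, T.monoF _ _ _ _ l b, T.monoF _ _ _ _ l c⟩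
    obtain ⟨b, b1, b2⟩ := cf.bd l (s := fun e => ∃ p : W × W, (L (g, p.1) ∧ L (g, p.2)) ∧
      ∃ r, Λ p e r) (((cL g).prod (cL g)).union (by fun_prop) (fun p e => ∃ r, Λ p e r)
        (by fun_prop) (fun p _ => T.cn (by fun_prop) (Λ p) (by fun_prop) (fun _ h => h)
          fun e e' r r' _ _ a b ⟨s, s1, s2⟩ => le_antisymm
            (not_lt.1 fun l => a.2 e' s l s1 (dm _ _ _ _ _ s2 b.1))
            (not_lt.1 fun l => b.2 e s l s2 (dm _ _ _ _ _ s1 a.1))) fun _ h => h)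
      (by fun_prop) fun _ ⟨_, _, _, ⟨_, _, _, h, _⟩, _⟩ => T.ht _ _ _ h
    refine ⟨b, b1, fun i i' v r e a1 a2 a3 a4 a5 a6 => ?_⟩
    obtain ⟨e', ⟨r', r1, j, j', n, c1, c2⟩, h2⟩ := wellFounded_lt.has_min
      {e | ∃ r', r' ≤ r ∧ D (g, i) (g, i') e r'} ⟨e, r, le_rfl, a6⟩
    have c3 := T.monoF _ _ _ _ r1 a4
    have c4 := T.monoF _ _ _ _ r1 a5
    refine n (congrArg Prod.snd (show (e', j) = (e', j') from ?_))
    rcases ((b2 e' ⟨(i, i'), ⟨a1, a2⟩, r', ⟨j, j', n, c1, c2⟩, fun e'' r'' l1 l2 h =>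
      h2 e'' ⟨r'', l2.trans r1, h⟩ l1⟩).trans a3).eq_or_lt with l | l
    · exact (T.uniq _ _ _ _ c1 c3 l).trans (T.uniq _ _ _ _ c2 c4 l).symm
    · exact T.uniq _ _ _ _ (T.lin _ _ _ _ c1 c3 l) (T.lin _ _ _ _ c2 c4 l) rfl
  obtain ⟨h, k2⟩ : ∃ h, ∀ e, ∃ g, e < g ∧ h < g ∧ H g h := by
    by_contra! n
    obtain ⟨f, hf, h1⟩ := choice (M := M) (R := fun (h e : K) => ∀ g, e < g → h < g → ¬ H g h)
      (by fun_prop) n
    obtain ⟨q⟩ := A.ne
    obtain ⟨e⟩ := O.neK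
    obtain ⟨g, -, a, b, cf⟩ := A.l4 f hf q e
    obtain ⟨h, h2, h3⟩ := k1 g e a cf
    exact h1 h g (b h h2) h2 h3
  obtain ⟨j, k3⟩ := O.pig (fun g j => ∃ r i, H g h ∧ ∃ t, S r t ∧ F r (g, i) t ∧ F r (h, j) (g, i))
    (by simp only [S]; fun_prop) fun e => (k2 e).imp fun g ⟨a, b, b'⟩ => ⟨a, by
      obtain ⟨g', l⟩ := O.gtK g
      obtain ⟨t, p, t1, t2, t3⟩ := c g'
      obtain ⟨r, r1, i, r2⟩ := T.pred p t g t2 (l.trans_le t1)
      obtain ⟨r', r3, j, r4, -⟩ := T.below r2 b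
      exact ⟨j, r', i, b', t, fun p' l => t3 p' (l.trans (r3.trans r1)),
        T.monoF _ _ _ _ r3 r2, r4⟩⟩
  let G : K → P → W → Prop := fun g r i => H g h ∧ ∃ t, S r t ∧ F r (g, i) t ∧ F r (h, j) (g, i)
  have hG : MF M fun p : K × P × W => G p.1 p.2.1 p.2.2 := by simp only [G, S]; fun_prop
  have gm : ∀ g r r' i, r' ≤ r → G g r i → G g r' i := fun g r r' i l ⟨a, t, b, c, d⟩ =>
    ⟨a, t, fun p' l' => b p' (l'.trans l), T.monoF _ _ _ _ l c, T.monoF _ _ _ _ l d⟩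
  obtain ⟨p, k4⟩ : ∃ p, ∀ e r, r ≤ p → ∃ r' g i, r' ≤ r ∧ e < g ∧ G g r' i := by
    by_contra! n
    have := O.neK
    obtain ⟨f, hf, h1⟩ := choice' (M := M) (R := fun (p : P) (e : K) =>
      ∀ r' g i, r' ≤ p → e < g → ¬ G g r' i) (by fun_prop)
    obtain ⟨B, b1, b2, b3⟩ := T.max (fun p => ∃ e, ∀ r' g i, r' ≤ p → e < g → ¬ G g r' i)
      (by fun_prop)
    obtain ⟨e, he⟩ := O.bdK b1 (by fun_prop) f hf
    obtain ⟨g, l, r, i, a⟩ := k3 e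
    obtain ⟨e', p, l', a'⟩ := n r
    obtain ⟨q, q1, s, s1, s2⟩ := b3 p ⟨e', a'⟩
    exact h1 q (b2 q q1) s g i s2 ((he q q1).trans l) (gm _ _ _ _ (s1.trans l') a)
  have k5 : ∀ g g' r i i' w, g ≤ g' → G g r i → G g' r i' → F r w (g, i) →
      ∃ r', r' ≤ r ∧ F r' w (g', i') := by
    rintro g g' r i i' w l ⟨a1, t, a2, a3, a4⟩ ⟨-, t', b2, b3, b4⟩ hw
    obtain ⟨r₁, l₁, k, c1, c2, c3⟩ : ∃ r₁, r₁ ≤ r ∧ ∃ k, F r₁ (g, k) t' ∧ F r₁ (h, j) (g, k) ∧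
        ∀ r' s, r' ≤ r₁ → F r' s (g, k) → F r' s (g', i') := by
      rcases l.eq_or_lt with rfl | l
      · exact ⟨r, le_rfl, i', b3, b4, fun _ _ _ h => h⟩
      · obtain ⟨r₁, l₁, k, c1, c2⟩ := T.below b3 l
        exact ⟨r₁, l₁, k, c2, T.lin _ _ _ _ (T.monoF _ _ _ _ l₁ b4) c1 (T.ht _ _ _ a4 :),
          fun _ _ l h => T.trans _ _ _ _ h (T.monoF _ _ _ _ l c1)⟩
    obtain ⟨r₂, l₂, m, d1, -⟩ := T.below c1 (e := w.1) (T.ht _ _ _ hw :)
    have l₃ := l₂.trans l₁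
    refine ⟨r₂, l₃, c3 _ _ l₂ ?_⟩
    by_contra n
    exact a1 i k (h, j) r₂ w.1 ⟨(r, t), a2, a3⟩ ⟨(r₁, t'), fun p' l => b2 p' (l.trans l₁), c1⟩
      le_rfl (T.monoF _ _ _ _ l₃ a4) (T.monoF _ _ _ _ l₂ c2)
      ⟨w.2, m, fun e => n (by rwa [← e] at d1), T.monoF _ _ _ _ l₃ hw, d1⟩
  refine NB p (PM.of (fun x => ∃ g i, G g x.1 i ∧ F x.1 x.2 (g, i)) (by fun_prop))
    ⟨fun r r' t l ⟨g, i, a, b⟩ => ⟨g, i, gm _ _ _ _ l a, T.monoF _ _ _ _ l b⟩,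
    fun r t ⟨g, i, _, b⟩ => T.nd _ _ _ b, fun e r l => ?_, ?_⟩
  · obtain ⟨r', g, i, a, b, b'⟩ := k4 e r l
    obtain ⟨t, -, t1, -⟩ := b'.2
    obtain ⟨s, s1, m, s2, -⟩ := T.below t1 b
    exact ⟨s, s1.trans a, m, g, i, gm _ _ _ _ s1 b', s2⟩
  · rintro r s t ⟨g, i, a, b⟩ ⟨g', i', a', b'⟩ l
    obtain ⟨r', l', u, c1, c2⟩ : ∃ r', r' ≤ r ∧ ∃ u, F r' s u ∧ F r' t u := by
      rcases le_total g g' with e | e
      · obtain ⟨r', c1, c2⟩ := k5 _ _ _ _ _ _ e a a' b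
        exact ⟨r', c1, _, c2, T.monoF _ _ _ _ c1 b'⟩
      · obtain ⟨r', c1, c2⟩ := k5 _ _ _ _ _ _ e a' a b'
        exact ⟨r', c1, _, T.monoF _ _ _ _ c1 b, c2⟩
    exact l.eq_or_lt.imp (T.uniq _ _ _ _ c1 c2) fun l => ⟨r', l', T.lin _ _ _ _ c1 c2 l⟩

end Pool.Agent.Lib.MP_6993b6_lc.Q1
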