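import Pool.Agent.Lib.MP_6993b6_lc.Q1.B2

/-!
The step lemma: a countable set of vertices that can be killed and is unavoidable at a level.
-/

namespace Pool.Agent.Lib.MP_6993b6_lc.Q1

open Pool.Agent.Shared.InModel Function

universe u v

variable {M : ZFSet.{0}} [Mdl M] [Chc M] {W K Q P : Type u} [Cd M W] [Cd M K] [Cd M Q] [Cd M P]
  [LinearOrder W] [LinearOrder K] [Preorder Q] [Preorder P] [OM M W] [OM M K] [OM M Q] [OM M P]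
  {Z : Q → K → Prop} {F : P → K × W → K × W → Prop} {Nd : P → K × W → Prop}
  {α : Type v} [Cd M α] {d : K → W}

variable (O : Om M W K) (A : Ax M W Z) (T : Tr M F Nd) (hd : MF M d)

include O in
omit [OM M W] [OM M K] in
theorem Om.cover [Nonempty α] (S : W × W → α → Prop) (hS : MF M fun p : (W × W) × α => S p.1 p.2)
    (h : ∀ i, Cn M (S i)) : ∃ y : FM M W α, ∀ i v, S i v → ∃ k, y.fn k = v := by
  have := O.infW
  obtain ⟨π, hπ, h1⟩ := (((Le.refl (M := M) (α := W)).pr Le.refl).pr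
    (Le.nat (M := M) (α := W))).surj
  obtain ⟨x, hx, h2⟩ := choiceF (M := M) (R := fun (i : W × W) (x : FM M ℕ α) =>
    ∀ v, S i v → ∃ n, x.fn n = v) (by fun_prop) fun i => by
      obtain ⟨x, hx, -, h3⟩ := ((cn_eq (Classical.arbitrary α)).or (h i) (by fun_prop)
        (by fun_prop)).enum (by fun_prop) ⟨_, Or.inl rfl⟩
      exact ⟨x, hx, fun v hv => h3 v (Or.inr hv)⟩
  refine ⟨⟨fun k => (x (π k).1).fn (π k).2, by fun_prop⟩, fun i v hv => ?_⟩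
  obtain ⟨n, rfl⟩ := h2 i v hv
  obtain ⟨k, hk⟩ := h1 (i, n)
  exact ⟨k, by simp only [hk]⟩

include O in
/-- Closure points. -/
theorem Om.club [WellFoundedLT K] [Nonempty α] (Φ : PM M α → K) (Ψ : PM M α → W → α → Prop)
    (hΦ : MF M Φ) (hΨ : MF M fun p : PM M α × W × α => Ψ p.1 p.2.1 p.2.2)
    (hc : ∀ a i, Cn M (· ∈ a) → Cn M (Ψ a i)) (a₀ : PM M α) (c₀ : Cn M (· ∈ a₀)) :
    ∃ (H : K → α → Prop) (f : K → K), MF M (fun p : K × α => H p.1 p.2) ∧ MF M f ∧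
      ∀ g e, e < g → (∀ b, b < g → f b < g) → Cf M g → (∀ y, y ∈ a₀ → ∃ b, b < g ∧ H b y) ∧
        ∀ x : PM M α, Cn M (· ∈ x) → (∀ y, y ∈ x → ∃ b, b < g ∧ H b y) →
          ∃ a : PM M α, Cn M (· ∈ a) ∧ (∀ y, y ∈ x → y ∈ a) ∧ Φ a < g ∧
            ∀ i y, Ψ a i y → ∃ b, b < g ∧ H b y := by
  have := O.neW
  have := O.neK
  obtain ⟨en, hen, h1⟩ := choiceF (M := M) (R := fun (a : K) (e : FM M W K) =>
    ∀ b, b < a → ∃ i, e.fn i = b) (by fun_prop) fun a => let ⟨e, a, b⟩ := O.cK a; ⟨e, a, b⟩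
  let aa : K × FM M K (FM M W α) × W → PM M α := PM.lam (fun p y => ∃ j : W × W,
    (j.1 < p.2.2 ∧ j.2 < p.2.2) ∧ (en p.1).fn j.1 < p.1 ∧
      (p.2.1.fn ((en p.1).fn j.1)).fn j.2 = y) (by fun_prop)
  have haa : MF M aa := MF.pmlam MF.id'
  have ca : ∀ p, Cn M (· ∈ aa p) := fun p => ((O.cn p.2.2).prod (O.cn p.2.2)).img (by fun_prop)
    (fun j => (p.2.1.fn ((en p.1).fn j.1)).fn j.2) (by fun_prop) fun _ ⟨j, a, _, b⟩ => ⟨j, a, b⟩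
  obtain ⟨f, hf, h2, -⟩ := recM (M := M) (fun (_ : ℕ) (b : K) (G : FM M K (FM M W α))
    (y : FM M W α) => ∀ (i : W × W) v, v ∈ a₀ ∨ Ψ (aa (b, G, i.1)) i.2 v → ∃ k, y.fn k = v)
    (by fun_prop)
  let G := FM.lam f hf 0
  have h3 : ∀ b (i : W × W) v, v ∈ a₀ ∨ Ψ (aa (b, G, i.1)) i.2 v → ∃ k, (G.fn b).fn k = v := by
    intro b i v hv
    obtain ⟨G', a, h⟩ := h2 0 b
    refine h (O.cover _ (by fun_prop) fun i => c₀.or (hc _ _ (ca _)) (by fun_prop) (by fun_prop))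
      i v ?_
    rwa [show aa (b, G', i.1) = aa (b, G, i.1) from PM.ext' fun y => exists_congr fun j =>
      and_congr_right' (and_congr_right fun l => by rw [a _ l]; rfl)]
  obtain ⟨φ, hφ, h4⟩ := choice (M := M) (R := fun (b c : K) => b < c ∧ ∀ z, Φ (aa (b, G, z)) < c)
    (by fun_prop) fun b => by
      obtain ⟨c, h⟩ := O.uK (fun z => max b (Φ (aa (b, G, z)))) (by fun_prop)
      exact ⟨c, (max_lt_iff.1 (h (Classical.arbitrary W))).1, fun z => (max_lt_iff.1 (h z)).2⟩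
  refine ⟨fun b v => ∃ k, (G.fn b).fn k = v, φ, by fun_prop, hφ, fun g e l cl cf =>
    ⟨fun y hy => ⟨e, l, h3 e (Classical.arbitrary _) y (Or.inl hy)⟩, fun x cx hx => ?_⟩⟩
  obtain ⟨β, hβ, h5⟩ := choice' (M := M) (R := fun (y : α) (b : K) =>
    b < g ∧ ∃ k, (G.fn b).fn k = y) (by fun_prop)
  obtain ⟨b, b1, b2⟩ := cf.bd l (s := fun b => ∃ y, y ∈ x ∧ β y = b)
    (cx.img (by fun_prop) β hβ fun _ h => h) (by fun_prop)
    (by rintro _ ⟨y, hy, rfl⟩; exact (h5 y (hx y hy)).1)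
  obtain ⟨j, hj, h6⟩ := choice' (M := M) (R := fun (y : α) (j : W × W) =>
    (en (φ b)).fn j.1 < φ b ∧ (G.fn ((en (φ b)).fn j.1)).fn j.2 = y) (by fun_prop)
  obtain ⟨z, hz⟩ := O.bdW cx (by fun_prop) (fun y => max (j y).1 (j y).2) (by fun_prop)
  refine ⟨aa (φ b, G, z), ca _, fun y hy => ⟨j y, max_lt_iff.1 (hz y hy), h6 y ?_⟩,
    ((h4 _).2 z).trans (cl _ (cl _ b1)), fun i y h => ⟨_, cl _ b1, h3 _ (z, i) y (Or.inr h)⟩⟩
  have l' := (b2 _ ⟨y, hy, rfl⟩).trans_lt (h4 b).1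
  obtain ⟨i, hi⟩ := h1 _ _ l'
  obtain ⟨k, hk⟩ := (h5 y (hx y hy)).2
  exact ⟨(i, k), by rw [hi]; exact ⟨l', hk⟩⟩

theorem list_sub {β : Type*} {s : ℕ → β → Prop} (h : ∀ n x, s n x → s (n + 1) x) (l : List β) :
    ∃ n, ∀ x, x ∈ l → (∃ m, s m x) → s n x := by
  have k : ∀ m n, m ≤ n → ∀ x, s m x → s n x := fun m n l =>
    Nat.le_induction (fun _ h => h) (fun n _ ih x hx => h n x (ih x hx)) n l
  induction l with
  | nil => exact ⟨0, by simp⟩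
  | cons a l ih =>
    obtain ⟨n, hn⟩ := ih
    by_cases c : ∃ m, s m a
    · obtain ⟨m, hm⟩ := c
      refine ⟨max m n, fun x hx e => (List.mem_cons.1 hx).elim (fun e => ?_) fun hx => ?_⟩
      exacts [e ▸ k _ _ (le_max_left _ _) _ hm, k _ _ (le_max_right _ _) _ (hn x hx e)]
    · exact ⟨n, fun x hx e => (List.mem_cons.1 hx).elim (fun e' => (c (e' ▸ e)).elim)
        fun hx => hn x hx e⟩

include O A T hd in
theorem step [WellFoundedLT W] [WellFoundedLT K] (NB : ∀ p B, ¬ IsBr M F Nd p B) (a₀ : PM M Q)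
    (c₀ : Cn M (· ∈ a₀)) (q : Q) (e : K) : ∃ g, Z q g ∧ e < g ∧ ∃ E : PM M (P × K × W),
      Cn M (· ∈ E) ∧ (∀ i p, i < d g → Nd p (g, i) → ∃ r v, r ≤ p ∧ v ∈ E ∧ r ≤ v.1 ∧
        F r v.2 (g, i)) ∧ ∀ q, q ∈ a₀ → ∀ l : List (P × K × W), ∃ q', q' ≤ q ∧
          ∀ v, v ∈ l → v ∈ E → Kill Z F d q' v := by
  have := A.ne
  have := O.neK
  have := T.mF
  have := T.mN
  have := mf_Kill A T hd
  have := mf_UU A T hd
  obtain ⟨kl, hkl, h1⟩ := choice' (M := M) (R := fun (x : Q × P × K × W) (y : Q) =>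
    y ≤ x.1 ∧ Kill Z F d y x.2) (by fun_prop)
  obtain ⟨Φ, hΦ, h2⟩ := choice' (M := M) (R := fun (a : PM M Q) (e : K) => ∀ t p, e ≤ t.1 →
    Nd p t → ∃ p', p' ≤ p ∧ ¬ ∃ q, q ∈ a ∧ UU Z F d q (p', t)) (by fun_prop)
  obtain ⟨An, hAn, h3⟩ := choice (M := M) (R := fun (x : PM M Q × K × W) (S : PM M P) =>
    Cn M (· ∈ S) ∧ (∀ p, p ∈ S → ¬ ∃ q, q ∈ x.1 ∧ UU Z F d q (p, x.2)) ∧
      ∀ p, (¬ ∃ q, q ∈ x.1 ∧ UU Z F d q (p, x.2)) → ∃ q, q ∈ S ∧ Cp p q) (by fun_prop)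
    fun x => T.max _ (by fun_prop)
  obtain ⟨H, f, hH, hf, h4⟩ := O.club Φ (fun a i y => ∃ x : Q × P,
    (x.1 ∈ a ∧ x.2 ∈ An (a, Φ a, i)) ∧ kl (x.1, x.2, Φ a, i) = y) hΦ (by fun_prop)
    (fun a i c => (c.prod (h3 (a, Φ a, i)).1).img (by fun_prop) _ (by fun_prop) fun _ h => h) a₀ c₀
  obtain ⟨g, g1, g2, g3, g4⟩ := A.l4 f hf q e
  obtain ⟨h5, h6⟩ := h4 g e g2 g3 g4
  let I : PM M (P × K × W) × PM M Q → Prop := fun x => Cn M (· ∈ x.1) ∧ Cn M (· ∈ x.2) ∧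
    (∀ y, y ∈ x.2 → ∃ b, b < g ∧ H b y) ∧ ∀ q, q ∈ a₀ → ∀ l : List (P × K × W), ∃ q', q' ∈ x.2 ∧
      q' ≤ q ∧ ∀ v, v ∈ l → v ∈ x.1 → Kill Z F d q' v
  let le : PM M (P × K × W) × PM M Q → PM M (P × K × W) × PM M Q → Prop := fun x y =>
    (∀ v, v ∈ y.1 → v ∈ x.1) ∧ ∀ v, v ∈ y.2 → v ∈ x.2
  let G : W → P → PM M (P × K × W) × PM M Q → Prop := fun i p x =>
    (∀ r, r ≤ p → ¬ Nd r (g, i)) ∨ ∃ v, v ∈ x.1 ∧ p ≤ v.1 ∧ F p v.2 (g, i)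
  have hI : MF M I := by simp only [I]; fun_prop
  have hle : MF M fun p : (PM M (P × K × W) × PM M Q) × PM M (P × K × W) × PM M Q =>
      le p.1 p.2 := by simp only [le]; fun_prop
  have hG : MF M fun p : W × P × PM M (P × K × W) × PM M Q => G p.1 p.2.1 p.2.2 := by
    simp only [G]; fun_prop
  have sig : ∀ x : ℕ → PM M (P × K × W) × PM M Q, MF M x → (∀ n, I (x n)) → (∀ n, le (x (n + 1)) (x n)) →
      ∃ y, I y ∧ ∀ n, le y (x n) := by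
    intro x hx a b
    have m1 : MF M fun p : ℕ × P × K × W => p.2 ∈ (x p.1).1 := by fun_prop
    have m2 : MF M fun p : ℕ × Q => p.2 ∈ (x p.1).2 := by fun_prop
    refine ⟨(PM.of (fun v => ∃ n, v ∈ (x n).1) (by fun_prop), PM.of (fun v => ∃ n, v ∈ (x n).2)
      (by fun_prop)), ⟨cn_nat.union (MF.const _) _ m1 (fun n _ => (a n).1)
        fun _ h => h.imp fun _ h => ⟨trivial, h⟩, cn_nat.union (MF.const _) _ m2
        (fun n _ => (a n).2.1) fun _ h => h.imp fun _ h => ⟨trivial, h⟩,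
      fun y h => h.elim fun n => (a n).2.2.1 y, fun q hq l => ?_⟩,
      fun n => ⟨fun _ h => ⟨n, h⟩, fun _ h => ⟨n, h⟩⟩⟩
    obtain ⟨n, h⟩ := list_sub (s := fun n v => v ∈ (x n).1) (fun n => (b n).1) l
    obtain ⟨q', c, c', k⟩ := (a n).2.2.2 q hq l
    exact ⟨q', ⟨n, c⟩, c', fun v v1 v2 => k v v1 (h v v1 v2)⟩
  have mono : ∀ i p p' x x', p' ≤ p → le x' x → G i p x → G i p' x' := fun i p p' x x' a b h =>
    h.imp (fun h r l => h r (l.trans a)) fun ⟨v, c, c', k⟩ =>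
      ⟨v, b.1 v c, a.trans c', T.monoF _ _ _ _ a k⟩
  have den : ∀ i p x, I x → ∃ p', p' ≤ p ∧ ∃ x', I x' ∧ le x' x ∧ G i p' x' := by
    intro i p x ⟨i1, i2, i3, i4⟩
    by_cases c : ∀ r, r ≤ p → ¬ Nd r (g, i)
    · exact ⟨p, le_rfl, x, ⟨i1, i2, i3, i4⟩, ⟨fun _ h => h, fun _ h => h⟩, Or.inl c⟩
    push Not at c
    obtain ⟨r, r1, r2⟩ := c
    obtain ⟨a, a1, a2, a3, a4⟩ := h6 x.2 i2 i3
    obtain ⟨s, s1, k, s2⟩ := T.pred r _ _ r2 a3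
    obtain ⟨p', p1, p2⟩ := h2 a (lemF O A T NB (by fun_prop) (jj_Un O A T hd a a1)) (Φ a, k) s
      le_rfl (T.nd _ _ _ s2)
    obtain ⟨u, u1, w, w1, w2⟩ := (h3 (a, Φ a, k)).2.2 p' p2
    refine ⟨w, w1.trans (p1.trans (s1.trans r1)),
      (PM.of (fun v => v = (u, Φ a, k) ∨ v ∈ x.1) (by fun_prop),
        PM.of (fun v => v ∈ x.2 ∨ ∃ y, y ∈ x.2 ∧ kl (y, u, Φ a, k) = v) (by fun_prop)),
      ⟨(cn_eq _).or i1 (by fun_prop) (by fun_prop), i2.or (i2.img (by fun_prop) _ (by fun_prop)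
        fun _ h => h) (by fun_prop) (by fun_prop), ?_, fun q hq l => ?_⟩,
      ⟨fun _ => Or.inr, fun _ => Or.inl⟩,
      Or.inr ⟨_, Or.inl rfl, w2, T.monoF _ _ _ _ (w1.trans p1) s2⟩⟩
    · rintro _ (h | ⟨y, h, rfl⟩)
      exacts [i3 _ h, a4 k _ ⟨(y, u), ⟨a2 y h, u1⟩, rfl⟩]
    · obtain ⟨q', b1, b2, b3⟩ := i4 q hq l
      obtain ⟨b4, b5⟩ := h1 (q', u, Φ a, k) (by
        by_contra! n
        exact (h3 (a, Φ a, k)).2.1 u u1 ⟨q', a2 _ b1, n⟩)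
      refine ⟨_, Or.inr ⟨q', b1, rfl⟩, b4.trans b2, ?_⟩
      rintro v v1 (rfl | v2)
      exacts [b5, (b3 v v1 v2).mono A b4]
  have tr : ∀ a b c, le a b → le b c → le a c := fun _ _ _ h h' =>
    ⟨fun v k => h.1 v (h'.1 v k), fun v k => h.2 v (h'.2 v k)⟩
  obtain ⟨en, hen, h7⟩ := O.cW (d g)
  obtain ⟨x, hx, -, h8⟩ := exists_chain (M := M) (P := I)
    (R := fun n a b => le b a ∧ ∀ p, ∃ p', p' ≤ p ∧ G (en n) p' b) hI (by fun_prop)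
    (a := (PM.of (fun _ => False) (MF.const _), a₀)) ⟨⟨⟨fun _ => 0, MF.const _⟩,
      fun _ _ h => h.elim⟩, c₀, h5, fun q hq _ => ⟨q, hq, le_rfl, fun _ _ h => h.elim⟩⟩
    fun n a ha => T.cs hI hle tr (fun _ => ⟨fun _ h => h, fun _ h => h⟩) sig (G (en n))
      (by fun_prop) (mono _) (den _) a ha
  obtain ⟨y, ⟨y1, -, -, y2⟩, y3⟩ := sig x hx (fun n => (h8 n).1) fun n => (h8 n).2.1
  refine ⟨g, g1, g2, y.1, y1, fun i p l h => ?_, fun q hq l => (y2 q hq l).imp fun _ h => h.2⟩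
  obtain ⟨n, rfl⟩ := h7 i l
  obtain ⟨r, r1, r2⟩ := (h8 n).2.2 p
  obtain ⟨v, h⟩ := (mono _ _ _ _ _ le_rfl (y3 _) r2).resolve_left fun c =>
    c r le_rfl (T.monoN _ _ _ r1 h)
  exact ⟨r, v, r1, h⟩

end Pool.Agent.Lib.MP_6993b6_lc.Q1
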