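import Pool.Agent.Shared.InModel.Card

/-!
Statement of the combinatorial core: inside `M`, four axioms on `ω₁`, `ω₂` imply that a ccc
poset forces a cofinal branch through every `ω₂`-tree.
-/

namespace Pool.Agent.Lib.MP_6993b6_lc.Q1

open Pool.Agent.Shared.InModel

universe u

variable (M : ZFSet.{0}) [Mdl M]

/-- The order of `α` lies in `M`. -/
class OM (α : Type u) [Cd M α] [Preorder α] : Prop where
  le : MF M fun p : α × α => p.1 ≤ p.2

/-- Vertices: a level and a number. -/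
abbrev Vx (W : Type u) : Type u := W × ℕ

/-- Indices: `(l, n, x) ∈ k` says that `x` is the `n`-th vertex listed by `k` at `l`. -/
abbrev Idx (W : Type u) : Type u := W × ℕ × Vx W

variable {M}

/-- The list given by `k` at `l` has levels below `l` that converge to `l`. -/
def LF {W : Type u} [LT W] (k : Set (Idx W)) (l : W) : Prop :=
  (∀ n x x', (l, n, x) ∈ k → (l, n, x') ∈ k → x = x') ∧ (∀ n x, (l, n, x) ∈ k → x.1 < l) ∧
    ∀ b, b < l → ∃ m, ∀ n x, m ≤ n → (l, n, x) ∈ k → b < x.1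

variable (M) (W K : Type u) [Cd M W] [Cd M K] [LinearOrder W] [LinearOrder K]

/-- `W` is `ω₁` and `K` is `ω₂` in `M`. -/
structure Om : Prop where
  neW : Nonempty W
  neK : Nonempty K
  cW : ∀ a : W, ∃ e : ℕ → W, MF M e ∧ ∀ b, b < a → ∃ n, e n = b
  uW : ∀ x : ℕ → W, MF M x → ∃ a, ∀ n, x n < a
  cK : ∀ a : K, ∃ e : W → K, MF M e ∧ ∀ b, b < a → ∃ i, e i = b
  uK : ∀ x : W → K, MF M x → ∃ a, ∀ i, x i < a

/-- The colouring principle. -/
def CP : Prop :=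
  ∀ bad : W → PM M (Idx W) → Vx W → Prop,
    MF M (fun p : W × PM M (Idx W) × Vx W => bad p.1 p.2.1 p.2.2) →
    (∀ a k k' x, (∀ i : Idx W, i.1 ≤ a → (i ∈ k ↔ i ∈ k')) → bad a k x → bad a k' x) →
    (∀ a k l, l ≤ a → LF k.set l → ∃ m, ∀ n x, m ≤ n → (l, n, x) ∈ k → ¬ bad a k x) →
    ∃ (k : PM M (Idx W)) (c : Vx W → ℕ), MF M c ∧
      ∀ x x' : Vx W, x.1 < x'.1 → c x = c x' → ¬ bad x'.1 k x

variable {K}

/-- The four axioms. -/
structure Ax {Q : Type u} [Cd M Q] [Preorder Q] (Z : Q → K → Prop) : Prop where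
  mZ : MF M fun p : Q × K => Z p.1 p.2
  ne : Nonempty Q
  sig : ∀ x : ℕ → Q, MF M x → (∀ n, x (n + 1) ≤ x n) → ∃ q, ∀ n, q ≤ x n
  mono : ∀ q q' g, q' ≤ q → Z q' g → Z q g
  l3 : ∀ f : K → W, MF M f → ∀ q, ∃ q', q' ≤ q ∧ ∃ z, ∀ g, Z q' g → f g < z
  l4 : ∀ f : K → K, MF M f → ∀ q e, ∃ g, Z q g ∧ e < g ∧ (∀ b, b < g → f b < g) ∧
    ∀ x : ℕ → K, MF M x → (∀ n, x n < g) → ∃ b, b < g ∧ ∀ n, x n ≤ b
  re : ∃ y : K → PM M ℕ, MF M y ∧ Function.Injective y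
  cp : CP M W

variable {W} {P : Type u} [Cd M P] [Preorder P]

/-- `P` is ccc in `M`; `F r s t` says that `r` forces `s < t` in the tree and `Nd r t` that `r`
forces `t` to be a node.  The height of a node is its first component. -/
structure Tr (F : P → K × W → K × W → Prop) (Nd : P → K × W → Prop) : Prop where
  mF : MF M fun p : P × (K × W) × K × W => F p.1 p.2.1 p.2.2
  mN : MF M fun p : P × K × W => Nd p.1 p.2
  ccc : ∀ A : P → Prop, MF M A → (∀ p q r, A p → A q → r ≤ p → r ≤ q → p = q) → Nonempty P →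
    ∃ e : ℕ → P, MF M e ∧ ∀ p, A p → ∃ n, e n = p
  monoF : ∀ r r' s t, r' ≤ r → F r s t → F r' s t
  monoN : ∀ r r' t, r' ≤ r → Nd r t → Nd r' t
  ht : ∀ r s t, F r s t → s.1 < t.1
  nd : ∀ r s t, F r s t → Nd r s
  trans : ∀ r s t u, F r s t → F r t u → F r s u
  uniq : ∀ r s t u, F r s u → F r t u → s.1 = t.1 → s = t
  lin : ∀ r s t u, F r s u → F r t u → s.1 < t.1 → F r s t
  pred : ∀ r t e, Nd r t → e < t.1 → ∃ r', r' ≤ r ∧ ∃ i, F r' (e, i) t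

/-- `B` names a cofinal branch below `p`. -/
structure IsBr (F : P → K × W → K × W → Prop) (Nd : P → K × W → Prop) (p : P)
    (B : PM M (P × K × W)) : Prop where
  mono : ∀ r r' t, r' ≤ r → (r, t) ∈ B → (r', t) ∈ B
  nd : ∀ r t, (r, t) ∈ B → Nd r t
  lev : ∀ e r, r ≤ p → ∃ r', r' ≤ r ∧ ∃ i, (r', e, i) ∈ B
  chain : ∀ r s t, (r, s) ∈ B → (r, t) ∈ B → s.1 ≤ t.1 → s = t ∨ ∃ r', r' ≤ r ∧ F r' s t

/-- The core theorem. -/
def CoreStmt : Prop :=
  ∀ (M : ZFSet.{0}) [Mdl M] [Chc M] (W K Q P : Type u) [Cd M W] [Cd M K] [Cd M Q] [Cd M P]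
    [LinearOrder W] [LinearOrder K] [WellFoundedLT W] [WellFoundedLT K] [Preorder Q] [Preorder P]
    [OM M W] [OM M K] [OM M Q] [OM M P] (Z : Q → K → Prop)
    (F : P → K × W → K × W → Prop) (Nd : P → K × W → Prop),
    Om M W K → Ax M W Z → Tr M F Nd →
    ∀ p₀, (∀ e r, r ≤ p₀ → ∃ r', r' ≤ r ∧ ∃ i, Nd r' (e, i)) →
      ∃ p, p ≤ p₀ ∧ ∃ B, IsBr M F Nd p B

end Pool.Agent.Lib.MP_6993b6_lc.Q1
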