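import Pool.Agent.Lib.MP_6993b6_lc.Q1.GF5
import Pool.Agent.Shared.Forcing

/-!
From the axioms to the tree property in all ccc extensions.
-/

namespace Pool.Agent.Lib.MP_6993b6_lc.Q1

open ZFSet Pool.Agent.Shared.InModel Pool.Agent.Lib.MP_053343_lc

variable {M N : ZFSet.{0}} [Mdl M] [Mdl N] {P : Type 1} [Cd M P] [Preorder P] [OM M P]
  {G : P → Prop}

section ord

variable {Y : Type 1} [Cd M Y] [LinearOrder Y] {w : ZFSet.{0}} (h : OrdC M Y w)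

include h

theorem OrdC.up [Cd N Y] [Same M N Y] : OrdC N Y w :=
  ⟨by simpa only [Same.e (M := M) (N := N)] using h.mem,
    by simpa only [Same.e (M := M) (N := N)] using h.lt⟩

theorem OrdC.inM : w ∈ M :=
  let ⟨_, ha, e⟩ := Cd.ex (M := M) (α := Y)
  (ZFSet.ext fun z => (e z).trans (h.mem z).symm) ▸ ha

theorem OrdC.cd_mem (a : Y) : cd M a ∈ w := (h.mem _).2 ⟨a, rfl⟩

theorem OrdC.mem_iff {a b : Y} : cd M a ∈ cd M b ↔ a < b :=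
  (h.lt b _).trans ⟨fun ⟨_, i, j⟩ => cd_inj.1 j ▸ i, fun i => ⟨a, i, rfl⟩⟩

theorem OrdC.isOrd : w.IsOrdinal := by
  refine ⟨fun x hx y hy => ?_, fun {y z x} a b d => ?_⟩
  · obtain ⟨a, rfl⟩ := (h.mem x).1 hx
    obtain ⟨b, -, rfl⟩ := (h.lt a y).1 hy
    exact h.cd_mem b
  · obtain ⟨x, rfl⟩ := (h.mem x).1 d
    obtain ⟨z, i, rfl⟩ := (h.lt x z).1 b
    obtain ⟨y, j, rfl⟩ := (h.lt z y).1 a
    exact h.mem_iff.2 (j.trans i)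

omit [Mdl N] in
theorem Ex.succ [Chc M] (X : Ex M N G) (hc : CccT M P) {I : Type*} [Cd M I] {a : ZFSet}
    (ha : ∀ z, z ∈ a ↔ ∃ i : I, cd M i = z)
    (hn : ∀ f ∈ N, ∃ R : P → I × Y → Prop, MF M (fun x : P × I × Y => R x.1 x.2) ∧
      (∀ p q x, q ≤ p → R p x → R q x) ∧ ∀ x, cd M x ∈ f ↔ ∃ p, G p ∧ R p x)
    (lo : ∀ y : Y, ∃ e : I → Y, MF M e ∧ ∀ b, b < y → ∃ i, e i = b)
    (hi : ∀ S : I → Y → Prop, MF M (fun x : I × Y => S x.1 x.2) → (∀ i, Cn M (S i)) →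
      ∃ y, ∀ i b, S i b → b < y) : Succ N a w := by
  refine ⟨X.sub _ h.inM, h.isOrd, fun ⟨f, hf, f1, f2⟩ => ?_, fun z hz => ?_⟩
  · obtain ⟨R, r1, r2, r3⟩ := hn f hf
    obtain ⟨S, s1, s2, s3⟩ := X.cov hc (fun p i y => R p (i, y)) r1 (fun p q _ _ => r2 p q _)
      fun p i y y' hp b d => cd_inj.1 (f1 _ ((ha _).2 ⟨i, rfl⟩) _ (h.cd_mem y) _ (h.cd_mem y')
        ((r3 (i, y)).2 ⟨p, hp, b⟩) ((r3 (i, y')).2 ⟨p, hp, d⟩))
    obtain ⟨y, hy⟩ := hi S s1 s2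
    obtain ⟨x, hx, b⟩ := f2 _ (h.cd_mem y)
    obtain ⟨i, rfl⟩ := (ha x).1 hx
    obtain ⟨p, hp, d⟩ := (r3 (i, y)).1 b
    exact (hy i y (s3 p i y hp d)).false
  · obtain ⟨y, rfl⟩ := (h.mem z).1 hz
    obtain ⟨e, ⟨f, hf, e1⟩, e2⟩ := lo y
    refine ⟨f, X.sub f hf, fun x _ b _ b' _ i j => ?_, fun b hb => ?_⟩
    · obtain ⟨u, u1, u2⟩ := (e1 _).1 i
      obtain ⟨v, v1, v2⟩ := (e1 _).1 j
      obtain ⟨rfl, rfl⟩ := pair_inj.1 u2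
      obtain ⟨v3, rfl⟩ := pair_inj.1 v2
      rw [← u1, ← v1, cd_inj.1 v3]
    · obtain ⟨b, k, rfl⟩ := (h.lt y b).1 hb
      obtain ⟨i, rfl⟩ := e2 b k
      exact ⟨_, (ha _).2 ⟨i, rfl⟩, (e1 _).2 ⟨(i, e i), rfl, rfl⟩⟩

end ord

variable [Chc M] [Chc N] {W K Q : Type 1} [Cd M W] [Cd M K] [Cd M Q] [LinearOrder W]
  [LinearOrder K] [WellFoundedLT W] [WellFoundedLT K] [Preorder Q] [OM M W] [OM M K] [OM M Q]
  {Z : Q → K → Prop} {w1 w2 : ZFSet.{0}}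

theorem Ex.tp (X : Ex M N G) (core : CoreStmt.{1}) (hc : CccT M P) (o1 : OrdC M W w1)
    (o2 : OrdC M K w2) (O : Om M W K) (A : Ax M W Z) : TP N := by
  let _ := cdUp X.sub W
  let _ := cdUp X.sub K
  let _ := cdUp X.sub P
  have : Same M N W := ⟨fun _ => rfl⟩
  have : Same M N K := ⟨fun _ => rfl⟩
  have : Same M N P := ⟨fun _ => rfl⟩
  refine ⟨w1, w2, Ex.succ o1 X hc (I := ℕ) (fun _ => mem_omega.trans (exists_congr fun _ => eq_comm))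
      (fun f hf => X.nam (mfz hf)) O.cW fun S a b => ?_,
    Ex.succ o2 X hc o1.mem (fun f hf => X.nam (mfz hf)) O.cK fun S a b => ?_,
    fun T hT r hr h hh t => ?_⟩
  · obtain ⟨y, hy⟩ := O.bdW (s := fun y => ∃ n, S n y)
      (cn_nat.union (MF.const _) S a (fun n _ => b n) fun _ h => h.imp fun _ h => ⟨trivial, h⟩)
      (by fun_prop) _ MF.id'
    exact ⟨y, fun i b h => hy b ⟨i, h⟩⟩
  · obtain ⟨g, hg, h⟩ := choice (M := M) (R := fun i y => ∀ b, S i b → b < y) (by fun_prop)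
      fun i => O.bdK (b i) (by fun_prop) _ MF.id'
    exact (O.uK g hg).imp fun y hy i b a => (h i b a).trans (hy i)
  have o1 : OrdC N W w1 := o1.up
  have o2 : OrdC N K w2 := o2.up
  obtain ⟨ht, mh, h1⟩ := choice (M := N) (R := fun (x : ZE ⟨T, hT⟩) (a : K) => cd N (x, a) ∈ h)
    (mfz hh) fun x => by
      obtain ⟨a, ha, b, -⟩ := t.ht _ x.2
      obtain ⟨a, rfl⟩ := (o2.mem a).1 ha
      exact ⟨a, b⟩
  have h2 : ∀ x a, pair x.1 (cd N a) ∈ h → ht x = a := fun x a b => by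
    obtain ⟨_, -, -, d⟩ := t.ht _ x.2
    exact cd_inj.1 ((d _ (o2.cd_mem _) (h1 x)).trans (d _ (o2.cd_mem _) b).symm)
  obtain ⟨Fm, mF, h3⟩ := choice (M := N) (R := fun (a : K) (f : PM N (W × ZE ⟨T, hT⟩)) =>
      (∀ i x y, (i, x) ∈ f → (i, y) ∈ f → x = y) ∧ ∀ x, ht x = a → ∃ i, (i, x) ∈ f)
    (by fun_prop) fun a => by
      obtain ⟨f, hf, f1, f2⟩ := t.small _ (o2.cd_mem a)
      have k : ∀ x, ht x = a → x.1 ∈ T.sep fun t => pair t (cd N a) ∈ h := fun x e =>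
        mem_sep.2 ⟨x.2, e ▸ h1 x⟩
      refine ⟨PM.of (fun x => cd N x ∈ f ∧ ht x.2 = a) ((mfz hf).and (by fun_prop)),
        fun i x y b d => Subtype.ext (f1 _ (o1.cd_mem i) _ (k x b.2) _ (k y d.2) b.1 d.1),
        fun x e => ?_⟩
      obtain ⟨i, hi, b⟩ := f2 _ (k x e)
      obtain ⟨i, rfl⟩ := (o1.mem i).1 hi
      exact ⟨i, b, e⟩
  obtain ⟨lb, ml, h4⟩ := choice (M := N) (R := fun x i => (i, x) ∈ Fm (ht x)) (by fun_prop)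
    fun x => (h3 _).2 x rfl
  have inj : ∀ x y, (ht x, lb x) = (ht y, lb y) → x = y := fun x y e => by
    obtain ⟨e1, e2⟩ := Prod.mk.inj e
    exact (h3 _).1 _ x y (h4 x) (by rw [e1, e2]; exact h4 y)
  have mr : MF N fun x : ZE ⟨T, hT⟩ × ZE ⟨T, hT⟩ => pair x.1.1 x.2.1 ∈ r := mfz hr
  have lt : ∀ x y, pair x.1 y.1 ∈ r → ht x < ht y := fun x y e =>
    o2.mem_iff.1 (t.mono _ x.2 _ y.2 e _ (o2.cd_mem _) _ (o2.cd_mem _) (h1 x) (h1 y))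
  have li : ∀ x y z z' : ZE ⟨T, hT⟩, pair x.1 z.1 ∈ r → pair y.1 z'.1 ∈ r →
      (ht z, lb z) = (ht z', lb z') →
      x = y ∨ pair x.1 y.1 ∈ r ∨ pair y.1 x.1 ∈ r := fun x y z z' a b e => by
    obtain rfl := inj _ _ e
    exact (t.lin _ x.2 _ y.2 _ z.2 a b).imp_left Subtype.ext
  obtain ⟨B, mB, b1, b2, b3⟩ := X.branch core hc O A
    (L := fun s u => ∃ x y, (ht x, lb x) = s ∧ (ht y, lb y) = u ∧ pair x.1 y.1 ∈ r)
    (T := fun s => ∃ x, (ht x, lb x) = s)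
    (.ex (.ex (.and (by fun_prop) (.and (by fun_prop)
      (mr.comp (MF.prodMk MF.id'.fst.snd MF.id'.snd)))))) (by fun_prop)
    (by rintro _ _ ⟨x, y, rfl, rfl, e⟩; exact lt x y e) (fun _ _ ⟨x, _, a, _⟩ => ⟨x, a⟩)
    (by
      rintro _ _ _ ⟨x, y, rfl, rfl, a⟩ ⟨y', z, e, rfl, b⟩
      obtain rfl := inj _ _ e
      exact ⟨x, z, rfl, rfl, t.trans _ x.2 _ y'.2 _ z.2 a b⟩)
    (by
      rintro _ _ _ ⟨x, z, rfl, rfl, a⟩ ⟨y, z', rfl, e, b⟩ d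
      rcases li x y z z' a b e.symm with rfl | f | f
      exacts [rfl, ((lt _ _ f).ne d).elim, ((lt _ _ f).ne' d).elim])
    (by
      rintro _ _ _ ⟨x, z, rfl, rfl, a⟩ ⟨y, z', rfl, e, b⟩ d
      rcases li x y z z' a b e.symm with rfl | f | f
      exacts [d.false.elim, ⟨x, y, rfl, rfl, f⟩, (lt_asymm d (lt _ _ f)).elim])
    (by
      rintro _ e ⟨y, rfl⟩ a
      obtain ⟨s, hs, b, d⟩ := t.onto _ y.2 _ (o2.cd_mem _) (h1 y) _ (o2.mem_iff.2 a)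
      exact ⟨_, ⟨s, hs⟩, y, Prod.ext (h2 ⟨s, hs⟩ e d) rfl, rfl, b⟩)
    fun e => by
      obtain ⟨s, hs, d⟩ := t.lev _ (o2.cd_mem e)
      exact ⟨_, ⟨s, hs⟩, Prod.ext (h2 ⟨s, hs⟩ e d) rfl⟩
  obtain ⟨b, hb, e⟩ := (show MF N fun x => B (ht x, lb x) by fun_prop).df
  have k : ∀ x y, B (ht x, lb x) → B (ht y, lb y) → ht x ≤ ht y → x.1 = y.1 ∨ pair x.1 y.1 ∈ r :=
    fun x y i j l => (b3 _ _ i j l).imp (fun f => congrArg _ (inj _ _ f))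
      fun ⟨x', y', f, g, m⟩ => inj _ _ f ▸ inj _ _ g ▸ m
  refine ⟨b, hb, fun z hz => let ⟨x, _, a⟩ := (e z).1 hz; a ▸ x.2, fun s hs u hu => ?_,
    fun a ha => ?_⟩
  · obtain ⟨x, i, rfl⟩ := (e s).1 hs
    obtain ⟨y, j, rfl⟩ := (e u).1 hu
    rcases le_total (ht x) (ht y) with l | l
    · exact (k x y i j l).imp_right .inl
    · exact (k y x j i l).imp .symm .inr
  · obtain ⟨a, rfl⟩ := (o2.mem a).1 ha
    obtain ⟨i, hi⟩ := b2 a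
    obtain ⟨x, f⟩ := b1 _ hi
    exact ⟨_, (e _).2 ⟨x, (congrArg B f).mpr hi, rfl⟩, (Prod.mk.inj f).1 ▸ h1 x⟩

/-- The bridge. -/
theorem bridge (core : CoreStmt.{1}) {M : ZFSet.{0}} (h : AxModel M) :
    TP M ∧ ∀ P ∈ M, ∀ r ∈ M, Pre P r → Ccc M P r →
      (∀ p ∈ P, ∃ G, Gen M P r G ∧ p ∈ G) ∧
      ∀ G, Gen M P r G → ∃ N, IsExtG M G N ∧ ModelZF N ∧ Shared.Forcing.Choice N ∧ TP N := by
  obtain ⟨_, _, hM, W, K, Q, _, _, _, _, _, _, _, _, _, _, _, Z, w1, w2, o1, o2, O, A⟩ := h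
  refine ⟨?_, fun P hP r hr h1 h2 => ⟨fun p => exists_gen hM h1, fun G hG => ?_⟩⟩
  · let _ : Cd M PUnit.{2} := ⟨fun _ => ∅, fun _ _ _ => rfl, _, sing_mem empty_mem, by
      simp [eq_comm]⟩
    have : OM M PUnit.{2} := ⟨(MF.const True).of_iff fun _ => by simp⟩
    refine Ex.tp (G := fun _ : PUnit.{2} => True) ⟨fun _ => id, fun _ _ _ _ => trivial,
      fun p _ _ _ => ⟨p, trivial, le_rfl, le_rfl⟩, fun D _ => ⟨.unit, trivial,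
        (em (D .unit)).imp_right fun h _ _ => h⟩, ⟨_, sing_mem empty_mem, fun _ =>
        iff_true_intro (mem_singleton.2 rfl)⟩, fun α _ s hs => ⟨fun _ x => cd M x ∈ s,
        (mfz hs).comp MF.id'.snd, by simp⟩⟩ core
      (fun _ _ _ _ => ⟨fun _ => .unit, MF.const _, fun _ _ => ⟨0, rfl⟩⟩) o1 o2 O A
  · let c : Cx M := ⟨P, r, G, hP, hr, h1, hG⟩
    exact ⟨c.N, c.isExt, c.modelZF, ac, c.ex.tp core (Cx.ccc h2) o1 o2 O A⟩

end Pool.Agent.Lib.MP_6993b6_lc.Q1
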