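import Pool.Agent.Lib.MP_6993b6_lc.Q1.B3

/-!
The recursion along `ω₁` and the proof of the core theorem.
-/

namespace Pool.Agent.Lib.MP_6993b6_lc.Q1

open Pool.Agent.Shared.InModel Function

universe u v

variable {M : ZFSet.{0}} [Mdl M] [Chc M] {W K Q P : Type u} [Cd M W] [Cd M K] [Cd M Q] [Cd M P]
  [LinearOrder W] [LinearOrder K] [Preorder Q] [Preorder P] [OM M W] [OM M K] [OM M Q] [OM M P]
  {Z : Q → K → Prop} {F : P → K × W → K × W → Prop} {Nd : P → K × W → Prop} {d : K → W}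

variable (M W K Q P) in
/-- States: a set of conditions, a level and a sequence of vertices. -/
abbrev St : Type u := PM M Q × K × FM M ℕ (P × K × W)

variable (Z F d) in
/-- `q` keeps the promise given by `k` at `l`. -/
def Keep (k : PM M (Idx W)) (g : W → St M W K Q P) (q : Q) (l : W) : Prop :=
  LF k.set l → ∃ m, ∀ n x, m ≤ n → (l, n, x) ∈ k → Kill Z F d q ((g x.1).2.2.fn x.2)

variable (Z F Nd d) in
/-- The requirements on the state `y` at stage `a`. -/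
def Good (k : PM M (Idx W)) (a : W) (g : W → St M W K Q P) (y : St M W K Q P) : Prop :=
  (∀ l, l ≤ a → ∀ q, q ∈ y.1 → Keep Z F d k g q l) ∧ Cn M (· ∈ y.1) ∧ (∃ q, q ∈ y.1 ∧ Z q y.2.1) ∧
    (∀ b, b < a → (g b).2.1 < y.2.1) ∧
    (∀ b q (L : List (Vx W)), b < a → q ∈ (g b).1 → ∃ q', q' ∈ y.1 ∧ q' ≤ q ∧
      ∀ x, x ∈ L → b ≤ x.1 → x.1 < a → Kill Z F d q' ((g x.1).2.2.fn x.2)) ∧
    (∀ q m, q ∈ y.1 → ∃ q', q' ≤ q ∧ ∀ n, n < m → Kill Z F d q' (y.2.2.fn n)) ∧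
    ∀ i p, i < d y.2.1 → Nd p (y.2.1, i) → ∃ r n, r ≤ p ∧ r ≤ (y.2.2.fn n).1 ∧
      F r (y.2.2.fn n).2 (y.2.1, i)

theorem list_lt {β : Type*} {s : ℕ → β → Prop} (h : ∀ n x y, s n x → s n y → x = y) (m : ℕ) :
    ∃ L : List β, ∀ n x, n < m → s n x → x ∈ L := by
  induction m with
  | zero => exact ⟨[], by simp⟩
  | succ m ih =>
    obtain ⟨L, hL⟩ := ih
    by_cases c : ∃ x, s m x
    · obtain ⟨y, hy⟩ := c
      exact ⟨y :: L, fun n x l a => (Nat.lt_succ_iff_lt_or_eq.1 l).elim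
        (fun l => List.mem_cons_of_mem _ (hL n x l a)) fun e => h m x y (e ▸ a) hy ▸ by simp⟩
    · exact ⟨L, fun n x l a => (Nat.lt_succ_iff_lt_or_eq.1 l).elim (fun l => hL n x l a)
        fun e => (c ⟨x, e ▸ a⟩).elim⟩

omit [Chc M] [OM M W] [OM M K] [OM M Q] [OM M P] in
theorem Good.congr {k : PM M (Idx W)} {a : W} {g g' : W → St M W K Q P} {y : St M W K Q P}
    (e : ∀ b, b < a → g b = g' b) (h : Good Z F Nd d k a g y) : Good Z F Nd d k a g' y :=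
  ⟨fun l hl q hq lf => (h.1 l hl q hq lf).imp fun _ h n x a b =>
      e _ ((lf.2.1 n x b).trans_le hl) ▸ h n x a b, h.2.1, h.2.2.1,
    fun b l => e b l ▸ h.2.2.2.1 b l, fun b q L l hq => (h.2.2.2.2.1 b q L l (e b l ▸ hq)).imp
      fun _ h => ⟨h.1, h.2.1, fun x a b c => e _ c ▸ h.2.2 x a b c⟩, h.2.2.2.2.2⟩

variable (O : Om M W K) (A : Ax M W Z) (T : Tr M F Nd) (hd : MF M d)

include A T hd

omit [Chc M] [OM M K] [OM M Q] in
theorem mf_Keep : MF M fun p : PM M (Idx W) × FM M W (St M W K Q P) × Q × W =>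
    Keep Z F d p.1 p.2.1.fn p.2.2.1 p.2.2.2 := by
  have := mf_Kill A T hd
  simp only [Keep, LF, PM.mem_set]
  fun_prop

include O

omit [OM M K] in
theorem claim {k : PM M (Idx W)} {a : W} {g : FM M W (St M W K Q P)}
    (h : ∀ b, b < a → Good Z F Nd d k b g.fn (g.fn b)) {b : W} (hb : b < a) {q : Q}
    (hq : q ∈ (g.fn b).1) (L : List (Vx W)) : ∃ q', q' ≤ q ∧
      (∀ x, x ∈ L → b ≤ x.1 → x.1 < a → Kill Z F d q' ((g.fn x.1).2.2.fn x.2)) ∧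
        ∀ l, l ≤ a → Keep Z F d k g.fn q' l := by
  have := mf_Kill A T hd
  have p1 : ∀ c b q (L : List (Vx W)), c < a → b ≤ c → q ∈ (g.fn b).1 → ∃ q', q' ∈ (g.fn c).1 ∧
      q' ≤ q ∧ ∀ x, x ∈ L → b ≤ x.1 → x.1 < c → Kill Z F d q' ((g.fn x.1).2.2.fn x.2) :=
    fun c b q L l l' hq => l'.eq_or_lt.elim (fun e => ⟨q, e ▸ hq, le_rfl,
      fun _ _ a b => absurd (e ▸ a) b.not_ge⟩) fun l' => (h c l).2.2.2.2.1 b q L l' hq
  have p0 : ∀ c q q' l, c < a → q ∈ (g.fn c).1 → q' ≤ q → l ≤ c → Keep Z F d k g.fn q' l :=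
    fun c q q' l a b e f lf => ((h c a).1 l f q b lf).imp fun _ h n x a b => (h n x a b).mono A e
  by_cases c : ∃ c, c < a ∧ ∀ b, b < a → b ≤ c
  · obtain ⟨c, c1, c2⟩ := c
    obtain ⟨q₁, a1, a2, a3⟩ := p1 c b q L c1 (c2 b hb) hq
    obtain ⟨m, hm⟩ := list_sub (s := fun n (x : Vx W) => x.2 < n) (fun _ _ => Nat.lt_succ_of_lt) L
    obtain ⟨q₂, b1, b2⟩ := (h c c1).2.2.2.2.2.1 q₁ m a1
    refine ⟨q₂, b1.trans a2, fun x x1 x2 x3 => (c2 _ x3).eq_or_lt.elim (fun e => ?_)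
      fun l => (a3 x x1 x2 l).mono A b1, fun l hl => hl.eq_or_lt.elim (fun e lf => ?_)
      fun hl => p0 c q₁ q₂ l c1 a1 b1 (c2 l hl)⟩
    · exact e ▸ b2 _ (hm x x1 ⟨_, Nat.lt_succ_self _⟩)
    · subst e
      exact (lf.2.2 c c1).imp fun m h n x a b => absurd (c2 _ (lf.2.1 n x b)) (h n x a b).not_ge
  push Not at c
  obtain ⟨en, hen, h1⟩ := O.cW a
  let Tg : Vx W → Prop := fun x => x ∈ L ∨ (LF k.set a ∧ ∃ n, (a, n, x) ∈ k)
  have hT : MF M Tg := by simp only [Tg]; fun_prop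
  obtain ⟨z, hz, z0, h2⟩ := exists_chain (M := M) (P := fun z : W × Q => z.1 < a ∧
    z.2 ∈ (g.fn z.1).1) (R := fun n z z' => z'.2 ≤ z.2 ∧ (en n < a → en n < z'.1) ∧
      ∀ x, Tg x → z.1 ≤ x.1 → x.1 < z'.1 → Kill Z F d z'.2 ((g.fn x.1).2.2.fn x.2))
    (by fun_prop) (by fun_prop) (a := (b, q)) ⟨hb, hq⟩ fun n z hz => by
      obtain ⟨c', c1, c2, c3⟩ : ∃ c', c' < a ∧ z.1 ≤ c' ∧ (en n < a → en n < c') := by
        by_cases e : en n < a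
        · obtain ⟨c', a1, a2⟩ := c _ (max_lt hz.1 e)
          exact ⟨c', a1, (max_lt_iff.1 a2).1.le, fun _ => (max_lt_iff.1 a2).2⟩
        · exact ⟨_, hz.1, le_rfl, fun h => (e h).elim⟩
      obtain ⟨L', hL⟩ : ∃ L' : List (Vx W), ∀ x, Tg x → x.1 < c' → x ∈ L' := by
        by_cases lf : LF k.set a
        · obtain ⟨m, hm⟩ := lf.2.2 c' c1
          obtain ⟨L', hL⟩ := list_lt lf.1 m
          exact ⟨L ++ L', fun x hx l => List.mem_append.2 (hx.imp_right fun ⟨_, n, h⟩ =>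
            hL n x (not_le.1 fun e => lt_asymm l (hm n x e h)) h)⟩
        · exact ⟨L, fun x hx _ => hx.resolve_right fun h => lf h.1⟩
      obtain ⟨q', a1, a2, a3⟩ := p1 c' z.1 z.2 L' c1 c2 hz.2
      exact ⟨(c', q'), ⟨c1, a1⟩, a2, c3, fun x a b c => a3 x (hL x a c) b c⟩
  obtain ⟨q', h3⟩ := A.sig (fun n => (z n).2) (by fun_prop) fun n => (h2 n).2.1
  have k1 : ∀ x, Tg x → b ≤ x.1 → x.1 < a → Kill Z F d q' ((g.fn x.1).2.2.fn x.2) := by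
    intro x x1 x2 x3
    have : ∀ n, x.1 < (z n).1 → Kill Z F d q' ((g.fn x.1).2.2.fn x.2) := fun n =>
      Nat.rec (fun l => absurd (by rwa [z0] at l) x2.not_gt) (fun n ih l =>
        (lt_or_ge _ _).elim ih fun l' => ((h2 n).2.2.2 x x1 l' l).mono A (h3 _)) n
    obtain ⟨n, e⟩ := h1 _ x3
    exact this _ (e ▸ (h2 n).2.2.1 (e ▸ x3))
  refine ⟨q', by simpa only [z0] using h3 0, fun x hx => k1 x (Or.inl hx),
    fun l hl => hl.eq_or_lt.elim (fun e lf => ?_) fun hl => ?_⟩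
  · subst e
    exact (lf.2.2 b hb).imp fun m h n x a b =>
      k1 x (Or.inr ⟨lf, n, b⟩) (h n x a b).le (lf.2.1 n x b)
  · obtain ⟨n, rfl⟩ := h1 l hl
    exact p0 _ _ _ _ (h2 (n + 1)).1.1 (h2 (n + 1)).1.2 (h3 _) ((h2 n).2.2.1 hl).le

variable [WellFoundedLT W] [WellFoundedLT K] (NB : ∀ p B, ¬ IsBr M F Nd p B)
  (NS : ∀ e e', e < e' → ∃ r i j, i < d e ∧ j < d e' ∧ F r (e, i) (e', j))

include NB NS

theorem good_ex {k : PM M (Idx W)} {a : W} {g : FM M W (St M W K Q P)}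
    (h : ∀ b, b < a → Good Z F Nd d k b g.fn (g.fn b)) : ∃ y, Good Z F Nd d k a g.fn y := by
  classical
  have := A.ne
  have := mf_Kill A T hd
  have hK : MF M fun p : Q × W => Keep Z F d k g.fn p.1 p.2 :=
    (mf_Keep A T hd).comp (g := fun p : Q × W => (k, g, p)) (by fun_prop)
  obtain ⟨q₀, h0⟩ : ∃ q, ∀ l, l ≤ a → Keep Z F d k g.fn q l := by
    by_cases c : ∃ b, b < a
    · obtain ⟨b, hb⟩ := c
      obtain ⟨q, hq, -⟩ := (h b hb).2.2.1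
      exact (claim O A T hd h hb hq []).imp fun _ h => h.2.2
    · exact ⟨Classical.arbitrary Q, fun l hl lf => ⟨0, fun n x _ b =>
        (c ⟨_, (lf.2.1 n x b).trans_le hl⟩).elim⟩⟩
  obtain ⟨f, hf, h1⟩ := choice' (M := M) (R := fun (x : W × Q × List (Vx W)) (q' : Q) =>
    q' ≤ x.2.1 ∧ (∀ y, y ∈ x.2.2 → x.1 ≤ y.1 → y.1 < a → Kill Z F d q' ((g.fn y.1).2.2.fn y.2)) ∧
      ∀ l, l ≤ a → Keep Z F d k g.fn q' l) (by fun_prop)
  let a₀ : PM M Q := PM.of (fun q => q = q₀ ∨ ∃ b, b < a ∧ ∃ x : Q × List (Vx W),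
    (x.1 ∈ (g.fn b).1 ∧ ∀ y ∈ x.2, y.1 < a ∧ True) ∧ f (b, x) = q) (by fun_prop)
  have c₀ : Cn M (· ∈ a₀) := (cn_eq q₀).or ((O.cn a).union (by fun_prop) _ (by fun_prop)
    (fun b hb => ((h b hb).2.1.prod ((O.cn a).prod cn_nat).list).img (by fun_prop)
      (fun x => f (b, x)) (by fun_prop) fun _ h => h) fun _ h => h) (by fun_prop) (by fun_prop)
  obtain ⟨e, he⟩ := O.bdK (O.cn a) (by fun_prop) (fun b => (g.fn b).2.1) (by fun_prop)
  obtain ⟨γ, g1, g2, E, e1, e2, e3⟩ := step O A T hd NB a₀ c₀ q₀ e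
  obtain ⟨x, hx, x1, x2⟩ := e1.enum (by fun_prop) (by
    obtain ⟨γ', l⟩ := O.gtK γ
    obtain ⟨r, i, j, a, -, b⟩ := NS γ γ' l
    obtain ⟨_, v, -, h, -⟩ := e2 i r a (T.nd _ _ _ b)
    exact ⟨v, h⟩)
  refine ⟨(a₀, γ, ⟨x, hx⟩), ?_, c₀, ⟨q₀, Or.inl rfl, g1⟩, fun b l => (he b l).trans g2,
    fun b q L l hq => ?_, fun q m hq => ?_, fun i p a b => ?_⟩
  · rintro l hl _ (rfl | ⟨b, hb, x, ⟨a, -⟩, rfl⟩)
    exacts [h0 l hl, (h1 (b, x) (claim O A T hd h hb a _)).2.2 l hl]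
  · obtain ⟨a1, a2, -⟩ := h1 (b, q, L.filter fun y => y.1 < a) (claim O A T hd h l hq _)
    exact ⟨_, Or.inr ⟨b, l, (q, L.filter fun y => y.1 < a), ⟨hq, fun y hy =>
      ⟨by simpa using (List.mem_filter.1 hy).2, trivial⟩⟩, rfl⟩, a1,
      fun y y1 y2 y3 => a2 y (List.mem_filter.2 ⟨y1, by simpa using y3⟩) y2 y3⟩
  · exact (e3 q hq ((List.range m).map x)).imp fun _ h => ⟨h.1, fun n l =>
      h.2 _ (List.mem_map_of_mem (List.mem_range.2 l)) (x1 n)⟩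
  · obtain ⟨r, v, a1, a2, a3⟩ := e2 i p a b
    obtain ⟨n, rfl⟩ := x2 v a2
    exact ⟨r, n, a1, a3⟩

theorem contra : False := by
  have := A.mZ
  have := T.mF
  have := T.mN
  have := mf_Kill A T hd
  have := mf_YY T hd
  have := O.neK
  have := O.neW
  have : Nonempty P := by
    obtain ⟨e', l⟩ := O.gtK (Classical.arbitrary K)
    exact ⟨(NS _ e' l).choose⟩
  obtain ⟨f, hf, h1, h2⟩ := recM (M := M) (fun (k : PM M (Idx W)) (a : W)
    (g : FM M W (St M W K Q P)) y => Good Z F Nd d k a g.fn y) (by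
      simp only [Good, Keep, LF, PM.mem_set]
      fun_prop)
  have h3 : ∀ k a, Good Z F Nd d k a (f k) (f k a) := fun k a => by
    induction a using WellFoundedLT.induction with
    | ind a ih =>
      obtain ⟨g, g1, g2⟩ := h1 k a
      exact (g2 (good_ex O A T hd NB NS fun b l => g1 b l ▸
        (ih b l).congr fun c l' => (g1 c (l'.trans l)).symm)).congr g1
  obtain ⟨k, c, hc, h4⟩ := A.cp
    (fun a k x => x.1 < a ∧ YY F d (f k a).2.1 ((f k x.1).2.2.fn x.2)) (by fun_prop)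
    (fun a k k' x e h => by
      have : ∀ b, b ≤ a → f k b = f k' b := fun b l => h2 k k' b fun c l' => by
        funext g y
        refine congrArg (· ∧ _) (propext (forall₂_congr fun j l'' => ?_))
        have : ∀ n x, (j, n, x) ∈ k ↔ (j, n, x) ∈ k' := fun n x =>
          e _ (l''.trans (l'.trans l))
        simp only [Keep, LF, PM.mem_set, this]
      rw [← this a le_rfl, ← this _ h.1.le]
      exact h)
    fun a k l hl lf =>
      let ⟨q, q1, q2⟩ := (h3 k a).2.2.1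
      ((h3 k a).1 l hl q q1 lf).imp fun _ h n x a b c => h n x a b _ q2 c.2
  have hk : MF M (f k) := hf.comp (g := fun a => (k, a)) (by fun_prop)
  obtain ⟨θ, hθ⟩ := O.uK (fun a => (f k a).2.1) (by fun_prop)
  let R : W × ℕ → W → P → Prop := fun y a r => ∃ i n, i < d (f k a).2.1 ∧ c (a, n) = y.2 ∧
    r ≤ ((f k a).2.2.fn n).1 ∧ F r ((f k a).2.2.fn n).2 ((f k a).2.1, i) ∧
      F r ((f k a).2.1, i) (θ, y.1)
  have hR : MF M fun p : (W × ℕ) × W × P => R p.1 p.2.1 p.2.2 := by simp only [R]; fun_prop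
  obtain ⟨y, -, h5⟩ := Cn.pig O.ncW (MF.const _) ((O.cn (d θ)).prod cn_nat) (by fun_prop)
    (fun a y => ∃ r, R y a r) (by fun_prop) fun a _ => by
      obtain ⟨r, i, j, a1, a2, a3⟩ := NS _ _ (hθ a)
      obtain ⟨r', n, b1, b2, b3⟩ := (h3 k a).2.2.2.2.2.2 i r a1 (T.nd _ _ _ a3)
      exact ⟨(j, c (a, n)), ⟨a2, trivial⟩, r', i, n, a1, rfl, b2, b3, T.monoF _ _ _ _ b1 a3⟩
  have k1 : ∀ a a' r r', a < a' → R y a r → R y a' r' → ¬ Cp r r' := by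
    rintro a a' r r' l ⟨i, n, -, a2, a3, a4, a5⟩ ⟨i', n', b1, b2, -, -, b5⟩ ⟨s, s1, s2⟩
    exact h4 (a, n) (a', n') l (a2.trans b2.symm) ⟨l, i', s, b1, s1.trans a3,
      T.trans _ _ _ _ (T.monoF _ _ _ _ s1 a4) (T.lin _ _ _ _ (T.monoF _ _ _ _ s1 a5)
        (T.monoF _ _ _ _ s2 b5) ((h3 k a').2.2.2.1 a l))⟩
  obtain ⟨a, a', r, r', -, -, n, b1, b2, b3⟩ := T.two h5 (by fun_prop) (R y) (by fun_prop)
    fun _ h => h.2
  exact (lt_or_gt_of_ne n).elim (fun l => k1 _ _ _ _ l b1 b2 b3) fun l => k1 _ _ _ _ l b2 b1 b3.symm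

omit A T hd O NB NS

theorem core : CoreStmt.{u} := by
  intro M _ _ W K Q P _ _ _ _ _ _ _ _ _ _ _ _ _ _ Z F Nd O A T p₀ h
  by_contra! c
  have := T.mF
  have := T.mN
  have T' : Tr M (fun r s t => r ≤ p₀ ∧ F r s t) fun r t => r ≤ p₀ ∧ Nd r t :=
    ⟨by fun_prop, by fun_prop, T.ccc, fun _ _ _ _ l h => ⟨l.trans h.1, T.monoF _ _ _ _ l h.2⟩,
      fun _ _ _ l h => ⟨l.trans h.1, T.monoN _ _ _ l h.2⟩, fun _ _ _ h => T.ht _ _ _ h.2,
      fun _ _ _ h => ⟨h.1, T.nd _ _ _ h.2⟩, fun _ _ _ _ a b => ⟨a.1, T.trans _ _ _ _ a.2 b.2⟩,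
      fun _ _ _ _ a b => T.uniq _ _ _ _ a.2 b.2, fun _ _ _ _ a b l => ⟨a.1, T.lin _ _ _ _ a.2 b.2 l⟩,
      fun r t e a l => (T.pred r t e a.2 l).imp fun _ h =>
        ⟨h.1, h.2.imp fun _ k => ⟨h.1.trans a.1, k⟩⟩⟩
  obtain ⟨d, hd, NS⟩ := narrow O A T' fun g =>
    let ⟨r, a, i, b⟩ := h g p₀ le_rfl; ⟨r, i, a, b⟩
  refine contra O A T' hd (fun p B b => ?_) NS
  obtain ⟨e⟩ := O.neK
  obtain ⟨r, r1, i, r2⟩ := b.lev e p le_rfl
  exact c r (b.nd _ _ r2).1 B ⟨b.mono, fun r t h => (b.nd r t h).2,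
    fun e s l => b.lev e s (l.trans r1), fun r s t a1 a2 l =>
      (b.chain r s t a1 a2 l).imp_right fun h => h.imp fun _ h => ⟨h.1, h.2.2⟩⟩

end Pool.Agent.Lib.MP_6993b6_lc.Q1
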