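import Pool.Agent.Lib.MP_6993b6_lc.Defs

/-!
Forcing notions in a transitive model, the countable chain condition, generic filters and
generic extensions.
-/

namespace Pool.Agent.Lib.MP_6993b6_lc.Q1

open ZFSet

/-- `(P, r)` is a preorder; `pair p q ∈ r` means that `p` extends `q`. -/
def Pre (P r : ZFSet.{0}) : Prop :=
  (∀ p ∈ P, pair p p ∈ r) ∧
    ∀ p ∈ P, ∀ q ∈ P, ∀ s ∈ P, pair p q ∈ r → pair q s ∈ r → pair p s ∈ r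

/-- `(P, r)` is ccc in `M`: every antichain that lies in `M` is countable in `M`. -/
def Ccc (M P r : ZFSet.{0}) : Prop :=
  ∀ A ∈ M, A ⊆ P → (∀ p ∈ A, ∀ q ∈ A, p ≠ q → ¬ ∃ s ∈ P, pair s p ∈ r ∧ pair s q ∈ r) →
    Onto M omega A

/-- `G` is a filter on `(P, r)` that meets every dense set lying in `M`. -/
structure Gen (M P r : ZFSet.{0}) (G : Set ZFSet.{0}) : Prop where
  sub : ∀ p ∈ G, p ∈ P
  up : ∀ p ∈ G, ∀ q ∈ P, pair p q ∈ r → q ∈ G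
  dir : ∀ p ∈ G, ∀ q ∈ G, ∃ s ∈ G, pair s p ∈ r ∧ pair s q ∈ r
  meet : ∀ D ∈ M, (∀ p ∈ P, ∃ q ∈ P, q ∈ D ∧ pair q p ∈ r) → ∃ p ∈ G, p ∈ D

/-- `N = M[G]`: the set of the values under `G` of the members of `M`, read as names. -/
def IsExtG (M : ZFSet.{0}) (G : Set ZFSet.{0}) (N : ZFSet.{0}) : Prop :=
  ∃ v : ZFSet.{0} → ZFSet.{0},
    (∀ τ z, z ∈ v τ ↔ ∃ σ, ∃ p ∈ G, pair σ p ∈ τ ∧ z = v σ) ∧
      ∀ z, z ∈ N ↔ ∃ τ ∈ M, z = v τ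

end Pool.Agent.Lib.MP_6993b6_lc.Q1
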