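import Pool.Agent.Shared.InModel.Rec
import Pool.Agent.Lib.MP_6993b6_lc.Q1.GDefs

/-!
Classes definable over a transitive model.
-/

namespace Pool.Agent.Lib.MP_6993b6_lc.Q1

open ZFSet Pool.Agent.Shared.InModel Pool.Agent.Lib.MP_053343_lc

/-- Valuations. -/
abbrev Vl : Type 1 := ℕ → ZFSet.{0}

/-- Predicates definable over `M` with parameters in `M`. -/
def Dc (M : ZFSet.{0}) (Q : Vl → Prop) : Prop :=
  ∃ c : List ZFSet, (∀ x ∈ c, x ∈ M) ∧ ∀ (f : ℕ → ℕ) (g : ZFSet → ℕ), ∃ φ : F0,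
    ∀ l : List ZFSet, (∀ x ∈ l, x ∈ M) → (∀ x ∈ c, l.getD (g x) ∅ = x) →
      (φ.S M l ↔ Q fun i => l.getD (f i) ∅)

/-- Terms: variables, parameters and pairs. -/
inductive Tm (M : ZFSet.{0}) : (Vl → ZFSet.{0}) → Prop
  | var (i : ℕ) : Tm M fun v => v i
  | con {c : ZFSet} (h : c ∈ M) : Tm M fun _ => c
  | pair {s t : Vl → ZFSet} : Tm M s → Tm M t → Tm M fun v => pair (s v) (t v)

variable {M : ZFSet.{0}} [Mdl M] {p q : Vl → Prop} {s t : Vl → ZFSet}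

theorem Tm.mem (h : Tm M t) {v : Vl} (hv : ∀ i, v i ∈ M) : t v ∈ M := by
  induction h with
  | var i => exact hv i
  | con h => exact h
  | pair _ _ a b => exact pair_mem a b

omit [Mdl M] in
theorem Tm.ren (h : Tm M t) (f : ℕ → ℕ) : Tm M fun v => t fun i => v (f i) := by
  induction h with
  | var i => exact .var _
  | con h => exact .con h
  | pair _ _ a b => exact a.pair b

namespace Dc

theorem congr (h : Dc M p) (e : ∀ v, (∀ i, v i ∈ M) → (q v ↔ p v)) : Dc M q := by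
  obtain ⟨c, hc, h⟩ := h
  refine ⟨c, hc, fun f g => (h f g).imp fun φ h l hl hg => (h l hl hg).trans (e _ ?_).symm⟩
  exact fun i => getD_mem hl _

omit [Mdl M] in
theorem and (hp : Dc M p) (hq : Dc M q) : Dc M fun v => p v ∧ q v := by
  obtain ⟨c, hc, h⟩ := hp
  obtain ⟨c', hc', h'⟩ := hq
  refine ⟨c ++ c', List.forall_mem_append.2 ⟨hc, hc'⟩, fun f g => ?_⟩
  obtain ⟨φ, h⟩ := h f g
  obtain ⟨φ', h'⟩ := h' f g
  refine ⟨.and φ φ', fun l hl hg => ?_⟩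
  rw [List.forall_mem_append] at hg
  exact and_congr (h l hl hg.1) (h' l hl hg.2)

omit [Mdl M] in
theorem not (hp : Dc M p) : Dc M fun v => ¬ p v := by
  obtain ⟨c, hc, h⟩ := hp
  refine ⟨c, hc, fun f g => ?_⟩
  obtain ⟨φ, h⟩ := h f g
  exact ⟨.neg φ, fun l hl hg => not_congr (h l hl hg)⟩

omit [Mdl M] in
theorem ex {R : ZFSet → Vl → Prop} (h : Dc M fun v => R (v 0) fun i => v (i + 1)) :
    Dc M fun v => ∃ x ∈ M, R x v := by
  obtain ⟨c, hc, h⟩ := h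
  refine ⟨c, hc, fun f g => ?_⟩
  obtain ⟨φ, h⟩ := h (fun i => Nat.casesOn i 0 fun j => f j + 1) fun x => g x + 1
  exact ⟨.ex φ, fun l hl hg => exists_congr fun x => and_congr_right fun hx =>
    h (x :: l) (List.forall_mem_cons.2 ⟨hx, hl⟩) hg⟩

theorem or (hp : Dc M p) (hq : Dc M q) : Dc M fun v => p v ∨ q v :=
  (hp.not.and hq.not).not.congr fun _ _ => by tauto

theorem imp (hp : Dc M p) (hq : Dc M q) : Dc M fun v => p v → q v :=
  (hp.and hq.not).not.congr fun _ _ => by tauto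

theorem iff (hp : Dc M p) (hq : Dc M q) : Dc M fun v => p v ↔ q v :=
  ((hp.imp hq).and (hq.imp hp)).congr fun _ _ => iff_def

theorem all {R : ZFSet → Vl → Prop} (h : Dc M fun v => R (v 0) fun i => v (i + 1)) :
    Dc M fun v => ∀ x ∈ M, R x v :=
  (ex (R := fun x v => ¬ R x v) h.not).not.congr fun _ _ => by simp

omit [Mdl M] in
theorem atom (φ : (ℕ → ℕ) → F0) (h : ∀ f l, (φ f).S M l ↔ p fun i => l.getD (f i) ∅) : Dc M p :=
  ⟨[], by simp, fun f _ => ⟨φ f, fun l _ _ => h f l⟩⟩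

theorem eqv (ht : Tm M t) : ∀ i, Dc M fun v => v i = t v := by
  have key : ∀ (f : ℕ → ℕ) i, Dc M fun v => v i = t fun i => v (f i) := by
    induction ht with
    | var j => exact fun f i => atom (fun g => .eq (g i) (g (f j))) fun _ _ => Iff.rfl
    | @con c h =>
      exact fun f i => ⟨[c], by simpa, fun f g => ⟨.eq (f i) (g c), fun l _ hg => by
        simp only [F0.S, hg c (by simp)]⟩⟩
    | @pair s t hs ht a b =>
      intro f i
      refine congr (p := fun v => ∃ x ∈ M, ∃ y ∈ M, (x = s fun i => v (f i)) ∧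
        (y = t fun i => v (f i)) ∧ v i = pair x y) (ex (ex (and (a _ _) (and (b _ _) ?_))))
        fun v hv => ⟨fun e => ⟨_, hs.mem fun _ => hv _, _, ht.mem fun _ => hv _, rfl, rfl, e⟩, ?_⟩
      · exact atom (fun g => .pr (g (i + 1 + 1)) (g 1) (g 0)) fun _ _ => Iff.rfl
      · rintro ⟨_, -, _, -, rfl, rfl, e⟩
        exact e
  exact key id

theorem rel {R : ZFSet → ZFSet → Prop} (h : Dc M fun v => R (v 1) (v 0)) (hs : Tm M s)
    (ht : Tm M t) : Dc M fun v => R (s v) (t v) := by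
  refine congr (p := fun v => ∃ x ∈ M, ∃ y ∈ M, x = s v ∧ y = t v ∧ R x y)
    (ex (ex (and (eqv (hs.ren _) _) (and (eqv (ht.ren _) _) h))))
    fun v hv => ⟨fun e => ⟨_, hs.mem hv, _, ht.mem hv, rfl, rfl, e⟩, ?_⟩
  rintro ⟨_, -, _, -, rfl, rfl, e⟩
  exact e

theorem mem (hs : Tm M s) (ht : Tm M t) : Dc M fun v => s v ∈ t v :=
  rel (R := fun x y => x ∈ y) (atom (fun g => .mem (g 1) (g 0)) fun _ _ => Iff.rfl) hs ht

theorem eq (hs : Tm M s) (ht : Tm M t) : Dc M fun v => s v = t v :=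
  rel (R := fun x y => x = y) (atom (fun g => .eq (g 1) (g 0)) fun _ _ => Iff.rfl) hs ht

theorem tru : Dc M fun _ => True :=
  (eq (.var 0) (.var 0)).congr fun _ _ => by simp

theorem bex {R : ZFSet → Vl → Prop} (ht : Tm M t)
    (h : Dc M fun v => R (v 0) fun i => v (i + 1)) : Dc M fun v => ∃ x ∈ t v, R x v :=
  (ex (R := fun x v => x ∈ t v ∧ R x v) ((mem (.var 0) (ht.ren _)).and h)).congr fun _ hv =>
    exists_congr fun _ => ⟨fun h => ⟨tr (ht.mem hv) h.1, h⟩, And.right⟩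

theorem ball {R : ZFSet → Vl → Prop} (ht : Tm M t)
    (h : Dc M fun v => R (v 0) fun i => v (i + 1)) : Dc M fun v => ∀ x ∈ t v, R x v :=
  (bex (R := fun x v => ¬ R x v) ht h.not).not.congr fun _ _ => by simp

omit [Mdl M] in
theorem form (h : Dc M p) (k : ℕ) : ∃ (φ : F0) (c : List ZFSet), (∀ x ∈ c, x ∈ M) ∧
    ∀ l : List ZFSet, (∀ x ∈ l, x ∈ M) → l.length = k →
      (φ.S M (l ++ c) ↔ p fun i => (l ++ c).getD i ∅) := by
  classical
  obtain ⟨c, hc, h⟩ := h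
  obtain ⟨φ, h⟩ := h id fun x => k + c.idxOf x
  refine ⟨φ, c, hc, fun l hl e => h _ (List.forall_mem_append.2 ⟨hl, hc⟩) fun x hx => ?_⟩
  rw [List.getD_append_right _ _ _ _ (by omega), e, Nat.add_sub_cancel_left,
    List.getD_eq_getElem _ _ (List.idxOf_lt_length_of_mem hx), List.getElem_idxOf]

/-- Separation. -/
theorem sep {R : ZFSet → Prop} (h : Dc M fun v => R (v 0)) {a : ZFSet} (ha : a ∈ M) :
    ∃ b ∈ M, ∀ z, z ∈ b ↔ z ∈ a ∧ R z := by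
  obtain ⟨φ, c, hc, h⟩ := h.form 1
  obtain ⟨b, hb, h'⟩ := sep0 φ c hc ha
  exact ⟨b, hb, fun z => (h' z).trans (and_congr_right fun hz =>
    h [z] (by simpa using tr ha hz) rfl)⟩

/-- Collection. -/
theorem coll {R : ZFSet → ZFSet → Prop} (h : Dc M fun v => R (v 0) (v 1)) {a : ZFSet}
    (ha : a ∈ M) : ∃ b ∈ M, (∀ x ∈ a, (∃ y ∈ M, R x y) → ∃ y ∈ b, R x y) ∧
      ∀ y ∈ b, ∃ x ∈ a, R x y := by
  have h2 : ∀ i j, Dc M fun v => R (v i) (v j) := fun i j =>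
    rel (R := fun x y => R y x) h (.var j) (.var i)
  obtain ⟨a', ha', h1⟩ := sep (R := fun x => ∃ y ∈ M, R x y) (ex (h2 _ _)) ha
  obtain ⟨φ, c, hc, h3⟩ := (h2 1 0).form 2
  obtain ⟨ψ, h4⟩ := φ.toFml (M := M)
  have k : ∀ x ∈ M, ∀ y ∈ M, (Sat M ψ (y :: x :: c) ↔ R x y) := fun x hx y hy =>
    (h4 _ (by simpa [hx, hy] using hc)).trans (h3 [y, x] (by simp [hx, hy]) rfl)
  obtain ⟨b, hb, h5⟩ := Mdl.zf.coll ψ c hc a' ha' fun x hx =>
    ((h1 x).1 hx).2.imp fun y hy => ⟨hy.1, (k x (tr ha' hx) y hy.1).2 hy.2⟩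
  obtain ⟨b', hb', h6⟩ := sep (R := fun y => ∃ x ∈ a, R x y) (bex (.con ha) (h2 _ _)) hb
  refine ⟨b', hb', fun x hx hy => ?_, fun y hy => ((h6 y).1 hy).2⟩
  obtain ⟨y, hy, h7⟩ := h5 x ((h1 x).2 ⟨hx, hy⟩)
  have := (k x (tr ha hx) y (tr hb hy)).1 h7
  exact ⟨y, (h6 y).2 ⟨hy, x, hx, this⟩, this⟩

end Dc

theorem left_mem {a b x : ZFSet} (h : pair a b ∈ x) : a ∈ ⋃₀ (⋃₀ x) :=
  mem_sUnion.2 ⟨{a}, mem_sUnion.2 ⟨_, h, by simp [ZFSet.pair]⟩, by simp⟩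

theorem right_mem {a b x : ZFSet} (h : pair a b ∈ x) : b ∈ ⋃₀ (⋃₀ x) :=
  mem_sUnion.2 ⟨{a, b}, mem_sUnion.2 ⟨_, h, by simp [ZFSet.pair]⟩, by simp⟩

theorem uu_mem {x : ZFSet} (h : x ∈ M) : (⋃₀ (⋃₀ x) : ZFSet) ∈ M :=
  Mdl.zf.union _ (Mdl.zf.union _ h)

theorem left_M {a b x : ZFSet} (hx : x ∈ M) (h : pair a b ∈ x) : a ∈ M :=
  tr (uu_mem hx) (left_mem h)

theorem right_M {a b x : ZFSet} (hx : x ∈ M) (h : pair a b ∈ x) : b ∈ M :=
  tr (uu_mem hx) (right_mem h)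

theorem insert_M {a x : ZFSet} (ha : a ∈ M) (hx : x ∈ M) : insert a x ∈ M := by
  have : insert a x = {a} ∪ x := by ext; simp
  exact this ▸ union_mem (sing_mem ha) hx

/-- Separation for relations. -/
theorem sep2 {R : ZFSet → ZFSet → Prop} (h : Dc M fun v => R (v 0) (v 1)) {a b : ZFSet}
    (ha : a ∈ M) (hb : b ∈ M) :
    ∃ c ∈ M, ∀ z, z ∈ c ↔ ∃ x ∈ a, ∃ y ∈ b, z = pair x y ∧ R x y := by
  obtain ⟨c, hc, h1⟩ := Cd.ex (M := M) (α := ZE ⟨a, ha⟩ × ZE ⟨b, hb⟩)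
  obtain ⟨d, hd, h2⟩ := Dc.sep (R := fun z => ∃ x ∈ a, ∃ y ∈ b, z = pair x y ∧ R x y)
    (.bex (.con ha) (.bex (.con hb) (.and (.eq (.var _) (.pair (.var _) (.var _)))
      (.rel (R := fun x y => R y x) h (.var _) (.var _))))) hc
  refine ⟨d, hd, fun z => (h2 z).trans (and_iff_right_of_imp ?_)⟩
  rintro ⟨x, hx, y, hy, rfl, -⟩
  exact (h1 _).2 ⟨(⟨x, hx⟩, ⟨y, hy⟩), rfl⟩

end Pool.Agent.Lib.MP_6993b6_lc.Q1
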