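import Pool.Agent.Lib.MP_6993b6_lc.Q1.GF1

/-!
The forcing relation over a transitive model and the truth lemma.
-/

namespace Pool.Agent.Lib.MP_6993b6_lc.Q1

open ZFSet Pool.Agent.Shared.InModel Pool.Agent.Lib.MP_053343_lc

/-- A forcing notion in `M` with a generic filter. -/
structure Cx (M : ZFSet.{0}) where
  P : ZFSet.{0}
  r : ZFSet.{0}
  G : Set ZFSet.{0}
  hP : P ∈ M
  hr : r ∈ M
  pre : Pre P r
  gen : Gen M P r G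

theorem rank_left {a b x : ZFSet.{0}} (h : pair a b ∈ x) : a.rank < x.rank :=
  (rank_lt_of_mem (show a ∈ ({a} : ZFSet) by simp)).trans
    ((rank_lt_of_mem (show ({a} : ZFSet) ∈ pair a b by simp [ZFSet.pair])).trans
      (rank_lt_of_mem h))

/-- The value of a name. -/
noncomputable def val (G : Set ZFSet.{0}) (τ : ZFSet.{0}) : ZFSet.{0} :=
  ZFSet.range fun x : {σ : (⋃₀ (⋃₀ τ) : ZFSet) // ∃ p ∈ G, pair σ.1 p ∈ τ} => val G x.1.1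
termination_by τ.rank
decreasing_by exact rank_left x.2.choose_spec.2

theorem mem_val {G : Set ZFSet.{0}} {τ z : ZFSet.{0}} :
    z ∈ val G τ ↔ ∃ σ, ∃ p ∈ G, pair σ p ∈ τ ∧ z = val G σ := by
  rw [val, mem_range]
  exact ⟨fun ⟨x, e⟩ => let ⟨p, h1, h2⟩ := x.2; ⟨_, p, h1, h2, e.symm⟩,
    fun ⟨σ, p, h1, h2, e⟩ => ⟨⟨⟨σ, left_mem h2⟩, p, h1, h2⟩, e.symm⟩⟩

namespace Cx

variable {M : ZFSet.{0}} [Mdl M] (c : Cx M)

/-- Membership relative to a notion `E` of equality. -/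
def Mm (E : ZFSet → ZFSet → ZFSet → Prop) (σ τ p : ZFSet) : Prop :=
  ∃ ρ ∈ M, ∃ t ∈ c.P, pair ρ t ∈ τ ∧ pair p t ∈ c.r ∧ E σ ρ p

/-- Inclusion relative to `E`. -/
def Sb (E : ZFSet → ZFSet → ZFSet → Prop) (σ τ p : ZFSet) : Prop :=
  ∀ π ∈ M, ∀ s ∈ c.P, pair π s ∈ σ → ∀ q ∈ c.P, pair q p ∈ c.r → pair q s ∈ c.r →
    ∃ q' ∈ c.P, pair q' q ∈ c.r ∧ c.Mm E π τ q'

/-- The relation coded by a set of triples. -/
def In (E σ τ p : ZFSet.{0}) : Prop := pair (pair σ τ) p ∈ E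

/-- Bisimulations. -/
def Post (E : ZFSet) : Prop :=
  ∀ σ ∈ M, ∀ τ ∈ M, ∀ p ∈ c.P, In E σ τ p → c.Sb (In E) σ τ p ∧ c.Sb (In E) τ σ p

/-- Forcing of equality. -/
def FEq (σ τ p : ZFSet) : Prop := ∃ E ∈ M, c.Post E ∧ In E σ τ p

variable {c} {s t u : Vl → ZFSet}

omit [Mdl M] in
theorem Sb.mono {E E' : ZFSet → ZFSet → ZFSet → Prop} {σ τ p : ZFSet} (h : c.Sb E σ τ p)
    (e : ∀ π ρ s t q, pair π s ∈ σ → pair ρ t ∈ τ → q ∈ c.P → E π ρ q → E' π ρ q) :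
    c.Sb E' σ τ p := fun π hπ s hs h1 q hq h2 h3 =>
  let ⟨q', a, b, ρ, d, t, f, g, i, j⟩ := h π hπ s hs h1 q hq h2 h3
  ⟨q', a, b, ρ, d, t, f, g, i, e _ _ _ _ _ h1 g a j⟩

theorem d_le (hs : Tm M s) (ht : Tm M t) : Dc M fun v => pair (s v) (t v) ∈ c.r :=
  .mem (hs.pair ht) (.con c.hr)

theorem d_Mm {E : Vl → ZFSet → ZFSet → ZFSet → Prop}
    (hE : ∀ (f : ℕ → ℕ) s t u, Tm M s → Tm M t → Tm M u →
      Dc M fun v => E (fun i => v (f i)) (s v) (t v) (u v))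
    (f : ℕ → ℕ) (hs : Tm M s) (ht : Tm M t) (hu : Tm M u) :
    Dc M fun v => c.Mm (E fun i => v (f i)) (s v) (t v) (u v) :=
  .ex (.bex (.con c.hP) (.and (.mem (.pair (.var _) (.var _)) (ht.ren _))
    (.and (d_le (hu.ren _) (.var _)) (hE _ _ _ _ (hs.ren _) (.var _) (hu.ren _)))))

theorem d_Sb {E : Vl → ZFSet → ZFSet → ZFSet → Prop}
    (hE : ∀ (f : ℕ → ℕ) s t u, Tm M s → Tm M t → Tm M u →
      Dc M fun v => E (fun i => v (f i)) (s v) (t v) (u v))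
    (f : ℕ → ℕ) (hs : Tm M s) (ht : Tm M t) (hu : Tm M u) :
    Dc M fun v => c.Sb (E fun i => v (f i)) (s v) (t v) (u v) :=
  .all (.ball (.con c.hP) (.imp (.mem (.pair (.var _) (.var _)) (hs.ren _))
    (.ball (.con c.hP) (.imp (d_le (.var _) (hu.ren _)) (.imp (d_le (.var _) (.var _))
      (.bex (.con c.hP) (.and (d_le (.var _) (.var _))
        (d_Mm hE _ (.var _) (ht.ren _) (.var _)))))))))

theorem d_Post (i : ℕ) : Dc M fun v => c.Post (v i) := by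
  have h : ∀ (f : ℕ → ℕ) s t u, Tm M s → Tm M t → Tm M u →
      Dc M fun v => In ((fun i => v (f i)) 0) (s v) (t v) (u v) := fun f s t u a b d =>
    .mem ((a.pair b).pair d) (.var _)
  exact .all (.all (.ball (.con c.hP) (.imp (h (fun _ => _) _ _ _ (.var _) (.var _) (.var _))
    (.and (d_Sb (E := fun v => In (v 0)) h (fun _ => _) (.var _) (.var _) (.var _))
      (d_Sb (E := fun v => In (v 0)) h (fun _ => _) (.var _) (.var _) (.var _))))))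

theorem d_FEq (hs : Tm M s) (ht : Tm M t) (hu : Tm M u) :
    Dc M fun v => c.FEq (s v) (t v) (u v) :=
  .ex (.and (d_Post _) (.mem (((hs.ren _).pair (ht.ren _)).pair (hu.ren _)) (.var _)))

theorem feq_iff {σ τ p : ZFSet} (hσ : σ ∈ M) (hτ : τ ∈ M) (hp : p ∈ c.P) :
    c.FEq σ τ p ↔ c.Sb c.FEq σ τ p ∧ c.Sb c.FEq τ σ p := by
  constructor
  · rintro ⟨E, hE, h1, h2⟩
    exact (h1 σ hσ τ hτ p hp h2).imp (·.mono fun _ _ _ _ _ _ _ _ h => ⟨E, hE, h1, h⟩)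
      (·.mono fun _ _ _ _ _ _ _ _ h => ⟨E, hE, h1, h⟩)
  · intro h
    have hA := union_mem (uu_mem hσ) (uu_mem hτ)
    obtain ⟨B, hB, h1⟩ := sep2 (R := fun _ _ => True) .tru hA hA
    obtain ⟨X, hX, h2⟩ := sep2 (R := fun _ _ => True) .tru hB c.hP
    obtain ⟨b, hb, h3, h4⟩ := Dc.coll (R := fun x E => c.Post E ∧ x ∈ E)
      (.and (d_Post _) (.mem (.var _) (.var _))) hX
    have hU := Mdl.zf.union b hb
    have k : ∀ π ρ q, π ∈ _ → ρ ∈ _ → q ∈ c.P → c.FEq π ρ q →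
        In (insert (pair (pair σ τ) p) (⋃₀ b)) π ρ q := fun π ρ q a1 a2 a3 a4 =>
      let ⟨E, h5, h6⟩ := h3 _ ((h2 _).2 ⟨_, (h1 _).2 ⟨π, a1, ρ, a2, rfl, trivial⟩, q, a3, rfl,
        trivial⟩) a4
      mem_insert_of_mem _ (mem_sUnion.2 ⟨E, h5, h6.2⟩)
    refine ⟨_, insert_M (pair_mem (pair_mem hσ hτ) (tr c.hP hp)) hU, fun σ' h5 τ' h6 p' h7 h8 => ?_,
      mem_insert _ _⟩
    rcases mem_insert_iff.1 h8 with e | e
    · rw [pair_inj, pair_inj] at e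
      obtain ⟨⟨rfl, rfl⟩, rfl⟩ := e
      exact ⟨h.1.mono fun _ _ _ _ _ a1 a2 => k _ _ _ (mem_union.2 (.inl (left_mem a1)))
          (mem_union.2 (.inr (left_mem a2))),
        h.2.mono fun _ _ _ _ _ a1 a2 => k _ _ _ (mem_union.2 (.inr (left_mem a1)))
          (mem_union.2 (.inl (left_mem a2)))⟩
    · obtain ⟨E, h9, e⟩ := mem_sUnion.1 e
      obtain ⟨_, -, h10, -⟩ := h4 E h9
      exact (h10 σ' h5 τ' h6 p' h7 e).imp
        (·.mono fun _ _ _ _ _ _ _ _ h => mem_insert_of_mem _ (mem_sUnion.2 ⟨E, h9, h⟩))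
        (·.mono fun _ _ _ _ _ _ _ _ h => mem_insert_of_mem _ (mem_sUnion.2 ⟨E, h9, h⟩))

omit [Mdl M] in
theorem Sb.down {E : ZFSet → ZFSet → ZFSet → Prop} {σ τ p q : ZFSet} (h : c.Sb E σ τ p)
    (hp : p ∈ c.P) (hq : q ∈ c.P) (l : pair q p ∈ c.r) : c.Sb E σ τ q :=
  fun π hπ s hs h1 q' hq' h2 => h π hπ s hs h1 q' hq' (c.pre.2 _ hq' _ hq _ hp h2 l)

theorem FEq.down {σ τ p q : ZFSet} (h : c.FEq σ τ p) (hσ : σ ∈ M) (hτ : τ ∈ M)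
    (hp : p ∈ c.P) (hq : q ∈ c.P) (l : pair q p ∈ c.r) : c.FEq σ τ q :=
  (feq_iff hσ hτ hq).2 (((feq_iff hσ hτ hp).1 h).imp (·.down hp hq l) (·.down hp hq l))

theorem Mm.down {σ τ p q : ZFSet} (h : c.Mm c.FEq σ τ p) (hσ : σ ∈ M)
    (hp : p ∈ c.P) (hq : q ∈ c.P) (l : pair q p ∈ c.r) : c.Mm c.FEq σ τ q :=
  let ⟨ρ, a, t, b, d, e, f⟩ := h
  ⟨ρ, a, t, b, d, c.pre.2 _ hq _ hp _ b l e, f.down hσ a hp hq l⟩

theorem d_FMem (hs : Tm M s) (ht : Tm M t) (hu : Tm M u) :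
    Dc M fun v => c.Mm c.FEq (s v) (t v) (u v) :=
  d_Mm (E := fun _ => c.FEq) (fun _ _ _ _ => d_FEq) id hs ht hu

/-- The generic filter decides definable sets. -/
theorem decide {R : ZFSet → Prop} (h : Dc M fun v => R (v 0)) :
    ∃ p ∈ c.G, R p ∨ ∀ q ∈ c.P, pair q p ∈ c.r → ¬ R q := by
  have h' : ∀ i, Dc M fun v => R (v i) := fun i =>
    .rel (R := fun _ y => R y) h (.var 0) (.var i)
  obtain ⟨D, hD, e⟩ := Dc.sep (R := fun p => R p ∨ ∀ q ∈ c.P, pair q p ∈ c.r → ¬ R q)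
    (h.or (.ball (.con c.hP) (.imp (d_le (.var _) (.var _)) (h' _).not))) c.hP
  obtain ⟨p, hp, h1⟩ := c.gen.meet D hD fun p hp => by
    by_cases k : ∃ q ∈ c.P, pair q p ∈ c.r ∧ R q
    · obtain ⟨q, a, b, d⟩ := k
      exact ⟨q, a, (e q).2 ⟨a, .inl d⟩, b⟩
    · exact ⟨p, hp, (e p).2 ⟨hp, .inr fun q a b d => k ⟨q, a, b, d⟩⟩, c.pre.1 p hp⟩
  exact ⟨p, hp, ((e p).1 h1).2⟩

/-- The generic filter meets definable sets that are dense below one of its members. -/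
theorem dense {R : ZFSet → Prop} (h : Dc M fun v => R (v 0)) {p : ZFSet} (hp : p ∈ c.G)
    (hd : ∀ q ∈ c.P, pair q p ∈ c.r → ∃ q' ∈ c.P, pair q' q ∈ c.r ∧ R q') : ∃ q ∈ c.G, R q := by
  obtain ⟨q, hq, h1 | h1⟩ := c.decide h
  · exact ⟨q, hq, h1⟩
  · obtain ⟨s, hs, a, b⟩ := c.gen.dir p hp q hq
    obtain ⟨q', d, e, f⟩ := hd s (c.gen.sub s hs) a
    exact (h1 q' d (c.pre.2 _ d _ (c.gen.sub s hs) _ (c.gen.sub q hq) e b) f).elim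

theorem mem_aux {σ τ : ZFSet} (hσ : σ ∈ M) (hτ : τ ∈ M)
    (ih : ∀ ρ t, pair ρ t ∈ τ → (val c.G σ = val c.G ρ ↔ ∃ p ∈ c.G, c.FEq σ ρ p)) :
    val c.G σ ∈ val c.G τ ↔ ∃ p ∈ c.G, c.Mm c.FEq σ τ p := by
  rw [mem_val]
  constructor
  · rintro ⟨ρ, t, ht, h1, h2⟩
    obtain ⟨p, hp, h3⟩ := (ih ρ t h1).1 h2
    obtain ⟨s, hs, a, b⟩ := c.gen.dir p hp t ht
    exact ⟨s, hs, ρ, left_M hτ h1, t, c.gen.sub t ht, h1, b,
      h3.down hσ (left_M hτ h1) (c.gen.sub p hp) (c.gen.sub s hs) a⟩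
  · rintro ⟨p, hp, ρ, -, t, ht, h1, h2, h3⟩
    exact ⟨ρ, t, c.gen.up p hp t ht h2, h1, (ih ρ t h1).2 ⟨p, hp, h3⟩⟩

theorem sub_aux {σ τ : ZFSet} (hσ : σ ∈ M) (hτ : τ ∈ M)
    (ih : ∀ π s ρ t, pair π s ∈ σ → pair ρ t ∈ τ →
      (val c.G π = val c.G ρ ↔ ∃ p ∈ c.G, c.FEq π ρ p)) :
    val c.G σ ⊆ val c.G τ ↔ ∃ p ∈ c.G, c.Sb c.FEq σ τ p := by
  constructor
  · intro h
    obtain ⟨p, hp, h1 | h1⟩ := c.decide (R := fun q => ∃ π ∈ M, ∃ s ∈ c.P, pair π s ∈ σ ∧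
      pair q s ∈ c.r ∧ ∀ q' ∈ c.P, pair q' q ∈ c.r → ¬ c.Mm c.FEq π τ q')
      (.ex (.bex (.con c.hP) (.and (.mem (.pair (.var _) (.var _)) (.con hσ))
        (.and (d_le (.var _) (.var _)) (.ball (.con c.hP) (.imp (d_le (.var _) (.var _))
          (d_FMem (.var _) (.con hτ) (.var _)).not))))))
    · obtain ⟨π, hπ, s, hs, h2, h3, h4⟩ := h1
      obtain ⟨q, hq, h5⟩ := (mem_aux hπ hτ fun ρ t => ih π s ρ t h2).1
        (h (mem_val.2 ⟨π, s, c.gen.up p hp s hs h3, h2, rfl⟩))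
      obtain ⟨w, hw, a, b⟩ := c.gen.dir p hp q hq
      exact (h4 w (c.gen.sub w hw) a (h5.down hπ (c.gen.sub q hq) (c.gen.sub w hw) b)).elim
    · refine ⟨p, hp, fun π hπ s hs h2 q hq h3 h4 => by_contra fun k => h1 q hq h3
        ⟨π, hπ, s, hs, h2, h4, fun q' a b d => k ⟨q', a, b, d⟩⟩⟩
  · rintro ⟨p, hp, h⟩ z hz
    obtain ⟨π, s, hs, h1, rfl⟩ := mem_val.1 hz
    have hπ := left_M hσ h1
    obtain ⟨w, hw, a, b⟩ := c.gen.dir p hp s hs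
    refine (mem_aux hπ hτ fun ρ t => ih π s ρ t h1).2
      (c.dense (d_FMem (.con hπ) (.con hτ) (.var _)) hw fun q hq l => ?_)
    exact h π hπ s (c.gen.sub s hs) h1 q hq
      (c.pre.2 _ hq _ (c.gen.sub w hw) _ (c.gen.sub p hp) l a)
      (c.pre.2 _ hq _ (c.gen.sub w hw) _ (c.gen.sub s hs) l b)

theorem FEq.symm {σ τ p : ZFSet} (h : c.FEq σ τ p) (hσ : σ ∈ M) (hτ : τ ∈ M) (hp : p ∈ c.P) :
    c.FEq τ σ p := (feq_iff hτ hσ hp).2 ((feq_iff hσ hτ hp).1 h).symm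

theorem val_eq {σ : ZFSet} : σ ∈ M → ∀ {τ}, τ ∈ M →
    (val c.G σ = val c.G τ ↔ ∃ p ∈ c.G, c.FEq σ τ p) := by
  induction h : σ.rank using WellFoundedLT.induction generalizing σ with | _ o ih
  subst h
  intro hσ τ hτ
  have i1 : ∀ π s ρ t, pair π s ∈ σ → pair ρ t ∈ τ →
      (val c.G π = val c.G ρ ↔ ∃ p ∈ c.G, c.FEq π ρ p) := fun π s ρ t a b =>
    ih _ (rank_left a) rfl (left_M hσ a) (left_M hτ b)
  have i2 : ∀ ρ t π s, pair ρ t ∈ τ → pair π s ∈ σ →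
      (val c.G ρ = val c.G π ↔ ∃ p ∈ c.G, c.FEq ρ π p) := fun ρ t π s b a =>
    eq_comm.trans ((i1 π s ρ t a b).trans (exists_congr fun p => and_congr_right fun hp =>
      ⟨(·.symm (left_M hσ a) (left_M hτ b) (c.gen.sub p hp)),
        (·.symm (left_M hτ b) (left_M hσ a) (c.gen.sub p hp))⟩))
  rw [subset_antisymm_iff, sub_aux hσ hτ i1, sub_aux hτ hσ i2]
  constructor
  · rintro ⟨⟨p, hp, a⟩, q, hq, b⟩
    obtain ⟨w, hw, d, e⟩ := c.gen.dir p hp q hq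
    have := c.gen.sub w hw
    exact ⟨w, hw, (feq_iff hσ hτ this).2 ⟨a.down (c.gen.sub p hp) this d,
      b.down (c.gen.sub q hq) this e⟩⟩
  · rintro ⟨p, hp, a⟩
    have := (feq_iff hσ hτ (c.gen.sub p hp)).1 a
    exact ⟨⟨p, hp, this.1⟩, p, hp, this.2⟩

theorem val_mem {σ τ : ZFSet} (hσ : σ ∈ M) (hτ : τ ∈ M) :
    val c.G σ ∈ val c.G τ ↔ ∃ p ∈ c.G, c.Mm c.FEq σ τ p :=
  mem_aux hσ hτ fun _ _ h => val_eq hσ (left_M hτ h)

end Cx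

end Pool.Agent.Lib.MP_6993b6_lc.Q1
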