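import Pool.Agent.Lib.MP_6993b6_lc.Q1.GF2

/-!
The generic extension of a transitive model of ZF is a model of ZF.
-/

namespace Pool.Agent.Lib.MP_6993b6_lc.Q1

open ZFSet Pool.Agent.Shared.InModel Pool.Agent.Lib.MP_053343_lc

namespace Cx

variable {M : ZFSet.{0}} [Mdl M] (c : Cx M)

/-- The forcing relation. -/
def Fo : Fml → List ZFSet → ZFSet → Prop
  | .mem i j, l, p => c.Mm c.FEq (l.getD i ∅) (l.getD j ∅) p
  | .eq i j, l, p => c.FEq (l.getD i ∅) (l.getD j ∅) p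
  | .neg φ, l, p => ∀ q ∈ c.P, pair q p ∈ c.r → ¬ Fo φ l q
  | .and φ ψ, l, p => Fo φ l p ∧ Fo ψ l p
  | .ex φ, l, p => ∃ σ ∈ M, Fo φ (σ :: l) p

/-- The extension. -/
noncomputable def N : ZFSet.{0} := ZFSet.range fun τ : M => val c.G τ.1

variable {c}

omit [Mdl M] in
theorem mem_N {x : ZFSet} : x ∈ c.N ↔ ∃ τ ∈ M, x = val c.G τ := by
  rw [N, mem_range]
  exact ⟨fun ⟨τ, e⟩ => ⟨τ, τ.2, e.symm⟩, fun ⟨τ, h, e⟩ => ⟨⟨τ, h⟩, e.symm⟩⟩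

omit [Mdl M] in
theorem val_N {τ : ZFSet} (h : τ ∈ M) : val c.G τ ∈ c.N := mem_N.2 ⟨τ, h, rfl⟩

omit [Mdl M] in
theorem isExt : IsExtG M c.G c.N := ⟨val c.G, fun _ _ => mem_val, fun _ => mem_N⟩

theorem Fo.down {φ : Fml} : ∀ {l : List ZFSet} {p q : ZFSet}, c.Fo φ l p → (∀ x ∈ l, x ∈ M) →
    p ∈ c.P → q ∈ c.P → pair q p ∈ c.r → c.Fo φ l q := by
  induction φ with
  | mem i j => exact fun h hl => Mm.down h (getD_mem hl i)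
  | eq i j => exact fun h hl => FEq.down h (getD_mem hl i) (getD_mem hl j)
  | neg φ _ => exact fun h _ a b d s hs e => h s hs (c.pre.2 _ hs _ b _ a e d)
  | and φ ψ i j => exact fun h hl a b d => ⟨i h.1 hl a b d, j h.2 hl a b d⟩
  | ex φ i =>
    exact fun ⟨σ, h1, h⟩ hl a b d => ⟨σ, h1, i h (List.forall_mem_cons.2 ⟨h1, hl⟩) a b d⟩

theorem d_Fo (φ : Fml) : ∀ (L : List (Vl → ZFSet)) (t : Vl → ZFSet), (∀ s ∈ L, Tm M s) → Tm M t →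
    Dc M fun v => c.Fo φ (L.map fun s => s v) (t v) := by
  have k : ∀ (L : List (Vl → ZFSet)) i, (∀ s ∈ L, Tm M s) →
      Tm M fun v => (L.map fun s => s v).getD i ∅ := fun L i h => by
    simp only [List.getD_eq_getElem?_getD, List.getElem?_map]
    cases e : L[i]? with
    | none => exact .con empty_mem
    | some a => exact h a (List.mem_of_getElem? e)
  have k2 : ∀ L : List (Vl → ZFSet), (∀ s ∈ L, Tm M s) →
      ∀ s ∈ L.map fun s (v : Vl) => s fun i => v (i + 1), Tm M s := fun L h =>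
    List.forall_mem_map.2 fun s hs => (h s hs).ren _
  induction φ with
  | mem i j => exact fun L t h ht => d_FMem (k L i h) (k L j h) ht
  | eq i j => exact fun L t h ht => d_FEq (k L i h) (k L j h) ht
  | neg φ ih =>
    refine fun L t h ht => .ball (.con c.hP) (.imp (d_le (.var _) (ht.ren _)) (.not ?_))
    simpa only [List.map_map, Function.comp_def] using ih _ _ (k2 L h) (.var 0)
  | and φ ψ i j => exact fun L t h ht => (i L t h ht).and (j L t h ht)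
  | ex φ ih =>
    refine fun L t h ht => .ex ?_
    simpa only [List.map_map, Function.comp_def, List.map_cons] using
      ih (_ :: _) _ (List.forall_mem_cons.2 ⟨.var 0, k2 L h⟩) (ht.ren (· + 1))

theorem d_Fo' (φ : Fml) {l : List ZFSet} (hl : ∀ x ∈ l, x ∈ M) (L : List (Vl → ZFSet))
    (h : ∀ s ∈ L, Tm M s) {t : Vl → ZFSet} (ht : Tm M t) :
    Dc M fun v => c.Fo φ ((L.map fun s => s v) ++ l) (t v) := by
  simpa only [List.map_append, List.map_map, Function.comp_def, List.map_id'] using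
    d_Fo (c := c) φ (L ++ l.map fun x _ => x) t (List.forall_mem_append.2
      ⟨h, List.forall_mem_map.2 fun x hx => .con (hl x hx)⟩) ht

omit [Mdl M] in
theorem getD_val (l : List ZFSet) (i : ℕ) :
    (l.map (val c.G)).getD i ∅ = val c.G (l.getD i ∅) := by
  have : val c.G ∅ = ∅ := by ext; simp [mem_val]
  rw [← List.getD_map l ∅ (val c.G), this]

theorem truth (φ : Fml) : ∀ {l : List ZFSet}, (∀ x ∈ l, x ∈ M) →
    (Sat c.N φ (l.map (val c.G)) ↔ ∃ p ∈ c.G, c.Fo φ l p) := by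
  induction φ with
  | mem i j =>
    intro l h
    simp only [Sat, getD_val]
    exact val_mem (getD_mem h i) (getD_mem h j)
  | eq i j =>
    intro l h
    simp only [Sat, getD_val]
    exact val_eq (getD_mem h i) (getD_mem h j)
  | neg φ ih =>
    refine fun {l} h => (not_congr (ih h)).trans ⟨fun k => ?_, fun ⟨p, hp, a⟩ ⟨q, hq, b⟩ => ?_⟩
    · obtain ⟨p, hp, a⟩ := c.decide (R := c.Fo φ l) (d_Fo' φ h [] (by simp) (.var 0))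
      exact ⟨p, hp, a.resolve_left fun a => k ⟨p, hp, a⟩⟩
    · obtain ⟨w, hw, d, e⟩ := c.gen.dir p hp q hq
      exact a w (c.gen.sub w hw) d (b.down h (c.gen.sub q hq) (c.gen.sub w hw) e)
  | and φ ψ i j =>
    refine fun {l} h => (and_congr (i h) (j h)).trans
      ⟨fun ⟨⟨p, hp, a⟩, q, hq, b⟩ => ?_, fun ⟨p, hp, a⟩ => ⟨⟨p, hp, a.1⟩, p, hp, a.2⟩⟩
    obtain ⟨w, hw, d, e⟩ := c.gen.dir p hp q hq
    exact ⟨w, hw, a.down h (c.gen.sub p hp) (c.gen.sub w hw) d,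
      b.down h (c.gen.sub q hq) (c.gen.sub w hw) e⟩
  | ex φ ih =>
    intro l h
    constructor
    · rintro ⟨x, hx, a⟩
      obtain ⟨σ, hσ, rfl⟩ := mem_N.1 hx
      obtain ⟨p, hp, b⟩ := (ih (List.forall_mem_cons.2 ⟨hσ, h⟩)).1 a
      exact ⟨p, hp, σ, hσ, b⟩
    · rintro ⟨p, hp, σ, hσ, b⟩
      exact ⟨_, val_N hσ, (ih (List.forall_mem_cons.2 ⟨hσ, h⟩)).2 ⟨p, hp, b⟩⟩

/-- Names given by definable relations. -/
theorem nm {R : ZFSet → ZFSet → Prop} (h : Dc M fun v => R (v 0) (v 1)) {A : ZFSet} (hA : A ∈ M) :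
    ∃ τ ∈ M, (∀ z, z ∈ τ ↔ ∃ σ ∈ A, ∃ p ∈ c.P, z = pair σ p ∧ R σ p) ∧
      ∀ z, z ∈ val c.G τ ↔ ∃ σ ∈ A, ∃ p ∈ c.G, R σ p ∧ z = val c.G σ := by
  obtain ⟨τ, hτ, e⟩ := sep2 h hA c.hP
  refine ⟨τ, hτ, e, fun z => mem_val.trans ⟨?_, fun ⟨σ, a, p, b, d, f⟩ =>
    ⟨σ, p, b, (e _).2 ⟨σ, a, p, c.gen.sub p b, rfl, d⟩, f⟩⟩⟩
  rintro ⟨σ, p, a, b, d⟩
  obtain ⟨σ', f, p', -, g, i⟩ := (e _).1 b
  obtain ⟨rfl, rfl⟩ := pair_inj.1 g
  exact ⟨σ, f, p, a, i, d⟩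

theorem ne : ∃ p, p ∈ c.G := let ⟨p, hp, _⟩ := c.decide (R := fun _ => True) .tru; ⟨p, hp⟩

theorem nm_all {A : ZFSet} (hA : A ∈ M) :
    ∃ y ∈ c.N, ∀ z, z ∈ y ↔ ∃ σ ∈ A, z = val c.G σ := by
  obtain ⟨τ, hτ, -, e⟩ := c.nm (R := fun _ _ => True) .tru hA
  obtain ⟨p, hp⟩ := c.ne
  exact ⟨_, val_N hτ, fun z => (e z).trans ⟨fun ⟨σ, a, _, _, _, b⟩ => ⟨σ, a, b⟩,
    fun ⟨σ, a, b⟩ => ⟨σ, a, p, hp, trivial, b⟩⟩⟩

omit [Mdl M] in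
theorem mem_dom {τ z : ZFSet} (h : z ∈ val c.G τ) : ∃ σ ∈ (⋃₀ (⋃₀ τ) : ZFSet), z = val c.G σ :=
  let ⟨σ, _, _, a, b⟩ := mem_val.1 h; ⟨σ, left_mem a, b⟩

theorem trans : c.N.IsTransitive := fun x hx z hz => by
  obtain ⟨τ, hτ, rfl⟩ := mem_N.1 hx
  obtain ⟨σ, a, rfl⟩ := mem_dom hz
  exact val_N (tr (uu_mem hτ) a)

omit [Mdl M] in
theorem names {l : List ZFSet} (h : ∀ x ∈ l, x ∈ c.N) :
    ∃ l' : List ZFSet, (∀ x ∈ l', x ∈ M) ∧ l'.map (val c.G) = l := by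
  induction l with
  | nil => exact ⟨[], by simp, rfl⟩
  | cons a l ih =>
    obtain ⟨l', h1, rfl⟩ := ih fun x hx => h x (List.mem_cons_of_mem _ hx)
    obtain ⟨σ, hσ, rfl⟩ := mem_N.1 (h a List.mem_cons_self)
    exact ⟨σ :: l', List.forall_mem_cons.2 ⟨hσ, h1⟩, rfl⟩

variable (c) in
/-- `E` is a set of pairs of a set and a canonical name for it. -/
def Can (E : ZFSet) : Prop :=
  ∀ x ∈ M, ∀ τ ∈ M, pair x τ ∈ E →
    (∀ y ∈ x, ∃ σ ∈ M, pair y σ ∈ E ∧ ∀ p ∈ c.P, pair σ p ∈ τ) ∧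
      ∀ σ ∈ M, ∀ p ∈ c.P, pair σ p ∈ τ → ∃ y ∈ x, pair y σ ∈ E

theorem d_Can (i : ℕ) : Dc M fun v => c.Can (v i) :=
  .all (.all (.imp (.mem (.pair (.var _) (.var _)) (.var _)) (.and
    (.ball (.var _) (.ex (.and (.mem (.pair (.var _) (.var _)) (.var _))
      (.ball (.con c.hP) (.mem (.pair (.var _) (.var _)) (.var _))))))
    (.all (.ball (.con c.hP) (.imp (.mem (.pair (.var _) (.var _)) (.var _))
      (.bex (.var _) (.mem (.pair (.var _) (.var _)) (.var _)))))))))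

theorem Can.val {E : ZFSet} (h : c.Can E) (hE : E ∈ M) {x : ZFSet} :
    ∀ {τ}, pair x τ ∈ E → val c.G τ = x := by
  induction x using ZFSet.inductionOn with | _ x ih
  intro τ e
  obtain ⟨h1, h2⟩ := h x (left_M hE e) τ (right_M hE e) e
  ext z
  rw [mem_val]
  constructor
  · rintro ⟨σ, p, hp, a, rfl⟩
    obtain ⟨y, hy, b⟩ := h2 σ (left_M (right_M hE e) a) p (c.gen.sub p hp) a
    rwa [ih y hy b]
  · intro hz
    obtain ⟨σ, -, a, b⟩ := h1 z hz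
    obtain ⟨p, hp⟩ := c.ne
    exact ⟨σ, p, hp, b p (c.gen.sub p hp), (ih z hz a).symm⟩

theorem can_step {a : ZFSet} (ha : a ∈ M)
    (h : ∀ y ∈ a, ∃ E ∈ M, c.Can E ∧ ∃ σ ∈ M, pair y σ ∈ E) :
    ∃ U ∈ M, c.Can U ∧ ∀ y ∈ a, ∃ σ ∈ M, pair y σ ∈ U := by
  obtain ⟨b, hb, h1, h2⟩ := Dc.coll (R := fun y E => c.Can E ∧ ∃ σ ∈ M, pair y σ ∈ E)
    (.and (d_Can _) (.ex (.mem (.pair (.var _) (.var _)) (.var _)))) ha
  refine ⟨_, Mdl.zf.union b hb, fun x hx τ hτ e => ?_, fun y hy => ?_⟩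
  · obtain ⟨E, hE, e⟩ := mem_sUnion.1 e
    obtain ⟨_, -, h3, -⟩ := h2 E hE
    obtain ⟨h4, h5⟩ := h3 x hx τ hτ e
    exact ⟨fun y hy => let ⟨σ, i, j, k⟩ := h4 y hy; ⟨σ, i, mem_sUnion.2 ⟨E, hE, j⟩, k⟩,
      fun σ i p j k => let ⟨y, hy, l⟩ := h5 σ i p j k; ⟨y, hy, mem_sUnion.2 ⟨E, hE, l⟩⟩⟩
  · obtain ⟨E, hE, -, σ, i, j⟩ := h1 y hy (h y hy)
    exact ⟨σ, i, mem_sUnion.2 ⟨E, hE, j⟩⟩

theorem can_all {x : ZFSet} : x ∈ M → ∃ E ∈ M, c.Can E ∧ ∃ σ ∈ M, pair x σ ∈ E := by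
  induction x using ZFSet.inductionOn with | _ x ih
  intro hx
  obtain ⟨U, hU, h1, h2⟩ := can_step hx fun y hy => ih y hy (tr hx hy)
  obtain ⟨τ, hτ, e, -⟩ := c.nm (R := fun σ _ => ∃ y ∈ x, pair y σ ∈ U)
    (.bex (.con hx) (.mem (.pair (.var _) (.var _)) (.con hU))) (uu_mem hU)
  refine ⟨_, insert_M (pair_mem hx hτ) hU, fun x' a τ' b d => ?_, τ, hτ, mem_insert _ _⟩
  rcases mem_insert_iff.1 d with d | d
  · obtain ⟨rfl, rfl⟩ := pair_inj.1 d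
    refine ⟨fun y hy => ?_, fun σ _ p _ k => ?_⟩
    · obtain ⟨σ, i, j⟩ := h2 y hy
      exact ⟨σ, i, mem_insert_of_mem _ j, fun p hp =>
        (e _).2 ⟨σ, right_mem j, p, hp, rfl, y, hy, j⟩⟩
    · obtain ⟨σ', -, p', -, f, y, hy, g⟩ := (e _).1 k
      obtain ⟨rfl, -⟩ := pair_inj.1 f
      exact ⟨y, hy, mem_insert_of_mem _ g⟩
  · obtain ⟨h4, h5⟩ := h1 x' a τ' b d
    exact ⟨fun y hy => let ⟨σ, i, j, k⟩ := h4 y hy; ⟨σ, i, mem_insert_of_mem _ j, k⟩,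
      fun σ i p j k => let ⟨y, hy, l⟩ := h5 σ i p j k; ⟨y, hy, mem_insert_of_mem _ l⟩⟩

/-- Canonical names for the members of a set. -/
theorem can {a : ZFSet} (ha : a ∈ M) : ∃ U ∈ M, (∀ x σ, pair x σ ∈ U → val c.G σ = x) ∧
    ∀ y ∈ a, ∃ σ, pair y σ ∈ U :=
  let ⟨U, hU, h1, h2⟩ := can_step (c := c) ha fun _ hy => can_all (tr ha hy)
  ⟨U, hU, fun _ _ => h1.val hU, fun y hy => (h2 y hy).imp fun _ => And.right⟩

theorem sub {x : ZFSet} (hx : x ∈ M) : x ∈ c.N :=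
  let ⟨_, hE, h, _, hσ, e⟩ := c.can_all hx; h.val hE e ▸ val_N hσ

theorem modelZF : ModelZF c.N where
  trans := trans
  ext a ha b hb h := ZFSet.ext fun x =>
    ⟨fun hx => (h x (trans a ha hx)).1 hx, fun hx => (h x (trans b hb hx)).2 hx⟩
  found a ha := by
    rintro ⟨x, -, hx⟩
    obtain ⟨y, hy, h⟩ := ZFSet.mem_wf.has_min {y | y ∈ a} ⟨x, hx⟩
    exact ⟨y, trans a ha hy, hy, fun ⟨z, _, h1, h2⟩ => h z h2 h1⟩
  pair a ha b hb := by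
    obtain ⟨σ, hσ, rfl⟩ := mem_N.1 ha
    obtain ⟨τ, hτ, rfl⟩ := mem_N.1 hb
    obtain ⟨y, hy, e⟩ := c.nm_all (Mdl.zf.pair σ hσ τ hτ)
    rwa [show ({val c.G σ, val c.G τ} : ZFSet) = y from ZFSet.ext fun z => by simp [e]]
  union a ha := by
    obtain ⟨τ, hτ, rfl⟩ := mem_N.1 ha
    have hA := uu_mem (Mdl.zf.union _ (uu_mem hτ))
    obtain ⟨υ, hυ, -, e⟩ := c.nm (R := fun σ p => c.Fo (.ex (.and (.mem 1 0) (.mem 0 2))) [σ, τ] p)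
      (d_Fo' _ (l := [τ]) (by simpa) [fun v => v 0] (by simpa using .var 0) (.var 1)) hA
    refine mem_N.2 ⟨υ, hυ, ZFSet.ext fun z => (mem_sUnion.trans ⟨?_, ?_⟩).trans (e z).symm⟩
    · rintro ⟨y, h1, h2⟩
      obtain ⟨π, a, rfl⟩ := mem_dom h1
      obtain ⟨σ, p, -, b, rfl⟩ := mem_val.1 h2
      have hσ := left_mem (mem_sUnion.2 ⟨π, a, b⟩)
      obtain ⟨q, hq, d⟩ := (c.truth (.ex (.and (.mem 1 0) (.mem 0 2))) (l := [σ, τ])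
        (by simp [tr hA hσ, hτ])).1 ⟨_, val_N (tr (uu_mem hτ) a), h2, h1⟩
      exact ⟨σ, hσ, q, hq, d, rfl⟩
    · rintro ⟨σ, hσ, q, hq, d, rfl⟩
      obtain ⟨y, -, h2, h1⟩ := (c.truth _ (by simp [tr hA hσ, hτ])).2 ⟨q, hq, d⟩
      exact ⟨y, h1, h2⟩
  power a ha := by
    obtain ⟨τ, hτ, rfl⟩ := mem_N.1 ha
    obtain ⟨τ', hτ', e, e'⟩ := c.nm (R := fun σ p => c.Mm c.FEq σ τ p)
      (d_FMem (.var _) (.con hτ) (.var _)) (uu_mem hτ)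
    obtain ⟨A, hA, h1⟩ := Mdl.zf.power τ' hτ'
    obtain ⟨y, hy, h2⟩ := c.nm_all hA
    refine ⟨y, hy, fun x hx => (h2 x).trans ⟨?_, fun h => ?_⟩⟩
    · rintro ⟨σ, hσ, rfl⟩ z hz
      obtain ⟨π, p, hp, b, rfl⟩ := mem_val.1 hz
      obtain ⟨π', d, p', -, f, g⟩ := (e _).1 ((h1 σ (tr hA hσ)).1 hσ b)
      obtain ⟨rfl, rfl⟩ := pair_inj.1 f
      exact (val_mem (tr (uu_mem hτ) d) hτ).2 ⟨p, hp, g⟩
    · obtain ⟨σ, hσ, rfl⟩ := mem_N.1 hx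
      obtain ⟨σ', hσ', f, f'⟩ := c.nm (R := fun π p => c.Mm c.FEq π τ p ∧ c.Mm c.FEq π σ p)
        (.and (d_FMem (.var _) (.con hτ) (.var _)) (d_FMem (.var _) (.con hσ) (.var _)))
        (uu_mem hτ)
      refine ⟨σ', (h1 σ' hσ').2 fun z hz => ?_, ZFSet.ext fun z => ⟨fun hz => ?_, fun hz => ?_⟩⟩
      · obtain ⟨π, i, p, j, k, l⟩ := (f z).1 hz
        exact (e z).2 ⟨π, i, p, j, k, l.1⟩
      · obtain ⟨π, i, rfl⟩ := mem_dom (h hz)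
        have hπ := tr (uu_mem hτ) i
        obtain ⟨p, hp, j⟩ := (val_mem hπ hτ).1 (h hz)
        obtain ⟨q, hq, k⟩ := (val_mem hπ hσ).1 hz
        obtain ⟨w, hw, m, n⟩ := c.gen.dir p hp q hq
        exact (f' _).2 ⟨π, i, w, hw, ⟨j.down hπ (c.gen.sub p hp) (c.gen.sub w hw) m,
          k.down hπ (c.gen.sub q hq) (c.gen.sub w hw) n⟩, rfl⟩
      · obtain ⟨π, i, p, hp, j, rfl⟩ := (f' z).1 hz
        exact (val_mem (tr (uu_mem hτ) i) hσ).2 ⟨p, hp, j.2⟩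
  inf := sub Mdl.zf.inf
  sep φ l hl a ha := by
    obtain ⟨τ, hτ, rfl⟩ := mem_N.1 ha
    obtain ⟨l, h, rfl⟩ := names hl
    obtain ⟨υ, hυ, -, e⟩ := c.nm (R := fun σ p => c.Mm c.FEq σ τ p ∧ c.Fo φ (σ :: l) p)
      (.and (d_FMem (.var _) (.con hτ) (.var _))
        (d_Fo' φ h [fun v => v 0] (by simpa using .var 0) (.var 1))) (uu_mem hτ)
    refine mem_N.2 ⟨υ, hυ, ZFSet.ext fun z => (mem_sep.trans ⟨?_, ?_⟩).trans (e z).symm⟩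
    · rintro ⟨h1, h2⟩
      obtain ⟨π, i, rfl⟩ := mem_dom h1
      have hπ := tr (uu_mem hτ) i
      have hl' := List.forall_mem_cons.2 ⟨hπ, h⟩
      obtain ⟨p, hp, j⟩ := (val_mem hπ hτ).1 h1
      obtain ⟨q, hq, k⟩ := (c.truth φ hl').1 h2
      obtain ⟨w, hw, m, n⟩ := c.gen.dir p hp q hq
      exact ⟨π, i, w, hw, ⟨j.down hπ (c.gen.sub p hp) (c.gen.sub w hw) m,
        k.down hl' (c.gen.sub q hq) (c.gen.sub w hw) n⟩, rfl⟩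
    · rintro ⟨π, i, p, hp, j, rfl⟩
      have hπ := tr (uu_mem hτ) i
      exact ⟨(val_mem hπ hτ).2 ⟨p, hp, j.1⟩,
        (c.truth φ (List.forall_mem_cons.2 ⟨hπ, h⟩)).2 ⟨p, hp, j.2⟩⟩
  coll φ l hl a ha k := by
    obtain ⟨τ, hτ, rfl⟩ := mem_N.1 ha
    obtain ⟨l, h, rfl⟩ := names hl
    obtain ⟨X, hX, e, -⟩ := c.nm (R := fun _ _ => True) .tru (uu_mem hτ)
    obtain ⟨b, hb, h1, -⟩ := Dc.coll
      (R := fun x σ => ∃ π ∈ M, ∃ p ∈ c.P, x = pair π p ∧ c.Fo φ (σ :: π :: l) p)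
      (.ex (.bex (.con c.hP) (.and (.eq (.var _) (.pair (.var _) (.var _)))
        (d_Fo' φ h [fun v => v 3, fun v => v 1] (by simpa using ⟨.var 3, .var 1⟩) (.var 0))))) hX
    obtain ⟨y, hy, h2⟩ := c.nm_all hb
    refine ⟨y, hy, fun x hx => ?_⟩
    obtain ⟨z, hz, h3⟩ := k x hx
    obtain ⟨π, i, rfl⟩ := mem_dom hx
    obtain ⟨σ, hσ, rfl⟩ := mem_N.1 hz
    have hπ := tr (uu_mem hτ) i
    have hl' := List.forall_mem_cons.2 ⟨hπ, h⟩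
    obtain ⟨p, hp, h4⟩ := (c.truth φ (List.forall_mem_cons.2 ⟨hσ, hl'⟩)).1 h3
    obtain ⟨σ', j, π', -, p', -, m, n⟩ := h1 _ ((e _).2 ⟨π, i, p, c.gen.sub p hp, rfl, trivial⟩)
      ⟨σ, hσ, π, hπ, p, c.gen.sub p hp, rfl, h4⟩
    obtain ⟨rfl, rfl⟩ := pair_inj.1 m
    exact ⟨_, (h2 _).2 ⟨σ', j, rfl⟩,
      (c.truth φ (List.forall_mem_cons.2 ⟨tr hb j, hl'⟩)).2 ⟨p, hp, n⟩⟩

instance : Mdl c.N := ⟨modelZF⟩

end Cx

end Pool.Agent.Lib.MP_6993b6_lc.Q1
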