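import Pool.Agent.Lib.MP_6993b6_lc.Q1.GF3
import Pool.Agent.Lib.MP_6993b6_lc.Q1.B0

/-!
Choice in the generic extension, existence of generic filters, and the typed interface.
-/

namespace Pool.Agent.Lib.MP_6993b6_lc.Q1

open ZFSet Pool.Agent.Shared.InModel Pool.Agent.Lib.MP_053343_lc

universe u v

variable {M N : ZFSet.{0}} [Mdl M]

/-- Membership of the code in a set of the model. -/
theorem mfz {α : Type u} [Cd M α] {s : ZFSet} (hs : s ∈ M) : MF M fun x : α => cd M x ∈ s :=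
  .of_df (.intro (.mem 0 1) [s] (by simpa) fun _ => Iff.rfl)

/-- The codes in both models agree. -/
class Same (M N : ZFSet.{0}) (α : Type u) [Cd M α] [Cd N α] : Prop where
  e : ∀ x : α, cd N x = cd M x

/-- The coding in a larger model. -/
@[reducible] def cdUp (h : ∀ x ∈ M, x ∈ N) (α : Type u) [Cd M α] : Cd N α where
  c := cd M
  inj := Cd.inj
  ex := (Cd.ex (M := M)).imp fun _ a => ⟨h _ a.1, a.2⟩

variable [Mdl N]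

instance {α : Type u} {β : Type v} [Cd M α] [Cd N α] [Cd M β] [Cd N β] [Same M N α] [Same M N β] :
    Same M N (α × β) := ⟨fun x => congrArg₂ pair (Same.e x.1) (Same.e x.2)⟩

instance : Same M N Prop := ⟨fun _ => rfl⟩

instance : Same M N ℕ := ⟨fun _ => rfl⟩

theorem mf_up {α : Type u} {β : Type v} [Cd M α] [Cd N α] [Cd M β] [Cd N β] [Same M N α]
    [Same M N β] (h : ∀ x ∈ M, x ∈ N) {f : α → β} (hf : MF M f) : MF N f :=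
  let ⟨a, h1, h2⟩ := hf
  ⟨a, h _ h1, fun z => by simp only [h2 z, Same.e (M := M) (N := N)]⟩

variable (M N) in
/-- `N` is an extension of `M` by the generic filter `G`. -/
structure Ex {P : Type 1} [Cd M P] [Preorder P] (G : P → Prop) : Prop where
  sub : ∀ x ∈ M, x ∈ N
  up : ∀ p q, G p → p ≤ q → G q
  dir : ∀ p q, G p → G q → ∃ s, G s ∧ s ≤ p ∧ s ≤ q
  dec : ∀ D : P → Prop, MF M D → ∃ p, G p ∧ (D p ∨ ∀ q ≤ p, ¬ D q)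
  gen : ∃ g ∈ N, ∀ p, cd M p ∈ g ↔ G p
  name : ∀ (α : Type 1) [Cd M α], ∀ s ∈ N, ∃ R : P → α → Prop,
    MF M (fun x : P × α => R x.1 x.2) ∧ ∀ x, cd M x ∈ s ↔ ∃ p, G p ∧ R p x

namespace Cx

variable {c : Cx M}

variable (c) in
/-- `υ` names the unordered pair. -/
def Up (υ a b : ZFSet) : Prop := ∀ σ ∈ M, ∀ p ∈ c.P, pair σ p ∈ υ ↔ σ = a ∨ σ = b

theorem d_Up (i j k : ℕ) : Dc M fun v => c.Up (v i) (v j) (v k) :=
  .all (.ball (.con c.hP) (.iff (.mem (.pair (.var _) (.var _)) (.var _))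
    (.or (.eq (.var _) (.var _)) (.eq (.var _) (.var _)))))

theorem Up.val {υ a b : ZFSet} (h : c.Up υ a b) (hυ : υ ∈ M) (ha : a ∈ M) (hb : b ∈ M) :
    val c.G υ = {val c.G a, val c.G b} := by
  ext z
  rw [mem_val, mem_pair]
  obtain ⟨p, hp⟩ := c.ne
  constructor
  · rintro ⟨σ, q, hq, e, rfl⟩
    exact ((h σ (left_M hυ e) q (c.gen.sub q hq)).1 e).imp (congrArg _) (congrArg _)
  · rintro (rfl | rfl)
    · exact ⟨a, p, hp, (h a ha p (c.gen.sub p hp)).2 (.inl rfl), rfl⟩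
    · exact ⟨b, p, hp, (h b hb p (c.gen.sub p hp)).2 (.inr rfl), rfl⟩

theorem up_ex {a b : ZFSet} (ha : a ∈ M) (hb : b ∈ M) : ∃ υ ∈ M, c.Up υ a b := by
  obtain ⟨υ, hυ, e, -⟩ := c.nm (R := fun _ _ => True) .tru (Mdl.zf.pair a ha b hb)
  refine ⟨υ, hυ, fun σ _ p hp => (e _).trans ⟨?_, fun h => ⟨σ, mem_pair.2 h, p, hp, rfl, trivial⟩⟩⟩
  rintro ⟨σ', h, p', -, f, -⟩
  exact (pair_inj.1 f).1 ▸ mem_pair.1 h

theorem graph {A : ZFSet} (hA : A ∈ M) :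
    ∃ Γ ∈ c.N, ∀ z, z ∈ Γ ↔ ∃ π ∈ A, z = pair π (val c.G π) := by
  obtain ⟨U, hU, h1, h2⟩ := c.can hA
  obtain ⟨b, hb, h3, h4⟩ := Dc.coll (R := fun π υ => ∃ k ∈ M, pair π k ∈ U ∧ ∃ x ∈ M, ∃ y ∈ M,
    c.Up x k k ∧ c.Up y k π ∧ c.Up υ x y) (.ex (.and (.mem (.pair (.var _) (.var _)) (.con hU))
      (.ex (.ex (.and (d_Up _ _ _) (.and (d_Up _ _ _) (d_Up _ _ _))))))) hA
  obtain ⟨Γ, hΓ, e⟩ := c.nm_all hb
  have k : ∀ π ∈ A, ∀ υ ∈ b, (∃ k ∈ M, pair π k ∈ U ∧ ∃ x ∈ M, ∃ y ∈ M,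
      c.Up x k k ∧ c.Up y k π ∧ c.Up υ x y) → val c.G υ = pair π (val c.G π) := by
    rintro π a υ d ⟨k, hk, f, x, hx, y, hy, g, i, j⟩
    rw [j.val (tr hb d) hx hy, g.val hx hk hk, i.val hy hk (tr hA a), h1 _ _ f]
    simp [ZFSet.pair]
  refine ⟨Γ, hΓ, fun z => (e z).trans ⟨?_, ?_⟩⟩
  · rintro ⟨υ, d, rfl⟩
    obtain ⟨π, a, f⟩ := h4 υ d
    exact ⟨π, a, k π a υ d f⟩
  · rintro ⟨π, a, rfl⟩
    obtain ⟨σ, f⟩ := h2 π a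
    have hσ := right_M hU f
    obtain ⟨x, hx, g⟩ := c.up_ex hσ hσ
    obtain ⟨y, hy, i⟩ := c.up_ex hσ (tr hA a)
    obtain ⟨υ, hυ, j⟩ := c.up_ex hx hy
    obtain ⟨υ', d, l⟩ := h3 π a ⟨υ, hυ, σ, hσ, f, x, hx, y, hy, g, i, j⟩
    exact ⟨υ', d, (k π a υ' d l).symm⟩

instance [Chc M] : Chc c.N := ⟨fun a => by
  obtain ⟨τ, hτ, e⟩ := mem_N.1 a.2
  obtain ⟨Γ, hΓ, h⟩ := c.graph (uu_mem hτ)
  obtain ⟨r, h1, h2⟩ := Chc.wo (M := M) ⟨_, uu_mem hτ⟩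
  let _ := cdUp (fun _ => c.sub) (ZE (M := M) ⟨_, uu_mem hτ⟩)
  have : Same M c.N (ZE (M := M) ⟨_, uu_mem hτ⟩) := ⟨fun _ => rfl⟩
  have h3 := mf_up (fun _ => c.sub) h2
  obtain ⟨g, hg, h4⟩ := choice_of_wo r h3 (R := fun (x : ZE a) π => cd c.N (π, x) ∈ Γ)
    ((mfz hΓ).comp (by fun_prop)) fun x => by
      obtain ⟨π, i, j⟩ := mem_dom (c := c) (τ := τ) (z := x.1) (by rw [← e]; exact x.2)
      exact ⟨⟨π, i⟩, (h _).2 ⟨π, i, congrArg (pair π) j⟩⟩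
  have k : ∀ x, x.1 = val c.G (g x).1 := fun x => by
    obtain ⟨π, -, j⟩ := (h _).1 (h4 x)
    obtain ⟨j1, j2⟩ := pair_inj.1 j
    exact j2.trans (congrArg _ j1.symm)
  have inj : Function.Injective g := fun x y e => Subtype.ext (by rw [k, k, e])
  exact ⟨fun x y => r (g x) (g y), (RelEmbedding.preimage ⟨g, inj⟩ r).isWellOrder, by fun_prop⟩⟩

variable (c) in
/-- The conditions as a coded type. -/
def Ty : Type 1 := ZE (M := M) ⟨c.P, c.hP⟩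

noncomputable instance : Cd M c.Ty := inferInstanceAs (Cd M (ZE _))

instance : Preorder c.Ty where
  le p q := pair p.1 q.1 ∈ c.r
  le_refl p := c.pre.1 _ p.2
  le_trans p q s := c.pre.2 _ p.2 _ q.2 _ s.2

instance : OM M c.Ty := ⟨mfz c.hr⟩

theorem ex : Ex M c.N fun p : c.Ty => p.1 ∈ c.G where
  sub _ := sub
  up p q h := c.gen.up _ h _ q.2
  dir p q hp hq := let ⟨s, a, b⟩ := c.gen.dir _ hp _ hq; ⟨⟨s, c.gen.sub s a⟩, a, b⟩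
  dec D hD := by
    obtain ⟨d, hd, e⟩ := hD.df
    have k : ∀ p : c.Ty, p.1 ∈ d ↔ D p := fun p =>
      (e _).trans ⟨fun ⟨_, a, b⟩ => (cd_inj.1 b : _ = p) ▸ a, fun a => ⟨p, a, rfl⟩⟩
    obtain ⟨p, hp, h⟩ := c.decide (R := fun p => p ∈ d) (.mem (.var _) (.con hd))
    exact ⟨⟨p, c.gen.sub p hp⟩, hp, h.imp (k _).1 fun h q a b => h _ q.2 a ((k q).2 b)⟩
  gen := by
    obtain ⟨U, hU, h1, h2⟩ := c.can c.hP
    obtain ⟨τ, hτ, -, e⟩ := c.nm (R := fun σ p => pair p σ ∈ U)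
      (.mem (.pair (.var _) (.var _)) (.con hU)) (uu_mem hU)
    refine ⟨_, val_N hτ, fun p => (e _).trans ⟨?_, fun h => ?_⟩⟩
    · rintro ⟨σ, -, q, a, b, d⟩
      rw [h1 _ _ b] at d
      exact (show p.1 = q from d) ▸ a
    · obtain ⟨σ, a⟩ := h2 _ p.2
      exact ⟨σ, right_mem a, _, h, a, (h1 _ _ a).symm⟩
  name α _ s hs := by
    obtain ⟨τ, hτ, rfl⟩ := mem_N.1 hs
    obtain ⟨a, ha, e⟩ := Cd.ex (M := M) (α := α)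
    obtain ⟨U, hU, h1, h2⟩ := c.can ha
    obtain ⟨t, ht, f⟩ := sep2 (R := fun p x => ∃ σ ∈ M, pair x σ ∈ U ∧ c.Mm c.FEq σ τ p)
      (.ex (.and (.mem (.pair (.var _) (.var _)) (.con hU))
        (d_FMem (.var _) (.con hτ) (.var _)))) c.hP ha
    refine ⟨fun p x => cd M (p, x) ∈ t, mfz ht, fun x => ⟨fun h => ?_, ?_⟩⟩
    · obtain ⟨σ, i⟩ := h2 _ ((e _).2 ⟨x, rfl⟩)
      obtain ⟨p, hp, j⟩ := (val_mem (right_M hU i) hτ).1 (by rw [h1 _ _ i]; exact h)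
      exact ⟨⟨p, c.gen.sub p hp⟩, hp, (f _).2 ⟨p, c.gen.sub p hp, _, (e _).2 ⟨x, rfl⟩, rfl, σ,
        right_M hU i, i, j⟩⟩
    · rintro ⟨p, hp, h⟩
      obtain ⟨p', -, x', -, g, σ, hσ, i, j⟩ := (f _).1 h
      obtain ⟨g1, g2⟩ := pair_inj.1 g
      rw [g2, ← h1 _ _ i]
      exact (val_mem hσ hτ).2 ⟨p', g1 ▸ hp, j⟩

theorem ccc [Chc M] (h : Ccc M c.P c.r) (A : c.Ty → Prop) (hA : MF M A)
    (anti : ∀ p q r, A p → A q → r ≤ p → r ≤ q → p = q) (_ : Nonempty c.Ty) :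
    ∃ e : ℕ → c.Ty, MF M e ∧ ∀ p, A p → ∃ n, e n = p := by
  obtain ⟨d, hd, e⟩ := hA.df
  obtain ⟨f, hf, h1, h2⟩ := h d hd (fun z hz => let ⟨p, _, a⟩ := (e z).1 hz; a ▸ p.2)
    fun p hp q hq ne ⟨s, hs, a, b⟩ => by
      obtain ⟨p, i, rfl⟩ := (e p).1 hp
      obtain ⟨q, j, rfl⟩ := (e q).1 hq
      exact ne (congrArg _ (anti p q ⟨s, hs⟩ i j a b))
  obtain ⟨g, hg, h3⟩ := choice' (M := M) (R := fun (n : ℕ) (p : c.Ty) => A p ∧ cd M (n, p) ∈ f)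
    ((hA.comp MF.id'.snd).and (mfz hf))
  refine ⟨g, hg, fun p hp => ?_⟩
  obtain ⟨x, hx, a⟩ := h2 _ ((e _).2 ⟨p, hp, rfl⟩)
  obtain ⟨n, rfl⟩ := mem_omega.1 hx
  obtain ⟨b, k⟩ := h3 n ⟨p, hp, a⟩
  exact ⟨n, cd_inj.1 (h1 _ hx _ ((e _).2 ⟨_, b, rfl⟩) _ ((e _).2 ⟨p, hp, rfl⟩) k a)⟩

end Cx

omit [Mdl M] in
theorem exists_gen (hM : M.toSet.Countable) {P r p : ZFSet.{0}} (h : Pre P r) (hp : p ∈ P) :
    ∃ G, Gen M P r G ∧ p ∈ G := by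
  obtain ⟨D, hD⟩ := (hM.insert ∅).exists_eq_range ⟨∅, Set.mem_insert _ _⟩
  have st : ∀ (n : ℕ) (q : P), ∃ s : P, pair s.1 q.1 ∈ r ∧
      ((∃ t ∈ P, t ∈ D n ∧ pair t q.1 ∈ r) → s.1 ∈ D n) := fun n q => by
    by_cases k : ∃ t ∈ P, t ∈ D n ∧ pair t q.1 ∈ r
    · obtain ⟨t, a, b, d⟩ := k
      exact ⟨⟨t, a⟩, d, fun _ => b⟩
    · exact ⟨q, h.1 _ q.2, fun a => (k a).elim⟩
  choose f h1 h2 using st
  obtain ⟨x, x0, xs⟩ : ∃ x : ℕ → P, (x 0).1 = p ∧ ∀ n, x (n + 1) = f n (x n) :=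
    ⟨fun n => Nat.rec ⟨p, hp⟩ f n, rfl, fun _ => rfl⟩
  have an : ∀ m n, m ≤ n → pair (x n).1 (x m).1 ∈ r := fun m n l => by
    induction l with
    | refl => exact h.1 _ (x m).2
    | @step k _ ih => exact h.2 _ (x (k + 1)).2 _ (x k).2 _ (x m).2 (xs k ▸ h1 k (x k)) ih
  refine ⟨{q | q ∈ P ∧ ∃ n, pair (x n).1 q ∈ r}, ⟨fun _ a => a.1, fun q ⟨a, n, b⟩ s d e =>
    ⟨d, n, h.2 _ (x n).2 _ a _ d b e⟩, fun q ⟨a, m, b⟩ s ⟨d, n, e⟩ => ⟨x (max m n),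
      ⟨(x _).2, _, h.1 _ (x _).2⟩, h.2 _ (x _).2 _ (x _).2 _ a (an _ _ (le_max_left _ _)) b,
      h.2 _ (x _).2 _ (x _).2 _ d (an _ _ (le_max_right _ _)) e⟩, fun E hE k => ?_⟩,
    hp, 0, x0 ▸ h.1 _ (x 0).2⟩
  obtain ⟨n, rfl⟩ : E ∈ Set.range D := hD ▸ Set.mem_insert_of_mem _ hE
  exact ⟨x (n + 1), ⟨(x _).2, _, h.1 _ (x _).2⟩, xs n ▸ h2 n (x n) (k _ (x n).2)⟩

end Pool.Agent.Lib.MP_6993b6_lc.Q1
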