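import Pool.Agent.Lib.MP_6993b6_lc.Sys
import Pool.Agent.Lib.MP_6993b6_lc.Q1.BSt

/-!
The list `VS` of the forcing properties of the iteration that are transferred to the model.
-/

namespace Pool.Agent.Lib.MP_6993b6_lc.Q1

open Set

section names

variable {I R W : Type} [Preorder R]

/-- `r` forces that `i` belongs to the set named by `k`. -/
def Fr (k : Set (I × R)) (i : I) (r : R) : Prop :=
  ∀ s ≤ r, ∃ t ≤ s, ∃ u, (i, u) ∈ k ∧ t ≤ u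

/-- `r` forces that the names agree on `S`. -/
def EqN (S : Set I) (k k' : Set (I × R)) (r : R) : Prop :=
  ∀ i ∈ S, ∀ s ≤ r, (Fr k i s ↔ Fr k' i s)

theorem Fr.mono {k : Set (I × R)} {i : I} {r s : R} (h : Fr k i r) (hs : s ≤ r) : Fr k i s :=
  fun t ht => h t (ht.trans hs)

theorem Fr.dense {k : Set (I × R)} {i : I} {r : R} (h : ∀ s ≤ r, ∃ t ≤ s, Fr k i t) :
    Fr k i r := fun s hs =>
  let ⟨t, ht, h1⟩ := h s hs
  let ⟨u, hu, h2⟩ := h1 t le_rfl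
  ⟨u, hu.trans ht, h2⟩

theorem Fr.of_mem {k : Set (I × R)} {i : I} {r u : R} (h : (i, u) ∈ k) (hr : r ≤ u) : Fr k i r :=
  fun s hs => ⟨s, le_rfl, u, h, hs.trans hr⟩

variable [LinearOrder W]

/-- `G ξ k x r` says that `r` forces the vertex `x` to be good (not bad) for `ξ` and the set named
by `k`; below `p` the relation is local and keeps the promises of the ground model. -/
structure GoodRel (G : W → Set (Idx W × R) → Vx W → R → Prop) (p : R) : Prop where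
  mono : ∀ ξ k x r s, G ξ k x r → s ≤ r → G ξ k x s
  reg : ∀ ξ k x r, (∀ s ≤ r, ∃ t ≤ s, G ξ k x t) → G ξ k x r
  loc : ∀ ξ k k' x, ∀ r ≤ p, EqN {i | i.1 ≤ ξ} k k' r → G ξ k x r → G ξ k' x r
  keep : ∀ ξ l k (B : Set (Idx W)), ∀ r ≤ p, l ≤ ξ → LF B l →
    (∀ n x, (l, n, x) ∈ B → Fr k (l, n, x) r) →
    (∀ n x, (l, n, x) ∉ B → ∀ s ≤ r, ¬ Fr k (l, n, x) s) →
    ∃ s ≤ r, ∃ m, ∀ n x, m ≤ n → (l, n, x) ∈ B → G ξ k x s

end names

/-- The forcing properties that are transferred to the model: `W` becomes `ω₁`, `K` becomes `ω₂`,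
`Le r q' q` says that `r` puts `q'` below `q`, and `Z r q γ` that `r` puts `γ` into `Z q`. -/
structure VS (R W K Q : Type) [Preorder R] [LinearOrder W] [LinearOrder K]
    (Le : R → Q → Q → Prop) (Z : R → Q → K → Prop) : Prop where
  cnt : ∀ ζ : W, (Iio ζ).Countable
  h1 : Bdd R ℕ W
  h2 : Bdd R W K
  col : ∀ α : K, Cov R W (Iio α)
  ne : Nonempty Q
  le_mono : ∀ r r' q q', Le r q' q → r' ≤ r → Le r' q' q
  le_refl : ∀ r q, Le r q q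
  le_trans : ∀ r q q' q'', Le r q'' q' → Le r q' q → Le r q'' q
  z_mono : ∀ r r' q γ, Z r q γ → r' ≤ r → Z r' q γ
  z_le : ∀ r q q' γ, Le r q' q → Z r q' γ → Z r q γ
  sigma : ∀ V : R → ℕ → Q → Prop, Fn V → ∀ p, (∀ n, ∀ r ≤ p, ∃ r' ≤ r, ∃ q, V r' n q) →
    (∀ n q q', ∀ r ≤ p, V r n q → V r (n + 1) q' → ∃ r' ≤ r, Le r' q' q) →
    ∃ p' ≤ p, ∃ q0, ∀ n q, ∀ r ≤ p', V r n q → ∃ r' ≤ r, Le r' q0 q
  l3 : ∀ V : R → K → W → Prop, Fn V → ∀ p q, ∃ p' ≤ p, ∃ q' b, Le p' q' q ∧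
    ∀ r ≤ p', ∀ γ ζ, Z r q' γ → V r γ ζ → ζ < b
  l4 : ∀ V : R → K → K → Prop, Fn V → ∀ p q η, ∃ p' ≤ p, ∃ γ, η < γ ∧ Z p' q γ ∧
    (∀ r β y, β < γ → V r β y → y < γ) ∧ Bdd R ℕ (Iio γ)
  re : ∃ y : R → K → ℕ → Prop, (∀ r r' α n, y r α n → r' ≤ r → y r' α n) ∧
    ∀ α β, α ≠ β → ∀ p, ∃ r ≤ p, ∃ n, y r α n ∧ ∀ s ≤ r, ¬ y s β n
  cp : ∀ (G : W → Set (Idx W × R) → Vx W → R → Prop) (p : R), GoodRel G p →
    ∃ p' ≤ p, ∃ (k : Set (Idx W × R)) (V : R → Vx W → ℕ → Prop), Fn V ∧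
      (∀ x, ∀ r ≤ p', ∃ r' ≤ r, ∃ n, V r' x n) ∧
      ∀ r ≤ p', ∀ x x' n, V r x n → V r x' n → x.1 < x'.1 → G x'.1 k x r

/-- The elements of `α` code the members of the ordinal `w`, in their order. -/
structure OrdC (M : ZFSet.{0}) [Shared.InModel.Mdl M] (α : Type 1) [Shared.InModel.Cd M α] [LT α]
    (w : ZFSet.{0}) : Prop where
  mem : ∀ z, z ∈ w ↔ ∃ a : α, Shared.InModel.cd M a = z
  lt : ∀ (a : α) z, z ∈ Shared.InModel.cd M a ↔ ∃ b < a, Shared.InModel.cd M b = z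

open Shared.InModel in
/-- A countable model of the axioms. -/
def AxModel (M : ZFSet.{0}) : Prop :=
  ∃ (_ : Mdl M) (_ : Chc M), M.toSet.Countable ∧
    ∃ (W K Q : Type 1) (_ : Cd M W) (_ : Cd M K) (_ : Cd M Q) (_ : LinearOrder W)
      (_ : LinearOrder K) (_ : WellFoundedLT W) (_ : WellFoundedLT K) (_ : Preorder Q)
      (_ : OM M W) (_ : OM M K) (_ : OM M Q) (Z : Q → K → Prop) (w1 w2 : ZFSet.{0}),
      OrdC M W w1 ∧ OrdC M K w2 ∧ Om M W K ∧ Ax M W Z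

end Pool.Agent.Lib.MP_6993b6_lc.Q1
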