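import Pool.Agent.Lib.MP_6993b6_lc.Q1.GF4
import Pool.Agent.Lib.MP_6993b6_lc.Q1.VS

/-!
Preservation of `ω₁`, `ω₂` and branches of named trees in ccc extensions.
-/

namespace Pool.Agent.Lib.MP_6993b6_lc.Q1

open ZFSet Pool.Agent.Shared.InModel Pool.Agent.Lib.MP_053343_lc

variable {M N : ZFSet.{0}} [Mdl M] [Mdl N] {P : Type 1} [Cd M P] [Preorder P] [OM M P]
  {G : P → Prop}

variable (M P) in
/-- The typed countable chain condition. -/
def CccT : Prop :=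
  ∀ A : P → Prop, MF M A → (∀ p q r, A p → A q → r ≤ p → r ≤ q → p = q) → Nonempty P →
    ∃ e : ℕ → P, MF M e ∧ ∀ p, A p → ∃ n, e n = p

namespace Ex

variable (X : Ex M N G) {α : Type 1} [Cd M α] [Cd N α] [Same M N α]

include X

theorem nam {s : α → Prop} (hs : MF N s) : ∃ R : P → α → Prop,
    MF M (fun x : P × α => R x.1 x.2) ∧ (∀ p q x, q ≤ p → R p x → R q x) ∧
      ∀ x, s x ↔ ∃ p, G p ∧ R p x := by
  obtain ⟨a, ha, e⟩ := hs.df
  obtain ⟨R, h1, h2⟩ := X.name α a ha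
  refine ⟨fun p x => ∃ q, p ≤ q ∧ R q x, by fun_prop,
    fun p q x l ⟨w, i, j⟩ => ⟨w, l.trans i, j⟩, fun x => ?_⟩
  have : s x ↔ cd M x ∈ a := by
    rw [e, ← Same.e (N := N)]
    exact ⟨fun h => ⟨x, h, rfl⟩, fun ⟨y, h, f⟩ => cd_inj.1 f ▸ h⟩
  rw [this, h2]
  exact ⟨fun ⟨p, i, j⟩ => ⟨p, i, p, le_rfl, j⟩, fun ⟨p, i, q, j, k⟩ => ⟨q, X.up p q i j, k⟩⟩

omit [Mdl N] [OM M P] in
theorem dense {D : P → Prop} (hD : MF M D) {p : P} (hp : G p) (h : ∀ q ≤ p, ∃ s ≤ q, D s) :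
    ∃ q, G q ∧ D q := by
  obtain ⟨q, hq, a | a⟩ := X.dec D hD
  · exact ⟨q, hq, a⟩
  · obtain ⟨s, -, i, j⟩ := X.dir p q hp hq
    obtain ⟨t, k, l⟩ := h s i
    exact (a t (k.trans j) l).elim

omit [Mdl N] [OM M P] in
theorem avoid {D : P → Prop} (hD : MF M D) (h : ∀ p, G p → ¬ D p) :
    ∃ p, G p ∧ ∀ q ≤ p, ¬ D q :=
  (X.dec D hD).imp fun p a => ⟨a.1, a.2.resolve_left (h p a.1)⟩

omit [OM M P] in
theorem mG [Cd N P] [Same M N P] : MF N G :=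
  let ⟨_, hg, e⟩ := X.gen
  (mfz hg).of_iff fun p => by rw [Same.e (M := M), e]

variable [Chc M]

omit [Mdl N] in
/-- Functions in the extension are covered by countable sets of the ground model. -/
theorem cov (hc : CccT M P) {I : Type*} {Y : Type 1} [Cd M I] [Cd M Y]
    (R : P → I → Y → Prop) (hR : MF M fun x : P × I × Y => R x.1 x.2.1 x.2.2)
    (mono : ∀ p q i y, q ≤ p → R p i y → R q i y)
    (fn : ∀ p i y y', G p → R p i y → R p i y' → y = y') :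
    ∃ S : I → Y → Prop, MF M (fun x : I × Y => S x.1 x.2) ∧ (∀ i, Cn M (S i)) ∧
      ∀ p i y, G p → R p i y → S i y := by
  obtain ⟨p, hp, h⟩ := X.avoid (D := fun p => ∃ i y y', R p i y ∧ R p i y' ∧ y ≠ y')
    (by fun_prop) fun p hp ⟨i, y, y', a, b, d⟩ => d (fn p i y y' hp a b)
  have : Nonempty P := ⟨p⟩
  refine ⟨fun i y => ∃ q, q ≤ p ∧ R q i y, by fun_prop, fun i => ?_, fun q i y hq a => ?_⟩
  · obtain ⟨g, hg, h1⟩ := choice' (M := M) (R := fun y q => q ≤ p ∧ R q i y) (by fun_prop)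
    have k : ∀ y y' r, (∃ q, q ≤ p ∧ R q i y) → (∃ q, q ≤ p ∧ R q i y') → r ≤ g y → r ≤ g y' →
        y = y' := fun y y' r a b d e => by_contra fun ne =>
      h r (d.trans (h1 y a).1) ⟨i, y, y', mono _ _ _ _ d (h1 y a).2, mono _ _ _ _ e (h1 y' b).2, ne⟩
    obtain ⟨e, he, h2⟩ := hc (fun q => ∃ y, (∃ q, q ≤ p ∧ R q i y) ∧ g y = q) (by fun_prop)
      (by rintro _ _ r ⟨y, a, rfl⟩ ⟨y', b, rfl⟩ d e; rw [k y y' r a b d e]) this
    exact cn_nat.rel (MF.const _) (by fun_prop) (fun y n => e n = g y) (by fun_prop)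
      (fun y a => (h2 _ ⟨y, a, rfl⟩).imp fun _ b => ⟨trivial, b⟩)
      fun y y' n a b d f => k y y' _ a b le_rfl (d.symm.trans f).le
  · obtain ⟨s, -, b, d⟩ := X.dir p q hp hq
    exact ⟨s, b, mono _ _ _ _ d a⟩

variable {W K Q : Type 1} [Cd M W] [Cd M K] [Cd M Q] [LinearOrder W] [LinearOrder K]
  [WellFoundedLT W] [WellFoundedLT K] [Preorder Q] [OM M W] [OM M K] [OM M Q] {Z : Q → K → Prop}
  [Cd N W] [Cd N K] [Same M N W] [Same M N K] [Cd N P] [Same M N P]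

/-- Every labelled tree in the extension has a branch. -/
theorem branch (core : CoreStmt.{1}) (hc : CccT M P) (O : Om M W K) (A : Ax M W Z)
    {L : K × W → K × W → Prop} {T : K × W → Prop}
    (hL : MF N fun x : (K × W) × K × W => L x.1 x.2) (hT : MF N T)
    (ht : ∀ s t, L s t → s.1 < t.1) (nd : ∀ s t, L s t → T s)
    (tr : ∀ s t u, L s t → L t u → L s u) (un : ∀ s t u, L s u → L t u → s.1 = t.1 → s = t)
    (lin : ∀ s t u, L s u → L t u → s.1 < t.1 → L s t)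
    (pred : ∀ t e, T t → e < t.1 → ∃ i, L (e, i) t) (lev : ∀ e, ∃ i, T (e, i)) :
    ∃ B : K × W → Prop, MF N B ∧ (∀ t, B t → T t) ∧ (∀ e, ∃ i, B (e, i)) ∧
      ∀ s t, B s → B t → s.1 ≤ t.1 → s = t ∨ L s t := by
  obtain ⟨R, mR, oR, eR⟩ := X.nam hL
  obtain ⟨S, mS, oS, eS⟩ := X.nam hT
  obtain ⟨F, eF⟩ : ∃ F : P → K × W → K × W → Prop,
    F = fun p s t => ∀ q, q ≤ p → ∃ r, r ≤ q ∧ R r (s, t) := ⟨_, rfl⟩
  obtain ⟨D, eD⟩ : ∃ D : P → K × W → Prop,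
    D = fun p t => ∀ q, q ≤ p → ∃ r, r ≤ q ∧ S r t := ⟨_, rfl⟩
  have mF : MF M fun x : P × (K × W) × K × W => F x.1 x.2.1 x.2.2 := by subst eF; fun_prop
  have mD : MF M fun x : P × K × W => D x.1 x.2 := by subst eD; fun_prop
  have oF : ∀ p q s t, q ≤ p → F p s t → F q s t := by
    subst eF; exact fun p q s t l h r a => h r (a.trans l)
  have oD : ∀ p q t, q ≤ p → D p t → D q t := by
    subst eD; exact fun p q t l h r a => h r (a.trans l)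
  have F1 : ∀ p s t, G p → F p s t → L s t := fun p s t hp h => by
    subst eF; exact (eR (s, t)).2 (X.dense (by fun_prop) hp h)
  have D1 : ∀ p t, G p → D p t → T t := fun p t hp h => by
    subst eD; exact (eS t).2 (X.dense (by fun_prop) hp h)
  have F2 : ∀ p s t, G p → L s t → ∃ q, q ≤ p ∧ F q s t := fun p s t hp h => by
    subst eF
    obtain ⟨q, hq, a⟩ := (eR (s, t)).1 h
    obtain ⟨w, -, b, d⟩ := X.dir p q hp hq
    exact ⟨w, b, fun r e => ⟨r, le_rfl, oR _ _ _ (e.trans d) a⟩⟩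
  have D2 : ∀ p t, G p → T t → ∃ q, q ≤ p ∧ D q t := fun p t hp h => by
    subst eD
    obtain ⟨q, hq, a⟩ := (eS t).1 h
    obtain ⟨w, -, b, d⟩ := X.dir p q hp hq
    exact ⟨w, b, fun r e => ⟨r, le_rfl, oS _ _ _ (e.trans d) a⟩⟩
  have F3 : ∀ p s t, (∀ q, q ≤ p → ∃ r, r ≤ q ∧ F r s t) → F p s t := fun p s t h => by
    subst eF
    exact fun q a => let ⟨r, b, d⟩ := h q a; let ⟨w, e, f⟩ := d r le_rfl; ⟨w, e.trans b, f⟩
  have D3 : ∀ p t, (∀ q, q ≤ p → ∃ r, r ≤ q ∧ D r t) → D p t := fun p t h => by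
    subst eD
    exact fun q a => let ⟨r, b, d⟩ := h q a; let ⟨w, e, f⟩ := d r le_rfl; ⟨w, e.trans b, f⟩
  obtain ⟨p, hp, h⟩ := X.avoid (D := fun p => ¬ ((∀ s t, F p s t → s.1 < t.1) ∧
      (∀ s t, F p s t → ∃ q, q ≤ p ∧ D q s) ∧
      (∀ s t u, F p s t → F p t u → ∃ q, q ≤ p ∧ F q s u) ∧
      (∀ s t u, F p s u → F p t u → s.1 = t.1 → s = t) ∧
      (∀ s t u, F p s u → F p t u → s.1 < t.1 → ∃ q, q ≤ p ∧ F q s t) ∧
      (∀ t e, D p t → e < t.1 → ∃ i q, q ≤ p ∧ F q (e, i) t) ∧ ∀ e, ∃ i q, q ≤ p ∧ D q (e, i)))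
    (by fun_prop (maxTransitionDepth := 2) (maxSteps := 1000000)) fun p hp => not_not.2
      ⟨fun s t a => ht s t (F1 p s t hp a), fun s t a => D2 p s hp (nd s t (F1 p s t hp a)),
        fun s t u a b => F2 p s u hp (tr s t u (F1 p s t hp a) (F1 p t u hp b)),
        fun s t u a b => un s t u (F1 p s u hp a) (F1 p t u hp b),
        fun s t u a b d => F2 p s t hp (lin s t u (F1 p s u hp a) (F1 p t u hp b) d),
        fun t e a b => (pred t e (D1 p t hp a) b).imp fun i => F2 p _ t hp,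
        fun e => (lev e).imp fun i => D2 p _ hp⟩
  simp only [not_not] at h
  have TR : Tr M (fun r s t => r ≤ p ∧ F r s t) fun r t => r ≤ p ∧ D r t :=
    ⟨by fun_prop, by fun_prop, hc, fun r r' s t l a => ⟨l.trans a.1, oF _ _ _ _ l a.2⟩,
      fun r r' t l a => ⟨l.trans a.1, oD _ _ _ l a.2⟩, fun r s t a => (h r a.1).1 s t a.2,
      fun r s t a => ⟨a.1, D3 _ _ fun q l => (h q (l.trans a.1)).2.1 s t (oF _ _ _ _ l a.2)⟩,
      fun r s t u a b => ⟨a.1, F3 _ _ _ fun q l => (h q (l.trans a.1)).2.2.1 s t u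
        (oF _ _ _ _ l a.2) (oF _ _ _ _ l b.2)⟩,
      fun r s t u a b => (h r a.1).2.2.2.1 s t u a.2 b.2,
      fun r s t u a b d => ⟨a.1, F3 _ _ _ fun q l => (h q (l.trans a.1)).2.2.2.2.1 s t u
        (oF _ _ _ _ l a.2) (oF _ _ _ _ l b.2) d⟩,
      fun r t e a b => let ⟨i, q, d, f⟩ := (h r a.1).2.2.2.2.2.1 t e a.2 b
        ⟨q, d, i, d.trans a.1, f⟩⟩
  obtain ⟨q, hq, B, b1, b2, b3, b4⟩ := X.dense (D := fun q => ∃ B : PM M (P × K × W),
      (∀ r r' t, r' ≤ r → (r, t) ∈ B → (r', t) ∈ B) ∧ (∀ r t, (r, t) ∈ B → D r t) ∧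
      (∀ e r, r ≤ q → ∃ r', r' ≤ r ∧ ∃ i, (r', e, i) ∈ B) ∧
      ∀ r s t, (r, s) ∈ B → (r, t) ∈ B → s.1 ≤ t.1 → s = t ∨ ∃ r', r' ≤ r ∧ F r' s t)
    (by fun_prop (maxTransitionDepth := 2) (maxSteps := 1000000)) hp fun q l => by
      obtain ⟨s, a, B, b⟩ := core M W K Q P Z _ _ O A TR q fun e r a =>
        let ⟨i, w, d, f⟩ := (h r (a.trans l)).2.2.2.2.2.2 e
        ⟨w, d, i, d.trans (a.trans l), f⟩
      exact ⟨s, a, B, b.mono, fun r t d => (b.nd r t d).2, b.lev, fun r s t d e f =>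
        (b.chain r s t d e f).imp_right fun ⟨w, i, j⟩ => ⟨w, i, j.2⟩⟩
  have mB : MF N fun x : P × K × W => x ∈ B := mf_up X.sub B.df
  have mG := X.mG
  refine ⟨fun t => ∃ r, G r ∧ (r, t) ∈ B, .ex (.and (mG.comp MF.id'.snd)
    (mB.comp (by fun_prop))), fun t ⟨r, a, b⟩ => D1 r t a (b2 r t b), fun e => ?_,
    fun s t ⟨r, a, b⟩ ⟨r', d, e⟩ l => or_iff_not_imp_left.2 fun ne => ?_⟩
  · obtain ⟨r, a, i, b⟩ := X.dense (D := fun r => ∃ i, (r, e, i) ∈ B) (by fun_prop) hq (b3 e)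
    exact ⟨i, r, a, b⟩
  · obtain ⟨w, hw, i, j⟩ := X.dir r r' a d
    obtain ⟨y, hy, f⟩ := X.dense (D := fun y => F y s t) (by fun_prop) hw fun y k =>
      (b4 y s t (b1 _ _ _ (k.trans i) b) (b1 _ _ _ (k.trans j) e) l).resolve_left ne
    exact F1 y s t hy f

end Ex

end Pool.Agent.Lib.MP_6993b6_lc.Q1
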