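import Pool.Agent.Lib.MP_6993b6_lc.Q1.RSt

/-!
Fresh colours, new reals and the collapse.
-/

namespace Pool.Agent.Lib.MP_6993b6_lc.Q1.V

open Set Classical

variable {K W : Type} [LinearOrder K] [LinearOrder W] [OrderBot W] [WellFoundedLT K]
  {ℓ : K → Cde K W}

omit [WellFoundedLT K] in
/-- A new promise at one coordinate. -/
theorem col_upd (p : Dt K W) (b : K) (ζ : W) (k : Nm K W) (hk : k.Countable)
    (bk : ∀ e ∈ k, e.1.1 < ζ ∧ ∀ c ∈ e.2, c.1 < b) (h1 : p.al b ≤ ζ)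
    (h2 : ∀ e, e.1.1 < p.al b → (e ∈ p.k b ↔ e ∈ k)) :
    ∃ q : Dt K W, q.al b = ζ ∧ q.k b = k ∧ ∀ c, Ex c q p := by
  refine ⟨⟨p.a, Function.update p.al b ζ, Function.update p.k b k,
    (p.cs.insert b).mono fun c hc => ?_, fun c => ?_, fun c => ?_⟩, Function.update_self ..,
    Function.update_self .., fun c => ?_⟩
  · by_cases e : c = b
    · exact Or.inl e
    · exact Or.inr (by simpa [Function.update_of_ne e] using hc)
  · by_cases e : c = b
    · subst e; rwa [Function.update_self]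
    · rw [Function.update_of_ne e]; exact p.ck c
  · by_cases e : c = b
    · subst e; rwa [Function.update_self, Function.update_self]
    · rw [Function.update_of_ne e, Function.update_of_ne e]; exact p.bk c
  · by_cases e : c = b
    · subst e
      exact ⟨by simpa using h1, fun e he => by rw [h2 e he]; simp⟩
    · exact Ex.of_eq (Function.update_of_ne e ..) (Function.update_of_ne e ..)

theorem fresh (cof : Cof W) : FreshS ℓ := by
  intro r b x n h1 h2
  obtain ⟨ζ, hζ⟩ := cof {x.1, r.1.al b} (by simp)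
  have z1 : x.1 < ζ := hζ _ (by simp)
  have z2 : r.1.al b < ζ := hζ _ (by simp)
  obtain ⟨q, q1, -, q3⟩ := col_upd r.1 b ζ (r.1.k b) (r.1.ck b)
    (fun e he => ⟨(r.1.bk b e he).1.trans z2, (r.1.bk b e he).2⟩) z2.le fun _ _ => Iff.rfl
  have l : Le ℓ univ (q.wa (insert (b, x, n) r.1.a)) r.1 := wa_le q3 (Finset.subset_insert _ _)
  refine ⟨⟨q.wa (insert (b, x, n) r.1.a), fun c _ => ?_⟩, l, rfl⟩
  have m : ∀ {c y j}, (c, y, j) ∈ (q.wa (insert (b, x, n) r.1.a)).a →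
      (c = b ∧ y = x ∧ j = n) ∨ (c, y, j) ∈ r.1.a := fun h => by
    simpa [Dt.wa] using h
  by_cases e : c = b
  · subst e
    obtain ⟨o1, o2, o3⟩ := ok_iff.1 (r.2 c trivial)
    refine ok_iff.2 ⟨fun y j j' a a' => ?_, fun y j a => ?_, fun y y' j a a' hy => ?_⟩
    · rcases m a with ⟨-, rfl, rfl⟩ | g <;> rcases m a' with ⟨-, e, rfl⟩ | g'
      · rfl
      · exact (h1 _ g').elim
      · exact (h1 _ (e ▸ g)).elim
      · exact o1 y j j' g g'
    · rcases m a with ⟨-, rfl, -⟩ | a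
      · exact z1.trans_eq q1.symm
      · exact ((o2 y j a).trans z2).trans_eq q1.symm
    · rcases m a with ⟨-, rfl, rfl⟩ | g <;> rcases m a' with ⟨-, rfl, e⟩ | g'
      · exact (lt_irrefl _ hy).elim
      · exact (h2 _ g').elim
      · exact (h2 _ (e ▸ g)).elim
      · exact (o3 y y' j g g' hy).up (l.mono (subset_univ _)) (l c trivial) (o2 y' j g')
  · exact (r.2 c trivial).of (l.mono (subset_univ _)) (l c trivial) fun y hy =>
      (m hy).resolve_left fun h => e h.1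

theorem col_two (cof : Cof W) {α β : K} (h : α ≠ β) (p : R ℓ) :
    ∃ r ≤ p, ∃ i m : ℕ, (α, ((⊥ : W), i), m) ∈ r.1.a ∧ (β, ((⊥ : W), i), m + 1) ∈ r.1.a := by
  obtain ⟨N, hN⟩ := (p.1.a.image fun c => c.2.1.2 + c.2.2).bddAbove
  have b : ∀ {c y j}, (c, y, j) ∈ p.1.a → y.2 + j ≤ N := fun h =>
    hN (Finset.mem_coe.2 (Finset.mem_image_of_mem (fun c : Col K W => c.2.1.2 + c.2.2) h))
  obtain ⟨s, l, e⟩ := fresh cof p α (⊥, N + 1) (N + 1)
    (fun m hm => by have := b hm; simp at this; omega) fun y hy => by have := b hy; omega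
  obtain ⟨r, l', e'⟩ := fresh cof s β (⊥, N + 1) (N + 1 + 1)
    (fun m hm => by
      rw [e, Finset.mem_insert] at hm
      exact hm.elim (fun g => h (congrArg Prod.fst g).symm) fun g => by
        have := b g; simp at this; omega)
    fun y hy => by
      rw [e, Finset.mem_insert] at hy
      exact hy.elim (fun g => h (congrArg Prod.fst g).symm) fun g => by have := b g; omega
  exact ⟨r, l'.trans l, N + 1, N + 1, by simp [e', e], by simp [e']⟩

theorem re (cof : Cof W) : ∃ y : R ℓ → K → ℕ → Prop, (∀ r r' α n, y r α n → r' ≤ r → y r' α n) ∧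
    ∀ α β, α ≠ β → ∀ p, ∃ r ≤ p, ∃ n, y r α n ∧ ∀ s ≤ r, ¬ y s β n := by
  refine ⟨fun r α n => (α, (⊥, n.unpair.1), n.unpair.2) ∈ r.1.a, fun r r' α n h l => R.sub l h,
    fun α β h p => ?_⟩
  obtain ⟨r, l, i, m, a, a'⟩ := col_two cof h p
  refine ⟨r, l, Nat.pair i m, by simpa using a, fun s ls hs => ?_⟩
  simp only [Nat.unpair_pair] at hs
  have := (ok_iff.1 (s.2 β trivial)).1 _ _ _ hs (R.sub ls a')
  omega

/-- The name of the real at `β`, written on the level `ξ`. -/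
def col_nm (β : K) (ξ : W) : Nm K W :=
  range fun n : ℕ => ((ξ, n, (⊥, 0)), {(β, (⊥, n.unpair.1), n.unpair.2)})

theorem col (cof : Cof W) (α : K) : Cov (R ℓ) W (Iio α) := by
  refine ⟨fun r ξ β => β < α ∧ ξ < r.1.al α ∧ EqB ℓ α r.1 (r.1.k α) (col_nm β ξ) {ξ},
    ⟨fun p q ξ β ⟨h1, h2, h3⟩ l => ?_, fun p ξ β β' ⟨_, _, h3⟩ ⟨g1, _, g3⟩ => ?_⟩,
    fun p β hβ => ?_⟩
  · obtain ⟨-, a2, a3⟩ := at_iff.1 (l α trivial)
    exact ⟨h1, h2.trans_le a2, (a3.mono Le.rfl (singleton_subset_iff.2 h2)).symm.trans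
      (h3.mono (R.le l _) subset_rfl)⟩
  · by_contra hne
    obtain ⟨r, l, i, m, a, a'⟩ := col_two cof hne p
    obtain ⟨s, cs, ls, τ, ⟨n, t1⟩, t2⟩ := (h3.symm.trans g3).1 r.1 (R.cn r _) (R.le l _) _
      ⟨Nat.pair i m, rfl⟩ rfl (by simpa using a)
    simp only [Prod.mk.injEq, true_and, and_true] at t1
    obtain ⟨rfl, rfl⟩ := t1
    simp only [Nat.unpair_pair, Finset.singleton_subset_iff] at t2
    have := (ok_iff.1 (cs β' g1)).1 _ _ _ t2 (ls.mem a' g1)
    omega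
  · obtain ⟨ζ, hζ⟩ := cof {p.1.al α} (by simp)
    have z : p.1.al α < ζ := hζ _ rfl
    obtain ⟨q, q1, q2, q3⟩ := col_upd p.1 α ζ (p.1.k α ∪ col_nm β (p.1.al α))
      ((p.1.ck α).union (countable_range _))
      (fun e he => he.elim (fun h => ⟨(p.1.bk α e h).1.trans z, (p.1.bk α e h).2⟩) (by
        rintro ⟨n, rfl⟩
        exact ⟨z, by simpa using hβ⟩)) z.le
      fun e he => ⟨Or.inl, fun h => h.elim id (by
        rintro ⟨n, rfl⟩
        exact (lt_irrefl _ he).elim)⟩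
    refine ⟨⟨q.wa p.1.a, wa_cn q3 p.2⟩, wa_le q3 subset_rfl, p.1.al α, hβ, z.trans_eq q1.symm,
      EqB.of_iff fun e he => ?_⟩
    change e ∈ q.k α ↔ _
    rw [q2]
    exact ⟨fun h => h.resolve_left fun h => (p.1.bk α e h).1.ne he, Or.inr⟩

end Pool.Agent.Lib.MP_6993b6_lc.Q1.V
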