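import Pool.Agent.Lib.MP_6993b6_lc.Q1.RSt

/-!
The covering property of `R ℓ`.
-/

namespace Pool.Agent.Lib.MP_6993b6_lc.Q1.V

open Set Classical

variable {K W : Type} [LinearOrder K] [LinearOrder W] [OrderBot W] [WellFoundedLT K]
  {ℓ : K → Cde K W}

/-- The promise `B` at `lam` is kept by the colours of `u` at `c`, below `r`. -/
def Keep (ℓ : K → Cde K W) (lam : W) (B : Set (Idx W)) (c : K) (u r : Dt K W) (y : Vx W × ℕ) :
    Prop :=
  (c, y) ∈ u.a → lam ≤ y.1.1 → ∃ m, ∀ j x, m ≤ j → (lam, j, x) ∈ B → Kl ℓ c y.1.1 (u.k c) x r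

theorem Keep.mono {lam : W} {B : Set (Idx W)} {c : K} {u u' r r' : Dt K W} {y : Vx W × ℕ}
    (h : Keep ℓ lam B c u r y) (g : Ag c u' u) (l : Le ℓ (Iio c) r' r) :
    Keep ℓ lam B c u' r' y := fun a b =>
  (h ((g.1 y).1 a) b).imp fun _ h j x hj hx => g.2.2 ▸ (h j x hj hx).mono l

theorem cov_one {lam : W} {B : Set (Idx W)} (hB : LF B lam) {c : K} {u : Dt K W}
    (cu : Cn ℓ (Iio c) u) (he : (∃ j x, (lam, j, x) ∈ B) → EqB ℓ c u (u.k c) (chk B) {lam})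
    (F : Finset (Col K W)) :
    ∃ r, Cn ℓ (Iio c) r ∧ Le ℓ (Iio c) r u ∧ ∀ y, (c, y) ∈ F → Keep ℓ lam B c u r y := by
  induction F using Finset.induction_on with
  | empty => exact ⟨u, cu, Le.rfl, by simp⟩
  | insert z F _ ih =>
    obtain ⟨r, c1, l1, h1⟩ := ih
    have : ∃ r', Cn ℓ (Iio c) r' ∧ Le ℓ (Iio c) r' r ∧ Keep ℓ lam B c u r' z.2 := by
      by_cases g : GoodB ℓ c ∧ lam ≤ z.2.1.1 ∧ ∃ j x, (lam, j, x) ∈ B
      · obtain ⟨r', c2, l2, m, h2⟩ := g.1.2 r c1 lam _ B _ g.2.1 hB (u.nb c)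
          ((he g.2.2).mono l1 subset_rfl)
        exact ⟨r', c2, l2, fun _ _ => ⟨m, fun j x hj hx _ => h2 j x hj hx⟩⟩
      · exact ⟨r, c1, Le.rfl, fun _ h => ⟨0, fun j x _ hx g' => (g ⟨g', h, j, x, hx⟩).elim⟩⟩
    obtain ⟨r', c2, l2, h2⟩ := this
    refine ⟨r', c2, le_trans_iio c l2 l1, fun y hy => ?_⟩
    rcases Finset.mem_insert.1 hy with rfl | hy
    exacts [h2, (h1 y hy).mono ⟨fun _ => Iff.rfl, rfl, rfl⟩ l2]

theorem cov_all {lam : K → W} {B : K → Set (Idx W)} (hB : ∀ c, LF (B c) (lam c)) {q : Dt K W}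
    (he : ∀ c u, At ℓ c u q → (∃ j x, (lam c, j, x) ∈ B c) →
      EqB ℓ c u (u.k c) (chk (B c)) {lam c}) (r : Dt K W) (cr : Cn ℓ univ r) (l : Le ℓ univ r q) :
    ∃ u, Cn ℓ univ u ∧ Le ℓ univ u r ∧ ∀ c y, Keep ℓ (lam c) (B c) c u u y := by
  let P : Set K → Prop := fun I => ∀ r, Cn ℓ I r → Le ℓ I r q →
    ∃ u, Cn ℓ I u ∧ Le ℓ I u r ∧ ∀ c ∈ I, ∀ y, Keep ℓ (lam c) (B c) c u u y
  have st : ∀ I, IsLowerSet I → (∀ c ∈ I, P (Iio c)) → P I := by
    intro I hI ih r cr l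
    rcases (r.a.filter (·.1 ∈ I)).eq_empty_or_nonempty with h | h
    · exact ⟨r, cr, Le.rfl, fun c hc y a =>
        (Finset.notMem_empty (c, y) (h ▸ Finset.mem_filter.2 ⟨a, hc⟩)).elim⟩
    obtain ⟨z, hz, hm⟩ := Finset.exists_max_image _ Prod.fst h
    have hc := (Finset.mem_filter.1 hz).2
    have sb : Iio z.1 ⊆ I := fun _ h => hI (le_of_lt h) hc
    obtain ⟨r1, c1, l1, h1⟩ := cov_one (hB z.1) (cr.mono sb) (he _ r (l _ hc)) r.a
    obtain ⟨u, c2, l2, h2⟩ := ih _ hc r1 c1 (le_trans_iio _ l1 (l.mono sb))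
    have l3 := le_trans_iio _ l2 l1
    refine ⟨am z.1 u r, am_cn c2 l3 fun c h _ => cr c h, (am_le_right l3).mono (subset_univ _),
      fun c h y a => ?_⟩
    rcases lt_trichotomy c z.1 with g | rfl | g
    · exact (h2 c g y).mono (am_in g u r) ((am_le _ u r).mono (Iio_subset_Iio g.le)) a
    · exact (h1 y (((am_out le_rfl u r).1 y).1 a)).mono (am_out le_rfl u r)
        (le_trans_iio _ (am_le _ u r) l2) a
    · exact (not_lt.2 (hm (c, y) (Finset.mem_filter.2 ⟨((am_out g.le u r).1 y).1 a, h⟩)) g).elim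
  have h : ∀ c, P (Iio c) := fun c => (wellFounded_lt (α := K)).induction (C := fun c => P (Iio c))
    c fun c ih => st _ (isLowerSet_Iio c) ih
  exact (st univ isLowerSet_univ (fun c _ => h c) r cr l).imp fun u h =>
    ⟨h.1, h.2.1, fun c => h.2.2 c trivial⟩

theorem cov [WellFoundedLT W] (cof : Cof W) (cnt : ∀ ζ : W, (Iio ζ).Countable) : CovS ℓ := by
  intro p E hE
  let low : (K → W) → Finset (Col K W) → Finset (Col K W) := fun f a =>
    a.filter fun c => c.2.1.1 < f c.1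
  let Pos : Dt K W → ℕ × Finset (Col K W) → Prop := fun q t =>
    ∃ u : R ℓ, Le ℓ univ u.1 q ∧ E t.1 u ∧ low q.al u.1.a = t.2
  obtain ⟨σ, τ, s0, s1, s2, s3⟩ := book
    (fun q t q' => (∀ b, Ex b q' q) ∧ ∃ a', p.1.a ⊆ a' ∧ ∃ h : Cn ℓ univ (q'.wa a'),
      Pos q t → E t.1 ⟨_, h⟩ ∧ low q.al a' = t.2)
    (fun q : Dt K W => {t : ℕ × Finset (Col K W) | ∀ c ∈ t.2, c.2.1.1 < q.al c.1})
    (fun q => Cn ℓ univ q ∧ q.a = p.1.a) p.1 ⟨p.2, rfl⟩ (fun q _ => by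
      have h0 := q.cs.biUnion (t := fun b _ => {b} ×ˢ (Iio (q.al b) ×ˢ univ) ×ˢ univ) fun b _ =>
        (countable_singleton b).prod (((cnt (q.al b)).prod
          (countable_univ (α := ℕ))).prod (countable_univ (α := ℕ)))
      have h : {c : Col K W | c.2.1.1 < q.al c.1}.Countable := by
        refine h0.mono fun c hc => ?_
        exact mem_iUnion₂.2 ⟨c.1, ne_bot_of_gt hc, rfl, ⟨hc, trivial⟩, trivial⟩
      refine (countable_univ.prod (Set.countable_ofPred_finite_subset h |>.preimage_of_injOn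
        (f := fun a : Finset (Col K W) => (a : Set (Col K W))) Finset.coe_injective.injOn)).mono
        fun t ht => ?_
      exact ⟨trivial, t.2.finite_toSet, ht⟩) (by
      rintro q t ⟨c, e⟩
      by_cases h : Pos q t
      · obtain ⟨u, l, h1, h2⟩ := h
        obtain ⟨q0, a1, -, a2, a3, a4⟩ := mix u.2 l
        exact ⟨q0.wa q.a, ⟨wa_cn a2 c, e⟩, a2, q0.a, fun c hc => a1 ▸ l.mem (e ▸ hc) trivial, a3,
          fun _ => ⟨hE _ u _ h1 a4, a1 ▸ h2⟩⟩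
      · exact ⟨q, ⟨c, e⟩, fun _ => Ex.rfl, q.a, e.ge, c, fun g => (h g).elim⟩)
  choose s2 an s4 s5 s6 using s2
  have ch : ∀ b n m, n ≤ m → Ex b (σ m) (σ n) := fun b n m h => by
    induction h with
    | refl => exact Ex.rfl
    | step _ ih => exact (s2 _ b).trans ih
  have hl : ∀ b, ∃ a, (∀ n, (σ n).al b ≤ a) ∧ ∀ x < a, ∃ n, x < (σ n).al b := fun b =>
    let ⟨_, h⟩ := cof _ (countable_range fun n => (σ n).al b)
    let ⟨a, _, h'⟩ := exists_lub _ fun n => (h _ ⟨n, rfl⟩).le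
    ⟨a, h'⟩
  choose lam l1 l2 using hl
  choose nx hnx using fun ζ : W => cof _ (countable_singleton ζ)
  have lv : ∀ n b x m, (b, x, m) ∈ an n → x.1 < lam b := fun n b x m h =>
    ((ok_iff.1 (s5 n b trivial)).2.1 x m h).trans_le (l1 b _)
  let B : K → Set (Idx W) := fun b => {i | i.1 = lam b ∧ ∃ n j m, i.2.1 = Nat.pair n j ∧
    (an n).toList[j]? = some (b, i.2.2, m) ∧ (σ n).al b ≤ i.2.2.1}
  have Bl : ∀ b i, i ∈ B b → i.2.2.1 < lam b := fun b i ⟨_, n, j, m, _, h, _⟩ =>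
    lv n b _ m (Finset.mem_toList.1 (List.mem_of_getElem? h))
  have hB : ∀ b, LF (B b) (lam b) := fun b => by
    refine ⟨?_, fun n x h => Bl b _ h, fun β hβ => ?_⟩
    · rintro _ x x' ⟨-, n, j, m, rfl, h, -⟩ ⟨-, n', j', m', e, h', -⟩
      obtain ⟨rfl, rfl⟩ := Nat.pair_eq_pair.1 e
      simpa using congrArg (fun o => o.map fun c => c.2.1) (h.symm.trans h')
    · obtain ⟨n0, h0⟩ := l2 b β hβ
      obtain ⟨m, hm⟩ := ((finite_Iio n0).biUnion fun n _ =>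
        (finite_Iio (an n).toList.length).image (Nat.pair n)).bddAbove
      refine ⟨m + 1, ?_⟩
      rintro _ x h ⟨-, n, j, m', rfl, h1, h2⟩
      rcases lt_or_ge n n0 with g | g
      · exact (not_lt.2 (hm (mem_biUnion g ⟨j, (List.getElem?_eq_some_iff.1 h1).1, rfl⟩)) h).elim
      · exact h0.trans_le ((ch b _ _ g).1.trans h2)
  let al : K → W := fun b => if lam b = ⊥ then ⊥ else nx (lam b)
  have la : ∀ b x, x < lam b → lam b < al b := fun b x h => by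
    simp only [al, if_neg (ne_bot_of_gt h)]
    exact hnx _ _ rfl
  let q : Dt K W := ⟨p.1.a, al, fun b => (⋃ n, (σ n).k b) ∪ chk (B b),
    (countable_iUnion fun n => (σ n).cs).mono fun b hb => by
      have : lam b ≠ ⊥ := fun e => hb (by simp [al, e])
      obtain ⟨n, h⟩ := l2 b ⊥ (bot_lt_iff_ne_bot.2 this)
      exact mem_iUnion.2 ⟨n, h.ne'⟩,
    fun b => (countable_iUnion fun n => (σ n).ck b).union
      ((((countable_iUnion fun n => (an n).countable_toSet).prod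
        (countable_univ (α := ℕ))).image fun z => ((lam b, z.2, z.1.2.1), ∅)).mono (by
        rintro ⟨⟨_, _, x⟩, _⟩ ⟨⟨rfl, n, j, m, rfl, h, -⟩, rfl⟩
        exact ⟨(_, _), ⟨mem_iUnion.2 ⟨n, Finset.mem_toList.1 (List.mem_of_getElem? h)⟩, trivial⟩,
          rfl⟩)), fun b e he => by
      rcases he with h | h
      · obtain ⟨n, h⟩ := mem_iUnion.1 h
        have := ((σ n).bk b e h).1.trans_le (l1 b n)
        exact ⟨this.trans (la b _ this), ((σ n).bk b e h).2⟩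
      · exact ⟨h.1.1 ▸ la b _ (Bl b _ h.1), by simp [h.2]⟩⟩
  have ex : ∀ n b, Ex b q (σ n) := fun n b => by
    refine ⟨?_, fun e he => ⟨fun h => Or.inl (mem_iUnion.2 ⟨n, h⟩), fun h => ?_⟩⟩
    · rcases eq_bot_or_bot_lt ((σ n).al b) with h | h
      exacts [h ▸ bot_le, (l1 b n).trans (la b _ (h.trans_le (l1 b n))).le]
    · rcases h with h | h
      · obtain ⟨m, h⟩ := mem_iUnion.1 h
        rcases le_total n m with g | g
        exacts [((ch b _ _ g).2 e he).2 h, ((ch b _ _ g).2 e ((σ m).bk b e h).1).1 h]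
      · exact (not_lt.2 (h.1.1 ▸ l1 b n) he).elim
  let f : ℕ → R ℓ := fun n => ⟨q.wa (an n), wa_cn (q := (σ (n + 1)).wa (an n)) (ex (n + 1)) (s5 n)⟩
  have e0 : ∀ b, Ex b q p.1 := fun b => by simpa only [s0] using ex 0 b
  refine ⟨⟨q, wa_cn (q' := q) (q := p.1) e0 p.2⟩, rfl, e0,
    fun n => f '' {i | (τ i).1 = n ∧ Pos (σ i) (τ i)}, fun n => ⟨(to_countable _).image _, ?_, ?_⟩⟩
  · rintro _ ⟨i, ⟨rfl, h⟩, rfl⟩
    exact ⟨hE _ _ _ (s6 i h).1 (wa_le (q := (σ (i + 1)).wa (an i)) (ex (i + 1)) subset_rfl),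
      wa_le (fun _ => Ex.rfl) (s4 i), rfl⟩
  intro r hr hn
  obtain ⟨u, cu, lu, gu⟩ := cov_all hB (q := q) (fun c u h ⟨j, x, hx⟩ => by
    refine (EqB.mono (at_iff.1 h).2.2 Le.rfl ?_).symm.trans (EqB.of_iff fun e he =>
      ⟨fun h => h.elim (fun h => ?_) id, Or.inr⟩)
    · exact singleton_subset_iff.2 (la c _ (Bl c _ hx))
    · obtain ⟨n, h⟩ := mem_iUnion.1 h
      exact ((((σ n).bk c e h).1.trans_le (l1 c n)).ne he).elim) r.1 r.2 hr
  have uq : Le ℓ univ u q := lu.trans isLowerSet_univ hr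
  have h1 : ∀ c : Col K W, ∃ m, (c.2.1.1 < lam c.1 → c.2.1.1 < (σ m).al c.1) ∧
      (c ∈ u.a → lam c.1 ≤ c.2.1.1 → ∀ j x, m ≤ j → (lam c.1, j, x) ∈ B c.1 →
        Kl ℓ c.1 c.2.1.1 (u.k c.1) x u) := fun c => by
    rcases lt_or_ge c.2.1.1 (lam c.1) with h | h
    · exact (l2 _ _ h).imp fun _ g => ⟨fun _ => g, fun _ h' => (not_lt.2 h' h).elim⟩
    · by_cases g : c ∈ u.a
      · exact (gu c.1 c.2 g h).imp fun _ g => ⟨fun h' => (not_lt.2 h h').elim, fun _ _ => g⟩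
      · exact ⟨0, fun h' => (not_lt.2 h h').elim, fun h' => (g h').elim⟩
  choose m m1 m2 using h1
  have m3 : ∀ i, u.a.sup m ≤ i → ∀ c ∈ u.a, c.2.1.1 < lam c.1 → c.2.1.1 < (σ i).al c.1 :=
    fun i hi c hc h => (m1 c h).trans_le (ch _ _ _ ((Finset.le_sup hc).trans hi)).1
  obtain ⟨i, hi, e⟩ := s3 (u.a.sup m) (n, low lam u.a) (fun c hc => m3 _ le_rfl c
    (Finset.mem_filter.1 hc).1 (Finset.mem_filter.1 hc).2) (u.a.sup m)
  have ps : Pos (σ i) (τ i) := by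
    refine ⟨⟨u, cu⟩, uq.trans isLowerSet_univ (wa_le (q' := q) (ex i) (s1 i).2.le),
      e ▸ hE _ r _ hn lu, ?_⟩
    rw [e]
    exact Finset.filter_congr fun c hc => ⟨fun h => h.trans_le (l1 _ i), m3 i hi c hc⟩
  have e2 : ∀ c, c ∈ an i ∧ c.2.1.1 < (σ i).al c.1 ↔ c ∈ u.a ∧ c.2.1.1 < lam c.1 := fun c => by
    have := (s6 i ps).2
    rw [e] at this
    simpa [low] using Finset.ext_iff.1 this c
  have wu : Le ℓ univ (u.wa (u.a ∪ an i)) u := wa_le (fun _ => Ex.rfl) Finset.subset_union_left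
  have wf : Le ℓ univ (u.wa (u.a ∪ an i)) (f i).1 :=
    le_wa (wu.trans isLowerSet_univ uq) Finset.subset_union_right
  refine ⟨⟨u.wa (u.a ∪ an i), fun b _ => ?_⟩, wu.trans isLowerSet_univ lu, f i, ⟨i, ⟨by rw [e], ps⟩,
    rfl⟩, wf⟩
  obtain ⟨a1, a2, a3⟩ := ok_iff.1 (cu b trivial)
  obtain ⟨b1, b2, b3⟩ := ok_iff.1 ((f i).2 b trivial)
  have k1 : ∀ x n, (b, x, n) ∈ u.a ∪ an i → x.1 < lam b → (b, x, n) ∈ an i := fun x n h g =>
    (Finset.mem_union.1 h).elim (fun h => ((e2 _).2 ⟨h, g⟩).1) id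
  have k2 : ∀ x n, (b, x, n) ∈ u.a ∪ an i → lam b ≤ x.1 → (b, x, n) ∈ u.a := fun x n h g =>
    (Finset.mem_union.1 h).elim id fun h => (not_lt.2 g (lv i b x n h)).elim
  refine ok_iff.2 ⟨fun x n n' h h' => ?_, fun x n h => ?_, fun x x' n h h' hx => ?_⟩
  · rcases lt_or_ge x.1 (lam b) with g | g
    exacts [b1 x n n' (k1 _ _ h g) (k1 _ _ h' g), a1 x n n' (k2 _ _ h g) (k2 _ _ h' g)]
  · exact (Finset.mem_union.1 h).elim (a2 x n) fun h =>
      (b2 x n h).trans_le (at_iff.1 (uq b trivial)).2.1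
  · rcases lt_or_ge x'.1 (lam b) with g | g
    · exact (b3 x x' n (k1 _ _ h (hx.trans g)) (k1 _ _ h' g) hx).up (wf.mono (subset_univ _))
        (wf b trivial) (b2 x' n (k1 _ _ h' g))
    · refine Kl.mono (r := u) ?_ (wu.mono (subset_univ _))
      by_cases g' : (b, x, n) ∈ u.a
      · exact a3 x x' n g' (k2 _ _ h' g) hx
      · have g1 := (Finset.mem_union.1 h).resolve_left g'
        obtain ⟨j, hj⟩ := List.mem_iff_getElem?.1 (Finset.mem_toList.2 g1)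
        exact m2 (b, x', n) (k2 _ _ h' g) g (Nat.pair i j) x (((Finset.le_sup (k2 _ _ h' g)).trans
          hi).trans (Nat.left_le_pair i j)) ⟨rfl, i, j, n, rfl, hj,
            not_lt.1 fun g2 => g' ((e2 _).1 ⟨g1, g2⟩).1⟩

end Pool.Agent.Lib.MP_6993b6_lc.Q1.V
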