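import Pool.Agent.Lib.MP_6993b6_lc.Q1.RSt

/-!
The colouring principle for the forcing notion `R ℓ`.
-/

namespace Pool.Agent.Lib.MP_6993b6_lc.Q1.V

open Set Cardinal Filter

variable {K W : Type} [LinearOrder K] [LinearOrder W] [OrderBot W] [WellFoundedLT K]
  [WellFoundedLT W] {ℓ : K → Cde K W} {D : Ultrafilter K}

variable (ℓ) in
/-- The name over `R ℓ` that belongs to `k`. -/
def cp_tr (k : Nm K W) : Set (Idx W × R ℓ) := {z | ∃ τ, (z.1, τ) ∈ k ∧ τ ⊆ z.2.1.a}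

omit [WellFoundedLT W] in
theorem cp_fr {k : Nm K W} {i : Idx W} {r : R ℓ} :
    Fr (cp_tr ℓ k) i r ↔ ∀ s ≤ r, ∃ t ≤ s, ∃ τ, (i, τ) ∈ k ∧ τ ⊆ t.1.a := by
  refine ⟨fun h s hs => ?_, fun h s hs => ?_⟩
  · obtain ⟨t, ht, u, ⟨τ, h1, h2⟩, h3⟩ := h s hs
    exact ⟨t, ht, τ, h1, h2.trans (R.sub h3)⟩
  · obtain ⟨t, ht, τ, h1, h2⟩ := h s hs
    exact ⟨t, ht, t, ⟨τ, h1, h2⟩, le_rfl⟩

omit [WellFoundedLT W] in
theorem cp_lift {δ : K} {t : R ℓ} {k k' : Nm K W} {T : Set W} (h : SubB ℓ δ t.1 k k' T)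
    (hk : ∀ e ∈ k', ∀ c ∈ e.2, c.1 < δ) {i : Idx W} {τ : Finset (Col K W)} (hi : (i, τ) ∈ k)
    (hT : i.1 ∈ T) (ha : τ ⊆ t.1.a) :
    ∃ w ≤ t, w.1.k δ = t.1.k δ ∧ ∃ τ', (i, τ') ∈ k' ∧ τ' ⊆ w.1.a := by
  obtain ⟨r, c, l, τ', h1, h2⟩ := h t.1 (t.cn _) Le.rfl _ hi hT ha
  exact ⟨R.am δ r t c l, R.am_le c l, (am_out le_rfl r t.1).2.2, τ', h1,
    sub_am h2 (hk _ h1)⟩

omit [WellFoundedLT W] in
theorem cp_sub {δ : K} {r : Dt K W} {k k' : Nm K W} {T : Set W} (h : SubB ℓ δ r k k' T)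
    (hk : ∀ e ∈ k', ∀ c ∈ e.2, c.1 < δ) {s : R ℓ} (l : Le ℓ (Iio δ) s.1 r) {i : Idx W}
    (hT : i.1 ∈ T) (hf : Fr (cp_tr ℓ k) i s) : Fr (cp_tr ℓ k') i s := by
  rw [cp_fr] at *
  intro s' hs
  obtain ⟨t, ht, τ, h1, h2⟩ := hf s' hs
  obtain ⟨w, hw, -, h3⟩ := cp_lift (t := t)
    (h.mono (le_trans_iio δ (R.le (ht.trans hs) _) l) subset_rfl) hk h1 hT h2
  exact ⟨w, hw.trans ht, h3⟩

omit [WellFoundedLT W] in
theorem cp_eqn {δ : K} {r : Dt K W} {k k' : Nm K W} {ξ : W} (h : EqB ℓ δ r k k' (Iic ξ))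
    (hk : NB δ k) (hk' : NB δ k') {s : R ℓ} (l : Le ℓ (Iio δ) s.1 r) :
    EqN {i | i.1 ≤ ξ} (cp_tr ℓ k) (cp_tr ℓ k') s := fun _ hi _ hs =>
  ⟨cp_sub h.1 hk'.2 (le_trans_iio δ (R.le hs _) l) hi,
    cp_sub h.2 hk.2 (le_trans_iio δ (R.le hs _) l) hi⟩

variable (ℓ) in
/-- The name of the promise at `δ`. -/
def cp_st (δ : K) : Set (Idx W × R ℓ) := {z | ∃ τ, (z.1, τ) ∈ z.2.1.k δ ∧ τ ⊆ z.2.1.a}

omit [WellFoundedLT W] in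
theorem cp_fin (δ : K) (r : R ℓ) {ξ : W} (hξ : ξ < r.1.al δ) :
    EqN {i | i.1 ≤ ξ} (cp_tr ℓ (r.1.k δ)) (cp_st ℓ δ) r := by
  intro i hi s hs
  have hi' : i.1 < r.1.al δ := lt_of_le_of_lt hi hξ
  rw [cp_fr]
  refine ⟨fun h s' hs' => ?_, fun h s' hs' => ?_⟩
  · obtain ⟨t, ht, τ, h1, h2⟩ := h s' hs'
    have a : At ℓ δ t.1 r.1 := (ht.trans (hs'.trans hs)) δ trivial
    obtain ⟨w, hw, e, τ', h3, h4⟩ := cp_lift (at_iff.1 a).2.2.1 (t.1.nb δ).2 h1 hi' h2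
    exact ⟨w, hw.trans ht, w, ⟨τ', e ▸ h3, h4⟩, le_rfl⟩
  · obtain ⟨t, ht, u, ⟨τ, h1, h2⟩, h3⟩ := h s' hs'
    have a : At ℓ δ t.1 r.1 := (ht.trans (hs'.trans hs)) δ trivial
    have a' : At ℓ δ t.1 u.1 := h3 δ trivial
    have b : SubB ℓ δ t.1 (u.1.k δ) (r.1.k δ) {i.1} :=
      SubB.trans (SubB.mono (at_iff.1 a').2.2.1 Le.rfl
        (singleton_subset_iff.2 (u.1.bk δ _ h1).1))
        (SubB.mono (at_iff.1 a).2.2.2 Le.rfl (singleton_subset_iff.2 hi'))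
    obtain ⟨w, hw, -, h4⟩ := cp_lift b (r.1.nb δ).2 h1 rfl (h2.trans (R.sub h3))
    exact ⟨w, hw.trans ht, h4⟩

omit [WellFoundedLT W] in
theorem cp (S : SmS W D) (H : Hyp W D) (hd : Dia ℓ) (hk : KccS ℓ) (hf : FreshS ℓ) :
    ∀ (G : W → Set (Idx W × R ℓ) → Vx W → R ℓ → Prop) (p : R ℓ), GoodRel G p →
    ∃ p' ≤ p, ∃ (k : Set (Idx W × R ℓ)) (V : R ℓ → Vx W → ℕ → Prop), Fn V ∧
      (∀ x, ∀ r ≤ p', ∃ r' ≤ r, ∃ n, V r' x n) ∧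
      ∀ r ≤ p', ∀ x x' n, V r x n → V r x' n → x.1 < x'.1 → G x'.1 k x r := by
  intro G p hG
  choose B hB using fun (ξ : W) (k : Nm K W) (x : Vx W) =>
    hk fun r => ∀ s ≤ r, ¬ G ξ (cp_tr ℓ k) x s
  have hg : ∀ b : K, ∃ c, ∀ ξ k x, NB b k → B ξ k x < c := by
    intro b
    obtain ⟨c, -, hc⟩ := H.M.sm (H.M.prod H.hW (H.M.prod (S.nm b)
      (H.M.prod H.hW (H.M.cnt ℕ)))) (fun z => B z.1 z.2.1.1 z.2.2) fun _ => trivial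
    exact ⟨c, fun ξ k x h => hc (ξ, ⟨k, h⟩, x)⟩
  choose g hg using hg
  obtain ⟨η⟩ := Filter.nonempty_of_neBot (D : Filter K)
  obtain ⟨δ, -, d1, d2, d3⟩ := hd
    {z | ∀ s : R ℓ, Le ℓ univ s.1 z.2.2.2 → s ≤ p → G z.1 (cp_tr ℓ z.2.1) z.2.2.1 s} g η
  have ha : ∀ ξ k x, NB δ k → ∀ r s : R ℓ, G ξ (cp_tr ℓ k) x r → Le ℓ (Iio δ) s.1 r.1 →
      G ξ (cp_tr ℓ k) x s := by
    intro ξ k x nb r s h l
    refine hG.reg _ _ _ _ fun s1 h1 => ?_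
    by_contra hc
    push Not at hc
    obtain ⟨s', e, bd, u, u1, u2⟩ := hB ξ k x s1 hc
    obtain ⟨b, b1, b2⟩ := d2 k nb
    have b3 : B ξ k x < δ := (hg b ξ k x b2).trans (d1 b b1)
    have l' : Le ℓ (Iio δ) u.1 r.1 := le_trans_iio δ (R.le (u1.trans h1) _) l
    refine e (R.am δ u.1 r (u.cn _) l') ?_ (hG.mono _ _ _ _ _ h (R.am_le _ _))
    exact bd.le ((le_trans_iio δ (am_le δ u.1 r.1) (R.le u2 _)).mono (Iio_subset_Iio b3.le))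
  have hb : ∀ ξ k x r, NB δ k → (Kl0 (Cn ℓ (Iio δ)) (Le ℓ (Iio δ)) δ (ℓ δ) ξ k x r ↔
      ∀ s : R ℓ, Le ℓ (Iio δ) s.1 r → s ≤ p → G ξ (cp_tr ℓ k) x s) := by
    intro ξ k x r nb
    refine ⟨fun h s l hs => ?_, fun h r' _ l bd => ?_⟩
    · exact (d3 (ξ, k, x, res δ s.1) ⟨nb, res_bd δ s.1⟩).2
        (h _ ((res_cn (s.cn _)).mono (subset_univ _)) (le_trans_iio δ (am_le δ s.1 top) l)
          (res_bd δ s.1)) s (le_res δ s.1) hs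
    · exact (d3 (ξ, k, x, r') ⟨nb, bd⟩).1 fun s l' hs =>
        h s (le_trans_iio δ (l'.mono (subset_univ _)) l) hs
  have hgood : GoodB ℓ δ := by
    refine ⟨fun r ξ k k' x nb nb' e h => (hb _ _ _ _ nb').2 fun s l hs =>
      hG.loc _ _ _ _ s hs (cp_eqn e nb nb' l) ((hb _ _ _ _ nb).1 h s l hs),
      fun r cr lam ξ B k hl lf nb e => ?_⟩
    by_cases hs : ∃ s : R ℓ, Le ℓ (Iio δ) s.1 r ∧ s ≤ p
    · obtain ⟨s, l, hs⟩ := hs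
      obtain ⟨s2, h2, m, hm⟩ := hG.keep ξ lam (cp_tr ℓ k) B s hs hl lf
        (fun n x hx => cp_sub e.2 nb.2 l rfl
          (cp_fr.2 fun t _ => ⟨t, le_rfl, ∅, ⟨hx, rfl⟩, Finset.empty_subset _⟩))
        (fun n x hx s' hs' hf => by
          obtain ⟨t, -, τ, h1, -⟩ := cp_fr.1 (cp_sub (i := (lam, n, x)) e.1 (fun e he c hc => by
            rw [he.2] at hc
            exact absurd hc (Finset.notMem_empty c)) (le_trans_iio δ (R.le hs' _) l) rfl hf) s'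
            le_rfl
          exact hx h1.1)
      exact ⟨s2.1, s2.cn _, le_trans_iio δ (R.le h2 _) l, m, fun n x hn hx =>
        (hb _ _ _ _ nb).2 fun t lt _ => ha _ _ _ nb s2 t (hm n x hn hx) lt⟩
    · exact ⟨r, cr, Le.rfl, 0, fun n x _ _ => (hb _ _ _ _ nb).2 fun s l h => (hs ⟨s, l, h⟩).elim⟩
  refine ⟨p, le_rfl, cp_st ℓ δ, fun r x n => (δ, x, n) ∈ r.1.a,
    ⟨fun r s x n h hs => R.sub hs h, fun r x n n' h h' => (ok_iff.1 (r.2 δ trivial)).1 x n n' h h'⟩,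
    fun x r _ => ?_, fun r hr x x' n h h' hx => ?_⟩
  · by_cases h : ∃ m, (δ, x, m) ∈ r.1.a
    · exact ⟨r, le_rfl, h⟩
    · push Not at h
      obtain ⟨s, hs, e⟩ := hf r δ x (r.1.a.sup (fun c => c.2.2) + 1) h fun y hy =>
        Nat.not_succ_le_self _ (Finset.le_sup (f := fun c : Col K W => c.2.2) hy)
      exact ⟨s, hs, _, e ▸ Finset.mem_insert_self _ _⟩
  · obtain ⟨-, o2, o3⟩ := ok_iff.1 (r.2 δ trivial)
    exact hG.loc _ _ _ _ r hr (cp_fin δ r (o2 x' n h'))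
      ((hb _ _ _ _ (r.1.nb δ)).1 (o3 x x' n h h' hx hgood) r Le.rfl hr)

end Pool.Agent.Lib.MP_6993b6_lc.Q1.V
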