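import Pool.Agent.Lib.MP_6993b6_lc.Q1.BSt

/-!
The forcing notion for the indestructible tree property: finite colourings together with
countably many promised sequences, along a guessing sequence `ℓ`.
-/

namespace Pool.Agent.Lib.MP_6993b6_lc.Q1.V

open Set Classical

abbrev Col (K W : Type) := K × Vx W × ℕ
/-- Names for subsets of `Idx` that are read off the generic colouring. -/
abbrev Nm (K W : Type) := Set (Idx W × Finset (Col K W))

/-- The data of a condition. -/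
@[ext] structure Dt (K W : Type) [LT K] [LT W] [Bot W] where
  a : Finset (Col K W)
  al : K → W
  k : K → Nm K W
  cs : {b | al b ≠ ⊥}.Countable
  ck : ∀ b, (k b).Countable
  bk : ∀ b, ∀ e ∈ k b, e.1.1 < al b ∧ ∀ c ∈ e.2, c.1 < b

variable {K W : Type} [LinearOrder K] [LinearOrder W] [OrderBot W]

abbrev Cde (K W : Type) [LT K] [LT W] [Bot W] := Set (W × Nm K W × Vx W × Dt K W)

def NB (b : K) (k : Nm K W) : Prop := k.Countable ∧ ∀ e ∈ k, ∀ c ∈ e.2, c.1 < b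

theorem Dt.nb (p : Dt K W) (b : K) : NB b (p.k b) := ⟨p.ck b, fun e he => (p.bk b e he).2⟩

/-- Support below `b`. -/
def Dt.Bd (p : Dt K W) (b : K) : Prop := (∀ c ∈ p.a, c.1 < b) ∧ ∀ b', b ≤ b' → p.al b' = ⊥

def chk (B : Set (Idx W)) : Nm K W := {e | e.1 ∈ B ∧ e.2 = ∅}

section gen

variable (C : Dt K W → Prop) (L : Dt K W → Dt K W → Prop)

/-- `r` forces that `k` is contained in `k'` on the levels in `S`. -/
def Sub (r : Dt K W) (k k' : Nm K W) (S : Set W) : Prop :=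
  ∀ r', C r' → L r' r → ∀ e ∈ k, e.1.1 ∈ S → e.2 ⊆ r'.a →
    ∃ r'', C r'' ∧ L r'' r' ∧ ∃ τ, (e.1, τ) ∈ k' ∧ τ ⊆ r''.a

def Eqv (r : Dt K W) (k k' : Nm K W) (S : Set W) : Prop := Sub C L r k k' S ∧ Sub C L r k' k S

def Kl0 (b : K) (s : Cde K W) (ξ : W) (k : Nm K W) (x : Vx W) (r : Dt K W) : Prop :=
  ∀ r', C r' → L r' r → r'.Bd b → (ξ, k, x, r') ∈ s

def Good (b : K) (s : Cde K W) : Prop :=
  (∀ r ξ k k' x, NB b k → NB b k' → Eqv C L r k k' (Iic ξ) → Kl0 C L b s ξ k x r →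
    Kl0 C L b s ξ k' x r) ∧
  ∀ r, C r → ∀ lam ξ B k, lam ≤ ξ → LF B lam → NB b k → Eqv C L r k (chk B) {lam} →
    ∃ r', C r' ∧ L r' r ∧ ∃ m, ∀ n x, m ≤ n → (lam, n, x) ∈ B → Kl0 C L b s ξ k x r'

def OkF (b : K) (s : Cde K W) (p : Dt K W) : Prop :=
  (∀ x n n', (b, x, n) ∈ p.a → (b, x, n') ∈ p.a → n = n') ∧
  (∀ x n, (b, x, n) ∈ p.a → x.1 < p.al b) ∧
  ∀ x x' n, (b, x, n) ∈ p.a → (b, x', n) ∈ p.a → x.1 < x'.1 → Good C L b s →
    Kl0 C L b s x'.1 (p.k b) x p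

def AtF (b : K) (p' p : Dt K W) : Prop :=
  (∀ y, (b, y) ∈ p.a → (b, y) ∈ p'.a) ∧ p.al b ≤ p'.al b ∧
    Eqv C L p' (p.k b) (p'.k b) (Iio (p.al b))

end gen

variable [WellFoundedLT K] (ℓ : K → Cde K W)

noncomputable def Rec : K → (Dt K W → Prop) × (Dt K W → Dt K W → Prop) :=
  (wellFounded_lt (α := K)).fix fun b f =>
    (OkF (fun r => ∀ b' h, (f b' h).1 r) (fun r' r => ∀ b' h, (f b' h).2 r' r) b (ℓ b),
      AtF (fun r => ∀ b' h, (f b' h).1 r) (fun r' r => ∀ b' h, (f b' h).2 r' r) b)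

/-- The clause for conditions at coordinate `b`. -/
def Ok (b : K) (p : Dt K W) : Prop := (Rec ℓ b).1 p
/-- The clause for the order at coordinate `b`. -/
def At (b : K) (p' p : Dt K W) : Prop := (Rec ℓ b).2 p' p
/-- Conditions on the coordinates in `I`. -/
def Cn (I : Set K) (p : Dt K W) : Prop := ∀ b ∈ I, Ok ℓ b p
/-- The order on the coordinates in `I`. -/
def Le (I : Set K) (p' p : Dt K W) : Prop := ∀ b ∈ I, At ℓ b p' p

abbrev SubB (b : K) := Sub (Cn ℓ (Iio b)) (Le ℓ (Iio b))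
abbrev EqB (b : K) := Eqv (Cn ℓ (Iio b)) (Le ℓ (Iio b))
abbrev GoodB (b : K) := Good (Cn ℓ (Iio b)) (Le ℓ (Iio b)) b (ℓ b)
/-- `r` forces that the vertex `x` may have the colour of a vertex of level `ξ`. -/
def Kl (b : K) (ξ : W) (k : Nm K W) (x : Vx W) (r : Dt K W) : Prop :=
  GoodB ℓ b → Kl0 (Cn ℓ (Iio b)) (Le ℓ (Iio b)) b (ℓ b) ξ k x r

variable {ℓ}

theorem ok_iff {b : K} {p : Dt K W} : Ok ℓ b p ↔
    (∀ x n n', (b, x, n) ∈ p.a → (b, x, n') ∈ p.a → n = n') ∧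
    (∀ x n, (b, x, n) ∈ p.a → x.1 < p.al b) ∧
    ∀ x x' n, (b, x, n) ∈ p.a → (b, x', n) ∈ p.a → x.1 < x'.1 → Kl ℓ b x'.1 (p.k b) x p := by
  rw [Ok, Rec, WellFounded.fix_eq]
  rfl

theorem at_iff {b : K} {p' p : Dt K W} : At ℓ b p' p ↔
    (∀ y, (b, y) ∈ p.a → (b, y) ∈ p'.a) ∧ p.al b ≤ p'.al b ∧
      EqB ℓ b p' (p.k b) (p'.k b) (Iio (p.al b)) := by
  rw [At, Rec, WellFounded.fix_eq]
  rfl

/-- Literal extension of the promise at `b`. -/
def Ex (b : K) (p' p : Dt K W) : Prop :=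
  p.al b ≤ p'.al b ∧ ∀ e, e.1.1 < p.al b → (e ∈ p.k b ↔ e ∈ p'.k b)

omit [WellFoundedLT K] in
theorem Ex.rfl {b : K} {p : Dt K W} : Ex b p p := ⟨le_rfl, fun _ _ => Iff.rfl⟩

omit [WellFoundedLT K] in
theorem Ex.of_eq {b : K} {p' p : Dt K W} (h : p'.al b = p.al b) (h' : p'.k b = p.k b) :
    Ex b p' p := ⟨h.ge, fun _ _ => by rw [h']⟩

omit [WellFoundedLT K] in
theorem Ex.trans {b : K} {p'' p' p : Dt K W} (h : Ex b p'' p') (h' : Ex b p' p) : Ex b p'' p :=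
  ⟨h'.1.trans h.1, fun e he => (h'.2 e he).trans (h.2 e (he.trans_le h'.1))⟩

theorem At.of_ex {b : K} : ∀ {p' p : Dt K W}, (∀ y, (b, y) ∈ p.a → (b, y) ∈ p'.a) →
    Ex b p' p → At ℓ b p' p := by
  induction b using (wellFounded_lt (α := K)).induction with
  | _ b ih =>
    intro p' p h1 h2
    have rf : ∀ r, Le ℓ (Iio b) r r := fun r b' hb => ih b' hb (fun _ h => h) Ex.rfl
    exact at_iff.2 ⟨h1, h2.1, fun r c _ e he hs ha => ⟨r, c, rf r, e.2, (h2.2 e hs).1 he, ha⟩,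
      fun r c _ e he hs ha => ⟨r, c, rf r, e.2, (h2.2 e hs).2 he, ha⟩⟩

theorem Le.rfl {I : Set K} {p : Dt K W} : Le ℓ I p p := fun _ _ => At.of_ex (fun _ h => h) Ex.rfl

theorem Le.mono {I J : Set K} {p' p : Dt K W} (h : Le ℓ I p' p) (hJ : J ⊆ I) : Le ℓ J p' p :=
  fun b hb => h b (hJ hb)

theorem Cn.mono {I J : Set K} {p : Dt K W} (h : Cn ℓ I p) (hJ : J ⊆ I) : Cn ℓ J p :=
  fun b hb => h b (hJ hb)

theorem Le.mem {I : Set K} {p' p : Dt K W} (h : Le ℓ I p' p) {c : Col K W} (hc : c ∈ p.a)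
    (hI : c.1 ∈ I) : c ∈ p'.a := (at_iff.1 (h _ hI)).1 c.2 hc

theorem le_trans_iio (b : K) : ∀ {p'' p' p : Dt K W}, Le ℓ (Iio b) p'' p' → Le ℓ (Iio b) p' p →
    Le ℓ (Iio b) p'' p := by
  induction b using (wellFounded_lt (α := K)).induction with
  | _ b ih =>
    intro p'' p' p h h' c hc
    obtain ⟨a1, a2, a3, a4⟩ := at_iff.1 (h c hc)
    obtain ⟨b1, b2, b3, b4⟩ := at_iff.1 (h' c hc)
    have l := h.mono (Iio_subset_Iio (le_of_lt hc))
    refine at_iff.2 ⟨fun y hy => a1 y (b1 y hy), b2.trans a2, fun r cr lr e he hs ha => ?_,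
      fun r cr lr e he hs ha => ?_⟩
    · obtain ⟨r1, c1, l1, τ, t1, t2⟩ := b3 r cr (ih c hc lr l) e he hs ha
      obtain ⟨r2, c2, l2, t⟩ := a3 r1 c1 (ih c hc l1 lr) _ t1 (lt_of_lt_of_le hs b2) t2
      exact ⟨r2, c2, ih c hc l2 l1, t⟩
    · obtain ⟨r1, c1, l1, τ, t1, t2⟩ := a4 r cr lr e he (lt_of_lt_of_le hs b2) ha
      obtain ⟨r2, c2, l2, t⟩ := b4 r1 c1 (ih c hc (ih c hc l1 lr) l) _ t1 hs t2
      exact ⟨r2, c2, ih c hc l2 l1, t⟩

section sub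

variable {b : K} {r r' : Dt K W} {k k' k'' : Nm K W} {S S' : Set W}

theorem SubB.mono (h : SubB ℓ b r k k' S) (l : Le ℓ (Iio b) r' r) (hS : S' ⊆ S) :
    SubB ℓ b r' k k' S' := fun s c ls e he hs => h s c (le_trans_iio b ls l) e he (hS hs)

theorem SubB.trans (h : SubB ℓ b r k k' S) (h' : SubB ℓ b r k' k'' S) : SubB ℓ b r k k'' S := by
  intro s c ls e he hs ha
  obtain ⟨r1, c1, l1, τ, t1, t2⟩ := h s c ls e he hs ha
  obtain ⟨r2, c2, l2, t⟩ := h' r1 c1 (le_trans_iio b l1 ls) _ t1 hs t2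
  exact ⟨r2, c2, le_trans_iio b l2 l1, t⟩

theorem SubB.of_sub (h : ∀ e ∈ k, e.1.1 ∈ S → e ∈ k') : SubB ℓ b r k k' S :=
  fun s c _ e he hs ha => ⟨s, c, Le.rfl, e.2, h e he hs, ha⟩

theorem EqB.mono (h : EqB ℓ b r k k' S) (l : Le ℓ (Iio b) r' r) (hS : S' ⊆ S) :
    EqB ℓ b r' k k' S' := ⟨SubB.mono h.1 l hS, SubB.mono h.2 l hS⟩

theorem EqB.trans (h : EqB ℓ b r k k' S) (h' : EqB ℓ b r k' k'' S) : EqB ℓ b r k k'' S :=
  ⟨SubB.trans h.1 h'.1, SubB.trans h'.2 h.2⟩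

theorem EqB.symm (h : EqB ℓ b r k k' S) : EqB ℓ b r k' k S := ⟨h.2, h.1⟩

theorem EqB.of_iff (h : ∀ e, e.1.1 ∈ S → (e ∈ k ↔ e ∈ k')) : EqB ℓ b r k k' S :=
  ⟨SubB.of_sub fun e he hs => (h e hs).1 he, SubB.of_sub fun e he hs => (h e hs).2 he⟩

theorem Kl.mono {ξ : W} {x : Vx W} (h : Kl ℓ b ξ k x r) (l : Le ℓ (Iio b) r' r) :
    Kl ℓ b ξ k x r' := fun g s c ls => h g s c (le_trans_iio b ls l)

end sub

theorem At.trans {b : K} {p'' p' p : Dt K W} (h : At ℓ b p'' p') (h' : At ℓ b p' p)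
    (l : Le ℓ (Iio b) p'' p') : At ℓ b p'' p := by
  obtain ⟨a1, a2, a3⟩ := at_iff.1 h
  obtain ⟨b1, b2, b3⟩ := at_iff.1 h'
  exact at_iff.2 ⟨fun y hy => a1 y (b1 y hy), b2.trans a2,
    (b3.mono l subset_rfl).trans (a3.mono Le.rfl (Iio_subset_Iio b2))⟩

theorem Le.trans {I : Set K} (hI : IsLowerSet I) {p'' p' p : Dt K W} (h : Le ℓ I p'' p')
    (h' : Le ℓ I p' p) : Le ℓ I p'' p :=
  fun b hb => (h b hb).trans (h' b hb) (h.mono fun _ hc => hI (le_of_lt hc) hb)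

/-- Transfer of `Kl` to a stronger condition with its own name. -/
theorem Kl.up {b : K} {p' p : Dt K W} {ξ : W} {x : Vx W} (h : Kl ℓ b ξ (p.k b) x p)
    (l : Le ℓ (Iio b) p' p) (t : At ℓ b p' p) (hξ : ξ < p.al b) : Kl ℓ b ξ (p'.k b) x p' :=
  fun g => g.1 _ _ _ _ _ (p.nb b) (p'.nb b) (EqB.mono (at_iff.1 t).2.2 Le.rfl
    fun _ hy => lt_of_le_of_lt hy hξ) (h.mono l g)

theorem Ok.of {b : K} {p' p : Dt K W} (h : Ok ℓ b p) (l : Le ℓ (Iio b) p' p) (t : At ℓ b p' p)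
    (ha : ∀ y, (b, y) ∈ p'.a → (b, y) ∈ p.a) : Ok ℓ b p' := by
  obtain ⟨h1, h2, h3⟩ := ok_iff.1 h
  exact ok_iff.2 ⟨fun x n n' a a' => h1 x n n' (ha _ a) (ha _ a'),
    fun x n a => (h2 x n (ha _ a)).trans_le (at_iff.1 t).2.1, fun x x' n a a' hx =>
    (h3 x x' n (ha _ a) (ha _ a') hx).up l t (h2 x' n (ha _ a'))⟩

theorem Ok.of_empty {b : K} {p : Dt K W} (h : ∀ y, (b, y) ∉ p.a) : Ok ℓ b p :=
  ok_iff.2 ⟨fun _ _ _ a => (h _ a).elim, fun _ _ a => (h _ a).elim, fun _ _ _ a => (h _ a).elim⟩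

/-- The data of `r` on the coordinates in `S` and those of `p` elsewhere. -/
noncomputable def pw (S : Set K) (r p : Dt K W) : Dt K W where
  a := r.a.filter (·.1 ∈ S) ∪ p.a.filter (·.1 ∉ S)
  al b := if b ∈ S then r.al b else p.al b
  k b := if b ∈ S then r.k b else p.k b
  cs := (r.cs.union p.cs).mono fun b hb => by
    by_cases h : b ∈ S <;> simp_all
  ck b := by split_ifs; exacts [r.ck b, p.ck b]
  bk b := by split_ifs; exacts [r.bk b, p.bk b]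

/-- Agreement at the coordinate `b`. -/
def Ag (b : K) (p' p : Dt K W) : Prop :=
  (∀ y, (b, y) ∈ p'.a ↔ (b, y) ∈ p.a) ∧ p'.al b = p.al b ∧ p'.k b = p.k b

omit [WellFoundedLT K] in
theorem pw_in {S : Set K} {b : K} (h : b ∈ S) (r p : Dt K W) : Ag b (pw S r p) r := by
  simp [Ag, pw, h]

omit [WellFoundedLT K] in
theorem pw_out {S : Set K} {b : K} (h : b ∉ S) (r p : Dt K W) : Ag b (pw S r p) p := by
  simp [Ag, pw, h]

omit [WellFoundedLT K] in
theorem Ag.symm {b : K} {p' p : Dt K W} (h : Ag b p' p) : Ag b p p' :=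
  ⟨fun y => (h.1 y).symm, h.2.1.symm, h.2.2.symm⟩

theorem Ag.at {b : K} {p' p : Dt K W} (h : Ag b p' p) : At ℓ b p' p :=
  At.of_ex (fun y => (h.1 y).2) (Ex.of_eq h.2.1 h.2.2)

/-- `At b p' p` depends only on the coordinate `b` of `p`. -/
theorem At.right {b : K} {p' p q : Dt K W} (h : At ℓ b p' p) (g : Ag b p q) : At ℓ b p' q := by
  rw [at_iff] at *
  rw [← g.2.1, ← g.2.2]
  exact ⟨fun y hy => h.1 y ((g.1 y).2 hy), h.2⟩

/-- Amalgamation. -/
noncomputable abbrev am (b : K) (r p : Dt K W) : Dt K W := pw (Iio b) r p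

omit [WellFoundedLT K] in
theorem am_in {b c : K} (h : c < b) (r p : Dt K W) : Ag c (am b r p) r :=
  pw_in (S := Iio b) h r p

omit [WellFoundedLT K] in
theorem am_out {b c : K} (h : b ≤ c) (r p : Dt K W) : Ag c (am b r p) p :=
  pw_out (S := Iio b) (not_lt.2 h) r p

theorem am_le (b : K) (r p : Dt K W) : Le ℓ (Iio b) (am b r p) r := fun _ h => (pw_in h r p).at

theorem le_am (b : K) (r p : Dt K W) : Le ℓ (Iio b) r (am b r p) :=
  fun _ h => (pw_in h r p).symm.at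

theorem le_am_iff {I : Set K} {b : K} {s r p : Dt K W} : Le ℓ I s (am b r p) ↔
    (∀ c ∈ I, c < b → At ℓ c s r) ∧ ∀ c ∈ I, b ≤ c → At ℓ c s p := by
  refine ⟨fun h => ⟨fun c hc hb => (h c hc).right (am_in hb r p),
    fun c hc hb => (h c hc).right (am_out hb r p)⟩, fun h c hc => ?_⟩
  rcases lt_or_ge c b with hb | hb
  exacts [(h.1 c hc hb).right (am_in hb r p).symm,
    (h.2 c hc hb).right (am_out hb r p).symm]

theorem am_le_right {b : K} {r p : Dt K W} (l : Le ℓ (Iio b) r p) : Le ℓ univ (am b r p) p := by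
  intro c _
  rcases lt_or_ge c b with hb | hb
  · exact le_trans_iio b (am_le b r p) l c hb
  · exact (am_out hb r p).at

theorem am_cn {I : Set K} {b : K} {r p : Dt K W} (cr : Cn ℓ (Iio b) r) (l : Le ℓ (Iio b) r p)
    (cp : ∀ c ∈ I, b ≤ c → Ok ℓ c p) : Cn ℓ I (am b r p) := by
  intro c hc
  rcases lt_or_ge c b with hb | hb
  · exact (cr c hb).of ((am_le b r p).mono (Iio_subset_Iio hb.le)) (am_le b r p c hb)
      fun y => ((am_in hb r p).1 y).1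
  · exact (cp c hc hb).of ((am_le_right l).mono (subset_univ _)) (am_le_right l c trivial)
      fun y => ((am_out hb r p).1 y).1

/-- The trivial condition. -/
def top : Dt K W := ⟨∅, fun _ => ⊥, fun _ => ∅, by simp, by simp, by simp⟩

theorem le_top' {I : Set K} (p : Dt K W) : Le ℓ I p top := fun _ _ =>
  At.of_ex (by simp [top]) ⟨bot_le, fun _ h => (not_lt_bot h).elim⟩

theorem Dt.Bd.at {p s : Dt K W} {b c : K} (h : p.Bd b) (hc : b ≤ c) : At ℓ c s p :=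
  At.of_ex (fun y hy => (not_lt.2 hc (h.1 _ hy)).elim)
    ⟨by rw [h.2 c hc]; exact bot_le, fun _ g => by rw [h.2 c hc] at g; exact (not_lt_bot g).elim⟩

theorem Dt.Bd.le {p s : Dt K W} {b : K} (h : p.Bd b) (l : Le ℓ (Iio b) s p) : Le ℓ univ s p :=
  fun c _ => (lt_or_ge c b).elim (l c) h.at

/-- Restriction to the coordinates below `b`. -/
noncomputable abbrev res (b : K) (p : Dt K W) : Dt K W := am b p top

omit [WellFoundedLT K] in
theorem res_bd (b : K) (p : Dt K W) : (res b p).Bd b :=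
  ⟨fun c hc => by simp [pw, top] at hc; exact hc.2, fun c hc => by simp [pw, top, not_lt.2 hc]⟩

theorem res_cn {b : K} {p : Dt K W} (h : Cn ℓ (Iio b) p) : Cn ℓ univ (res b p) :=
  am_cn h (le_top' p) fun _ _ _ => Ok.of_empty (by simp [top])

theorem le_res (b : K) (p : Dt K W) : Le ℓ univ p (res b p) := (res_bd b p).le (le_am b p top)

/-- The promises of `q` with the colours `a`. -/
def Dt.wa (q : Dt K W) (a : Finset (Col K W)) : Dt K W := { q with a := a }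

theorem wa_le {q' q : Dt K W} {a' : Finset (Col K W)} (h : ∀ b, Ex b q' q) (ha : q.a ⊆ a') :
    Le ℓ univ (q'.wa a') q := fun b _ => At.of_ex (fun _ hy => ha hy) (h b)

/-- Literal extensions of the promises preserve conditions. -/
theorem wa_cn {q' q : Dt K W} (h : ∀ b, Ex b q' q) (c : Cn ℓ univ q) :
    Cn ℓ univ (q'.wa q.a) := fun b _ =>
  (c b trivial).of ((wa_le h subset_rfl).mono (subset_univ _)) (wa_le h subset_rfl b trivial)
    fun _ hy => hy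

theorem le_wa {I : Set K} {s q : Dt K W} {a : Finset (Col K W)} (l : Le ℓ I s q) (ha : a ⊆ s.a) :
    Le ℓ I s (q.wa a) := fun b hb => at_iff.2 ⟨fun _ hy => ha hy, (at_iff.1 (l b hb)).2⟩

/-- An extension is equivalent to a literal extension with more colours. -/
theorem mix {p' p : Dt K W} (c : Cn ℓ univ p') (l : Le ℓ univ p' p) :
    ∃ q : Dt K W, q.a = p'.a ∧ q.al = p'.al ∧ (∀ b, Ex b q p) ∧ Cn ℓ univ q ∧ Le ℓ univ q p' := by
  have h1 : ∀ b, p.al b ≤ p'.al b := fun b => (at_iff.1 (l b trivial)).2.1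
  let q : Dt K W := ⟨p'.a, p'.al, fun b => p.k b ∪ {e ∈ p'.k b | p.al b ≤ e.1.1}, p'.cs,
    fun b => (p.ck b).union ((p'.ck b).mono fun _ h => h.1), fun b e he => he.elim
      (fun h => ⟨(p.bk b e h).1.trans_le (h1 b), (p.bk b e h).2⟩) fun h => p'.bk b e h.1⟩
  have h2 : ∀ b, EqB ℓ b p' (p'.k b) (q.k b) univ := fun b => by
    obtain ⟨-, -, a1, a2⟩ := at_iff.1 (l b trivial)
    refine ⟨fun r cr lr e he _ ha => ?_, fun r cr lr e he _ ha => ?_⟩
    · rcases lt_or_ge e.1.1 (p.al b) with h | h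
      · obtain ⟨r1, c1, l1, τ, t1, t2⟩ := a2 r cr lr e he h ha
        exact ⟨r1, c1, l1, τ, Or.inl t1, t2⟩
      · exact ⟨r, cr, Le.rfl, e.2, Or.inr ⟨he, h⟩, ha⟩
    · rcases he with h | h
      · exact a1 r cr lr e h (p.bk b e h).1 ha
      · exact ⟨r, cr, Le.rfl, e.2, h.1, ha⟩
  have h3 : ∀ b, At ℓ b q p' := fun b => by
    induction b using (wellFounded_lt (α := K)).induction with
    | _ b ih => exact at_iff.2 ⟨fun _ h => h, le_rfl, (h2 b).mono ih (subset_univ _)⟩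
  exact ⟨q, rfl, rfl, fun b => ⟨h1 b, fun e he => ⟨Or.inl, fun h => h.elim id
    fun h => (not_lt.2 h.2 he).elim⟩⟩,
    fun b _ => (c b trivial).of (fun b' _ => h3 b') (h3 b) fun _ h => h, fun b _ => h3 b⟩

variable (ℓ) in
/-- The forcing notion. -/
def R : Type := {p : Dt K W // Cn ℓ univ p}

instance : Preorder (R ℓ) where
  le p' p := Le ℓ univ p'.1 p.1
  le_refl _ := Le.rfl
  le_trans _ _ _ h h' := Le.trans isLowerSet_univ h h'

instance : OrderTop (R ℓ) where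
  top := ⟨top, fun _ _ => Ok.of_empty (by simp [top])⟩
  le_top p := le_top' p.1

theorem R.le_def {p' p : R ℓ} : p' ≤ p ↔ Le ℓ univ p'.1 p.1 := Iff.rfl

end Pool.Agent.Lib.MP_6993b6_lc.Q1.V
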