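import Pool.Agent.Lib.MP_6993b6_lc.Q1.RSt

/-!
A guessing sequence on a cardinal that carries a normal measure.
-/

namespace Pool.Agent.Lib.MP_6993b6_lc.Q1.V

open Set Cardinal Filter

variable {K W : Type} [LinearOrder K] [LinearOrder W] [OrderBot W] [WellFoundedLT K]
  [WellFoundedLT W] {ℓ : K → Cde K W} {D : Ultrafilter K}

/-- The pair `y` is not guessed below `a`. -/
def dia_P {X : Type} (I : X → K → Prop) (E : K → Prop) (a : K) (f : ∀ γ, γ < a → Set X)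
    (y : Set X × (K → K)) : Prop :=
  (∀ b < a, y.2 b < a) ∧ ∀ γ (h : γ < a), E γ → (∀ b < γ, y.2 b < γ) →
    ¬ ∀ x, I x γ → (x ∈ y.1 ↔ x ∈ f γ h)

theorem dia_rec {X : Type} (I : X → K → Prop) (E : K → Prop) :
    ∃ F : K → Set X × (K → K), ∀ a, (∃ y, dia_P I E a (fun γ _ => (F γ).1) y) →
      dia_P I E a (fun γ _ => (F γ).1) (F a) := by
  have : Nonempty (Set X × (K → K)) := ⟨(∅, id)⟩
  refine ⟨(wellFounded_lt (α := K)).fix fun a f =>
    Classical.epsilon (dia_P I E a fun γ h => (f γ h).1), fun a h => ?_⟩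
  rw [WellFounded.fix_eq]
  exact Classical.epsilon_spec h

theorem dia_abs {X : Type} (M : Meas D) (N : Normal D) (I : X → K → Prop)
    (hI : ∀ b, #{x // I x b} < #K) (E : K → Prop) (hE : ∀ᶠ δ in (D : Filter K), E δ)
    (hr : ∀ δ, E δ → ∀ x, I x δ → ∃ b < δ, I x b) :
    ∃ ℓ : K → Set X, ∀ (S : Set X) (g : K → K), ∃ δ, E δ ∧ (∀ b < δ, g b < δ) ∧
      ∀ x, I x δ → (x ∈ S ↔ x ∈ ℓ δ) := by
  obtain ⟨F, hF⟩ := dia_rec I E
  refine ⟨fun a => (F a).1, fun S g => ?_⟩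
  by_contra hc
  have h1 : ∀ᶠ a in (D : Filter K), dia_P I E a (fun γ _ => (F γ).1) (F a) :=
    (N.diag fun b => M.tail (g b)).mono fun a h =>
      hF a ⟨(S, g), h, fun γ _ h1 h2 h3 => hc ⟨γ, h1, h2, h3⟩⟩
  have h2 : ∀ b, ∀ᶠ a in (D : Filter K), ∀ x : {x // I x b},
      (x.1 ∈ (F a).1 ↔ ∀ᶠ a' in (D : Filter K), x.1 ∈ (F a').1) := fun b =>
    M.all (hI b) fun x => by
      by_cases h : ∀ᶠ a' in (D : Filter K), x.1 ∈ (F a').1
      · exact h.mono fun a ha => iff_of_true ha h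
      · exact (Ultrafilter.eventually_not.2 h).mono fun a ha => iff_of_false ha h
  choose c hc using fun b => N (fun a => (F a).2 b) ((h1.and (M.tail b)).mono fun a h => h.1.1 b h.2)
  have h := (h1.and hE).and ((N.diag h2).and (N.diag hc))
  obtain ⟨a, ⟨a1, a2⟩, a3, a4⟩ := h.exists
  obtain ⟨a', ⟨⟨b1, -⟩, b3, b4⟩, hl⟩ := (h.and (M.tail a)).exists
  refine b1.2 a hl a2 (fun b hb => ?_) fun x hx => ?_
  · rw [b4 b (hb.trans hl), ← a4 b hb]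
    exact a1.1 b hb
  · obtain ⟨b, hb, hx⟩ := hr a a2 x hx
    exact (b3 b (hb.trans hl) ⟨x, hx⟩).trans (a3 b hb ⟨x, hx⟩).symm

omit [WellFoundedLT W] in
theorem dia (S : SmS W D) (H : Hyp W D) : ∃ ℓ : K → Cde K W, Dia ℓ := by
  obtain ⟨c0, -⟩ := (eventually_true (D : Filter K)).exists
  have hV : #(Vx W) < #K := H.M.prod H.hW (H.M.cnt ℕ)
  have hI : ∀ b : K, #{x : W × Nm K W × Vx W × Dt K W // In x b} < #K := fun b =>
    (mk_le_of_injective (f := fun x : {x : W × Nm K W × Vx W × Dt K W // In x b} =>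
      ((x.1.1, ⟨x.1.2.1, x.2.1⟩, x.1.2.2.1, ⟨x.1.2.2.2, x.2.2⟩) :
        W × {k : Nm K W // NB b k} × Vx W × {p : Dt K W // p.Bd b})) fun x y h => by
      simp only [Prod.mk.injEq, Subtype.mk.injEq] at h
      exact Subtype.ext (Prod.ext h.1 (Prod.ext h.2.1 (Prod.ext h.2.2.1 h.2.2.2)))).trans_lt
    (H.M.prod H.hW (H.M.prod (S.nm b) (H.M.prod hV (S.dt b))))
  obtain ⟨ℓ, h⟩ := dia_abs H.M H.N In hI _ ((S.nb.and S.bd).and (H.M.tail c0)) (by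
    rintro δ ⟨⟨h1, h2⟩, -⟩ x ⟨x1, x2⟩
    obtain ⟨b, b1, b2⟩ := h1 _ x1
    obtain ⟨b', c1, c2⟩ := h2 _ x2
    exact ⟨max b b', max_lt b1 c1,
      ⟨b2.1, fun e he c hc => (b2.2 e he c hc).trans_le (le_max_left _ _)⟩,
      fun c hc => (c2.1 c hc).trans_le (le_max_right _ _),
      fun d hd => c2.2 d ((le_max_right _ _).trans hd)⟩)
  refine ⟨ℓ, fun T g η => ?_⟩
  obtain ⟨δ, ⟨⟨h1, -⟩, h2⟩, h3, h4⟩ := h T fun b => max (g b) η
  exact ⟨δ, (le_max_right _ _).trans_lt (h3 c0 h2), fun b hb =>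
    (le_max_left _ _).trans_lt (h3 b hb), h1, h4⟩

end Pool.Agent.Lib.MP_6993b6_lc.Q1.V
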