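import Pool.Agent.Lib.MP_6993b6_lc.Q1.RSt

/-!
Boundedness properties of the forcing notion `R ℓ`.
-/

namespace Pool.Agent.Lib.MP_6993b6_lc.Q1.V

open Set Cardinal Filter

variable {K W : Type} [LinearOrder K] [LinearOrder W] [OrderBot W] [WellFoundedLT K]
  {ℓ : K → Cde K W} {D : Ultrafilter K}

theorem l34_cov (hc : CovS ℓ) {Y : Type} (V : R ℓ → ℕ → Y → Prop) (hV : Fn V) (p : R ℓ) :
    ∃ q : R ℓ, q.1.a = p.1.a ∧ q ≤ p ∧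
      ∃ S : Set Y, S.Countable ∧ ∀ r ≤ q, ∀ n y, V r n y → y ∈ S := by
  obtain ⟨q, h1, h2, A, hA⟩ := hc p (fun n s => ∃ y, V s n y)
    fun n r s ⟨y, hy⟩ hs => ⟨y, hV.mono _ _ _ _ hy hs⟩
  refine ⟨q, h1, fun b _ => At.of_ex (fun y hy => h1 ▸ hy) (h2 b),
    ⋃ n, ⋃ s ∈ A n, {y | V s n y}, countable_iUnion fun n => (hA n).1.biUnion fun s _ =>
      Set.Subsingleton.countable fun y hy y' hy' => hV.uniq _ _ _ _ hy hy', fun r hr n y hy => ?_⟩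
  obtain ⟨u, hu, s, hs, hus⟩ := (hA n).2.2 r hr ⟨y, hy⟩
  obtain ⟨y', hy'⟩ := ((hA n).2.1 s hs).1
  rw [hV.uniq u n _ _ (hV.mono _ _ _ _ hy hu) (hV.mono _ _ _ _ hy' hus)]
  exact mem_iUnion.2 ⟨n, mem_biUnion hs hy'⟩

theorem bddN (hc : CovS ℓ) {Y : Type} (V : R ℓ → ℕ → Y → Prop) (hV : Fn V) (p : R ℓ) :
    ∃ q ≤ p, ∃ S : Set Y, S.Countable ∧ ∀ r ≤ q, ∀ n y, V r n y → y ∈ S :=
  let ⟨q, _, h⟩ := l34_cov hc V hV p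
  ⟨q, h⟩

theorem h1 (H : Hyp W D) (hc : CovS ℓ) : Bdd (R ℓ) ℕ W := fun V hV p =>
  let ⟨q, hq, S, h1, h2⟩ := bddN hc V hV p
  let ⟨b, hb⟩ := H.cof S h1
  ⟨q, hq, b, fun r hr n y h => hb y (h2 r hr n y h)⟩

theorem kbd (S : SmS W D) (H : Hyp W D) (hk : KccS ℓ) {I : Type} (V : R ℓ → I → K → Prop)
    (hV : Fn V) (i : I) : ∃ b, ∀ r y, V r i y → y < b := by
  obtain ⟨b, hb⟩ := hk fun s => ∃ y, V s i y
  have h : ∀ p : {p : Dt K W // p.Bd b}, ∃ y : K, ∀ s : R ℓ, s.1 = p.1 → ∀ y', V s i y' →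
      y' = y := by
    intro p
    by_cases h : ∃ (s : R ℓ) (y : K), s.1 = p.1 ∧ V s i y
    · obtain ⟨s, y, h1, h2⟩ := h
      refine ⟨y, fun s' e y' h' => hV.uniq s i _ _ ?_ h2⟩
      rwa [← (Subtype.ext (e.trans h1.symm) : s' = s)]
    · exact ⟨b, fun s e y' h' => (h ⟨s, y', e, h'⟩).elim⟩
  choose f hf using h
  obtain ⟨c, -, hc⟩ := H.M.sm (S.dt b) f fun _ => trivial
  refine ⟨c, fun r y hy => ?_⟩
  obtain ⟨s, ⟨y', hy'⟩, h1, u, hu, hus⟩ := hb r ⟨y, hy⟩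
  rw [hV.uniq u i _ _ (hV.mono _ _ _ _ hy hu) (hV.mono _ _ _ _ hy' hus),
    hf ⟨s.1, h1⟩ s rfl y' hy']
  exact hc _

theorem h2 (S : SmS W D) (H : Hyp W D) (hk : KccS ℓ) : Bdd (R ℓ) W K := fun V hV p => by
  choose g hg using kbd S H hk V hV
  obtain ⟨b, -, hb⟩ := H.M.sm H.hW g fun _ => trivial
  exact ⟨p, le_rfl, b, fun r _ i y h => (hg i r y h).trans (hb i)⟩

theorem l34_am (p : R ℓ) (q : Qt W D) (g : K) : ∃ s : R ℓ, (∀ c ∈ s.1.a, c.1 < g) ∧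
    Le ℓ univ s.1 (q.1.2 g) ∧ (p.1.Bd g → s ≤ p) := by
  obtain ⟨e1, e2⟩ := q.2.2 g
  have l : Le ℓ (Iio g) p.1 (q.1.2 g) := fun b hb =>
    At.of_ex (by simp [e1]) ⟨by rw [e2 b hb]; exact bot_le,
      fun _ h => by rw [e2 b hb] at h; exact (not_lt_bot h).elim⟩
  refine ⟨⟨am g p.1 (q.1.2 g), am_cn (p.cn _) l fun _ _ _ => Ok.of_empty (by simp [e1])⟩,
    fun c hc => ?_, am_le_right l, fun h => h.le (am_le g _ _)⟩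
  by_contra hn
  have := ((am_out (not_lt.1 hn) p.1 (q.1.2 g)).1 c.2).1 hc
  simp [e1] at this

theorem l3 (S : SmS W D) (H : Hyp W D) (hc : CovS ℓ) :
    ∀ V : R ℓ → K → W → Prop, Fn V → ∀ (p : R ℓ) (q : Qt W D), ∃ p' ≤ p, ∃ q' b, LeQ p' q' q ∧
      ∀ r ≤ p', ∀ γ ζ, ZQ r q' γ → V r γ ζ → ζ < b := by
  intro V hV p q
  have h : ∀ g, ∃ (s : R ℓ) (z : W), (∀ c ∈ s.1.a, c.1 < g) ∧ Le ℓ univ s.1 (q.1.2 g) ∧
      (p.1.Bd g → s ≤ p) ∧ ∀ r ≤ s, ∀ ζ, V r g ζ → ζ < z := by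
    intro g
    obtain ⟨s, a1, a2, a3⟩ := l34_am p q g
    obtain ⟨s', b1, b2, T, b3, b4⟩ := l34_cov hc (fun r (_ : ℕ) ζ => V r g ζ)
      ⟨fun _ _ _ _ => hV.mono _ _ _ _, fun _ _ _ _ => hV.uniq _ _ _ _⟩ s
    obtain ⟨z, hz⟩ := H.cof T b3
    exact ⟨s', z, b1 ▸ a1, Le.trans isLowerSet_univ b2 a2, fun h => b2.trans (a3 h),
      fun r hr ζ h => hz ζ (b4 r hr 0 ζ h)⟩
  choose s z a1 a2 a3 a4 using h
  obtain ⟨r0, h1⟩ := S.press fun g => (s g).1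
  obtain ⟨z0, h2⟩ := H.M.const H.hW z
  obtain ⟨g0, c1, c2⟩ := (h1.and (S.ev p.1)).exists
  have hX : {g | g ∈ q.1.1 ∧ res g (s g).1 = r0 ∧ z g = z0} ∈ D :=
    Eventually.and (f := (D : Filter K)) q.2.1 (h1.and h2)
  have key : ∀ g, res g (s g).1 = r0 → ∀ r : R ℓ, Le ℓ univ r.1 r0 →
      Le ℓ univ r.1 (am g top (s g).1) → r ≤ s g := by
    intro g e r l l' c hc
    rw [← e] at l
    exact (lt_or_ge c g).elim ((le_am_iff.1 l).1 c hc) ((le_am_iff.1 l').2 c hc)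
  refine ⟨⟨r0, c1 ▸ res_cn ((s g0).cn _)⟩, c2.le ?_, ⟨(_, fun g => am g top (s g).1), hX,
    fun g => ⟨?_, fun b hb => (am_in hb _ _).2.1⟩⟩, z0, ⟨fun _ h => h.1, fun g hg r hr l => ?_⟩,
    fun r hr g ζ hg h => ?_⟩
  · show Le ℓ _ r0 _
    rw [← c1]
    exact le_trans_iio g0 (am_le g0 _ _) (R.le (a3 g0 c2) _)
  · refine Finset.eq_empty_of_forall_notMem fun c hc => ?_
    rcases lt_or_ge c.1 g with h | h
    · simpa [top] using ((am_in h top (s g).1).1 c.2).1 hc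
    · exact not_lt.2 h (a1 g c (((am_out h top (s g).1).1 c.2).1 hc))
  · exact Le.trans isLowerSet_univ (key g hg.2.1 r hr l) (a2 g)
  · rw [← hg.1.2.2]
    exact a4 g r (key g hg.1.2.1 r hr hg.2) ζ h

theorem l4 (S : SmS W D) (H : Hyp W D) (hc : CovS ℓ) (hk : KccS ℓ) :
    ∀ V : R ℓ → K → K → Prop, Fn V → ∀ (p : R ℓ) (q : Qt W D) (η : K), ∃ p' ≤ p, ∃ γ, η < γ ∧
      ZQ p' q γ ∧ (∀ r β y, β < γ → V r β y → y < γ) ∧ Bdd (R ℓ) ℕ (Iio γ) := by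
  intro V hV p q η
  choose g hg using kbd S H hk V hV
  obtain ⟨γ, a1, a2, a3, a4, a5⟩ := (Eventually.and (f := (D : Filter K)) q.2.1
    ((H.M.tail η).and ((S.ev p.1).and ((H.N.diag fun β => H.M.tail (g β)).and
      (H.M.sm_iio H.N (H.M.cnt ℕ)))))).exists
  obtain ⟨s, -, b2, b3⟩ := l34_am p q γ
  refine ⟨s, b3 a3, γ, a2, ⟨a1, b2⟩, fun r β y h h' => (hg β r y h').trans (a4 β h),
    fun V' hV' p' => ?_⟩
  obtain ⟨q', c1, T, c2, c3⟩ := bddN hc V' hV' p'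
  obtain ⟨b, d1, d2⟩ := Sm.set ⟨η, a2⟩ a5 (c2.image Subtype.val) (by
    rintro _ ⟨y, -, rfl⟩
    exact y.2)
  exact ⟨q', c1, ⟨b, d1⟩, fun r hr n y h => d2 y.1 ⟨y, c3 r hr n y h, rfl⟩⟩

end Pool.Agent.Lib.MP_6993b6_lc.Q1.V
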