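import Pool.Agent.Lib.MP_6993b6_lc.Measure
import Pool.Agent.Lib.MP_6993b6_lc.Q1.VS
import Pool.Agent.Lib.MP_6993b6_lc.Q1.RDef

/-!
Statements of the properties of the forcing notion `R ℓ`.
-/

namespace Pool.Agent.Lib.MP_6993b6_lc.Q1.V

open Set Cardinal Filter

variable {K W : Type} [LinearOrder K] [LinearOrder W]

/-- `D` is a normal measure on `K` and `W` has type `ω₁`. -/
structure Hyp (W : Type) [LinearOrder W] (D : Ultrafilter K) : Prop where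
  M : Meas D
  N : Normal D
  hW : #W < #K
  cof : Cof W
  cnt : ∀ ζ : W, (Iio ζ).Countable

variable [OrderBot W]

/-- Tail conditions on a set of measure one. -/
def Qt (W : Type) [LinearOrder W] [OrderBot W] (D : Ultrafilter K) : Type :=
  {y : Set K × (K → Dt K W) // y.1 ∈ D ∧ ∀ g, (y.2 g).a = ∅ ∧ ∀ b < g, (y.2 g).al b = ⊥}

/-- Objects that are supported below `b`. -/
def In (x : W × Nm K W × Vx W × Dt K W) (b : K) : Prop := NB b x.2.1 ∧ x.2.2.2.Bd b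

/-- Few objects are supported below `b`, and supports are small. -/
structure SmS (W : Type) [LinearOrder W] [OrderBot W] (D : Ultrafilter K) : Prop where
  nm : ∀ b : K, #{k : Nm K W // NB b k} < #K
  dt : ∀ b : K, #{p : Dt K W // p.Bd b} < #K
  ev : ∀ p : Dt K W, ∀ᶠ b in (D : Filter K), p.Bd b
  nb : ∀ᶠ δ : K in (D : Filter K), ∀ k : Nm K W, NB δ k → ∃ b < δ, NB b k
  bd : ∀ᶠ δ : K in (D : Filter K), ∀ p : Dt K W, p.Bd δ → ∃ b < δ, p.Bd b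
  press : ∀ f : K → Dt K W, ∃ r, ∀ᶠ g in (D : Filter K), res g (f g) = r

/-- `ℓ` guesses every set. -/
def Dia (ℓ : K → Cde K W) : Prop :=
  ∀ (S : Cde K W) (g : K → K) (η : K), ∃ δ, η < δ ∧ (∀ b < δ, g b < δ) ∧
    (∀ k : Nm K W, NB δ k → ∃ b < δ, NB b k) ∧ ∀ x, In x δ → (x ∈ S ↔ x ∈ ℓ δ)

variable [WellFoundedLT K] (ℓ : K → Cde K W)

/-- The covering property. -/
def CovS : Prop :=
  ∀ (p : R ℓ) (E : ℕ → R ℓ → Prop), (∀ n r s, E n r → s ≤ r → E n s) →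
    ∃ q : R ℓ, q.1.a = p.1.a ∧ (∀ b, Ex b q.1 p.1) ∧ ∃ A : ℕ → Set (R ℓ), ∀ n, (A n).Countable ∧
      (∀ s ∈ A n, E n s ∧ s ≤ q ∧ s.1 = q.1.wa s.1.a) ∧
      ∀ r ≤ q, E n r → ∃ u ≤ r, ∃ s ∈ A n, u ≤ s

/-- The chain condition. -/
def KccS : Prop :=
  ∀ E : R ℓ → Prop, ∃ b, ∀ r, E r → ∃ s, E s ∧ s.1.Bd b ∧ ∃ u ≤ r, u ≤ s

/-- Every uncoloured vertex can be given any unused colour. -/
def FreshS : Prop :=
  ∀ (r : R ℓ) (b : K) (x : Vx W) (n : ℕ), (∀ m, (b, x, m) ∉ r.1.a) → (∀ y, (b, y, n) ∉ r.1.a) →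
    ∃ s ≤ r, s.1.a = insert (b, x, n) r.1.a

variable {ℓ} {D : Ultrafilter K}

def LeQ (r : R ℓ) (y' y : Qt W D) : Prop :=
  y'.1.1 ⊆ y.1.1 ∧ ∀ g ∈ y'.1.1, ∀ s ≤ r, Le ℓ univ s.1 (y'.1.2 g) → Le ℓ univ s.1 (y.1.2 g)

def ZQ (r : R ℓ) (y : Qt W D) (g : K) : Prop := g ∈ y.1.1 ∧ Le ℓ univ r.1 (y.1.2 g)

/-- Amalgamation of a condition on the coordinates below `b` with a condition. -/
noncomputable def R.am (b : K) (r : Dt K W) (p : R ℓ) (c : Cn ℓ (Iio b) r) (l : Le ℓ (Iio b) r p.1) :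
    R ℓ := ⟨V.am b r p.1, am_cn c l fun c _ _ => p.2 c trivial⟩

theorem R.am_le {b : K} {r : Dt K W} {p : R ℓ} (c : Cn ℓ (Iio b) r) (l : Le ℓ (Iio b) r p.1) :
    R.am b r p c l ≤ p := am_le_right l

theorem R.cn (p : R ℓ) (I : Set K) : Cn ℓ I p.1 := p.2.mono (subset_univ _)

theorem R.le {p q : R ℓ} (h : p ≤ q) (I : Set K) : Le ℓ I p.1 q.1 := Le.mono h (subset_univ _)

/-- Colour sets below `b` pass to amalgamations. -/
theorem sub_am {b : K} {r p : Dt K W} {τ : Finset (Col K W)} (h : τ ⊆ r.a) (hb : ∀ c ∈ τ, c.1 < b) :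
    τ ⊆ (am b r p).a := fun c hc => (am_le (ℓ := fun _ => ∅) b r p).mem (h hc) (hb c hc)

theorem R.sub {p q : R ℓ} (h : p ≤ q) : q.1.a ⊆ p.1.a := fun _ hc => Le.mem h hc trivial

end Pool.Agent.Lib.MP_6993b6_lc.Q1.V
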