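import Pool.Agent.Lib.MP_6993b6_lc.Gen
import Pool.Agent.Lib.MP_6993b6_lc.Q1.RSt

/-!
Countable descending sequences of names for tail conditions have lower bounds.
-/

namespace Pool.Agent.Lib.MP_6993b6_lc.Q1.V

open Set Cardinal Filter Classical

variable {K W : Type} [LinearOrder K] [LinearOrder W] [OrderBot W] [WellFoundedLT K]
  [WellFoundedLT W] {ℓ : K → Cde K W} {D : Ultrafilter K}

omit [WellFoundedLT K] in
/-- Mixing of countably many promises along the colour sets `a j`. -/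
theorem sig_mix (cof : Cof W) {J : Type} [Countable J] (t : J → Dt K W)
    (a : J → Finset (Col K W)) : ∃ t0 : Dt K W, t0.a = ∅ ∧ (∀ b j, (t j).al b ≤ t0.al b) ∧
      (∀ b, (∀ j, (t j).al b = ⊥) → t0.al b = ⊥) ∧ ∀ b e, e ∈ t0.k b ↔
        ∃ j, ∃ e' ∈ (t j).k b, (e'.1, e'.2 ∪ (a j).filter (·.1 < b)) = e := by
  have h : ∀ b, ∃ x, (∀ j, (t j).al b ≤ x) ∧ ∀ y < x, ∃ j, y < (t j).al b := fun b => by
    obtain ⟨z, hz⟩ := cof _ (countable_range fun j => (t j).al b)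
    obtain ⟨x, -, h⟩ := exists_lub (fun j => (t j).al b) fun j => (hz _ ⟨j, rfl⟩).le
    exact ⟨x, h⟩
  choose al h1 h2 using h
  have h3 : ∀ b, al b ≠ ⊥ → ∃ j, (t j).al b ≠ ⊥ := fun b hb =>
    (h2 b ⊥ (bot_lt_iff_ne_bot.2 hb)).imp fun _ h => h.ne'
  refine ⟨⟨∅, al, fun b => ⋃ j, (fun e => (e.1, e.2 ∪ (a j).filter (·.1 < b))) '' (t j).k b,
    (countable_iUnion fun j => (t j).cs).mono fun b hb => mem_iUnion.2 (h3 b hb),
    fun b => countable_iUnion fun j => ((t j).ck b).image _, fun b e he => ?_⟩, rfl, h1,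
    fun b hb => ?_, fun b e => mem_iUnion⟩
  · obtain ⟨j, e', he', rfl⟩ := mem_iUnion.1 he
    exact ⟨((t j).bk b e' he').1.trans_le (h1 b j), fun c hc => (Finset.mem_union.1 hc).elim
      (((t j).bk b e' he').2 c) fun h => (Finset.mem_filter.1 h).2⟩
  · by_contra k
    exact (h3 b k).elim fun j hj => hj (hb j)

omit [WellFoundedLT K] [WellFoundedLT W] in
theorem sig_bd {p : Dt K W} {g c : K} (h : p.Bd g) (hc : g ≤ c) : p.Bd c :=
  ⟨fun x hx => (h.1 x hx).trans_le hc, fun b hb => h.2 b (hc.trans hb)⟩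

omit [WellFoundedLT W] in
theorem sig_key {J : Type} {q : R ℓ} {s : J → R ℓ} {t : J → Dt K W} {t0 : Dt K W} {g : K}
    (hs : ∀ j, (s j).1 = q.1.wa (s j).1.a) (hb : ∀ j, (s j).1.Bd g)
    (ht : ∀ j, (t j).a = ∅ ∧ ∀ b < g, (t j).al b = ⊥) (h1 : ∀ b j, (t j).al b ≤ t0.al b)
    (h2 : ∀ b e, e ∈ t0.k b ↔
      ∃ j, ∃ e' ∈ (t j).k b, (e'.1, e'.2 ∪ (s j).1.a.filter (·.1 < b)) = e)
    (h3 : ∀ j j', ∀ ρ ≤ s j, ρ ≤ s j' →
      (∀ w ≤ s j', Le ℓ univ w.1 (t j') → Le ℓ univ w.1 (t j)) ∨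
        ∀ w ≤ s j, Le ℓ univ w.1 (t j) → Le ℓ univ w.1 (t j')) (c : K) :
    ∀ u, Le ℓ (Iio c) u q.1 → Le ℓ (Iio c) u t0 → At ℓ c u t0 → ∀ j, (s j).1.a ⊆ u.a →
      At ℓ c u (t j) := by
  induction c using (wellFounded_lt (α := K)).induction with
  | _ c ih =>
    intro u l1 l2 l3 j ha
    obtain ⟨-, a2, a3⟩ := at_iff.1 l3
    refine at_iff.2 ⟨fun y hy => by simp [(ht j).1] at hy, (h1 c j).trans a2,
      EqB.trans ⟨fun r cr lr e he _ hr => ?_, fun r cr lr e he hi hr => ?_⟩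
        (a3.mono Le.rfl (Iio_subset_Iio (h1 c j)))⟩
    · exact ⟨r, cr, Le.rfl, _, (h2 _ _).2 ⟨j, e, he, rfl⟩, Finset.union_subset hr fun x hx =>
        lr.mem (ha (Finset.mem_filter.1 hx).1) (Finset.mem_filter.1 hx).2⟩
    obtain ⟨j', e', he', rfl⟩ := (h2 _ _).1 he
    have b1 := ((t j').bk c e' he').1
    have gc : g ≤ c := not_lt.1 fun h => not_lt_bot (((ht j').2 c h) ▸ b1)
    have s1 : (s j).1.a ⊆ r.a := fun x hx => lr.mem (ha hx) (((hb j).1 x hx).trans_le gc)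
    have s2 : (s j').1.a ⊆ r.a := fun x hx => hr (Finset.mem_union_right _
      (Finset.mem_filter.2 ⟨hx, ((hb j').1 x hx).trans_le gc⟩))
    have rq := le_trans_iio c lr l1
    have r0 := le_trans_iio c lr l2
    have rt : ∀ i, (s i).1.a ⊆ r.a → Le ℓ (Iio c) r (t i) := fun i hi b hb =>
      ih b hb r (rq.mono (Iio_subset_Iio (le_of_lt hb))) (r0.mono (Iio_subset_Iio (le_of_lt hb)))
        (r0 b hb) i hi
    have rs : ∀ i v, (s i).1.a ⊆ r.a → Le ℓ univ (am c r v) (s i).1 := fun i v hi =>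
      (sig_bd (hb i) gc).le (le_trans_iio c (am_le c r v) (hs i ▸ le_wa rq hi))
    have key : ∀ i i', (s i').1.a ⊆ r.a → (∀ w ≤ s i', Le ℓ univ w.1 (t i') → Le ℓ univ w.1 (t i)) →
        EqB ℓ c r ((t i).k c) ((t i').k c) (Iio ((t i).al c)) := fun i i' hi h => by
      have := (at_iff.1 (h ⟨am c r (t i'), am_cn cr (rt i' hi) fun _ _ _ =>
        Ok.of_empty (by simp [(ht i').1])⟩ (rs i' _ hi) (am_le_right (rt i' hi)) c trivial)).2.2
      rw [(am_out le_rfl r (t i')).2.2] at this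
      exact this.mono (le_am c r _) subset_rfl
    have e2 : e'.2 ⊆ r.a := Finset.subset_union_left.trans hr
    rcases h3 j j' ⟨res c r, res_cn cr⟩ (rs j _ s1) (rs j' _ s2) with h | h
    · exact (key j j' s2 h).2 r cr Le.rfl e' he' hi e2
    · exact (key j' j s1 h).1 r cr Le.rfl e' he' b1 e2

theorem sigma (S : SmS W D) (H : Hyp W D) (hc : CovS ℓ) :
    ∀ V : R ℓ → ℕ → Qt W D → Prop, Fn V → ∀ p, (∀ n, ∀ r ≤ p, ∃ r' ≤ r, ∃ q, V r' n q) →
      (∀ n q q', ∀ r ≤ p, V r n q → V r (n + 1) q' → ∃ r' ≤ r, LeQ r' q' q) →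
      ∃ p' ≤ p, ∃ q0, ∀ n q, ∀ r ≤ p', V r n q → ∃ r' ≤ r, LeQ r' q0 q := by
  intro V hV p h1 h2
  have mo : ∀ {r s : R ℓ} {y y' : Qt W D}, LeQ r y' y → s ≤ r → LeQ s y' y := fun h l =>
    ⟨h.1, fun g hg w hw => h.2 g hg w (hw.trans l)⟩
  let E : ℕ → R ℓ → Prop := fun n s => s ≤ p ∧ ∃ y : ℕ → Qt W D,
    (∀ m ≤ n, V s m (y m)) ∧ ∀ m ≤ n, LeQ s (y n) (y m)
  have de : ∀ n, ∀ r ≤ p, ∃ s ≤ r, E n s := fun n => by
    induction n with
    | zero =>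
      intro r hr
      obtain ⟨s, l, y, h⟩ := h1 0 r hr
      exact ⟨s, l, l.trans hr, fun _ => y, fun m hm => Nat.le_zero.1 hm ▸ h,
        fun _ _ => ⟨subset_rfl, fun _ _ _ _ h => h⟩⟩
    | succ n ih =>
      intro r hr
      obtain ⟨s, l, sp, y, v1, v2⟩ := ih r hr
      obtain ⟨s1, l1, z, h⟩ := h1 (n + 1) s sp
      obtain ⟨s2, l2, h'⟩ := h2 n _ z s1 (l1.trans sp) (hV.mono _ _ _ _ (v1 n le_rfl) l1) h
      refine ⟨s2, (l2.trans l1).trans l, (l2.trans l1).trans sp, fun m => if m ≤ n then y m else z,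
        fun m hm => ?_, fun m hm => ?_⟩
      · beta_reduce
        split_ifs with k
        · exact hV.mono _ _ _ _ (v1 m k) (l2.trans l1)
        · exact (show m = n + 1 by omega) ▸ hV.mono _ _ _ _ h l2
      · simp only [Nat.not_succ_le_self, if_false]
        split_ifs with k
        · have := mo (v2 m k) (l2.trans l1)
          exact ⟨h'.1.trans this.1, fun g hg w hw a => this.2 g (h'.1 hg) w hw (h'.2 g hg w hw a)⟩
        · exact ⟨subset_rfl, fun _ _ _ _ h => h⟩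
  obtain ⟨q, qa, qe, A, hA⟩ := hc p E fun n r s ⟨a, y, b, c⟩ l =>
    ⟨l.trans a, y, fun m hm => hV.mono _ _ _ _ (b m hm) l, fun m hm => mo (c m hm) l⟩
  have qp : q ≤ p := fun b _ => At.of_ex (fun _ h => qa ▸ h) (qe b)
  have := fun n => (hA n).1.to_subtype
  choose Y y1 y2 using fun j : Σ n, A n => ((hA j.1).2.1 j.2.1 j.2.2).1.2
  choose t0 t1 t2 t3 t4 using fun g => sig_mix H.cof (fun j => (Y j j.1).1.2 g) fun j => j.2.1.1.a
  refine ⟨q, qp, ⟨({g | ∀ j, g ∈ (Y j j.1).1.1 ∧ j.2.1.1.Bd g}, t0),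
    H.M.all (H.M.cnt _) fun j => Eventually.and (Y j j.1).2.1 (S.ev _),
    fun g => ⟨t1 g, fun b hb => t3 g b fun j => ((Y j j.1).2.2 g).2 b hb⟩⟩, fun n y r hr v => ?_⟩
  obtain ⟨r1, l1, e⟩ := de n r (hr.trans qp)
  obtain ⟨u, l2, s, hs, l3⟩ := (hA n).2.2 r1 (l1.trans hr) e
  obtain rfl : Y ⟨n, s, hs⟩ n = y := hV.uniq u n _ _ (hV.mono _ _ _ _ (y1 ⟨n, s, hs⟩ n le_rfl) l3)
    (hV.mono _ _ _ _ v (l2.trans l1))
  refine ⟨u, l2.trans l1, fun g hg => (hg ⟨n, s, hs⟩).1, fun g hg w hw a c _ => ?_⟩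
  refine sig_key (q := q) (s := fun j : Σ n, A n => j.2.1) (t := fun j => (Y j j.1).1.2 g)
    (fun j => ((hA j.1).2.1 j.2.1 j.2.2).2.2) (fun j => (hg j).2) (fun j => (Y j j.1).2.2 g)
    (t2 g) (t4 g) (fun j j' ρ k k' => ?_) c w.1 (R.le (((hw.trans l2).trans l1).trans hr) _)
    (a.mono (subset_univ _)) (a c trivial) ⟨n, s, hs⟩ (R.sub (hw.trans l3))
  rcases le_total j.1 j'.1 with h | h
  · rw [hV.uniq ρ _ _ _ (hV.mono _ _ _ _ (y1 j _ le_rfl) k) (hV.mono _ _ _ _ (y1 j' _ h) k')]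
    exact .inl ((y2 j' _ h).2 g (hg j').1)
  · rw [hV.uniq ρ _ _ _ (hV.mono _ _ _ _ (y1 j' _ le_rfl) k') (hV.mono _ _ _ _ (y1 j _ h) k)]
    exact .inr ((y2 j _ h).2 g (hg j).1)

end Pool.Agent.Lib.MP_6993b6_lc.Q1.V
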