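import Pool.Agent.Lib.MP_6993b6_lc.Q1.RSt

/-!
Sizes, pressing down and the chain condition for the forcing notion `R ℓ`.
-/

namespace Pool.Agent.Lib.MP_6993b6_lc.Q1.V

open Set Cardinal Filter Classical

variable {K W : Type} [LinearOrder K] [LinearOrder W] [OrderBot W] {D : Ultrafilter K}

theorem sm_pow (M : Meas D) {α : Type} {s : Set α} (h : #s < #K) : #(𝒫 s) < #K := by
  rw [mk_powerset, ← mk_set]
  exact M.set h

theorem sm_prod (M : Meas D) {α β : Type} {s : Set α} {t : Set β} (h : #s < #K) (h' : #t < #K) :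
    #(s ×ˢ t : Set (α × β)) < #K := by
  rw [mk_setProd]
  exact mul_lt_of_lt M.unc.le h h'

omit [LinearOrder K] in
theorem sm_pre {α β : Type} {f : α → β} (hf : Function.Injective f) {s : Set α} {t : Set β}
    (h : #t < #K) (e : ∀ a ∈ s, f a ∈ t) : #s < #K :=
  ((mk_le_mk_of_subset e).trans (mk_preimage_of_injective f t hf)).trans_lt h

omit [OrderBot W] in
theorem sm_fin (H : Hyp W D) (b : K) : #{τ : Finset (Col K W) | ∀ c ∈ τ, c.1 < b} < #K :=
  sm_pre Finset.coe_injective (sm_pow H.M (sm_prod H.M (H.M.iio b) (mk_univ.trans_lt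
    (H.M.prod (H.M.prod H.hW (H.M.cnt ℕ)) (H.M.cnt ℕ))))) fun _ h c hc => ⟨h c hc, trivial⟩

omit [OrderBot W] in
theorem sm_ent (H : Hyp W D) (b : K) :
    #((univ : Set (Idx W)) ×ˢ {τ : Finset (Col K W) | ∀ c ∈ τ, c.1 < b} :) < #K :=
  sm_prod H.M (mk_univ.trans_lt (H.M.prod H.hW (H.M.prod (H.M.cnt ℕ)
    (H.M.prod H.hW (H.M.cnt ℕ))))) (sm_fin H b)

theorem sm_dt (H : Hyp W D) (b : K) : #{p : Dt K W | p.Bd b} < #K := by
  refine sm_pre (f := fun p : Dt K W => (p.a, {x : K × W | p.al x.1 = x.2 ∧ x.2 ≠ ⊥},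
    {x : K × _ | x.2 ∈ p.k x.1})) (fun p q h => ?_) (sm_prod H.M (sm_fin H b)
      (sm_prod H.M (sm_pow H.M (sm_prod H.M (H.M.iio b) (mk_univ.trans_lt H.hW)))
        (sm_pow H.M (sm_prod H.M (H.M.iio b) (sm_ent H b))))) fun p h => ?_
  · simp only [Prod.mk.injEq, Set.ext_iff, mem_ofPred_eq, Prod.forall] at h
    refine Dt.ext h.1 (funext fun c => ?_) (funext fun c => Set.ext fun e => h.2.2 c _ _ _ _ _)
    by_cases z : p.al c = ⊥
    · exact z.trans (not_not.1 fun z' => z' (((h.2.1 c _).2 ⟨rfl, Ne.symm z'⟩).1.symm ▸ z).symm)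
    · exact ((h.2.1 c _).1 ⟨rfl, z⟩).1.symm
  · refine ⟨h.1, fun x hx => ⟨not_le.1 fun z => hx.2 (hx.1 ▸ h.2 _ z), trivial⟩, fun x hx => ?_⟩
    have a := p.bk _ _ hx
    have c : x.1 < b := not_le.1 fun z => not_lt_bot (h.2 _ z ▸ a.1)
    exact ⟨c, trivial, fun y hy => (a.2 y hy).trans c⟩

/-- The support. -/
def sm_sp (p : Dt K W) : Set K := Prod.fst '' (p.a : Set (Col K W)) ∪ {b | p.al b ≠ ⊥}

theorem sm_cnt (p : Dt K W) : (sm_sp p).Countable := (p.a.countable_toSet.image _).union p.cs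

theorem sm_bd {p : Dt K W} {b : K} : p.Bd b ↔ ∀ c ∈ sm_sp p, c < b :=
  ⟨fun h _ hc => hc.elim (fun ⟨y, hy, e⟩ => e ▸ h.1 y hy) fun z => not_le.1 fun l => z (h.2 _ l),
    fun h => ⟨fun c hc => h _ (Or.inl ⟨c, hc, rfl⟩),
      fun c l => not_not.1 fun z => (h c (Or.inr z)).not_ge l⟩⟩

omit [OrderBot W] in
theorem sm_lim (H : Hyp W D) : ∀ᶠ δ : K in (D : Filter K), ∀ s : Set K, s.Countable →
    (∀ c ∈ s, c < δ) → ∃ b < δ, ∀ c ∈ s, c < b := by
  obtain ⟨a, -⟩ := (eventually_true (D : Filter K)).exists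
  filter_upwards [H.M.sm_iio H.N (H.M.cnt ℕ), H.M.tail a] with δ h ha s hs hb
  obtain ⟨f, hf⟩ := (hs.insert a).exists_eq_range (insert_nonempty _ _)
  obtain ⟨b, b1, b2⟩ := h f fun i => by
    have : f i ∈ insert a s := hf ▸ mem_range_self i
    exact this.elim (fun e => e ▸ ha) (hb _)
  refine ⟨b, b1, fun c hc => ?_⟩
  obtain ⟨i, rfl⟩ : c ∈ range f := hf ▸ mem_insert_of_mem _ hc
  exact b2 i

theorem sm (H : Hyp W D) : SmS W D := by
  have bd : ∀ᶠ δ : K in (D : Filter K), ∀ p : Dt K W, p.Bd δ → ∃ b < δ, p.Bd b :=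
    (sm_lim H).mono fun δ h p hp => by simpa only [sm_bd] using h _ (sm_cnt p) (sm_bd.1 hp)
  refine ⟨fun b => sm_pre (s := {k | NB b k}) Function.injective_id
    (sm_pow H.M (sm_ent H b)) fun k h e he => ⟨trivial, h.2 e he⟩, sm_dt H, fun p => ?_,
    (sm_lim H).mono fun δ h k hk => ?_, bd, fun f => ?_⟩
  · have := (sm_cnt p).to_subtype
    exact (H.M.all (H.M.cnt (sm_sp p)) fun c => H.M.tail c.1).mono fun b h =>
      sm_bd.2 fun c hc => h ⟨c, hc⟩
  · obtain ⟨b, b1, b2⟩ := h (⋃ e ∈ k, Prod.fst '' (e.2 : Set (Col K W)))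
      (hk.1.biUnion fun e _ => e.2.countable_toSet.image _) (by
        simp only [mem_iUnion, mem_image]
        rintro _ ⟨e, he, c, hc, rfl⟩
        exact hk.2 e he c hc)
    exact ⟨b, b1, hk.1, fun e he c hc => b2 _ (mem_biUnion he ⟨c, hc, rfl⟩)⟩
  · obtain ⟨h, hh⟩ := (bd.mono fun g h => h _ (res_bd g (f g))).choice
    obtain ⟨b, hb⟩ := H.N h (hh.mono fun _ h => h.1)
    obtain ⟨r, hr⟩ := H.M.const (sm_dt H b) fun g =>
      if z : (res g (f g)).Bd b then ⟨_, z⟩ else ⟨top, by simp [top, Dt.Bd]⟩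
    refine ⟨r.1, ?_⟩
    filter_upwards [hh, hb, hr] with g a1 a2 a3
    rw [dif_pos (a2 ▸ a1.2)] at a3
    exact congrArg Subtype.val a3

theorem kcc [WellFoundedLT K] {ℓ : K → Cde K W} (S : SmS W D) (_H : Hyp W D) : KccS ℓ := by
  intro E
  by_contra! h
  choose r h1 h2 using h
  obtain ⟨r0, hr⟩ := S.press fun g => (r g).1
  obtain ⟨g, a⟩ := hr.exists
  obtain ⟨g', a', b⟩ := (hr.and (S.ev (r g).1)).exists
  have l : Le ℓ (Iio g') (r g).1 (r g').1 := le_trans_iio g'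
    ((a.trans a'.symm ▸ le_res g (r g).1 :).mono (subset_univ _)) (am_le g' _ _)
  exact h2 g' (r g) (h1 g) b _ (R.am_le ((r g).cn _) l) (b.le (am_le g' _ _))

end Pool.Agent.Lib.MP_6993b6_lc.Q1.V
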