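import Pool.Agent.Lib.MP_6993b6_lc.Q1.RCov
import Pool.Agent.Lib.MP_6993b6_lc.Q1.RSm
import Pool.Agent.Lib.MP_6993b6_lc.Q1.RDia
import Pool.Agent.Lib.MP_6993b6_lc.Q1.RCol
import Pool.Agent.Lib.MP_6993b6_lc.Q1.RL
import Pool.Agent.Lib.MP_6993b6_lc.Q1.RSig
import Pool.Agent.Lib.MP_6993b6_lc.Q1.RCp

/-!
From a measurable cardinal to a forcing notion with the properties listed in `VS`.
-/

namespace Pool.Agent.Lib.MP_6993b6_lc.Q1

open Set Classical Cardinal Filter V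

theorem exists_hyp (K0 : Type) (U : Ultrafilter K0) (hK : ℵ₀ < #K0)
    [CardinalInterFilter (U : Filter K0) #K0] (hU : ∀ x, {x} ∉ U) :
    ∃ (K W : Type) (_ : LinearOrder K) (_ : WellFoundedLT K) (_ : LinearOrder W)
      (_ : WellFoundedLT W) (D : Ultrafilter K), Nonempty W ∧ Hyp W D := by
  let K := (#K0).ord.ToType
  let W := (ℵ₁ : Cardinal.{0}).ord.ToType
  have eK : #K = #K0 := mk_ord_toType _
  have eW : #W = ℵ₁ := mk_ord_toType _
  obtain ⟨e⟩ := Cardinal.eq.1 eK.symm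
  have all : ∀ {ι : Type} {p : K → ι → Prop}, #ι < #K → (∀ i, ∀ᶠ δ in U.map e, p δ i) →
      ∀ᶠ δ in U.map e, ∀ i, p δ i := fun hι h =>
    (eventually_cardinal_forall (l := (U : Filter K0)) (p := fun x i => _) (eK ▸ hι)).2 h
  have iio : ∀ a : K, #(Iio a) < #K := fun a => (mk_Iio_toType_ord_lt a).trans_eq eK.symm
  have ne : ∀ a : K, ∀ᶠ δ in U.map e, δ ≠ a := fun a => by
    show ∀ᶠ x in U, e x ≠ a
    refine mem_of_superset (Ultrafilter.compl_mem_iff_notMem.2 (hU (e.symm a))) fun x hx h => hx ?_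
    rw [mem_singleton_iff, ← h, e.symm_apply_apply]
  have M0 : Meas (U.map e) := ⟨eK ▸ hK, iio, all, fun a => by
    filter_upwards [all (iio a) fun i : Iio a => ne i.1, ne a] with δ h1 h2
    rcases lt_trichotomy a δ with h | h | h
    exacts [h, (h2 h.symm).elim, (h1 ⟨δ, h⟩ rfl).elim]⟩
  obtain ⟨D, M, hD⟩ := M0.exists_normal
  have hW : #W < #K := by
    refine lt_of_le_of_lt ?_ (M.set (M.cnt ℕ))
    rw [eW, mk_set, mk_nat, two_power_aleph0]
    exact aleph_one_le_continuum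
  have cnt : ∀ ζ : W, (Iio ζ).Countable := fun ζ => le_aleph0_iff_set_countable.1
    (Order.le_of_lt_succ ((mk_Iio_toType_ord_lt ζ).trans_eq succ_aleph0.symm))
  have unc : ¬ (univ : Set W).Countable := by
    rw [← le_aleph0_iff_set_countable, mk_univ, eW]
    exact not_le.2 aleph0_lt_aleph_one
  have cof : Cof W := by
    intro s hs
    by_contra hc
    push Not at hc
    exact unc ((hs.biUnion fun a _ => (cnt a).insert a).mono fun b _ =>
      let ⟨a, h1, h2⟩ := hc b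
      mem_biUnion h1 h2.eq_or_lt)
  exact ⟨K, W, inferInstance, inferInstance, inferInstance, inferInstance, D,
    let ⟨b, _⟩ := cof ∅ countable_empty; ⟨b⟩, M, hD, hW, cof, cnt⟩

theorem exists_vs (K0 : Type) (U : Ultrafilter K0) (hK : ℵ₀ < #K0)
    [CardinalInterFilter (U : Filter K0) #K0] (hU : ∀ x, {x} ∉ U) :
    ∃ (R W K Q : Type) (_ : Preorder R) (_ : OrderTop R) (_ : LinearOrder W) (_ : WellFoundedLT W)
      (_ : LinearOrder K) (_ : WellFoundedLT K) (Le : R → Q → Q → Prop) (Z : R → Q → K → Prop),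
      VS R W K Q Le Z := by
  obtain ⟨K, W, _, _, _, _, D, _, H⟩ := exists_hyp K0 U hK hU
  let _ : OrderBot W := WellFoundedLT.toOrderBot W
  have S := sm H
  obtain ⟨ℓ, hd⟩ := dia S H
  have hc : CovS ℓ := cov H.cof H.cnt
  have hk : KccS ℓ := kcc S H
  exact ⟨R ℓ, W, K, Qt W D, inferInstance, inferInstance, inferInstance, inferInstance,
    inferInstance, inferInstance, LeQ, ZQ, H.cnt, h1 H hc, h2 S H hk, V.col H.cof,
    ⟨⟨(univ, fun _ => top), univ_mem, fun _ => ⟨rfl, fun _ _ => rfl⟩⟩⟩,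
    fun _ _ _ _ h l => ⟨h.1, fun g hg s hs => h.2 g hg s (hs.trans l)⟩,
    fun _ _ => ⟨subset_rfl, fun _ _ _ _ h => h⟩,
    fun _ _ _ _ h h' => ⟨h.1.trans h'.1, fun g hg s hs l => h'.2 g (h.1 hg) s hs (h.2 g hg s hs l)⟩,
    fun _ _ _ _ h l => ⟨h.1, Le.trans isLowerSet_univ l h.2⟩,
    fun r _ _ g h h' => ⟨h.1 h'.1, h.2 g h'.1 r le_rfl h'.2⟩,
    sigma S H hc, l3 S H hc, l4 S H hc hk, re H.cof, cp S H hd hk (fresh H.cof)⟩

end Pool.Agent.Lib.MP_6993b6_lc.Q1
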