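import Pool.Agent.Lib.MP_6993b6_lc.Models2
import Pool.Agent.Lib.MP_6993b6_lc.Q1.VS

/-!
Tools for the transfer: more uniformly definable predicates, and typed forms of sets of a model.
-/

namespace Pool.Agent.Lib.MP_6993b6_lc.Q1

open ZFSet Pool.Agent.Lib.MP_053343_lc Pool.Agent.Shared.InModel

section ud

variable {Q Q' : ZFSet.{0} → (ℕ → ZFSet.{0}) → Prop}
  {Φ : ZFSet.{0} → (ℕ → ZFSet.{0}) → ZFSet.{0} → Prop}

instance udAll [UD fun M v => Φ M (fun n => v (n + 1)) (v 0)] :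
    UD fun M v => ∀ x ∈ M, Φ M v x :=
  UD.congr (Q := fun M v => ¬ ∃ x ∈ M, ¬ Φ M v x) inferInstance fun _ _ _ _ => by simp

instance udIff [UD Q] [UD Q'] : UD fun M v => Q M v ↔ Q' M v :=
  UD.congr (Q := fun M v => (Q M v → Q' M v) ∧ (Q' M v → Q M v)) inferInstance
    fun _ _ _ _ => iff_iff_implies_and_implies.symm

instance udNotMem (i j : ℕ) : UD fun _ v => v i ∉ v j := UD.not

instance udOrd (i : ℕ) : UD fun _ v => (v i).IsOrdinal :=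
  UD.congr (Q := fun _ v => (∀ y ∈ v i, y ⊆ v i) ∧ ∀ w ∈ v i, ∀ z ∈ w, ∀ y ∈ z, y ∈ w)
    inferInstance fun _ _ _ _ =>
      ⟨fun h => ⟨h.1, fun h1 h2 h3 => h.2 _ h3 _ h2 _ h1⟩,
        fun h => ⟨h.1, fun _ h3 _ h2 _ h1 => h.2 h1 h2 h3⟩⟩

theorem pair_mem' {M : ZFSet.{0}} (hM : ModelZF M) {a b : ZFSet} (ha : a ∈ M) (hb : b ∈ M) :
    pair a b ∈ M :=
  have : Mdl M := ⟨hM⟩
  pair_mem ha hb

/-- A triple belongs to `k`. -/
def T3 (k a b c : ZFSet.{0}) : Prop := pair a (pair b c) ∈ k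

instance udT3 (k a b c : ℕ) : UD fun _ v => T3 (v k) (v a) (v b) (v c) :=
  UD.congr (Q := fun M v => ∃ z ∈ M, z = pair (v b) (v c) ∧ pair (v a) z ∈ v k) inferInstance
    fun _ hM _ hv => ⟨fun ⟨_, _, e, h⟩ => by rwa [e] at h,
      fun h => ⟨_, pair_mem' hM (hv b) (hv c), rfl, h⟩⟩

/-- `f` is single valued on `a × b`. -/
def Fnl (a b f : ZFSet.{0}) : Prop :=
  ∀ x ∈ a, ∀ y ∈ b, ∀ y' ∈ b, pair x y ∈ f → pair x y' ∈ f → y = y'

/-- `f` is total on `a` with values in `b`. -/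
def Tot (a b f : ZFSet.{0}) : Prop := ∀ x ∈ a, ∃ y ∈ b, pair x y ∈ f

instance udFnl (a b f : ℕ) : UD fun _ v => Fnl (v a) (v b) (v f) := by
  unfold Fnl
  infer_instance

instance udTot (a b f : ℕ) : UD fun _ v => Tot (v a) (v b) (v f) := by
  unfold Tot
  infer_instance

end ud

variable {M : ZFSet.{0}} [Mdl M] {α β : Type*} [Cd M α] [Cd M β]

theorem mf_cd_mem {a : ZFSet} (ha : a ∈ M) : MF M fun x : α => cd M x ∈ a :=
  MF.of_df (Df.intro (.mem 0 1) [a] (by simp [ha]) fun _ => Iff.rfl)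

theorem mf_cd_cd : MF M fun p : α × β => cd M p.1 ∈ cd M p.2 := by
  refine MF.of_df (Df.intro (.ex (.ex (.and (.pr 2 1 0) (.mem 1 0)))) [] (by simp) fun x => ?_)
  simp only [F0.S, List.getD_cons_zero, List.getD_cons_succ, cd_prod, ZFSet.pair_inj]
  exact ⟨by rintro ⟨_, -, _, -, ⟨rfl, rfl⟩, h⟩; exact h,
    fun h => ⟨_, cd_mem _, _, cd_mem _, ⟨rfl, rfl⟩, h⟩⟩

theorem exists_code {S : α → Prop} (h : MF M S) : ∃ a ∈ M, ∀ x, cd M x ∈ a ↔ S x := by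
  obtain ⟨a, ha, h⟩ := h.df
  exact ⟨a, ha, fun x => by simp [h, cd_inj]⟩

theorem exists_graph {f : α → β} (h : MF M f) :
    ∃ a ∈ M, ∀ x y, pair (cd M x) (cd M y) ∈ a ↔ f x = y := by
  obtain ⟨a, ha, h⟩ := exists_code (MF.of_df h)
  exact ⟨a, ha, fun x y => h (x, y)⟩

theorem cd_mem_pm {s : PM M α} {x : α} : cd M x ∈ cd M s ↔ x ∈ s := by
  simp [mem_cd_PM, cd_inj]

theorem exists_pm {z : ZFSet} (hz : z ∈ M) (h : ∀ y ∈ z, ∃ x : α, cd M x = y) :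
    ∃ s : PM M α, cd M s = z := by
  refine ⟨PM.of _ (mf_cd_mem hz), ZFSet.ext fun y => mem_cd_PM.trans ⟨?_, fun hy => ?_⟩⟩
  · rintro ⟨x, hx, rfl⟩
    exact hx
  · obtain ⟨x, rfl⟩ := h y hy
    exact ⟨x, hy, rfl⟩

/-- `a` is the set of the codes of the elements of `α`. -/
def Top (M : ZFSet.{0}) [Mdl M] (α : Type*) [Cd M α] (a : ZFSet.{0}) : Prop :=
  ∀ z, z ∈ a ↔ ∃ x : α, cd M x = z

theorem Top.all {a : ZFSet} (h : Top M α a) {p : ZFSet → Prop} :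
    (∀ z ∈ a, p z) ↔ ∀ x : α, p (cd M x) :=
  ⟨fun H x => H _ ((h _).2 ⟨x, rfl⟩), fun H z hz => let ⟨x, e⟩ := (h z).1 hz; e ▸ H x⟩

theorem Top.ex {a : ZFSet} (h : Top M α a) {p : ZFSet → Prop} :
    (∃ z ∈ a, p z) ↔ ∃ x : α, p (cd M x) :=
  ⟨fun ⟨z, hz, H⟩ => let ⟨x, e⟩ := (h z).1 hz; ⟨x, e ▸ H⟩, fun ⟨x, H⟩ => ⟨_, (h _).2 ⟨x, rfl⟩, H⟩⟩

theorem Top.mem {a : ZFSet} (h : Top M α a) (x : α) : cd M x ∈ a := (h _).2 ⟨x, rfl⟩

theorem top_nat : Top M ℕ omega := fun _ => mem_omega.trans (exists_congr fun _ => eq_comm)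

theorem cd_nat_lt {m n : ℕ} : cd M m ∈ cd M n ↔ m < n :=
  ⟨fun h => let ⟨_, hi, e⟩ := mem_nat.1 h; nat_inj e ▸ hi, fun h => mem_nat.2 ⟨m, h, rfl⟩⟩

theorem Top.all_pm {a : ZFSet} (h : Top M α a) {p : ZFSet → Prop} :
    (∀ z ∈ M, z ⊆ a → p z) ↔ ∀ s : PM M α, p (cd M s) := by
  refine ⟨fun H s => H _ (cd_mem s) fun y hy => ?_, fun H z hz hs => ?_⟩
  · obtain ⟨x, -, rfl⟩ := mem_cd_PM.1 hy
    exact h.mem x
  · obtain ⟨s, rfl⟩ := exists_pm (α := α) hz fun y hy => (h y).1 (hs hy)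
    exact H s

theorem fnl_graph {a b g : ZFSet} (ha : Top M α a) (hb : Top M β b) {f : α → β}
    (h : ∀ x y, pair (cd M x) (cd M y) ∈ g ↔ f x = y) : Fnl a b g ∧ Tot a b g := by
  simp only [Fnl, Tot, ha.all, hb.all, hb.ex, h, cd_inj]
  exact ⟨fun _ _ _ e e' => e.symm.trans e', fun x => ⟨_, rfl⟩⟩

theorem OrdC.lt_iff {A : Type 1} [Cd M A] [LinearOrder A] {w : ZFSet} (h : OrdC M A w) {a b : A} :
    cd M a ∈ cd M b ↔ a < b := by
  simp [h.lt, cd_inj]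

theorem OrdC.om {A : Type 1} [Cd M A] [LinearOrder A] {w : ZFSet} (h : OrdC M A w) : OM M A :=
  ⟨MF.of_iff (p := fun p : A × A => ¬ cd M p.2 ∈ cd M p.1)
    (((mf_cd_cd (M := M) (α := A) (β := A)).comp (g := fun p : A × A => (p.2, p.1))
      (by fun_prop)).not) fun _ => by rw [h.lt_iff, not_lt]⟩

theorem chc_of_wo (h : ∀ a ∈ M, ∃ o ∈ M, o.IsOrdinal ∧ Onto M o a) : Chc M := by
  refine ⟨fun a => ?_⟩
  obtain ⟨o, ho, h1, f, hf, h2, h3⟩ := h a.1 a.2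
  let O : {a // a ∈ M} := ⟨o, ho⟩
  let r : ZE O → ZE O → Prop := fun x y => x.1 ∈ y.1
  have : IsWellOrder (ZE O) r :=
    { wf := InvImage.wf (fun x : ZE O => x.1) mem_wf
      trichotomous := fun x y e e' => Subtype.ext (by
        rcases (h1.mem x.2).mem_trichotomous (h1.mem y.2) with c | c | c
        exacts [(e c).elim, c, (e' c).elim]) }
  have hr : MF M fun p : ZE O × ZE O => r p.1 p.2 := mf_cd_cd
  have hR : MF M fun p : ZE O × ZE a => cd M p ∈ f := mf_cd_mem hf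
  obtain ⟨g, g1, g2⟩ := choice_of_wo r hr (R := fun (x : ZE a) (i : ZE O) => cd M (i, x) ∈ f)
    (hR.comp (g := fun p : ZE a × ZE O => (p.2, p.1)) (by fun_prop))
    fun x => let ⟨i, i1, i2⟩ := h3 x.1 x.2; ⟨⟨i, i1⟩, i2⟩
  have gi : Function.Injective g := fun x y e =>
    Subtype.ext (h2 _ (g x).2 _ x.2 _ y.2 (g2 x) (e ▸ g2 y))
  exact ⟨fun x y => r (g x) (g y), (RelEmbedding.preimage ⟨g, gi⟩ r).isWellOrder, by fun_prop⟩

theorem onto_typed [Chc M] [Nonempty β] {a b : ZFSet} (ha : Top M α a) (hb : b ∈ M)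
    (h : Onto M a b) : ∃ e : α → β, MF M e ∧ ∀ y, cd M y ∈ b → ∃ x, e x = y := by
  obtain ⟨f, hf, h1, h2⟩ := h
  have m1 : MF M fun p : α × β => cd M p ∈ f := mf_cd_mem hf
  have m2 : MF M fun y : β => cd M y ∈ b := mf_cd_mem hb
  obtain ⟨e, e1, e2⟩ := choice' (M := M) (R := fun (x : α) (y : β) => cd M y ∈ b ∧ cd M (x, y) ∈ f)
    ((m2.comp (g := fun p : α × β => p.2) (by fun_prop)).and m1)
  refine ⟨e, e1, fun y hy => ?_⟩
  obtain ⟨x, hx⟩ := ha.ex.1 (h2 _ hy)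
  have := e2 x ⟨y, hy, hx⟩
  exact ⟨x, cd_inj.1 (h1 _ (ha.mem x) _ this.1 _ hy this.2 hx)⟩

theorem fun_typed [Chc M] {a b g : ZFSet} (ha : Top M α a) (hb : Top M β b) (hg : g ∈ M)
    (h : Tot a b g) : ∃ f : α → β, MF M f ∧ ∀ x, pair (cd M x) (cd M (f x)) ∈ g :=
  choice (R := fun (x : α) (y : β) => cd M (x, y) ∈ g) (mf_cd_mem hg)
    fun x => hb.ex.1 (h _ (ha.mem x))

end Pool.Agent.Lib.MP_6993b6_lc.Q1
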