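import Pool.Agent.Lib.MP_6993b6_lc.Q1.T0

/-!
Ground types in a context, names for functions, boundedness.
-/

namespace Pool.Agent.Lib.MP_6993b6_lc.Q1

open ZFSet Set Pool.Agent.Lib.MP_053343_lc Pool.Agent.Lib.MP_053343_lc.Name
open Pool.Agent.Shared.Forcing Pool.Agent.Shared.InModel

variable {R : Type} [Preorder R] [OrderTop R]

instance (C : Cx R) : Mdl C.M := ⟨C.modelZF⟩

theorem wo_ctx (C : Cx R) : ∀ a ∈ C.M, ∃ o ∈ C.M, o.IsOrdinal ∧ Onto C.M o a := by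
  intro a ha
  obtain ⟨τ, h1, rfl⟩ := C.mem_M.1 ha
  obtain ⟨_, _⟩ := exists_wellFoundedLT τ.Ty
  refine (dfn (fun M v => ∃ o ∈ M, o.IsOrdinal ∧ Onto M o (v 0)) [τ]).dense (fun q _ => ?_) C C.top
    ⟨h1, trivial⟩
  let f : Name R := grN ordN τ.ch fun p i j => i = j ∧ p ≤ τ.cd i
  obtain ⟨C', c1, c2, c3, c4⟩ := fresh q [f, setN (ordN : τ.Ty → _), τ]
  refine ⟨C', c1, c4, _, C'.val_mem_M c3, top_ord C', _, C'.val_mem_M c2, ?_, fun y hy => ?_⟩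
  · intro x _ y _ y' _ e e'
    obtain ⟨_, -, i, _, ⟨rfl, -⟩, a1, -, a2⟩ := (mem_grN C').1 e
    obtain ⟨_, -, j, _, ⟨rfl, -⟩, b1, -, b2⟩ := (mem_grN C').1 e'
    rw [pair_inj] at a2 b2
    rw [a2.2, b2.2, inj_ordN C' _ _ a1 b1 (a2.1.symm.trans b2.1)]
  · obtain ⟨i, i1, i2, rfl⟩ := C'.mem_val.1 hy
    refine (dfn (fun _ v => ∃ x ∈ v 0, pair x (v 1) ∈ v 2)
      [setN (ordN : τ.Ty → _), τ.ch i, f]).dense (fun r hr => ?_) C' i2 ⟨c3, i1, c2, trivial⟩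
    obtain ⟨C'', d1, d2, d3⟩ := fresh r [ordN i, setN (ordN : τ.Ty → _), τ.ch i, f]
    exact ⟨C'', d1, d3, _, ord_mem_top C'' d2,
      (mem_grN C'').2 ⟨r, d1, i, i, ⟨rfl, hr⟩, d2, d3.2.1, rfl⟩⟩

instance (C : Cx R) : Chc C.M := chc_of_wo (wo_ctx C)

section fn

variable {I Y : Type} {A : I → Name R} {B : Y → Name R} {S : Set Y} {s σ : Name R} {p : R}

/-- `s` names the set of the `B y` with `y ∈ S`. -/
def Names (B : Y → Name R) (S : Set Y) (s : Name R) : Prop :=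
  ∀ (C : Cx R) z, z ∈ C.val s ↔ ∃ y ∈ S, B y ∈ C.N ∧ z = C.val (B y)

theorem names_setN : Names B univ (setN B) := fun C _ => by simp [mem_setN]

theorem names_ordN [LinearOrder Y] [WellFoundedLT Y] (a : Y) :
    Names (ordN : Y → Name R) (Iio a) (ordN a) := fun C _ => mem_ordN C

/-- The relation named by `σ`, below `p` and with values in `S`. -/
def VF (A : I → Name R) (B : Y → Name R) (S : Set Y) (σ : Name R) (p r : R) (i : I) (y : Y) : Prop :=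
  r ≤ p ∧ y ∈ S ∧ Fc [A i, B y, σ] (fun C => pair (C.val (A i)) (C.val (B y)) ∈ C.val σ) r

theorem VF.truth (C : Cx R) {i : I} {y : Y} (hi : A i ∈ C.N) (hy : B y ∈ C.N) (hσ : σ ∈ C.N)
    (hS : y ∈ S) (h : pair (C.val (A i)) (C.val (B y)) ∈ C.val σ) {q : R} (hq : q ∈ C.G)
    (hp : q ≤ p) : ∃ r ∈ C.G, r ≤ q ∧ VF A B S σ p r i y :=
  let ⟨r, r1, r2, r3⟩ := (dfn (fun _ v => pair (v 0) (v 1) ∈ v 2) [A i, B y, σ]).truth C
    ⟨hi, hy, hσ, trivial⟩ h hq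
  ⟨r, r1, r2, r2.trans hp, hS, r3⟩

theorem fn_VF (hB : Inj B) (hs : Names B S s)
    (hp : Fc [setN A, s, σ] (fun C => Fnl (C.val (setN A)) (C.val s) (C.val σ)) p) :
    Fn (VF A B S σ p) := by
  refine ⟨fun r r' i y h hr => ⟨hr.trans h.1, h.2.1, h.2.2.mono hr⟩, fun r i y y' h h' => ?_⟩
  obtain ⟨C, c1, c2, c3, c4, c5⟩ := fresh r [A i, B y, B y', setN A, s, σ]
  exact hB C _ _ c3 c4 (hp C (C.up r c1 p h.1) c5 _ ((mem_setN C).2 ⟨i, c2, rfl⟩) _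
    ((hs C _).2 ⟨y, h.2.1, c3, rfl⟩) _ ((hs C _).2 ⟨y', h'.2.1, c4, rfl⟩)
    (h.2.2 C c1 ⟨c2, c3, c5.2.2⟩) (h'.2.2 C c1 ⟨c2, c4, c5.2.2⟩))

theorem tot_VF (hs : Names B S s)
    (hp : Fc [setN A, s, σ] (fun C => Tot (C.val (setN A)) (C.val s) (C.val σ)) p) (i : I) (r : R)
    (hr : r ≤ p) : ∃ r' ≤ r, ∃ y, VF A B S σ p r' i y := by
  obtain ⟨C, c1, c2, c3⟩ := fresh r [A i, setN A, s, σ]
  obtain ⟨z, z1, z2⟩ := hp C (C.up r c1 p hr) c3 _ ((mem_setN C).2 ⟨i, c2, rfl⟩)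
  obtain ⟨y, y1, y2, rfl⟩ := (hs C _).1 z1
  obtain ⟨r', -, a1, a2⟩ := VF.truth C c2 y2 c3.2.2.1 y1 z2 c1 hr
  exact ⟨r', a1, y, a2⟩

theorem bddZ [LinearOrder Y] [WellFoundedLT Y] (hs : Names (ordN : Y → Name R) S s)
    (hb : Bdd R I S) (C : Cx R) (h1 : setN A ∈ C.N) (h2 : s ∈ C.N) :
    ∀ f ∈ C.M, Fnl (C.val (setN A)) (C.val s) f →
      ∃ b ∈ C.val s, ∀ x ∈ C.val (setN A), ∀ y ∈ C.val s, pair x y ∈ f → y ∈ b := by
  intro f hf h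
  obtain ⟨σ, h3, rfl⟩ := C.mem_M.1 hf
  obtain ⟨p, p1, -, p2⟩ := (dfn (fun _ v => Fnl (v 0) (v 1) (v 2)) [setN A, s, σ]).truth C
    ⟨h1, h2, h3, trivial⟩ h C.top
  have hV := fn_VF inj_ordN hs p2
  refine (dfn (fun _ v => ∃ b ∈ v 1, ∀ x ∈ v 0, ∀ y ∈ v 1, pair x y ∈ v 2 → y ∈ b)
    [setN A, s, σ]).dense (fun q hq => ?_) C p1 ⟨h1, h2, h3, trivial⟩
  obtain ⟨r, r1, b, r2⟩ := hb (fun r i y => VF A ordN S σ p r i y.1)
    ⟨fun _ _ _ _ => hV.mono _ _ _ _, fun _ _ _ _ e e' => Subtype.ext (hV.uniq _ _ _ _ e e')⟩ q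
  obtain ⟨C', c1, c2, c3⟩ := fresh r [ordN b.1, setN A, s, σ]
  refine ⟨C', C'.up r c1 q r1, c3, _, (hs C' _).2 ⟨b.1, b.2, c2, rfl⟩, fun x hx y hy e => ?_⟩
  obtain ⟨i, i1, rfl⟩ := (mem_setN C').1 hx
  obtain ⟨y, y1, y2, rfl⟩ := (hs C' _).1 hy
  obtain ⟨t, -, t1, t2⟩ := VF.truth C' i1 y2 c3.2.2.1 y1 e c1 (r1.trans hq)
  exact (ord_mem_ord C' y2).2 (r2 t t1 i ⟨y, y1⟩ t2)

omit [OrderTop R] in
theorem bdd_univ [LT Y] (h : Bdd R I Y) : Bdd R I (univ : Set Y) := fun V hV p => by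
  obtain ⟨q, q1, b, q2⟩ := h (fun r i y => V r i ⟨y, trivial⟩)
    ⟨fun _ _ _ _ => hV.mono _ _ _ _, fun _ _ _ _ e e' => congrArg Subtype.val (hV.uniq _ _ _ _ e e')⟩ p
  exact ⟨q, q1, ⟨b, trivial⟩, fun r hr i y => q2 r hr i y.1⟩

end fn

/-- The elements of a well-order of the ground model that are seen by the context. -/
@[ext] structure GT (C : Cx R) (A : Type) [LinearOrder A] [WellFoundedLT A] : Type 1 where
  v : A
  h : ordN v ∈ C.N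

/-- The context contains the name of the well-order. -/
class In (C : Cx R) (A : Type) [LinearOrder A] [WellFoundedLT A] : Prop where
  out : setN (ordN : A → Name R) ∈ C.N

variable {C : Cx R} {A B : Type} [LinearOrder A] [WellFoundedLT A] [LinearOrder B] [WellFoundedLT B]

noncomputable instance : LinearOrder (GT C A) := LinearOrder.lift' GT.v fun _ _ => GT.ext

theorem GT.lt_def {a b : GT C A} : a < b ↔ a.v < b.v := Iff.rfl

theorem GT.le_def {a b : GT C A} : a ≤ b ↔ a.v ≤ b.v := Iff.rfl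

instance : WellFoundedLT (GT C A) := ⟨InvImage.wf GT.v wellFounded_lt⟩

noncomputable instance [h : In C A] : Cd C.M (GT C A) where
  c a := C.val (ordN a.v)
  inj a b e := GT.ext (inj_ordN C _ _ a.h b.h e)
  ex := ⟨_, C.val_mem_M h.out, fun _ => (mem_setN C).trans
    ⟨fun ⟨a, h1, e⟩ => ⟨⟨a, h1⟩, e.symm⟩, fun ⟨a, e⟩ => ⟨a.v, a.h, e.symm⟩⟩⟩

variable [In C A] [In C B]

theorem cd_GT (a : GT C A) : cd C.M a = C.val (ordN a.v) := rfl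

theorem top_GT : Top C.M (GT C A) (C.val (setN (ordN : A → Name R))) := fun _ =>
  (mem_setN C).trans ⟨fun ⟨a, h1, e⟩ => ⟨⟨a, h1⟩, e.symm⟩, fun ⟨a, e⟩ => ⟨a.v, a.h, e.symm⟩⟩

theorem ordC_GT : OrdC C.M (GT C A) (C.val (setN (ordN : A → Name R))) :=
  ⟨top_GT, fun _ _ => (mem_ordN C).trans ⟨fun ⟨b, h1, h2, e⟩ => ⟨⟨b, h2⟩, h1, e.symm⟩,
    fun ⟨b, h1, e⟩ => ⟨b.v, h1, b.h, e.symm⟩⟩⟩

instance : OM C.M (GT C A) := ordC_GT.om

theorem pair_GT {V : R → A → B → Prop} (a : GT C A) (b : GT C B) :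
    pair (cd C.M a) (cd C.M b) ∈ C.val (grN ordN ordN V) ↔ ∃ p ∈ C.G, V p a.v b.v :=
  pair_grN C inj_ordN inj_ordN a.h b.h

theorem mf_GT {V : R → A → B → Prop} (h : grN ordN ordN V ∈ C.N) :
    MF C.M fun x : GT C A × GT C B => ∃ p ∈ C.G, V p x.1.v x.2.v :=
  (mf_cd_mem (C.val_mem_M h)).of_iff fun x => (pair_GT x.1 x.2).symm

theorem bdd_typed {I : Type} {F : I → Name R} {α : Type*} [Cd C.M α] (hb : Bdd R I A)
    (h1 : setN F ∈ C.N) (ht : Top C.M α (C.val (setN F))) (f : α → GT C A) (hf : MF C.M f) :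
    ∃ b, ∀ x, f x < b := by
  obtain ⟨g, g1, g2⟩ := exists_graph hf
  obtain ⟨b, hb⟩ := top_GT.ex.1 (bddZ names_setN (bdd_univ hb) C h1 In.out g g1
    (fnl_graph ht top_GT g2).1)
  exact ⟨b, fun x => ordC_GT.lt_iff.1 (hb _ (ht.mem x) _ (top_GT.mem _) ((g2 _ _).2 rfl))⟩

theorem top_omega (C : Cx R) : Top C.M ℕ (C.val (setN natN)) := C.val_omegaN ▸ top_nat

theorem om_GT {W K : Type} [LinearOrder W] [WellFoundedLT W] [LinearOrder K] [WellFoundedLT K]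
    [In C W] [In C K] (cnt : ∀ ζ : W, (Iio ζ).Countable) (h1 : Bdd R ℕ W) (h2 : Bdd R W K)
    (col : ∀ α : K, Cov R W (Iio α)) (nw : Nonempty (GT C W)) (nk : Nonempty (GT C K)) :
    Om C.M (GT C W) (GT C K) := by
  have s1 := succ_top inj_natN h1 (fun y => cov_of_countable (cnt y)) C C.omega_mem In.out
  have s2 := succ_top inj_ordN h2 col C In.out In.out
  refine ⟨nw, nk, fun a => ?_, bdd_typed h1 C.omega_mem (top_omega C), fun a => ?_,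
    bdd_typed h2 In.out top_GT⟩
  · exact (onto_typed (top_omega C) (cd_mem a) (s1.2.2.2 _ (top_GT.mem a))).imp
      fun e h => ⟨h.1, fun b hb => h.2 b (ordC_GT.lt_iff.2 hb)⟩
  · exact (onto_typed (α := GT C W) top_GT (cd_mem a) (s2.2.2.2 _ (top_GT.mem a))).imp
      fun e h => ⟨h.1, fun b hb => h.2 b (ordC_GT.lt_iff.2 hb)⟩

end Pool.Agent.Lib.MP_6993b6_lc.Q1
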