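import Pool.Agent.Lib.MP_6993b6_lc.Q1.T1

/-!
Transfer of the properties of the closed preorder and of the reals.
-/

namespace Pool.Agent.Lib.MP_6993b6_lc.Q1

open ZFSet Set Pool.Agent.Lib.MP_053343_lc Pool.Agent.Lib.MP_053343_lc.Name
open Pool.Agent.Shared.Forcing Pool.Agent.Shared.InModel

variable {R W K Q : Type} [Preorder R] [OrderTop R] [LinearOrder W] [WellFoundedLT W]
  [LinearOrder K] [WellFoundedLT K] [LinearOrder Q] [WellFoundedLT Q]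
  {Le : R → Q → Q → Prop} {Z : R → Q → K → Prop} (S : VS R W K Q Le Z) (C : Cx R)

include S

theorem sigmaZ (h1 : setN (ordN : Q → Name R) ∈ C.N) (h2 : grN ordN ordN Le ∈ C.N) :
    ∀ f ∈ C.M, Fnl (C.val (setN natN)) (C.val (setN (ordN : Q → Name R))) f →
      Tot (C.val (setN natN)) (C.val (setN (ordN : Q → Name R))) f →
      (∀ n ∈ C.val (setN natN), ∀ m ∈ C.val (setN natN), n ∈ m →
        ∀ y ∈ C.val (setN (ordN : Q → Name R)), ∀ y' ∈ C.val (setN (ordN : Q → Name R)),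
          pair n y ∈ f → pair m y' ∈ f → pair y' y ∈ C.val (grN ordN ordN Le)) →
      ∃ y0 ∈ C.val (setN (ordN : Q → Name R)), ∀ n ∈ C.val (setN natN),
        ∀ y ∈ C.val (setN (ordN : Q → Name R)), pair n y ∈ f →
          pair y0 y ∈ C.val (grN ordN ordN Le) := by
  intro f hf a1 a2 a3
  obtain ⟨σ, h3, rfl⟩ := C.mem_M.1 hf
  have hl : Has C [setN natN, setN (ordN : Q → Name R), σ, grN ordN ordN Le] :=
    ⟨C.omega_mem, h1, h3, h2, trivial⟩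
  obtain ⟨p, p1, -, p2⟩ := (dfn (fun _ v => Fnl (v 0) (v 1) (v 2) ∧ Tot (v 0) (v 1) (v 2) ∧
    ∀ n ∈ v 0, ∀ m ∈ v 0, n ∈ m → ∀ y ∈ v 1, ∀ y' ∈ v 1, pair n y ∈ v 2 → pair m y' ∈ v 2 →
      pair y' y ∈ v 3) _).truth C hl ⟨a1, a2, a3⟩ C.top
  obtain ⟨p', p3, p4, p5⟩ := (dfn (fun _ v => Fnl (v 0) (v 1) (v 2) ∧ Tot (v 0) (v 1) (v 2))
    [setN natN, setN (ordN : Q → Name R), σ]).truth C ⟨C.omega_mem, h1, h3, trivial⟩ ⟨a1, a2⟩ p1
  have hV := fn_VF (p := p') inj_ordN names_setN fun C a b => (p5 C a b).1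
  have hT := tot_VF (p := p') names_setN fun C a b => (p5 C a b).2
  refine (dfn (fun _ v => ∃ y0 ∈ v 1, ∀ n ∈ v 0, ∀ y ∈ v 1, pair n y ∈ v 2 → pair y0 y ∈ v 3)
    _).dense (fun q hq => ?_) C p3 hl
  obtain ⟨r, r1, q0, r2⟩ := S.sigma _ hV q (fun n r hr => hT n r (hr.trans hq))
    fun n y y' r _ e e' => by
      obtain ⟨C', c1, c2, c3, c4⟩ := fresh r
        [ordN y, ordN y', setN natN, setN (ordN : Q → Name R), σ, grN ordN ordN Le]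
      obtain ⟨s, s1, s2⟩ := (pair_grN C' inj_ordN inj_ordN c3 c2).1
        ((p2 C' (C'.up r c1 p (e.1.trans p4)) c4).2.2 _ (C'.mem_val_setN' (C'.natN_mem n)) _
          (C'.mem_val_setN' (C'.natN_mem (n + 1)))
          (by rw [C'.val_natN, C'.val_natN]; exact mem_nat.2 ⟨n, n.lt_succ_self, rfl⟩)
          _ (ord_mem_top C' c2) _ (ord_mem_top C' c3)
          (e.2.2 C' c1 ⟨C'.natN_mem n, c2, c4.2.2.1, trivial⟩)
          (e'.2.2 C' c1 ⟨C'.natN_mem _, c3, c4.2.2.1, trivial⟩))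
      obtain ⟨t, -, t1, t2⟩ := C'.dir r c1 s s1
      exact ⟨t, t1, S.le_mono _ _ _ _ s2 t2⟩
  obtain ⟨C', c1, c2, c3⟩ := fresh r
    [ordN q0, setN natN, setN (ordN : Q → Name R), σ, grN ordN ordN Le]
  refine ⟨C', C'.up r c1 q r1, c3, _, ord_mem_top C' c2, fun n hn y hy e => ?_⟩
  obtain ⟨n, n1, rfl⟩ := (mem_setN C').1 hn
  obtain ⟨y, y1, rfl⟩ := (mem_setN C').1 hy
  obtain ⟨t, t1, t2, t3⟩ := VF.truth C' n1 y1 c3.2.2.1 (mem_univ y) e c1 (r1.trans hq)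
  exact dense_grN C' c2 y1 c3.2.2.2.1 t1 fun u hu => r2 n y u (hu.trans t2) (hV.mono _ _ _ _ t3 hu)

theorem l3Z (h1 : setN (ordN : K → Name R) ∈ C.N) (h2 : setN (ordN : W → Name R) ∈ C.N)
    (h4 : setN (ordN : Q → Name R) ∈ C.N) (h5 : grN ordN ordN Le ∈ C.N)
    (h6 : grN ordN ordN Z ∈ C.N) {q : Q} (h7 : ordN q ∈ C.N) :
    ∀ f ∈ C.M, Fnl (C.val (setN (ordN : K → Name R))) (C.val (setN (ordN : W → Name R))) f →
      ∃ y ∈ C.val (setN (ordN : Q → Name R)), pair y (C.val (ordN q)) ∈ C.val (grN ordN ordN Le) ∧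
        ∃ b ∈ C.val (setN (ordN : W → Name R)), ∀ g ∈ C.val (setN (ordN : K → Name R)),
          pair y g ∈ C.val (grN ordN ordN Z) → ∀ z ∈ C.val (setN (ordN : W → Name R)),
            pair g z ∈ f → z ∈ b := by
  intro f hf a1
  obtain ⟨σ, h3, rfl⟩ := C.mem_M.1 hf
  obtain ⟨p, p1, -, p2⟩ := (dfn (fun _ v => Fnl (v 0) (v 1) (v 2))
    [setN (ordN : K → Name R), setN (ordN : W → Name R), σ]).truth C ⟨h1, h2, h3, trivial⟩ a1 C.top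
  have hV := fn_VF inj_ordN names_setN p2
  refine (dfn (fun _ v => ∃ y ∈ v 3, pair y (v 6) ∈ v 4 ∧ ∃ b ∈ v 1, ∀ g ∈ v 0, pair y g ∈ v 5 →
    ∀ z ∈ v 1, pair g z ∈ v 2 → z ∈ b) [setN (ordN : K → Name R), setN (ordN : W → Name R), σ,
      setN (ordN : Q → Name R), grN ordN ordN Le, grN ordN ordN Z, ordN q]).dense
    (fun s hs => ?_) C p1 ⟨h1, h2, h3, h4, h5, h6, h7, trivial⟩
  obtain ⟨r, r1, q', b, r2, r3⟩ := S.l3 _ hV s q
  obtain ⟨C', c1, c2, c3, c4⟩ := fresh r [ordN q', ordN b, setN (ordN : K → Name R),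
    setN (ordN : W → Name R), σ, setN (ordN : Q → Name R), grN ordN ordN Le, grN ordN ordN Z, ordN q]
  refine ⟨C', C'.up r c1 s r1, c4, _, ord_mem_top C' c2,
    (pair_grN C' inj_ordN inj_ordN c2 c4.2.2.2.2.2.2.1).2 ⟨r, c1, r2⟩, _, ord_mem_top C' c3,
    fun g hg e z hz e' => ?_⟩
  obtain ⟨g, g1, rfl⟩ := (mem_setN C').1 hg
  obtain ⟨z, z1, rfl⟩ := (mem_setN C').1 hz
  obtain ⟨u, u1, u2⟩ := (pair_grN C' inj_ordN inj_ordN c2 g1).1 e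
  obtain ⟨u', u3, u4, u5⟩ := C'.dir r c1 u u1
  obtain ⟨t, -, t2, t3⟩ := VF.truth C' g1 z1 c4.2.2.1 (mem_univ z) e' u3 ((u4.trans r1).trans hs)
  exact (ord_mem_ord C' z1).2 (r3 t (t2.trans u4) g z (S.z_mono _ _ _ _ u2 (t2.trans u5)) t3)

theorem l4Z (h1 : setN (ordN : K → Name R) ∈ C.N) (h6 : grN ordN ordN Z ∈ C.N) {q : Q}
    (h7 : ordN q ∈ C.N) {η : K} (h8 : ordN η ∈ C.N) :
    ∀ f ∈ C.M, Fnl (C.val (setN (ordN : K → Name R))) (C.val (setN (ordN : K → Name R))) f →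
      ∃ g ∈ C.val (setN (ordN : K → Name R)),
        pair (C.val (ordN q)) g ∈ C.val (grN ordN ordN Z) ∧ C.val (ordN η) ∈ g ∧
        (∀ b ∈ g, ∀ y ∈ C.val (setN (ordN : K → Name R)), pair b y ∈ f → y ∈ g) ∧
        ∀ f' ∈ C.M, Fnl (C.val (setN natN)) g f' →
          ∃ b ∈ g, ∀ x ∈ C.val (setN natN), ∀ y ∈ g, pair x y ∈ f' → y ∈ b := by
  intro f hf a1
  obtain ⟨σ, h3, rfl⟩ := C.mem_M.1 hf
  obtain ⟨p, p1, -, p2⟩ := (dfn (fun _ v => Fnl (v 0) (v 1) (v 2))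
    [setN (ordN : K → Name R), setN (ordN : K → Name R), σ]).truth C ⟨h1, h1, h3, trivial⟩ a1 C.top
  have hV := fn_VF inj_ordN names_setN p2
  refine (dfn (fun M v => ∃ g ∈ v 0, pair (v 3) g ∈ v 2 ∧ v 4 ∈ g ∧
    (∀ b ∈ g, ∀ y ∈ v 0, pair b y ∈ v 1 → y ∈ g) ∧ ∀ f' ∈ M, Fnl (v 5) g f' →
      ∃ b ∈ g, ∀ x ∈ v 5, ∀ y ∈ g, pair x y ∈ f' → y ∈ b)
    [setN (ordN : K → Name R), σ, grN ordN ordN Z, ordN q, ordN η, setN natN]).dense
    (fun s hs => ?_) C p1 ⟨h1, h3, h6, h7, h8, C.omega_mem, trivial⟩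
  obtain ⟨p', q1, q2⟩ : ∃ p' ≤ s, p' ≤ p := ⟨s, le_rfl, hs⟩
  obtain ⟨r, r1, γ, r2, r3, r4, r5⟩ := S.l4 _ hV s q η
  obtain ⟨C', c1, c2, c3⟩ := fresh r [ordN γ, setN (ordN : K → Name R), σ, grN ordN ordN Z, ordN q,
    ordN η, setN natN]
  refine ⟨C', C'.up r c1 s r1, c3, _, ord_mem_top C' c2,
    (pair_grN C' inj_ordN inj_ordN c3.2.2.2.1 c2).2 ⟨r, c1, r3⟩,
    (ord_mem_ord C' c3.2.2.2.2.1).2 r2, fun b hb y hy e => ?_,
    bddZ (names_ordN γ) r5 C' C'.omega_mem c2⟩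
  obtain ⟨b, b1, b2, rfl⟩ := (mem_ordN C').1 hb
  obtain ⟨y, y1, rfl⟩ := (mem_setN C').1 hy
  obtain ⟨t, -, -, t3⟩ := VF.truth C' b2 y1 c3.2.1 (mem_univ y) e c1 (r1.trans hs)
  exact (ord_mem_ord C' y1).2 (r4 t b y b1 t3)

omit S in
theorem reZ {y : R → K → ℕ → Prop} (hm : ∀ r r' α n, y r α n → r' ≤ r → y r' α n)
    (hy : ∀ α β, α ≠ β → ∀ p, ∃ r ≤ p, ∃ n, y r α n ∧ ∀ s ≤ r, ¬ y s β n) [In C K]
    (h : grN ordN natN y ∈ C.N) :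
    ∃ y' : GT C K → PM C.M ℕ, MF C.M y' ∧ Function.Injective y' := by
  have m : MF C.M fun x : GT C K × ℕ => cd C.M x ∈ C.val (grN ordN natN y) :=
    mf_cd_mem (C.val_mem_M h)
  refine ⟨PM.lam (fun a n => cd C.M (a, n) ∈ C.val (grN ordN natN y)) m, MF.pmlam MF.id',
    fun a b e => ?_⟩
  by_contra hc
  obtain ⟨n, hn, n1, n2⟩ := (dfn (fun _ v => ∃ n ∈ v 0, pair (v 1) n ∈ v 3 ∧ pair (v 2) n ∉ v 3)
    [setN natN, ordN a.v, ordN b.v, grN ordN natN y]).dense (fun q _ => by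
      obtain ⟨r, r1, n, r2, r3⟩ := hy a.v b.v (fun e => hc (GT.ext e)) q
      obtain ⟨C', c1, c2⟩ := fresh r [setN natN, ordN a.v, ordN b.v, grN ordN natN y]
      refine ⟨C', C'.up r c1 q r1, c2, _, C'.mem_val_setN' (C'.natN_mem n),
        (pair_grN C' inj_ordN inj_natN c2.2.1 (C'.natN_mem n)).2 ⟨r, c1, r2⟩, fun e => ?_⟩
      obtain ⟨s, s1, s2⟩ := (pair_grN C' inj_ordN inj_natN c2.2.2.1 (C'.natN_mem n)).1 e
      obtain ⟨t, -, t1, t2⟩ := C'.dir r c1 s s1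
      exact r3 t t1 (hm _ _ _ _ s2 t2)) C C.top ⟨C.omega_mem, a.h, b.h, h, trivial⟩
  obtain ⟨n, rfl⟩ := ((top_omega C) _).1 hn
  have : n ∈ PM.lam (fun a n => cd C.M (a, n) ∈ C.val (grN ordN natN y)) m a := n1
  rw [e] at this
  exact n2 this

/-- The closed preorder of the model. -/
def QT (C : Cx R) (Q : Type) [LinearOrder Q] [WellFoundedLT Q] : Type 1 := GT C Q

noncomputable instance [In C Q] : Cd C.M (QT C Q) := inferInstanceAs (Cd C.M (GT C Q))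

/-- Its order. -/
@[reducible] def qpre : Preorder (QT C Q) where
  le a b := ∃ r ∈ C.G, Le r (GT.v a) (GT.v b)
  le_refl a := ⟨⊤, C.top, S.le_refl _ _⟩
  le_trans a b c := fun ⟨r, r1, r2⟩ ⟨s, s1, s2⟩ =>
    let ⟨t, t0, t1, t2⟩ := C.dir r r1 s s1
    ⟨t, t0, S.le_trans _ _ _ _ (S.le_mono _ _ _ _ r2 t1) (S.le_mono _ _ _ _ s2 t2)⟩

theorem ax_GT [In C W] [In C K] [In C Q] (h5 : grN ordN ordN Le ∈ C.N)
    (h6 : grN ordN ordN Z ∈ C.N) (ne : Nonempty (GT C Q))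
    (re : ∃ y' : GT C K → PM C.M ℕ, MF C.M y' ∧ Function.Injective y') (cp : CP C.M (GT C W)) :
    letI := qpre S C
    Ax C.M (GT C W) fun (q : QT C Q) (g : GT C K) => ∃ r ∈ C.G, Z r (GT.v q) g.v := by
  letI := qpre S C
  have le : ∀ a b : QT C Q, pair (cd C.M a) (cd C.M b) ∈ C.val (grN ordN ordN Le) ↔ a ≤ b :=
    fun a b => pair_GT (C := C) a b
  have tq : Top C.M (QT C Q) (C.val (setN (ordN : Q → Name R))) := top_GT
  refine ⟨mf_GT h6, ne, fun x hx h => ?_, ?_, fun f hf q => ?_, fun f hf q e => ?_, re, cp⟩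
  · obtain ⟨g, g1, g2⟩ := exists_graph hx
    have := sigmaZ S C In.out h5 g g1 (fnl_graph (top_omega C) tq g2).1
      (fnl_graph (top_omega C) tq g2).2
    simp only [(top_omega C).all, tq.all, tq.ex, g2, le, cd_nat_lt] at this
    exact (this fun n m hn _ _ e e' => e ▸ e' ▸ antitone_nat_of_succ_le h hn.le).imp
      fun q hq n => hq n _ rfl
  · rintro q q' g ⟨r, r1, r2⟩ ⟨s, s1, s2⟩
    obtain ⟨t, t0, t1, t2⟩ := C.dir r r1 s s1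
    exact ⟨t, t0, S.z_le _ _ _ _ (S.le_mono _ _ _ _ r2 t1) (S.z_mono _ _ _ _ s2 t2)⟩
  · obtain ⟨g, g1, g2⟩ := exists_graph hf
    obtain ⟨q', a1, a2⟩ := tq.ex.1 (l3Z S C In.out In.out In.out h5 h6 (GT.h q) g g1
      (fnl_graph top_GT top_GT g2).1)
    obtain ⟨b, a3⟩ := top_GT.ex.1 a2
    exact ⟨q', (le q' q).1 a1, b, fun γ hγ => ordC_GT.lt_iff.1 (a3 _ (top_GT.mem γ)
      ((pair_GT (C := C) q' γ).2 hγ) _ (top_GT.mem _) ((g2 _ _).2 rfl))⟩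
  · obtain ⟨g, g1, g2⟩ := exists_graph hf
    obtain ⟨γ, a1, a2, a3, a4⟩ := top_GT.ex.1 (l4Z S C In.out h6 (GT.h q) e.h g g1
      (fnl_graph top_GT top_GT g2).1)
    refine ⟨γ, (pair_GT (C := C) q γ).1 a1, ordC_GT.lt_iff.1 a2, fun b hb => ordC_GT.lt_iff.1
      (a3 _ (ordC_GT.lt_iff.2 hb) _ (top_GT.mem _) ((g2 _ _).2 rfl)), fun x hx h => ?_⟩
    obtain ⟨g', b1, b2⟩ := exists_graph hx
    obtain ⟨b, b3, b4⟩ := a4 g' b1 fun n hn y hy y' hy' => (fnl_graph (top_omega C) top_GT b2).1 n hn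
      y ((top_ord C).isTransitive _ (top_GT.mem γ) hy) y'
      ((top_ord C).isTransitive _ (top_GT.mem γ) hy')
    obtain ⟨b, b5, rfl⟩ := (ordC_GT.lt _ _).1 b3
    exact ⟨b, b5, fun n => (ordC_GT.lt_iff.1 (b4 _ ((top_omega C).mem n) _
      (ordC_GT.lt_iff.2 (h n)) ((b2 _ _).2 rfl))).le⟩

end Pool.Agent.Lib.MP_6993b6_lc.Q1
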