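import Pool.Agent.Lib.MP_6993b6_lc.Q1.T2

/-!
Transfer of the colouring principle, and the model.
-/

namespace Pool.Agent.Lib.MP_6993b6_lc.Q1

open ZFSet Set Pool.Agent.Lib.MP_053343_lc Pool.Agent.Lib.MP_053343_lc.Name
open Pool.Agent.Shared.Forcing Pool.Agent.Shared.InModel

section formulas

def LocZ (M w o X I b : ZFSet.{0}) : Prop :=
  ∀ a ∈ w, ∀ k ∈ M, k ⊆ I → ∀ k' ∈ M, k' ⊆ I → ∀ x ∈ X,
    (∀ l ∈ w, a ∉ l → ∀ n ∈ o, ∀ y ∈ X, (T3 k l n y ↔ T3 k' l n y)) → T3 b a k x → T3 b a k' x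

def LFZ (w o X k l : ZFSet.{0}) : Prop :=
  (∀ n ∈ o, ∀ x ∈ X, ∀ x' ∈ X, T3 k l n x → T3 k l n x' → x = x') ∧
    (∀ n ∈ o, ∀ x ∈ X, T3 k l n x → ∀ c ∈ w, ∀ j ∈ o, x = pair c j → c ∈ l) ∧
    ∀ b ∈ w, b ∈ l → ∃ m ∈ o, ∀ n ∈ o, n ∉ m → ∀ x ∈ X, T3 k l n x →
      ∀ c ∈ w, ∀ j ∈ o, x = pair c j → b ∈ c

def TailZ (o X b a k l m : ZFSet.{0}) : Prop :=
  ∀ n ∈ o, n ∉ m → ∀ x ∈ X, T3 k l n x → ¬ T3 b a k x

def R1Z (M w o X I b : ZFSet.{0}) : Prop :=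
  ∀ a ∈ w, ∀ k ∈ M, k ⊆ I → ∀ l ∈ w, a ∉ l → LFZ w o X k l → ∃ m ∈ o, TailZ o X b a k l m

def ConZ (M w o X I b : ZFSet.{0}) : Prop :=
  ∃ k ∈ M, k ⊆ I ∧ ∃ c ∈ M, Tot X o c ∧ ∀ x ∈ X, ∀ x' ∈ X, ∀ a ∈ w, ∀ j ∈ o, ∀ a' ∈ w, ∀ j' ∈ o,
    x = pair a j → x' = pair a' j' → a ∈ a' → ∀ n ∈ o, pair x n ∈ c → pair x' n ∈ c → ¬ T3 b a' k x

instance udLocZ (w o X I b : ℕ) : UD fun M v => LocZ M (v w) (v o) (v X) (v I) (v b) := by
  unfold LocZ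
  infer_instance

instance udLFZ (w o X k l : ℕ) : UD fun _ v => LFZ (v w) (v o) (v X) (v k) (v l) := by
  unfold LFZ
  infer_instance

instance udTailZ (o X b a k l m : ℕ) :
    UD fun _ v => TailZ (v o) (v X) (v b) (v a) (v k) (v l) (v m) := by
  unfold TailZ
  infer_instance

instance udR1Z (w o X I b : ℕ) : UD fun M v => R1Z M (v w) (v o) (v X) (v I) (v b) := by
  unfold R1Z
  infer_instance

instance udConZ (w o X I b : ℕ) : UD fun M v => ConZ M (v w) (v o) (v X) (v I) (v b) := by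
  unfold ConZ
  infer_instance

variable {M : ZFSet.{0}} [Mdl M] {A : Type 1} [Cd M A] [LinearOrder A] {w o X I b : ZFSet.{0}}
  (hw : OrdC M A w) (ho : Top M ℕ o) (hX : Top M (Vx A) X) (hI : Top M (Idx A) I)

omit [LinearOrder A] in
theorem t3_pm {k : PM M (Idx A)} {l : A} {n : ℕ} {x : Vx A} :
    T3 (cd M k) (cd M l) (cd M n) (cd M x) ↔ (l, n, x) ∈ k := cd_mem_pm (x := (l, n, x))

omit [LinearOrder A] in
theorem cd_vx {x : Vx A} {c : A} {j : ℕ} : cd M x = pair (cd M c) (cd M j) ↔ x = (c, j) :=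
  cd_inj (y := (c, j))

include hw ho hX

theorem lfZ_iff {k : PM M (Idx A)} {l : A} : LFZ w o X (cd M k) (cd M l) ↔ LF k.set l := by
  have tw : Top M A w := hw.mem
  simp only [LFZ, LF, tw.all, ho.all, ho.ex, hX.all, t3_pm, cd_vx, cd_inj, hw.lt_iff, cd_nat_lt,
    not_lt, PM.mem_set]
  refine and_congr Iff.rfl (and_congr ⟨fun h n x e => h n x e _ _ rfl, ?_⟩
    (forall₂_congr fun b _ => exists_congr fun m =>
      ⟨fun h n x e e' => h n e x e' _ _ rfl, ?_⟩))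
  · rintro h n x e c j rfl
    exact h n _ e
  · rintro h n e x e' c j rfl
    exact h n _ e e'

omit hw in
theorem tailZ_iff {k : PM M (Idx A)} {l : A} {a : ZFSet} {m : ℕ} :
    TailZ o X b a (cd M k) (cd M l) (cd M m) ↔
      ∀ n x, m ≤ n → (l, n, x) ∈ k → ¬ T3 b a (cd M k) (cd M x) := by
  simp only [TailZ, ho.all, hX.all, t3_pm, cd_nat_lt, not_lt]
  exact ⟨fun h n x e => h n e x, fun h n e x => h n x e⟩

include hI

theorem locZ_iff : LocZ M w o X I b ↔ ∀ (a : A) (k k' : PM M (Idx A)) (x : Vx A),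
    (∀ i : Idx A, i.1 ≤ a → (i ∈ k ↔ i ∈ k')) → T3 b (cd M a) (cd M k) (cd M x) →
      T3 b (cd M a) (cd M k') (cd M x) := by
  have tw : Top M A w := hw.mem
  simp only [LocZ, tw.all, ho.all, hX.all, hI.all_pm, t3_pm, hw.lt_iff, not_lt]
  exact forall₄_congr fun a k k' x => imp_congr_left
    ⟨fun h i e => h i.1 e i.2.1 i.2.2, fun h l e n y => h (l, n, y) e⟩

theorem r1Z_iff : R1Z M w o X I b ↔ ∀ (a : A) (k : PM M (Idx A)) (l : A), l ≤ a → LF k.set l →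
    ∃ m, ∀ n x, m ≤ n → (l, n, x) ∈ k → ¬ T3 b (cd M a) (cd M k) (cd M x) := by
  have tw : Top M A w := hw.mem
  simp only [R1Z, tw.all, ho.ex, hI.all_pm, hw.lt_iff, not_lt, lfZ_iff hw ho hX, tailZ_iff ho hX]

theorem of_conZ [Chc M] (h : ConZ M w o X I b) : ∃ (k : PM M (Idx A)) (c : Vx A → ℕ), MF M c ∧
    ∀ x x' : Vx A, x.1 < x'.1 → c x = c x' → ¬ T3 b (cd M x'.1) (cd M k) (cd M x) := by
  have tw : Top M A w := hw.mem
  obtain ⟨k, k1, k2, c, c1, c2, c3⟩ := h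
  obtain ⟨k, rfl⟩ := exists_pm (α := Idx A) k1 fun y hy => (hI y).1 (k2 hy)
  obtain ⟨f, f1, f2⟩ := fun_typed hX ho c1 c2
  exact ⟨k, f, f1, fun x x' e e' => c3 _ (hX.mem x) _ (hX.mem x') _ (tw.mem x.1) _ (ho.mem x.2) _
    (tw.mem x'.1) _ (ho.mem x'.2) rfl rfl (hw.lt_iff.2 e) _ (ho.mem _) (f2 x) (e' ▸ f2 x')⟩

end formulas

variable {R W : Type} [Preorder R] [OrderTop R] [LinearOrder W] [WellFoundedLT W]

noncomputable def vxN (x : Vx W) : Name R := pairN (ordN x.1) (natN x.2)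

noncomputable def ixN (i : Idx W) : Name R := pairN (ordN i.1) (pairN (natN i.2.1) (vxN i.2.2))

/-- The name given by a set of pairs. -/
noncomputable def subN (k : Set (Idx W × R)) : Name R := ⟨k, fun e => ixN e.1.1, fun e => e.1.2⟩

variable {C : Cx R}

def dnV (x : Vx (GT C W)) : Vx W := (x.1.v, x.2)

def dnI (i : Idx (GT C W)) : Idx W := (i.1.v, i.2.1, dnV i.2.2)

theorem vxN_mem (x : Vx (GT C W)) : vxN (dnV x) ∈ C.N := C.pair_memN x.1.h (C.natN_mem _)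

theorem ixN_mem (i : Idx (GT C W)) : ixN (dnI i) ∈ C.N :=
  C.pair_memN i.1.h (C.pair_memN (C.natN_mem _) (vxN_mem _))

theorem exists_dnV {x : Vx W} (h : vxN x ∈ C.N) : ∃ y : Vx (GT C W), dnV y = x :=
  ⟨(⟨x.1, C.pairN_left h⟩, x.2), rfl⟩

theorem exists_dnI {i : Idx W} (h : ixN i ∈ C.N) : ∃ y : Idx (GT C W), dnI y = i :=
  ⟨(⟨i.1, C.pairN_left h⟩, i.2.1, ⟨i.2.2.1, C.pairN_left (C.pairN_right (C.pairN_right h))⟩,
    i.2.2.2), rfl⟩

theorem val_vxN' {x : Vx W} (h : vxN x ∈ C.N) :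
    C.val (vxN x) = pair (C.val (ordN x.1)) (nat x.2) := by
  rw [vxN, C.val_pairN h, C.val_natN]

theorem val_ixN' {i : Idx W} (h : ixN i ∈ C.N) :
    C.val (ixN i) = pair (C.val (ordN i.1)) (pair (C.val (natN i.2.1)) (C.val (vxN i.2.2))) := by
  rw [ixN, C.val_pairN h, C.val_pairN (C.pairN_right h)]

theorem inj_vxN : Inj (vxN : Vx W → Name R) := fun C x y a b e => by
  rw [val_vxN' a, val_vxN' b, pair_inj] at e
  exact Prod.ext (inj_ordN C _ _ (C.pairN_left a) (C.pairN_left b) e.1) (nat_inj e.2)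

theorem inj_ixN : Inj (ixN : Idx W → Name R) := fun C x y a b e => by
  rw [val_ixN' a, val_ixN' b, pair_inj, pair_inj, C.val_natN, C.val_natN] at e
  exact Prod.ext (inj_ordN C _ _ (C.pairN_left a) (C.pairN_left b) e.1) (Prod.ext (nat_inj e.2.1)
    (inj_vxN C _ _ (C.pairN_right (C.pairN_right a)) (C.pairN_right (C.pairN_right b)) e.2.2))

theorem mem_subN {k : Set (Idx W × R)} {z : ZFSet} : z ∈ C.val (subN k) ↔
    ∃ i u, (i, u) ∈ k ∧ ixN i ∈ C.N ∧ u ∈ C.G ∧ z = C.val (ixN i) := C.mem_val.trans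
  ⟨fun ⟨e, h⟩ => ⟨e.1.1, e.1.2, e.2, h⟩, fun ⟨i, u, h, h'⟩ => ⟨⟨(i, u), h⟩, h'⟩⟩

theorem fr_subN {k : Set (Idx W × R)} {i : Idx W} (h1 : ixN i ∈ C.N) (h2 : subN k ∈ C.N) :
    C.val (ixN i) ∈ C.val (subN k) ↔ ∃ r ∈ C.G, Fr k i r := by
  constructor
  · intro h
    obtain ⟨j, u, a1, a2, a3, a4⟩ := mem_subN.1 h
    exact ⟨u, a3, inj_ixN C _ _ h1 a2 a4 ▸ Fr.of_mem a1 le_rfl⟩
  · rintro ⟨r, r1, r2⟩
    refine (dfn (fun _ v => v 0 ∈ v 1) [ixN i, subN k]).dense (fun q hq => ?_) C r1 ⟨h1, h2, trivial⟩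
    obtain ⟨t, t1, u, t2, t3⟩ := r2 q hq
    obtain ⟨C', c1, c2⟩ := fresh t [ixN i, subN k]
    exact ⟨C', C'.up t c1 q t1, c2, mem_subN.2 ⟨i, u, t2, c2.1, C'.up t c1 u t3, rfl⟩⟩

theorem subN_sub {k : Set (Idx W × R)} : C.val (subN k) ⊆ C.val (setN (ixN : Idx W → Name R)) :=
  fun _ hz => let ⟨i, _, _, a, _, e⟩ := mem_subN.1 hz; (mem_setN C).2 ⟨i, a, e⟩

section typed

variable [In C W]

theorem val_vxN (x : Vx (GT C W)) : C.val (vxN (dnV x)) = cd C.M x := val_vxN' (vxN_mem x)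

theorem val_ixN (i : Idx (GT C W)) : C.val (ixN (dnI i)) = cd C.M i := by
  rw [val_ixN' (ixN_mem i), C.val_natN]
  exact congrArg (pair _) (congrArg (pair _) (val_vxN i.2.2))

theorem top_vx : Top C.M (Vx (GT C W)) (C.val (setN (vxN : Vx W → Name R))) := fun _ =>
  (mem_setN C).trans ⟨fun ⟨_, h, e⟩ => let ⟨y, e'⟩ := exists_dnV h; ⟨y, by rw [e, ← e', val_vxN]⟩,
    fun ⟨y, e⟩ => ⟨_, vxN_mem y, by rw [val_vxN, e]⟩⟩

theorem top_ix : Top C.M (Idx (GT C W)) (C.val (setN (ixN : Idx W → Name R))) := fun _ =>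
  (mem_setN C).trans ⟨fun ⟨_, h, e⟩ => let ⟨y, e'⟩ := exists_dnI h; ⟨y, by rw [e, ← e', val_ixN]⟩,
    fun ⟨y, e⟩ => ⟨_, ixN_mem y, by rw [val_ixN, e]⟩⟩

theorem exists_sub {k : Set (Idx W × R)} (h : subN k ∈ C.N) : ∃ s : PM C.M (Idx (GT C W)),
    cd C.M s = C.val (subN k) ∧ ∀ i, i ∈ s ↔ ∃ r ∈ C.G, Fr k (dnI i) r := by
  obtain ⟨s, e⟩ := exists_pm (α := Idx (GT C W)) (C.val_mem_M h)
    fun y hy => (top_ix y).1 (subN_sub hy)
  exact ⟨s, e, fun i => by rw [← cd_mem_pm, e, ← val_ixN, fr_subN (ixN_mem i) h]⟩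

end typed

/-- The names used in the statements. -/
noncomputable def baseL (W : Type) [LinearOrder W] [WellFoundedLT W] (β : Name R) : List (Name R) :=
  [setN (ordN : W → Name R), setN natN, setN (vxN : Vx W → Name R), setN (ixN : Idx W → Name R), β]

/-- `r` forces that `x` is not bad. -/
def GN (β : Name R) (ξ : W) (k : Set (Idx W × R)) (x : Vx W) (r : R) : Prop :=
  Fc [β, ordN ξ, subN k, vxN x]
    (fun C => ¬ T3 (C.val β) (C.val (ordN ξ)) (C.val (subN k)) (C.val (vxN x))) r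

theorem gn_dense {β : Name R} {ξ : W} {k : Set (Idx W × R)} {x : Vx W} {r : R}
    (h : ∀ q ≤ r, ∃ C : Cx R, q ∈ C.G ∧ Has C [β, ordN ξ, subN k, vxN x] ∧
      ¬ T3 (C.val β) (C.val (ordN ξ)) (C.val (subN k)) (C.val (vxN x))) : GN β ξ k x r :=
  (dfn (fun _ v => ¬ T3 (v 0) (v 1) (v 2) (v 3)) _).dense h

theorem goodRel {β : Name R} {p : R} (hp : Fc (baseL W β) (fun C =>
    LocZ C.M (C.val (setN (ordN : W → Name R))) (C.val (setN natN))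
      (C.val (setN (vxN : Vx W → Name R))) (C.val (setN (ixN : Idx W → Name R))) (C.val β) ∧
    R1Z C.M (C.val (setN (ordN : W → Name R))) (C.val (setN natN))
      (C.val (setN (vxN : Vx W → Name R))) (C.val (setN (ixN : Idx W → Name R))) (C.val β)) p) :
    GoodRel (W := W) (GN β) p := by
  refine ⟨fun _ _ _ _ _ h => h.mono, fun ξ k x r h => gn_dense fun q hq => ?_,
    fun ξ k k' x r hr he h => gn_dense fun q hq => ?_, fun ξ l k B r hr hl hB h1 h2 => ?_⟩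
  · obtain ⟨t, t1, t2⟩ := h q hq
    obtain ⟨C, c1, c2⟩ := fresh t [β, ordN ξ, subN k, vxN x]
    exact ⟨C, C.up t c1 q t1, c2, t2 C c1 c2⟩
  · obtain ⟨C, c1, c2, c3, c4, c5, c6⟩ :=
      fresh q (ordN ξ :: subN k :: subN k' :: vxN x :: baseL W β)
    have : In C W := ⟨c6.1⟩
    have cβ := c6.2.2.2.2.1
    refine ⟨C, c1, ⟨cβ, c2, c4, c5, trivial⟩, fun e => h C (C.up q c1 r hq)
      ⟨cβ, c2, c3, c5, trivial⟩ ?_⟩
    obtain ⟨s, s1, s2⟩ := exists_sub c3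
    obtain ⟨s', s3, s4⟩ := exists_sub c4
    obtain ⟨y, rfl⟩ := exists_dnV c5
    rw [← s1, val_vxN]
    rw [← s3, val_vxN] at e
    refine (locZ_iff ordC_GT (top_omega C) top_vx top_ix).1 (hp C (C.up q c1 p (hq.trans hr)) c6).1
      ⟨ξ, c2⟩ s' s y (fun i hi => ?_) e
    rw [s2, s4]
    constructor <;> rintro ⟨u, u1, u2⟩ <;> obtain ⟨t, t0, t1, t2⟩ := C.dir q c1 u u1
    · exact ⟨t, t0, (he (dnI i) hi t (t1.trans hq)).2 (u2.mono t2)⟩
    · exact ⟨t, t0, (he (dnI i) hi t (t1.trans hq)).1 (u2.mono t2)⟩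
  · obtain ⟨C, c1, c2, c3, c4, c6⟩ := fresh r (ordN ξ :: ordN l :: subN k :: baseL W β)
    have : In C W := ⟨c6.1⟩
    obtain ⟨s, s1, s2⟩ := exists_sub c4
    have key : ∀ n y, ((⟨l, c3⟩ : GT C W), n, y) ∈ s ↔ (l, n, dnV y) ∈ B := fun n y => by
      rw [s2]
      refine ⟨fun ⟨u, u1, u2⟩ => by_contra fun e => ?_, fun e => ⟨r, c1, h1 _ _ e⟩⟩
      obtain ⟨t, -, t1, t2⟩ := C.dir r c1 u u1
      exact h2 _ _ e t t1 (u2.mono t2)
    obtain ⟨m, hm⟩ := (r1Z_iff ordC_GT (top_omega C) top_vx top_ix).1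
      (hp C (C.up r c1 p hr) c6).2 ⟨ξ, c2⟩ s ⟨l, c3⟩ hl ⟨fun n y y' e e' => by
          have := hB.1 n _ _ ((key n y).1 e) ((key n y').1 e')
          exact Prod.ext (GT.ext (congrArg Prod.fst this)) (congrArg Prod.snd this :),
        fun n y e => hB.2.1 n _ ((key n y).1 e),
        fun b hb => (hB.2.2 b.v hb).imp fun m hm n y e e' => hm n _ e ((key n y).1 e')⟩
    have := (tailZ_iff (top_omega C) top_vx).2 hm
    rw [s1] at this
    obtain ⟨u, -, u1, u2⟩ := (dfn (fun _ v => TailZ (v 0) (v 1) (v 2) (v 3) (v 4) (v 5) (v 6))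
      [setN natN, setN (vxN : Vx W → Name R), β, ordN ξ, subN k, ordN l, natN m]).truth C
      ⟨c6.2.1, c6.2.2.1, c6.2.2.2.2.1, c2, c4, c3, C.natN_mem m, trivial⟩
      (by
        show TailZ _ _ _ _ _ _ (C.val (natN m))
        rw [C.val_natN]
        exact this) c1
    refine ⟨u, u1, m, fun n x e e' => gn_dense fun q hq => ?_⟩
    obtain ⟨C', d1, d2, d3⟩ := fresh q
      [vxN x, setN natN, setN (vxN : Vx W → Name R), β, ordN ξ, subN k, ordN l, natN m]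
    have d4 : ixN (l, n, x) ∈ C'.N :=
      C'.pair_memN d3.2.2.2.2.2.1 (C'.pair_memN (C'.natN_mem n) d2)
    refine ⟨C', d1, ⟨d3.2.2.1, d3.2.2.2.1, d3.2.2.2.2.1, d2, trivial⟩,
      u2 C' (C'.up q d1 u hq) d3 _ (C'.mem_val_setN' (C'.natN_mem n)) ?_ _
        ((mem_setN C').2 ⟨x, d2, rfl⟩) ?_⟩
    · show C'.val (natN n) ∉ C'.val (natN m)
      rw [C'.val_natN, C'.val_natN]
      exact fun h => not_lt.2 e (cd_nat_lt (M := C'.M).1 h)
    · have := (fr_subN d4 d3.2.2.2.2.1).2 ⟨r, C'.up q d1 r (hq.trans u1), h1 n x e'⟩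
      rwa [val_ixN' d4] at this

variable {K Q : Type} [LinearOrder K] {Le : R → Q → Q → Prop} {Z : R → Q → K → Prop}

theorem cp_GT (S : VS R W K Q Le Z) [In C W] (h1 : setN (vxN : Vx W → Name R) ∈ C.N)
    (h2 : setN (ixN : Idx W → Name R) ∈ C.N) : CP C.M (GT C W) := by
  intro bad hb loc r1
  obtain ⟨b, b1, b2⟩ := exists_code hb
  obtain ⟨β, b3, rfl⟩ := C.mem_M.1 b1
  have e : ∀ a k x, T3 (C.val β) (cd C.M a) (cd C.M k) (cd C.M x) ↔ bad a k x :=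
    fun a k x => b2 (a, k, x)
  have hl : Has C (baseL W β) := ⟨In.out, C.omega_mem, h1, h2, b3, trivial⟩
  obtain ⟨p, p1, -, p2⟩ := (dfn (fun M v => LocZ M (v 0) (v 1) (v 2) (v 3) (v 4) ∧
    R1Z M (v 0) (v 1) (v 2) (v 3) (v 4)) (baseL W β)).truth C hl
    ⟨(locZ_iff (b := C.val β) ordC_GT (top_omega C) top_vx top_ix).2 (by simpa only [e] using loc),
      (r1Z_iff (b := C.val β) ordC_GT (top_omega C) top_vx top_ix).2
        (by simpa only [e] using r1)⟩ C.top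
  simp only [← e]
  refine of_conZ ordC_GT (top_omega C) top_vx top_ix ((dfn (fun M v =>
    ConZ M (v 0) (v 1) (v 2) (v 3) (v 4)) (baseL W β)).dense (fun q hq => ?_) C p1 hl)
  obtain ⟨r, a1, k, V, a2, a3, a4⟩ := S.cp _ q (goodRel (p2.mono hq))
  obtain ⟨C', c1, c2, c3, c4⟩ := fresh r (subN k :: grN vxN natN V :: baseL W β)
  refine ⟨C', C'.up r c1 q a1, c4, _, C'.val_mem_M c2, subN_sub, _, C'.val_mem_M c3,
    fun x hx => ?_, fun x hx x' hx' a ha j _ a' ha' j' _ e1 e2 e3 n hn e4 e5 => ?_⟩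
  · obtain ⟨x, x1, rfl⟩ := (mem_setN C').1 hx
    refine (dfn (fun _ v => ∃ n ∈ v 0, pair (v 1) n ∈ v 2) [setN natN, vxN x, grN vxN natN V]).dense
      (fun s hs => ?_) C' c1 ⟨C'.omega_mem, x1, c3, trivial⟩
    obtain ⟨t, t1, n, t2⟩ := a3 x s hs
    obtain ⟨C'', d1, d2⟩ := fresh t [setN natN, vxN x, grN vxN natN V]
    exact ⟨C'', C''.up t d1 s t1, d2, _, C''.mem_val_setN' (C''.natN_mem n),
      (mem_grN C'').2 ⟨t, d1, x, n, t2, d2.2.1, C''.natN_mem n, rfl⟩⟩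
  · obtain ⟨x, x1, rfl⟩ := (mem_setN C').1 hx
    obtain ⟨x', x2, rfl⟩ := (mem_setN C').1 hx'
    obtain ⟨n, n1, rfl⟩ := (mem_setN C').1 hn
    rw [val_vxN' x1, pair_inj] at e1
    rw [val_vxN' x2, pair_inj] at e2
    rw [← e1.1, ← e2.1, ord_mem_ord C' (C'.pairN_left x1)] at e3
    obtain ⟨u, u1, u2⟩ := (pair_grN C' inj_vxN inj_natN x1 n1).1 e4
    obtain ⟨u', u3, u4⟩ := (pair_grN C' inj_vxN inj_natN x2 n1).1 e5
    obtain ⟨t, t0, t1, t2, t3⟩ := C'.dir3 c1 u1 u3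
    rw [← e2.1]
    exact a4 t t1 x x' n (a2.mono _ _ _ _ u2 t2) (a2.mono _ _ _ _ u4 t3) e3 C' t0
      ⟨c4.2.2.2.2.1, C'.pairN_left x2, c2, x1, trivial⟩

theorem transfer [WellFoundedLT K] (S : VS R W K Q Le Z) : ∃ M, AxModel M := by
  obtain ⟨_, _⟩ := exists_wellFoundedLT Q
  obtain ⟨q0⟩ := S.ne
  obtain ⟨-, -, w0, -⟩ := S.h1 (fun _ _ _ => False) ⟨fun _ _ _ _ h _ => h, fun _ _ _ _ h => h.elim⟩ ⊤
  obtain ⟨-, -, k0, -⟩ := S.h2 (fun _ _ _ => False) ⟨fun _ _ _ _ h _ => h, fun _ _ _ _ h => h.elim⟩ ⊤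
  obtain ⟨y, y1, y2⟩ := S.re
  obtain ⟨C, -, c1, c2, c3, c4, c5, c6, c7, c8, c9, c10, c11, -⟩ := fresh (⊤ : R)
    [setN (ordN : W → Name R), setN (ordN : K → Name R), setN (ordN : Q → Name R),
      grN ordN ordN Le, grN ordN ordN Z, grN ordN natN y, setN (vxN : Vx W → Name R),
      setN (ixN : Idx W → Name R), ordN w0, ordN k0, ordN q0]
  have : In C W := ⟨c1⟩
  have : In C K := ⟨c2⟩
  have : In C Q := ⟨c3⟩
  exact ⟨C.M, inferInstance, inferInstance, (C.cnt.image C.val).mono fun _ h => C.mem_M.1 h,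
    GT C W, GT C K, QT C Q, inferInstance, inferInstance, inferInstance, inferInstance,
    inferInstance, inferInstance, inferInstance, qpre S C, inferInstance, inferInstance,
    @OM.mk _ _ _ _ (qpre S C) (mf_GT c4), _, _, _, ordC_GT, ordC_GT,
    om_GT S.cnt S.h1 S.h2 S.col ⟨⟨w0, c9⟩⟩ ⟨⟨k0, c10⟩⟩,
    ax_GT S C c4 c5 ⟨⟨q0, c11⟩⟩ (reZ C y1 y2 c6) (cp_GT S c7 c8)⟩

end Pool.Agent.Lib.MP_6993b6_lc.Q1
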